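import Pool.Agent.Lib.MP_16285c_agB.SpecF

/-!
# Points of a fibre where the Jacobian determinant is not zero are algebraic (proof of `StmtAlgP`)
-/

set_option autoImplicit false

namespace Pool.Agent.Lib.MP_16285c_agX

open Pool.Agent.Lib.MP_16285c_ag Pool.Agent.Lib.MP_16285c_agN

namespace QAlgPM

/-- The chain rule. -/
theorem chain {F L M : Type} [CommRing F] [CommRing L] [Algebra F L] [AddCommGroup M] [Module F M]
    [Module L M] [IsScalarTower F L M] (D : Derivation F L M) {n : ℕ} (y : Fin n → L)
    (G : MvPolynomial (Fin n) F) :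
    D (MvPolynomial.aeval y G) = ∑ l, MvPolynomial.aeval y (MvPolynomial.pderiv l G) • D (y l) := by
  induction G using MvPolynomial.induction_on with
  | C a =>
    rw [MvPolynomial.aeval_C, D.map_algebraMap]
    symm
    refine Finset.sum_eq_zero fun l _ => ?_
    rw [MvPolynomial.pderiv_C, map_zero, zero_smul]
  | add p q hp hq =>
    rw [map_add, map_add, hp, hq, ← Finset.sum_add_distrib]
    refine Finset.sum_congr rfl fun l _ => ?_
    rw [map_add, map_add, add_smul]
  | mul_X p i hp =>
    have h1 : ∀ l : Fin n, MvPolynomial.aeval y (MvPolynomial.pderiv l (p * MvPolynomial.X i)) • D (y l) =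
        y i • (MvPolynomial.aeval y (MvPolynomial.pderiv l p) • D (y l)) +
          (if l = i then MvPolynomial.aeval y p • D (y l) else 0) := by
      intro l
      rw [MvPolynomial.pderiv_mul, map_add, map_mul, map_mul, MvPolynomial.aeval_X, add_smul,
        mul_comm _ (y i), mul_smul]
      congr 1
      by_cases h : l = i
      · subst h
        rw [MvPolynomial.pderiv_X_self, map_one, mul_one, if_pos rfl]
      · rw [MvPolynomial.pderiv_X_of_ne (fun h' => h h'.symm), map_zero, mul_zero, zero_smul, if_neg h]
    rw [map_mul, MvPolynomial.aeval_X, D.leibniz, Finset.sum_congr rfl fun l _ => h1 l,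
      Finset.sum_add_distrib, ← Finset.smul_sum, ← hp, Finset.sum_ite_eq' Finset.univ i,
      if_pos (Finset.mem_univ i), add_comm]

/-- A linear system with vector unknowns. -/
theorem adj_kill {L M : Type} [CommRing L] [AddCommGroup M] [Module L M] {n : ℕ}
    (A : Matrix (Fin n) (Fin n) L) (w : Fin n → M) (h : ∀ i, ∑ l, A i l • w l = 0) (j : Fin n) :
    A.det • w j = 0 := by
  have h1 : ∑ i, A.adjugate j i • ∑ l, A i l • w l = 0 :=
    Finset.sum_eq_zero fun i _ => by rw [h i, smul_zero]
  have h2 : ∑ i, A.adjugate j i • ∑ l, A i l • w l = ∑ l, (A.adjugate * A) j l • w l := by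
    have h3 : ∀ i, A.adjugate j i • ∑ l, A i l • w l = ∑ l, (A.adjugate j i * A i l) • w l := by
      intro i
      rw [Finset.smul_sum]
      exact Finset.sum_congr rfl fun l _ => smul_smul _ _ _
    rw [Finset.sum_congr rfl fun i _ => h3 i, Finset.sum_comm]
    refine Finset.sum_congr rfl fun l _ => ?_
    rw [Matrix.mul_apply, Finset.sum_smul]
  rw [h2, Matrix.adjugate_mul] at h1
  rw [← h1, Finset.sum_eq_single_of_mem j (Finset.mem_univ j)]
  · rw [Matrix.smul_apply, Matrix.one_apply_eq, smul_eq_mul, mul_one]
  · intro l _ hl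
    rw [Matrix.smul_apply, Matrix.one_apply_ne hl.symm, smul_zero, zero_smul]

end QAlgPM

open QAlgPM in
/-- (AlgP) The points of a fibre where the Jacobian determinant is not zero are algebraic. -/
theorem qAlgP : StmtAlgP := by
  intro F k _ _ _ n f y x hn hj
  have hev : ∀ G : MvPolynomial (Fin n) F,
      MvPolynomial.eval y (MvPolynomial.map (algebraMap F k) G) = MvPolynomial.aeval y G := fun G => by
    rw [MvPolynomial.eval_map, MvPolynomial.aeval_def]
  obtain ⟨L, hL⟩ : ∃ L : IntermediateField F k, L = IntermediateField.adjoin F (Set.range y) := ⟨_, rfl⟩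
  have hyL : ∀ i, y i ∈ L := fun i => by
    rw [hL]
    exact IntermediateField.subset_adjoin _ _ ⟨i, rfl⟩
  have hFG : Algebra.EssFiniteType F L := by
    rw [IntermediateField.essFiniteType_iff, hL]
    exact IntermediateField.fg_adjoin_of_finite (Set.finite_range y)
  obtain ⟨y', hy'⟩ : ∃ y' : Fin n → L, y' = fun i => ⟨y i, hyL i⟩ := ⟨_, rfl⟩
  have hval : ∀ G : MvPolynomial (Fin n) F,
      ((MvPolynomial.aeval y' G : L) : k) = MvPolynomial.aeval y G := by
    intro G
    have h1 : (L.val.comp (MvPolynomial.aeval y')) = MvPolynomial.aeval y := by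
      refine MvPolynomial.algHom_ext fun i => ?_
      rw [AlgHom.comp_apply, MvPolynomial.aeval_X, MvPolynomial.aeval_X, hy']
      rfl
    rw [← h1]
    rfl
  -- the derivation
  have hD : ∀ i, (KaehlerDifferential.D F L) (y' i) = 0 := by
    intro j
    have h1 := adj_kill (Matrix.of fun i l => MvPolynomial.aeval y' (Pool.Agent.ZDO.Wd f i l))
      (fun l => (KaehlerDifferential.D F L) (y' l)) ?_ j
    · have h2 : (Matrix.of fun i l => MvPolynomial.aeval y' (Pool.Agent.ZDO.Wd f i l)).det =
          MvPolynomial.aeval y' (jac f) := by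
        unfold jac Pool.Agent.ZDO.Jc
        rw [AlgHom.map_det]
        rfl
      have h3 : (Matrix.of fun i l => MvPolynomial.aeval y' (Pool.Agent.ZDO.Wd f i l)).det ≠ 0 := by
        rw [h2]
        intro h0
        apply hj
        rw [← hval, h0]
        rfl
      exact (smul_eq_zero.1 h1).resolve_left h3
    · intro i
      obtain ⟨h2, h3⟩ := hn i
      change MvPolynomial.eval y (MvPolynomial.map (algebraMap F k) (f.den i)) ≠ 0 at h2
      change algebraMap F k (x i) * MvPolynomial.eval y (MvPolynomial.map (algebraMap F k) (f.den i)) =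
        MvPolynomial.eval y (MvPolynomial.map (algebraMap F k) (f.num i)) at h3
      rw [hev, hev, ← hval, ← hval] at h3
      have h4 : algebraMap F L (x i) * MvPolynomial.aeval y' (f.den i) =
          MvPolynomial.aeval y' (f.num i) := by
        apply Subtype.ext
        rw [← h3]
        rfl
      have h5 : algebraMap F L (x i) • (KaehlerDifferential.D F L) (MvPolynomial.aeval y' (f.den i)) =
          (KaehlerDifferential.D F L) (MvPolynomial.aeval y' (f.num i)) := by
        rw [← h4, Derivation.leibniz, Derivation.map_algebraMap, smul_zero, add_zero]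
      have h6 : MvPolynomial.aeval y' (f.den i) •
          (KaehlerDifferential.D F L) (MvPolynomial.aeval y' (f.num i)) -
          MvPolynomial.aeval y' (f.num i) •
            (KaehlerDifferential.D F L) (MvPolynomial.aeval y' (f.den i)) = 0 := by
        rw [← h5, ← h4, smul_smul, mul_comm, sub_self]
      rw [chain, chain, Finset.smul_sum, Finset.smul_sum, ← Finset.sum_sub_distrib] at h6
      rw [← h6]
      refine Finset.sum_congr rfl fun l _ => ?_
      rw [smul_smul, smul_smul, ← sub_smul, Matrix.of_apply]
      unfold Pool.Agent.ZDO.Wd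
      rw [map_sub, map_mul, map_mul, mul_comm (MvPolynomial.aeval y' (MvPolynomial.pderiv l (f.num i)))]
  -- the derivation vanishes
  have hD2 : ∀ z : k, ∀ hz : z ∈ IntermediateField.adjoin F (Set.range y), ∀ hz' : z ∈ L,
      (KaehlerDifferential.D F L) ⟨z, hz'⟩ = 0 := by
    intro z hz
    induction hz using IntermediateField.adjoin_induction with
    | mem x hx =>
      intro hz'
      obtain ⟨i, rfl⟩ := hx
      have := hD i
      rw [hy'] at this
      exact this
    | algebraMap a =>
      intro hz'
      exact Derivation.map_algebraMap _ a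
    | add a b ha hb h1 h2 =>
      intro hz'
      rw [← hL] at ha hb
      have h3 : (⟨a + b, hz'⟩ : L) = ⟨a, ha⟩ + ⟨b, hb⟩ := rfl
      rw [h3, map_add, h1 ha, h2 hb, add_zero]
    | inv a ha h1 =>
      intro hz'
      rw [← hL] at ha
      have h3 : (⟨a⁻¹, hz'⟩ : L) = (⟨a, ha⟩ : L)⁻¹ := rfl
      rw [h3, Derivation.leibniz_inv, h1 ha, smul_zero]
    | mul a b ha hb h1 h2 =>
      intro hz'
      rw [← hL] at ha hb
      have h3 : (⟨a * b, hz'⟩ : L) = ⟨a, ha⟩ * ⟨b, hb⟩ := rfl
      rw [h3, Derivation.leibniz, h1 ha, h2 hb, smul_zero, smul_zero, add_zero]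
  have hun : Algebra.FormallyUnramified F L := by
    refine ⟨?_⟩
    rw [← Submodule.subsingleton_iff L, ← subsingleton_iff_bot_eq_top,
      ← KaehlerDifferential.span_range_derivation]
    symm
    rw [eq_bot_iff, Submodule.span_le]
    rintro _ ⟨⟨z, hz⟩, rfl⟩
    rw [hD2 z (hL ▸ hz) hz]
    exact Submodule.zero_mem _
  have hsep : Algebra.IsSeparable F L := (Algebra.FormallyUnramified.iff_isSeparable F L).1 hun
  intro i
  have h1 : IsAlgebraic F (y' i) := (Algebra.IsSeparable.isIntegral F (y' i)).isAlgebraic
  have h2 := h1.algebraMap (A := k)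
  rw [hy'] at h2
  exact h2

end Pool.Agent.Lib.MP_16285c_agX
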