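import Pool.Agent.Lib.MP_16285c_agB.SpecG

/-!
# ZDB, section G: change of coordinates (CgY)
-/

set_option autoImplicit false

namespace Pool.Agent.Lib.MP_16285c_agX

open Pool.Agent.Lib.MP_16285c_ag Pool.Agent.Lib.MP_16285c_agN

namespace QCgYM

/-- every element is a quotient of polynomials in the generators -/
theorem quot {K L : Type} [Field K] [Field L] [Algebra K L] {s : ℕ} {η : Fin s → L}
    (hη : IntermediateField.adjoin K (Set.range η) = ⊤) (z : L) :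
    ∃ A D : Pl s K, MvPolynomial.aeval η D ≠ 0 ∧
      z * MvPolynomial.aeval η D = MvPolynomial.aeval η A := by
  have hz : z ∈ IntermediateField.adjoin K (Set.range η) := by
    rw [hη]
    exact IntermediateField.mem_top
  obtain ⟨A, D, h⟩ := (IntermediateField.mem_adjoin_range_iff K η z).1 hz
  by_cases hD : MvPolynomial.aeval η D = 0
  · refine ⟨0, 1, ?_, ?_⟩
    · rw [map_one]
      exact one_ne_zero
    · rw [h, hD, div_zero, zero_mul, map_zero]
  · refine ⟨A, D, hD, ?_⟩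
    rw [h, div_mul_cancel₀ _ hD]

theorem main (hV : StmtVlA) {K L : Type} [Field K] [Field L] [Algebra K L] {s t q : ℕ}
    {η : Fin s → L} {ζ : Fin t → L} {w : Fin q → L} {B : Pl t K}
    {N D : Fin t → Pl s K} (hN : ∀ i, ζ i * MvPolynomial.aeval η (D i) = MvPolynomial.aeval η (N i))
    {N' D' : Fin q → Pl t K}
    (hN' : ∀ j, w j * MvPolynomial.aeval ζ (D' j) = MvPolynomial.aeval ζ (N' j))
    {N0 D0 : Pl s K}
    (hN0 : MvPolynomial.aeval ζ (B * ∏ j, D' j) * MvPolynomial.aeval η D0 = MvPolynomial.aeval η N0)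
    (Ω : Type) [Field Ω] [Algebra K Ω] (pt : Fin s → Ω) (hpt : OnX K η pt)
    (hDpt : ∀ i, MvPolynomial.aeval pt (D i) ≠ 0) (hD0 : MvPolynomial.aeval pt D0 ≠ 0)
    (hN0pt : MvPolynomial.aeval pt N0 ≠ 0) :
    ∃ pt' : Fin t → Ω, OnX K ζ pt' ∧
        (∀ i, VlX K η pt (ζ i) (pt' i)) ∧ MvPolynomial.aeval pt' B ≠ 0 ∧
        ∀ (j : Fin q) (v : Ω), VlX K η pt (w j) v → VlX K ζ pt' (w j) v := by
  obtain ⟨v1, v2, _, v4, _, v6⟩ := hV K L Ω s η pt hpt
  obtain ⟨pt', hpt'⟩ : ∃ pt' : Fin t → Ω,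
      pt' = fun i => MvPolynomial.aeval pt (N i) / MvPolynomial.aeval pt (D i) := ⟨_, rfl⟩
  have hval : ∀ i, VlX K η pt (ζ i) (pt' i) := by
    intro i
    refine ⟨N i, D i, hDpt i, hN i, ?_⟩
    rw [hpt']
    exact (div_mul_cancel₀ _ (hDpt i)).symm
  have h6 : ∀ G : Pl t K, VlX K η pt (MvPolynomial.aeval ζ G) (MvPolynomial.aeval pt' G) :=
    v6 t ζ pt' hval
  have hOn : OnX K ζ pt' := by
    intro G hG
    have a := h6 G
    rw [hG] at a
    have b := v2 0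
    rw [map_zero, map_zero] at b
    exact v1 0 _ _ a b
  have hBv : MvPolynomial.aeval pt' (B * ∏ j, D' j) =
      MvPolynomial.aeval pt N0 / MvPolynomial.aeval pt D0 :=
    v1 _ _ _ (h6 _) ⟨N0, D0, hD0, hN0, (div_mul_cancel₀ _ hD0).symm⟩
  have hBne : MvPolynomial.aeval pt' (B * ∏ j, D' j) ≠ 0 := by
    rw [hBv]
    exact div_ne_zero hN0pt hD0
  rw [map_mul, map_prod] at hBne
  have hB1 := left_ne_zero_of_mul hBne
  have hB2 := right_ne_zero_of_mul hBne
  rw [Finset.prod_ne_zero_iff] at hB2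
  refine ⟨pt', hOn, hval, hB1, ?_⟩
  intro j v hv
  refine ⟨N' j, D' j, hB2 j (Finset.mem_univ j), hN' j, ?_⟩
  have a := v4 _ _ _ _ hv (h6 (D' j))
  rw [hN' j] at a
  exact v1 _ _ _ (h6 (N' j)) a

end QCgYM

theorem qCgY : StmtVlA → StmtCgY := by
  intro hV K L _ _ _ s t q η ζ hη hζ w B hB
  choose N D hD hN using fun i => QCgYM.quot hη (ζ i)
  choose N' D' hD' hN' using fun j => QCgYM.quot hζ (w j)
  have hB' : MvPolynomial.aeval ζ (B * ∏ j, D' j) ≠ 0 := by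
    rw [map_mul, map_prod]
    exact mul_ne_zero hB (Finset.prod_ne_zero_iff.2 fun j _ => hD' j)
  obtain ⟨N0, D0, hD0, hN0⟩ := QCgYM.quot hη (MvPolynomial.aeval ζ (B * ∏ j, D' j))
  have hN0' : MvPolynomial.aeval η N0 ≠ 0 := by
    rw [← hN0]
    exact mul_ne_zero hB' hD0
  refine ⟨(∏ i, D i) * D0 * N0, ?_, ?_⟩
  · rw [map_mul, map_mul, map_prod]
    exact mul_ne_zero (mul_ne_zero (Finset.prod_ne_zero_iff.2 fun i _ => hD i) hD0) hN0'
  · intro Ω _ _ pt hpt hQ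
    rw [map_mul, map_mul, map_prod] at hQ
    have h1 := left_ne_zero_of_mul (left_ne_zero_of_mul hQ)
    rw [Finset.prod_ne_zero_iff] at h1
    exact QCgYM.main hV hN hN' hN0 Ω pt hpt (fun i => h1 i (Finset.mem_univ i))
      (right_ne_zero_of_mul (left_ne_zero_of_mul hQ)) (right_ne_zero_of_mul hQ)

end Pool.Agent.Lib.MP_16285c_agX
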