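import Pool.Agent.Lib.MP_16285c_agB.SpecG
import Pool.Agent.Lib.MP_16285c_agP.DgZ
import Pool.Agent.Lib.MP_16285c_agP.JtZ
import Pool.Agent.Lib.MP_16285c_agP.VrZ

/-! # ZDB, section G: the degrees on `Z`, the map at the other place (`StmtDgY`; helper77) -/

set_option autoImplicit false

namespace Pool.Agent.Lib.MP_16285c_agX

open Pool.Agent.Lib.MP_16285c_ag Pool.Agent.Lib.MP_16285c_agN
open Pool.Agent.Lib.MP_16285c_agS (toF)

open PDgZM in
theorem qDgY : StmtRsE → StmtLocO → StmtTB → StmtRlZ → StmtSyZ → StmtRgZ → StmtEmZ → StmtThetaX → StmtIdZ →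
    StmtCtZ → StmtUzZ → StmtBkZ → StmtFtZ → StmtNum → StmtCuG → StmtDgY := by
  intro hRs hLoc hTB hRl hSy hRg hEm hTheta hId hCt hUz hBk hFt hNum hCu
  classical
  intro K _ _ n a c P 𝔭 _ _ hMon hP hPz hrk hac E _ _ _ _ _ L _ _ _ _ _ δ hδ
  have : Infinite K := Infinite.of_injective ((↑) : ℕ → K) Nat.cast_injective
  have : CharZero L := charZero_of_injective_algebraMap (algebraMap K L).injective
  have hle : Ideal.span {P} ≤ 𝔭 := (Ideal.span_singleton_le_iff_mem _).2 hP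
  obtain ⟨huq, hpol, hcst, -, -, -⟩ := hRs K (n + 1) (Ideal.span {P}) 𝔭 hle E L
  -- the transcendence basis and the relations
  obtain ⟨xb, hxb⟩ : ∃ xb : Fin n → L, xb = fun j => toF 𝔭 L (MvPolynomial.X j.succ) := ⟨_, rfl⟩
  obtain ⟨x, hx⟩ : ∃ x : Fin n → E, x = fun j => toF (Ideal.span {P}) E (MvPolynomial.X j.succ) := ⟨_, rfl⟩
  obtain ⟨α, hα⟩ := hTB.1 K L n xb (by rw [hxb]; exact hTB.2.2.1 K n P 𝔭 hMon hP L)
  have hc : α.card = a + 1 := by
    have h := hTB.2.1 K (n + 1) 𝔭 L α _ hα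
    rw [Fintype.card_coe] at h
    rw [h, hrk]
  obtain ⟨G, hG⟩ := hRl K L n xb α hα
  obtain ⟨O, res, -, hOmem, hOres, -, -, -⟩ := hLoc K n P 𝔭 hP hPz E L α
  obtain ⟨D, hD⟩ : ∃ D : ℕ, D = ∑ j, (G j).totalDegree := ⟨_, rfl⟩
  refine ⟨(D + 1) ^ c, fun ρ ρb hR e he A b => ?_⟩
  -- the family ub
  obtain ⟨ub, hub⟩ : ∃ ub : Fin (a + 1) → L,
      ub = Fin.cons (∑ i : Fin n, algebraMap K L (b i) * xb i) (lc A fun l => ρb (xb l)) := ⟨_, rfl⟩
  have hrange : Set.range ub = insert (∑ i : Fin n, algebraMap K L (b i) * xb i)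
      (Set.range (lc A fun l => ρb (xb l))) := by
    rw [hub, Fin.range_cons]
  have hgoal : (insert (∑ i : Fin n, algebraMap K L (b i) * toF 𝔭 L (MvPolynomial.X i.succ))
      (Set.range (lc A fun l : Fin n => ρb (toF 𝔭 L (MvPolynomial.X l.succ))))) = Set.range ub := by
    rw [hrange, hxb]
  rw [hgoal]
  by_cases h0 : Module.finrank (IntermediateField.adjoin K (Set.range ub)) L = 0
  · rw [h0]
    exact Nat.zero_le _
  have hfinL : Module.Finite (IntermediateField.adjoin K (Set.range ub)) L :=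
    Module.finite_of_finrank_pos (Nat.pos_of_ne_zero h0)
  have hubAI : AlgebraicIndependent K ub := indep hTB 𝔭 L (a + 1) hrk ub hfinL
  -- the elements of O
  obtain ⟨x', hx'⟩ : ∃ x' : Fin n → O, ∀ j, (x' j : E) = x j :=
    ⟨fun j => ⟨x j, (hOmem _).2 ⟨xb j, by rw [hx, hxb]; exact hpol _⟩⟩, fun _ => rfl⟩
  have hresx : ∀ j, res (x' j) = xb j := fun j =>
    huq _ _ _ (hOres (x' j)) (by rw [hx', hx, hxb]; exact hpol _)
  obtain ⟨y', hy'⟩ : ∃ y' : Fin n → O, ∀ j, (y' j : E) = ρ (x j) :=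
    ⟨fun j => ⟨ρ (x j), (hOmem _).2 ⟨ρb (xb j), hR _ _ (by rw [hx, hxb]; exact hpol _)⟩⟩, fun _ => rfl⟩
  have hresy : ∀ j, res (y' j) = ρb (xb j) := fun j =>
    huq _ _ _ (hOres (y' j)) (by rw [hy']; exact hR _ _ (by rw [hx, hxb]; exact hpol _))
  -- the family u
  obtain ⟨u, hu⟩ : ∃ u : Fin (a + 1) → E,
      u = Fin.cons (∑ i : Fin n, algebraMap K E (b i) * x i) (lc A fun l => ρ (x l)) := ⟨_, rfl⟩
  have hRu : ∀ i, RsE (Ideal.span {P}) 𝔭 E L (u i) (ub i) := by
    intro i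
    refine Fin.cases ?_ (fun k => ?_) i
    · have h1 := lco O res b x'
      have h2 := hOres (∑ j, algebraMap K O (b j) * x' j)
      rw [h1.1, h1.2] at h2
      simp only [hx', hresx] at h2
      rw [hu, hub, Fin.cons_zero, Fin.cons_zero]
      exact h2
    · have h1 := lco O res (A k) y'
      have h2 := hOres (∑ j, algebraMap K O (A k j) * y' j)
      rw [h1.1, h1.2] at h2
      simp only [hy', hresy] at h2
      rw [hu, hub, Fin.cons_succ, Fin.cons_succ]
      exact h2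
  obtain ⟨huAI, ι, hι, hιr⟩ := hEm K (n + 1) (Ideal.span {P}) 𝔭 hle E L (a + 1) u ub hRu hubAI
  have hfin : Module.Finite ι.fieldRange L := by
    rw [hιr]
    exact hfinL
  obtain ⟨θ, hθ⟩ := hTheta K L (n + 1) (fun i => toF 𝔭 L (MvPolynomial.X i)) (hCu K (n + 1) 𝔭 L).1
    ι.fieldRange hfin
  obtain ⟨θ', hθ'⟩ : ∃ θ' : Fin (Module.finrank ι.fieldRange L) → O,
      ∀ i, (θ' i : E) = toF (Ideal.span {P}) E (θ i) :=
    ⟨fun i => ⟨toF (Ideal.span {P}) E (θ i), (hOmem _).2 ⟨_, hpol _⟩⟩, fun _ => rfl⟩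
  have hresθ : ∀ i, res (θ' i) = MvPolynomial.aeval (fun i => toF 𝔭 L (MvPolynomial.X i)) (θ i) := by
    intro i
    rw [aeval_toF']
    exact huq _ _ _ (hOres (θ' i)) (by rw [hθ']; exact hpol _)
  -- the functions g
  have hxG : ∀ F : MvPolynomial (Fin n) K, RsE (Ideal.span {P}) 𝔭 E L (MvPolynomial.aeval x F)
      (res (MvPolynomial.aeval x' F)) := by
    intro F
    have h2 := hOres (MvPolynomial.aeval x' F)
    rw [ae] at h2
    simp only [hx'] at h2
    exact h2
  obtain ⟨g, hg⟩ : ∃ g : Fin n → O, ∀ l, (g l : E) = MvPolynomial.aeval x (G l) :=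
    ⟨fun l => ⟨MvPolynomial.aeval x (G l), (hOmem _).2 ⟨_, hxG (G l)⟩⟩, fun _ => rfl⟩
  have hPE : toF (Ideal.span {P}) E (MvPolynomial.pderiv 0 P) ≠ 0 :=
    PVrZM.toF_ne (Ideal.span {P}) E (fun h => hPz (hle h))
  have hdet : RsE (Ideal.span {P}) 𝔭 E L (JmZ P E δ (AlgHom.id K E)).det (1 : L) := by
    have h1 : JmZ P E δ (AlgHom.id K E) = 1 := PJtZM.JmZ_one P E δ hδ hPE
    rw [h1, Matrix.det_one]
    have h2 := hcst 1
    rw [map_one, map_one] at h2
    exact h2
  have hRsy : RsyZ O res δ α g := hSy K n P 𝔭 hP hPz E L δ hδ O res hOmem hOres (AlgHom.id K E) (AlgHom.id K L)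
    (fun _ _ h => h) 1 one_ne_zero hdet α G (by rw [← hxb]; exact hG) g (by rw [← hx]; exact hg)
  have hδO : ∀ j, ∀ h ∈ O, δ j h ∈ O := by
    intro j h hh
    obtain ⟨w, hw⟩ := (hOmem h).1 hh
    exact (hOmem _).2 (hRg K n P 𝔭 hPz E L δ hδ j h w hw)
  have hLI := hId K L E n O res δ hδO α g hRsy (IntermediateField.adjoin K (Set.range u)) ι
    (fun w => by
      obtain ⟨h, hh⟩ : ∃ h : O, (h : E) = w := ⟨⟨w, (hOmem _).2 ⟨ι w, hι w⟩⟩, rfl⟩
      exact ⟨h, hh, huq _ _ _ (hOres h) (by rw [hh]; exact hι w)⟩)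
    (Module.finrank ι.fieldRange L) θ' (by
      simp only [hresθ]
      exact hθ)
  have hLI' : LinearIndependent (IntermediateField.adjoin K (Set.range u))
      (fun t : {b : Fin n → ℕ // ∀ a ∈ α, b a = 0} × Fin (Module.finrank ι.fieldRange L) =>
        MvPolynomial.aeval x (∏ j, G j ^ (t.1 : Fin n → ℕ) j) * ((θ' t.2 : O) : E)) := by
    have h1 : (fun t : {b : Fin n → ℕ // ∀ a ∈ α, b a = 0} × Fin (Module.finrank ι.fieldRange L) =>
        MvPolynomial.aeval x (∏ j, G j ^ (t.1 : Fin n → ℕ) j) * ((θ' t.2 : O) : E)) =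
        fun t : {b : Fin n → ℕ // ∀ a ∈ α, b a = 0} × Fin (Module.finrank ι.fieldRange L) =>
        (((∏ j, g j ^ (t.1 : Fin n → ℕ) j) * θ' t.2 : O) : E) := by
      funext t
      have h2 : (((∏ j, g j ^ (t.1 : Fin n → ℕ) j) * θ' t.2 : O) : E) =
          O.val (∏ j, g j ^ (t.1 : Fin n → ℕ) j) * ((θ' t.2 : O) : E) := rfl
      rw [h2]
      congr 1
      rw [map_prod, map_prod]
      apply Finset.prod_congr rfl
      intro j _
      rw [map_pow, map_pow]
      congr 1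
      have h3 : O.val (g j) = ((g j : O) : E) := rfl
      rw [h3, hg]
    rw [h1]
    exact hLI
  have hlow := hCt K E n n x (IntermediateField.adjoin K (Set.range u)) α _ G (fun i => ((θ' i : O) : E)) hLI' D
    (fun j _ => by
      rw [hD]
      exact Finset.single_le_sum (f := fun j => (G j).totalDegree) (fun _ _ => Nat.zero_le _) (Finset.mem_univ j))
  -- the upper bound
  obtain ⟨c', hc', htr⟩ := hFt.1 K E n (a + 1) u (hTB.2.2.2 K n P hMon E) huAI
  obtain rfl : c' = c := by omega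
  have hfy : Module.Finite (IntermediateField.adjoin (IntermediateField.adjoin K (Set.range u))
      (Set.range x)) E := by
    rw [hx]
    exact hFt.2 K n P hMon E (AlgHom.id K E) (IntermediateField.adjoin K (Set.range u))
  obtain ⟨C', hC'⟩ := hUz K (IntermediateField.adjoin K (Set.range u)) E c' n x
    (Submodule.span (IntermediateField.adjoin K (Set.range u)) (Set.range fun i => ((θ' i : O) : E)))
    (Submodule.fg_span (Set.finite_range _)) htr hfy e (fun B => by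
      rw [hBk K E n a c' (fun l => ρ (x l)) x A b B u hu, Set.union_comm]
      have h3 := he (Fin.cons b B) A
      rw [hx]
      exact h3)
  have hnum := hNum _ e D C' c' (fun N => by
    have h4 := hlow N
    have h5 : n - α.card = c' := by omega
    rw [h5] at h4
    exact h4.trans (hC' (D * N)))
  have hfr : Module.finrank (IntermediateField.adjoin K (Set.range ub)) L =
      Module.finrank ι.fieldRange L := by
    rw [hιr]
  rw [hfr, mul_comm]
  exact hnum

end Pool.Agent.Lib.MP_16285c_agX
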