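import Pool.Agent.Lib.MP_16285c_agB.SpecG
import Pool.Agent.Lib.MP_16285c_agX.T3.Fin3
import Pool.Agent.Lib.MP_16285c_agX.T3.E0X

/-!
# ZDB, section G: backward orbits on `Z` are slow (`StmtEndB`)
-/

set_option autoImplicit false

namespace Pool.Agent.Lib.MP_16285c_agX

open Pool.Agent.Lib.MP_16285c_ag Pool.Agent.Lib.MP_16285c_agN
open Pool.Agent.Lib.MP_16285c_agS (toF)

namespace QEndBM

/-- Numbers. -/
theorem nums (F c e' T N : ℕ) (Λ C X X' C' : ℝ) (hT : 1 ≤ T) (hF : T ^ N ≤ F) (hX : 0 ≤ X) (hX' : 0 ≤ X')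
    (he : (e' : ℝ) ≤ C * Λ ^ N) (h : (F : ℝ) * X ≤ c * e' * X' + C') :
    X ≤ c * C * (Λ / T) ^ N * X' + |C'| := by
  have hT0 : (0 : ℝ) < T := by exact_mod_cast hT
  have hTN : (0 : ℝ) < (T : ℝ) ^ N := by positivity
  have hTN1 : (1 : ℝ) ≤ (T : ℝ) ^ N := one_le_pow₀ (by exact_mod_cast hT)
  have hF' : (T : ℝ) ^ N ≤ F := by exact_mod_cast hF
  have h1 : (T : ℝ) ^ N * X ≤ c * (C * Λ ^ N) * X' + |C'| := by
    have h2 : (T : ℝ) ^ N * X ≤ F * X := mul_le_mul_of_nonneg_right hF' hX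
    have h3 : (c : ℝ) * e' * X' ≤ c * (C * Λ ^ N) * X' := by gcongr
    have h4 := le_abs_self C'
    linarith
  have h5 : (T : ℝ) ^ N * (c * C * (Λ / T) ^ N * X' + |C'|) =
      c * (C * Λ ^ N) * X' + (T : ℝ) ^ N * |C'| := by
    rw [div_pow]
    field_simp
  have h6 : |C'| ≤ (T : ℝ) ^ N * |C'| := le_mul_of_one_le_left (abs_nonneg _) hTN1
  exact le_of_mul_le_mul_left (by rw [h5]; linarith) hTN

end QEndBM

open QEndBM in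
theorem qEndB : StmtDvE → StmtRsR → StmtG1 → StmtDgY → StmtSiuZ → StmtGdB → StmtNmZ → StmtFlV → StmtEndB := by
  intro hDv hRsR hG1 hDg hSiu hGd hNm hFlV K _ _ n P 𝔭 _ _ σ E _ _ _ _ _ ρ hρ hM hP hdP𝔭 hr1 hr2 L _ _ _
    _ _ ρb M hM1 hρb Ω _ _ h z hzb hclo Λ b m T hdeg hT1 hTΛ hTM hm1 hΛb h0 hgrow
  obtain ⟨a, ha⟩ : ∃ a, rk 𝔭 = a + 1 := ⟨rk 𝔭 - 1, by omega⟩
  obtain ⟨c, hc⟩ : ∃ c, a + 1 + c = n := ⟨n - (a + 1), by omega⟩
  obtain ⟨hd0, δ, hδ⟩ := hDv K n P hM E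
  have hT0 : (0 : ℝ) < T := by exact_mod_cast hT1
  have hT1' : (1 : ℝ) ≤ T := by exact_mod_cast hT1
  have hΛ1 : 1 ≤ Λ := hT1'.trans hTΛ
  have hΛT : 1 ≤ Λ / T := (one_le_div hT0).2 hTΛ
  obtain ⟨y, hy⟩ : ∃ y : ℤ → Fin (n + 1) → Ω, y = fun t => z ((M : ℤ) * t) := ⟨_, rfl⟩
  rw [← hy] at hzb
  have hOn : ∀ t : ℤ, ∀ G ∈ 𝔭, MvPolynomial.aeval (y t) G = 0 := by
    intro t G hG
    have h1 : MvPolynomial.aeval (fun i => toF 𝔭 L (MvPolynomial.X i)) G = 0 →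
        MvPolynomial.aeval (y ((((t + t.natAbs).toNat : ℕ) : ℤ) - (t.natAbs : ℤ))) G = 0 :=
      (hzb t.natAbs ((t + t.natAbs).toNat)).1 G
    have h2 : (((t + t.natAbs).toNat : ℕ) : ℤ) - (t.natAbs : ℤ) = t := by omega
    rw [h2] at h1
    refine h1 ?_
    rw [T3Fin3M.aeval_toF]
    have : toF 𝔭 L G = 0 := by
      have h1 : cl 𝔭 G = 0 := Ideal.Quotient.eq_zero_iff_mem.2 hG
      show algebraMap (CR 𝔭) L (cl 𝔭 G) = 0
      rw [h1, map_zero]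
    exact this
  obtain ⟨C, hC⟩ := hDg K n a c P 𝔭 hM hP hdP𝔭 ha hc E L δ hδ
  obtain ⟨cS, hcS⟩ := hSiu K n a P 𝔭 hM hP ha L
  obtain ⟨C₁, hC₁⟩ : ∃ C₁ : ℝ, ∀ (N' : ℕ) (A : Fin (c + 1) → Fin n → K) (B : Fin a → Fin n → K),
        (Module.finrank (IntermediateField.adjoin K
          (Set.range (lc A fun l : Fin n => toF (Ideal.span {P}) E (MvPolynomial.X l.succ)) ∪
            Set.range (lc B fun l : Fin n => (ρ ^ N') (toF (Ideal.span {P}) E (MvPolynomial.X l.succ))))) E : ℝ) ≤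
          C₁ * Λ ^ N' := by
    have hp : n - a = c + 1 := by omega
    have := hdeg a (by omega)
    rwa [hp] at this
  obtain ⟨C₂, hC₂⟩ : ∃ C₂ : ℝ, C₂ = max C₁ 0 := ⟨_, rfl⟩
  have hC₂0 : 0 ≤ C₂ := hC₂ ▸ le_max_right _ _
  have hC₁₂ : C₁ ≤ C₂ := hC₂ ▸ le_max_left _ _
  have hCC : (0 : ℝ) ≤ C := Nat.cast_nonneg C
  refine hNm (fun t : ℕ => hx h (z (-(t : ℤ)))) m M b (Λ / T) (cS * (C * C₂ + 1)) hm1 hM1 hΛT hΛb h0
    (by
      intro j hj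
      exact hgrow j hj) ?_
  intro k hk
  obtain ⟨N', hN'⟩ : ∃ N', N' = M * (m * k) := ⟨_, rfl⟩
  obtain ⟨e, he⟩ : ∃ e : ℕ, e = ⌊C₂ * Λ ^ N'⌋₊ := ⟨_, rfl⟩
  have hΛN : 0 ≤ Λ ^ N' := by positivity
  have hΛN1 : 1 ≤ Λ ^ N' := one_le_pow₀ hΛ1
  have he' : (e : ℝ) ≤ C₂ * Λ ^ N' := by
    rw [he]
    exact Nat.floor_le (mul_nonneg hC₂0 hΛN)
  have hdege : ∀ (A : Fin (c + 1) → Fin n → K) (B : Fin a → Fin n → K),
        Module.finrank (IntermediateField.adjoin K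
          (Set.range (lc A fun l : Fin n => toF (Ideal.span {P}) E (MvPolynomial.X l.succ)) ∪
            Set.range (lc B fun l : Fin n => (ρ ^ N') (toF (Ideal.span {P}) E (MvPolynomial.X l.succ))))) E ≤ e := by
    intro A B
    rw [he]
    apply Nat.le_floor
    exact (hC₁ N' A B).trans (mul_le_mul_of_nonneg_right hC₁₂ hΛN)
  have hle : Ideal.span {P} ≤ 𝔭 := (Ideal.span_singleton_le_iff_mem _).2 hP
  have hρM : Rst (σ ^ M) (Ideal.span {P}) E (ρ ^ M) := hG1.2.2 K (n + 1) σ _ E ρ hρ M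
  have hcomp : ∀ (u : E) (v : L), RsE (Ideal.span {P}) 𝔭 E L u v →
      RsE (Ideal.span {P}) 𝔭 E L ((ρ ^ N') u) ((ρb ^ (m * k)) v) := by
    intro u v huv
    have h1 := hRsR K (n + 1) (Ideal.span {P}) 𝔭 hle E L (σ ^ M) (ρ ^ M) ρb hρM hρb (m * k) u v huv
    have h2 : (ρ ^ M) ^ (m * k) = ρ ^ N' := by rw [hN', ← pow_mul]
    rwa [h2] at h1
  have hdegL := hC (ρ ^ N') (ρb ^ (m * k)) hcomp e hdege
  obtain ⟨Q, hQ, hQ'⟩ := hcS (ρb ^ (m * k)) (C * e + 1) (Nat.le_add_left _ _) (fun A b' =>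
    (hdegL A b').trans (Nat.le_succ _))
  obtain ⟨C', hC'⟩ := hQ' Ω h
  refine ⟨|C'|, fun j₀ => ?_⟩
  have hηQ : MvPolynomial.aeval (fun i => toF 𝔭 L (MvPolynomial.X i)) Q ≠ 0 := by
    rw [T3Fin3M.aeval_toF]
    exact T3Fin3M.toF_ne 𝔭 L hQ
  obtain ⟨j', hj', hjQ⟩ := hGd K Ω L (n + 1) (fun i => toF 𝔭 L (MvPolynomial.X i)) ρb y hzb
    (by
      intro G hG
      rw [hy] at hG
      rw [T3Fin3M.aeval_toF]
      have h1 : cl 𝔭 G = 0 := Ideal.Quotient.eq_zero_iff_mem.2 (hclo G hG)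
      show algebraMap (CR 𝔭) L (cl 𝔭 G) = 0
      rw [h1, map_zero]) Q hηQ m hm1 (j₀ + k)
  obtain ⟨j, rfl⟩ : ∃ j, j' = j + k := ⟨j' - k, by omega⟩
  refine ⟨j, by omega, ?_⟩
  have hval := hC' (y (-((m * (j + k) : ℕ) : ℤ))) (y (-((m * j : ℕ) : ℤ))) (hOn _) hjQ (by
    intro i
    have h1 := hFlV K L Ω (n + 1) _ ρb _ (hzb (m * (j + k))) (m * k) 0 i.succ
    have h2 : (((0 : ℕ) : ℤ) - ((m * (j + k) : ℕ) : ℤ)) = -((m * (j + k) : ℕ) : ℤ) := by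
      rw [Nat.cast_zero, zero_sub]
    have h3 : (((0 + m * k : ℕ) : ℤ) - ((m * (j + k) : ℕ) : ℤ)) = -((m * j : ℕ) : ℤ) := by
      push_cast
      ring
    simp only [h2, h3] at h1
    exact h1)
  have hy1 : y (-((m * (j + k) : ℕ) : ℤ)) = z (-((M * (m * j + m * k) : ℕ) : ℤ)) := by
    rw [hy]
    show z _ = z _
    congr 1
    push_cast
    ring
  have hy2 : y (-((m * j : ℕ) : ℤ)) = z (-((M * (m * j) : ℕ) : ℤ)) := by
    rw [hy]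
    show z _ = z _
    congr 1
    push_cast
    ring
  rw [hy1, hy2, T3E0XM.finrank_pow] at hval
  show hx h (z (-((M * (m * j + m * k) : ℕ) : ℤ))) ≤
    cS * (C * C₂ + 1) * (Λ / T) ^ (M * (m * k)) * hx h (z (-((M * (m * j) : ℕ) : ℤ))) + |C'|
  have hF : T ^ (M * (m * k)) ≤ Module.finrank ρb.fieldRange L ^ (m * k) := by
    rw [pow_mul]
    exact Nat.pow_le_pow_left hTM _
  have hE : (((C * e + 1 : ℕ) : ℕ) : ℝ) ≤ (C * C₂ + 1) * Λ ^ (M * (m * k)) := by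
    rw [← hN']
    push_cast
    have h1 : (C : ℝ) * e ≤ C * (C₂ * Λ ^ N') := mul_le_mul_of_nonneg_left he' hCC
    calc (C : ℝ) * e + 1 ≤ C * (C₂ * Λ ^ N') + Λ ^ N' := add_le_add h1 hΛN1
      _ = (C * C₂ + 1) * Λ ^ N' := by ring
  exact nums _ cS (C * e + 1) T (M * (m * k)) Λ (C * C₂ + 1) _ _ C' hT1 hF (h.nonneg _) (h.nonneg _)
    hE hval

end Pool.Agent.Lib.MP_16285c_agX
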