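import Pool.Agent.Lib.MP_16285c_agB.SpecG

/-!
# Good times in the past (GdB)
-/

set_option autoImplicit false

namespace Pool.Agent.Lib.MP_16285c_agX

open Pool.Agent.Lib.MP_16285c_ag Pool.Agent.Lib.MP_16285c_agN

namespace QGdBM

theorem map_aeval {K E : Type} [Field K] [Field E] [Algebra K E] {n : ℕ} (ξ : Fin n → E)
    (ρ : E →ₐ[K] E) (G : Pl n K) :
    ρ (MvPolynomial.aeval ξ G) = MvPolynomial.aeval (fun i => ρ (ξ i)) G := by
  have h : ρ.comp (MvPolynomial.aeval ξ : Pl n K →ₐ[K] E) =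
      MvPolynomial.aeval fun i => ρ (ξ i) := by
    refine MvPolynomial.algHom_ext fun i => ?_
    rw [AlgHom.comp_apply, MvPolynomial.aeval_X, MvPolynomial.aeval_X]
  rw [← h]
  rfl

/-- The polynomials which vanish at all the times `-(m i)`, `i ≥ j`. -/
def vanP {K Ω : Type} [Field K] [Field Ω] [Algebra K Ω] {n : ℕ} (z : ℤ → Fin n → Ω) (m j : ℕ) :
    Ideal (Pl n K) where
  carrier := {G | ∀ i : ℕ, j ≤ i → MvPolynomial.aeval (z (-((m * i : ℕ) : ℤ))) G = 0}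
  zero_mem' := fun i _ => map_zero _
  add_mem' := by
    intro a b ha hb i hi
    rw [map_add, ha i hi, hb i hi, add_zero]
  smul_mem' := by
    intro c a ha i hi
    rw [smul_eq_mul, map_mul, ha i hi, mul_zero]

theorem vanP_mono {K Ω : Type} [Field K] [Field Ω] [Algebra K Ω] {n : ℕ} (z : ℤ → Fin n → Ω)
    (m : ℕ) : Monotone (fun j => (vanP z m j : Ideal (Pl n K))) :=
  fun _ _ hab _ hG i hi => hG i (hab.trans hi)

theorem stab {K Ω : Type} [Field K] [Field Ω] [Algebra K Ω] {n : ℕ} (z : ℤ → Fin n → Ω)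
    (m j₀ : ℕ) : ∃ J, j₀ ≤ J ∧ (vanP z m (J + 1) : Ideal (Pl n K)) ≤ vanP z m J := by
  obtain ⟨J0, hJ0⟩ := (monotone_stabilizes_iff_noetherian (R := Pl n K) (M := Pl n K)).2
    (inferInstance : IsNoetherian (Pl n K) (Pl n K)) ⟨fun j => vanP z m j, vanP_mono z m⟩
  refine ⟨max J0 j₀, le_max_right _ _, ?_⟩
  have h1 := hJ0 (max J0 j₀) (le_max_left _ _)
  have h2 := hJ0 (max J0 j₀ + 1) ((le_max_left _ _).trans (Nat.le_succ _))
  exact le_of_eq (h2.symm.trans h1)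

/-- All the points of a two-sided orbit, and the values of the powers of `ρ`. -/
theorem vals {K L Ω : Type} [Field K] [Field L] [Field Ω] [Algebra K L] [Algebra K Ω]
    (hVl : StmtVlA) (hFl : StmtFlV) {n : ℕ} {η : Fin n → L} {ρb : L →ₐ[K] L}
    {z : ℤ → Fin n → Ω} (hF : FlowZ K η ρb z) (t : ℤ) :
    OnX K η (z t) ∧ ∀ (s : ℕ) (G : Pl n K),
      VlX K η (z t) ((ρb ^ s) (MvPolynomial.aeval η G)) (MvPolynomial.aeval (z (t + s)) G) := by
  obtain ⟨r, hr⟩ : ∃ r : ℕ, r = t.natAbs := ⟨_, rfl⟩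
  obtain ⟨t', ht'⟩ : ∃ t' : ℕ, (t' : ℤ) - (r : ℤ) = t := ⟨(t + r).toNat, by omega⟩
  have h0 := hF r
  have hO : OnX K η (z t) := by
    have h1 : OnX K η (z ((t' : ℤ) - (r : ℤ))) := (h0 t').1
    rwa [ht'] at h1
  refine ⟨hO, fun s G => ?_⟩
  rw [map_aeval]
  refine (hVl K L Ω n η (z t) hO).2.2.2.2.2 n _ _ (fun i => ?_) G
  have h2 : VlX K η (z ((t' : ℤ) - (r : ℤ))) ((ρb ^ s) (η i))
      (z (((t' + s : ℕ) : ℤ) - (r : ℤ)) i) := hFl K L Ω n η ρb _ h0 s t' i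
  have h3 : ((t' + s : ℕ) : ℤ) - (r : ℤ) = t + s := by
    push_cast
    omega
  rw [h3, ht'] at h2
  exact h2

end QGdBM

open QGdBM in
theorem qGdB : StmtVlA → StmtFlV → StmtGdZ → StmtGdB := by
  intro hVl hFl hGd K Ω L _ _ _ _ _ n η ρb z hF hden Q hQ m hm j₀
  by_contra hcon
  push Not at hcon
  obtain ⟨J, hJ, hst⟩ := stab (K := K) z m j₀
  have claim : ∀ (k : ℕ) (G : Pl n K), G ∈ (vanP z m J : Ideal (Pl n K)) →
      MvPolynomial.aeval (z (((m * k : ℕ) : ℤ) - ((m * J : ℕ) : ℤ))) G = 0 := by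
    intro k
    induction k with
    | zero =>
      intro G hG
      have h1 := hG J le_rfl
      rw [Nat.mul_zero, Nat.cast_zero, zero_sub]
      exact h1
    | succ k ih =>
      intro G hG
      obtain ⟨A, B, hB, hAB, hv⟩ := (vals hVl hFl hF (((m * k : ℕ) : ℤ) - ((m * J : ℕ) : ℤ))).2 m G
      have hA : A ∈ (vanP z m (J + 1) : Ideal (Pl n K)) := by
        intro i hi
        obtain ⟨i', hi'⟩ : ∃ i', i = i' + 1 := ⟨i - 1, by omega⟩
        obtain ⟨hO, hV⟩ := vals hVl hFl hF (-((m * i : ℕ) : ℤ))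
        have h1 := hV m G
        have h2 : -((m * i : ℕ) : ℤ) + (m : ℤ) = -((m * i' : ℕ) : ℤ) := by
          rw [hi']
          push_cast
          ring
        rw [h2, hG i' (by omega)] at h1
        obtain ⟨q1, q2, -, q4, -, -⟩ := hVl K L Ω n η _ hO
        have h3 := q4 _ _ _ _ h1 (q2 B)
        rw [hAB, zero_mul] at h3
        exact q1 _ _ _ (q2 A) h3
      have h4 := ih A (hst hA)
      rw [h4] at hv
      have h5 : ((m * (k + 1) : ℕ) : ℤ) - ((m * J : ℕ) : ℤ) =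
          ((m * k : ℕ) : ℤ) - ((m * J : ℕ) : ℤ) + (m : ℤ) := by
        push_cast
        ring
      rw [h5]
      exact (mul_eq_zero.1 hv.symm).resolve_right hB
  have hF0 : FlowX K η ρb (fun t : ℕ => z (t : ℤ)) := by
    have h1 := hF 0
    rwa [Nat.cast_zero, show (fun t : ℕ => z ((t : ℤ) - 0)) = fun t : ℕ => z (t : ℤ) from
      funext fun t => by rw [sub_zero]] at h1
  obtain ⟨j, -, hj⟩ := hGd K Ω L n η ρb (fun t : ℕ => z (t : ℤ)) hF0 hden Q hQ m hm 0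
  refine hj ?_
  have h1 := claim (J + j) Q fun i hi => hcon i (hJ.trans hi)
  have h2 : ((m * (J + j) : ℕ) : ℤ) - ((m * J : ℕ) : ℤ) = ((m * j : ℕ) : ℤ) := by
    push_cast
    ring
  rw [h2] at h1
  exact h1

end Pool.Agent.Lib.MP_16285c_agX
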