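import Pool.Agent.Lib.MP_16285c_agB.SpecG
import Pool.Agent.Lib.MP_16285c_agX.T3.SpecH

/-!
# ZDB, section G: heights of integral functions (`StmtHiY`)
-/

set_option autoImplicit false

namespace Pool.Agent.Lib.MP_16285c_agX

open Pool.Agent.Lib.MP_16285c_ag Pool.Agent.Lib.MP_16285c_agN

namespace QHiYM

variable {K L : Type} [Field K] [Field L] [Algebra K L]

/-- One integral function. -/
theorem one (hVl : StmtVlA) (hUp : StmtHUpB) {s q : ℕ} (η : Fin s → L) (g : Fin q → L) (x : L)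
    (F : Polynomial (Pl q K)) (hF : F.Monic)
    (hFx : Polynomial.eval₂ ((MvPolynomial.aeval g : Pl q K →ₐ[K] L) : Pl q K →+* L) x F = 0) (D : ℕ)
    (hD : ∀ i, (F.coeff i).totalDegree ≤ D) (Ω : Type) [Field Ω] [Algebra K Ω] (h : HtF Ω) :
    ∃ C : ℝ, ∀ (pt : Fin s → Ω) (gv : Fin q → Ω) (v : Ω), OnX K η pt →
      (∀ i, VlX K η pt (g i) (gv i)) → VlX K η pt x v → h.H ![1, v] ≤ D * h.H (hcN gv) + C := by
  obtain ⟨d, hd⟩ : ∃ d, d = F.natDegree := ⟨_, rfl⟩
  obtain ⟨C₁, hC₁⟩ := h.root d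
  obtain ⟨C₂, hC₂⟩ := hUp K Ω h (Fin (d + 1)) q 0 D 0 (fun t => MvPolynomial.C (F.coeff t))
    (fun t => MvPolynomial.isHomogeneous_C _ _) (by
      intro t β
      rw [MvPolynomial.coeff_C]
      split_ifs
      · exact hD _
      · simp)
  refine ⟨C₂ + C₁, ?_⟩
  intro pt gv v hOn hgv hval
  obtain ⟨hv1, hv2, -, -, -, hv6⟩ := hVl K L Ω s η pt hOn
  obtain ⟨G, hG⟩ : ∃ G : Pl (q + 1) K, G = ∑ i : Fin (d + 1), MvPolynomial.rename Fin.succ (F.coeff i) *
      MvPolynomial.X 0 ^ (i : ℕ) := ⟨_, rfl⟩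
  have hGe : ∀ (R : Type) [Field R] [Algebra K R] (y : R) (s : Fin q → R),
      MvPolynomial.aeval (Fin.cons y s : Fin (q + 1) → R) G =
        ∑ i : Fin (d + 1), MvPolynomial.aeval s (F.coeff i) * y ^ (i : ℕ) := by
    intro R _ _ y s
    rw [hG, map_sum]
    refine Finset.sum_congr rfl fun i _ => ?_
    rw [map_mul, map_pow, MvPolynomial.aeval_rename, MvPolynomial.aeval_X]
    rfl
  have hG0 : MvPolynomial.aeval (Fin.cons x g : Fin (q + 1) → L) G = 0 := by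
    rw [hGe]
    rw [Polynomial.eval₂_eq_sum_range, ← hd, Finset.sum_range] at hFx
    exact hFx
  have hG1 : MvPolynomial.aeval (Fin.cons v gv : Fin (q + 1) → Ω) G = 0 := by
    have h1 := hv6 (q + 1) (Fin.cons x g) (Fin.cons v gv) (by
      intro i
      refine Fin.cases ?_ (fun j => ?_) i
      · rw [Fin.cons_zero, Fin.cons_zero]
        exact hval
      · rw [Fin.cons_succ, Fin.cons_succ]
        exact hgv j) G
    rw [hG0] at h1
    have h3 := hv2 0
    rw [map_zero, map_zero] at h3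
    exact hv1 _ _ _ h1 h3
  rw [hGe] at hG1
  have hlast : MvPolynomial.aeval gv (F.coeff ((Fin.last d : Fin (d + 1)) : ℕ)) ≠ 0 := by
    rw [Fin.val_last, hd, Polynomial.coeff_natDegree, hF.leadingCoeff, map_one]
    exact one_ne_zero
  have h1 := hC₁ (fun i => MvPolynomial.aeval gv (F.coeff i)) v hlast hG1
  have h2 := hC₂ gv (fun i => Fin.elim0 i)
  have h6 : (fun t : Fin (d + 1) => MvPolynomial.eval₂ ((MvPolynomial.aeval gv : Pl q K →ₐ[K] Ω) : Pl q K →+* Ω)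
      (fun i => Fin.elim0 i) (MvPolynomial.C (F.coeff t) : MvPolynomial (Fin 0) (Pl q K))) =
      fun i : Fin (d + 1) => MvPolynomial.aeval gv (F.coeff (i : ℕ)) := by
    funext t
    rw [MvPolynomial.eval₂_C]
    rfl
  rw [h6] at h2
  have h8 : ((0 : ℕ) : ℝ) * h.H (fun i : Fin 0 => (Fin.elim0 i : Ω)) = 0 := by rw [Nat.cast_zero, zero_mul]
  rw [h8] at h2
  linarith

end QHiYM

open QHiYM in
theorem qHiY : StmtVlA → StmtHUpB → StmtRtX → StmtHiY := by
  intro hVl hUp hRt K L _ _ _ s q r η g x hx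
  choose F hF1 hF2 using hx
  obtain ⟨D, hD⟩ : ∃ D : Fin r → ℕ, D = fun j => (F j).support.sup fun i => ((F j).coeff i).totalDegree :=
    ⟨_, rfl⟩
  have hD1 : ∀ j i, ((F j).coeff i).totalDegree ≤ D j := by
    intro j i
    by_cases hi : i ∈ (F j).support
    · rw [hD]
      exact Finset.le_sup (f := fun i => ((F j).coeff i).totalDegree) hi
    · rw [Polynomial.notMem_support_iff.mp hi]
      simp
  refine ⟨∑ j, D j + 1, by omega, ?_⟩
  intro Ω _ _ h
  choose C hC using fun j : Fin r => one hVl hUp η g (x j) (F j) (hF1 j) (hF2 j) (D j) (hD1 j) Ω h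
  refine ⟨∑ j, C j, ?_⟩
  intro pt gv xv hOn hgv hxv
  have h1 : h.H (hcN xv) ≤ ∑ j : Fin r, h.H ![1, xv j] := hRt.2.2 Ω h r xv
  have h2 : ∑ j : Fin r, h.H ![1, xv j] ≤ ∑ j : Fin r, ((D j : ℝ) * h.H (hcN gv) + C j) :=
    Finset.sum_le_sum fun j _ => hC j pt gv (xv j) hOn hgv (hxv j)
  have h3 : 0 ≤ h.H (hcN gv) := h.nonneg _
  refine (h1.trans h2).trans ?_
  rw [Finset.sum_add_distrib, ← Finset.sum_mul]
  push_cast
  nlinarith

end Pool.Agent.Lib.MP_16285c_agX
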