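import Pool.Agent.Lib.MP_16285c_agB.SpecG
import Pool.Agent.Lib.MP_16285c_agP.SecP

/-!
# ZDB: the sections on `Z` (SecY)

Proof of `StmtSecY`, after `agP/SecP.lean` (`PSecPM.main`) with the empty family `l` and `w = z'`.
-/

set_option autoImplicit false

namespace Pool.Agent.Lib.MP_16285c_agX

open Pool.Agent.Lib.MP_16285c_ag Pool.Agent.Lib.MP_16285c_agN

namespace QSecYM

open MvPolynomial
open scoped IntermediateField.algebraAdjoinAdjoin

theorem cnt_zero (p : ℕ) : cnt 0 p = 1 := by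
  have hu : Unique {b : Fin 0 → ℕ // ∑ i, b i ≤ p} :=
    { default := ⟨fun _ => 0, by simp⟩
      uniq := fun x => Subtype.ext (funext fun i => i.elim0) }
  exact Nat.card_unique

/-- The identity matrix. -/
theorem lc_one {K E : Type} [Field K] [Field E] [Algebra K E] {n : ℕ} (z : Fin n → E) :
    lc (fun i j : Fin n => if i = j then (1 : K) else 0) z = z := by
  funext i
  unfold lc
  rw [Finset.sum_eq_single i]
  · beta_reduce
    rw [if_pos rfl, map_one, one_mul]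
  · intro j _ hj
    beta_reduce
    rw [if_neg (Ne.symm hj), map_zero, zero_mul]
  · intro h
    exact absurd (Finset.mem_univ i) h

/-- `E` is finite over `K(z')`. -/
theorem fin_z {K E : Type} [Field K] [Field E] [Algebra K E] {n : ℕ} (ξ : Fin (n + 1) → E)
    (hS : Stp K ξ) (z : Fin n → E) (hz : AlgebraicIndependent K z) :
    Module.Finite (IntermediateField.adjoin K (Set.range z)) E := by
  have h3 : Algebra.trdeg K E ≤ Cardinal.mk (Fin n) := by
    rw [T3SecXIM.trdeg_eq ξ hS, Cardinal.mk_fintype, Fintype.card_fin]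
  have h4 := hz.isTranscendenceBasis_of_trdeg_le_of_finite h3
  have h5 := h4.isAlgebraic_field
  exact T3SecXIM.fin_of_int ξ hS.gen _ fun i => (h5.isAlgebraic (ξ i)).isIntegral

/-- The numbers. -/
theorem num (hNum : StmtNumP) (a e' C : ℕ) (he' : 1 ≤ e') :
    ∃ i₀ : ℕ, ∀ i, i₀ ≤ i → i * (e' * cnt a (4 * (a + 1) * e' * i + C)) <
      cnt (a + 1) (4 * (a + 1) * e' * i) := by
  obtain ⟨i₀, h⟩ := hNum 0 a 1 e' C 0 le_rfl he'
  refine ⟨i₀, fun i hi => ?_⟩
  have h1 := (h i hi).2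
  obtain ⟨j, hj⟩ : ∃ j, j = 4 * (a + 1) * e' * i := ⟨_, rfl⟩
  obtain ⟨p, hp⟩ : ∃ p, p = 4 * (0 + 1) * 1 * i := ⟨_, rfl⟩
  rw [← hj, ← hp, Nat.sub_zero] at h1
  rw [← hj]
  have h2 : cnt (0 + 1) p ≤ cnt (0 + 1) (p + C) := tCnt.2.1 _ _ _ (Nat.le_add_right _ _)
  by_contra hcon
  push Not at hcon
  have h3 : cnt (0 + 1) p * cnt (a + 1) j ≤
      cnt (0 + 1) (p + C) * (i * (e' * cnt a (j + C))) := Nat.mul_le_mul h2 hcon
  have h4 : cnt (0 + 1) (p + C) * (i * (e' * cnt a (j + C))) =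
      i * (e' * cnt (0 + 1) (p + C) * cnt a (j + C)) := by ring
  have h5 : i * (e' * cnt (0 + 1) (p + C) * cnt a (j + C)) ≤
      i * (1 * cnt 0 (p + C) * cnt (a + 1) (j + C) +
        e' * cnt (0 + 1) (p + C) * cnt a (j + C)) :=
    Nat.mul_le_mul_left _ (Nat.le_add_left _ _)
  omega

theorem main (hUz : StmtUzZ) (hLB : StmtLbP) (hNum : StmtNumP)
    (K E : Type) [Field K] [CharZero K] [Field E] [Algebra K E] (a : ℕ) (ξ : Fin (a + 2) → E)
    (hS : Stp K ξ) (z' : Fin (a + 1) → E) (hz' : AlgebraicIndependent K z')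
    (Z₀ : Pl (a + 1) K) (hZ₀ : Z₀ ≠ 0)
    (hZi : ∀ i : Fin (a + 1), Intx K (fun i : Fin (a + 1) => ξ i.succ)
      (MvPolynomial.aeval (fun i : Fin (a + 1) => ξ i.succ) Z₀ * z' i))
    (u' : K) (e' : ℕ) (hu' : u' ≠ 0) (he' : 1 ≤ e')
    (H1 : ∀ B : Fin a → Fin (a + 1) → K, Module.finrank (IntermediateField.adjoin K
      (insert (Tu K u' (fun i : Fin (a + 1) => ξ i.succ)) (Set.range (lc B z')))) E ≤ e') :
    1 ≤ Module.finrank (IntermediateField.adjoin K (Set.range z')) E ∧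
    ∃ c i₀ : ℕ, ∀ i, i₀ ≤ i → SctP K ξ (Tu K u' (fun i : Fin (a + 1) => ξ i.succ)) z' Z₀ c
      (4 * (a + 1) * e' * i) (Module.finrank (IntermediateField.adjoin K (Set.range z')) E * i) := by
  have hfin0 := fin_z ξ hS z' hz'
  have hD0 : 1 ≤ Module.finrank (IntermediateField.adjoin K (Set.range z')) E :=
    Module.finrank_pos
  refine ⟨hD0, ?_⟩
  obtain ⟨x, hx⟩ : ∃ x : Fin (a + 1) → E, x = fun i : Fin (a + 1) => ξ i.succ := ⟨_, rfl⟩
  rw [← hx] at hZi H1
  rw [← hx]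
  obtain ⟨D, hD⟩ : ∃ D, D = Module.finrank (IntermediateField.adjoin K (Set.range z')) E := ⟨_, rfl⟩
  rw [← hD] at hD0 ⊢
  -- the empty family and the identity matrix
  obtain ⟨A, hA⟩ : ∃ A : Fin 0 → Fin (a + 1) → K, A = fun _ _ => 0 := ⟨_, rfl⟩
  obtain ⟨B, hB⟩ : ∃ B : Fin (a + 1) → Fin (a + 1) → K,
    B = fun i j => if i = j then 1 else 0 := ⟨_, rfl⟩
  obtain ⟨l, hl⟩ : ∃ l : Fin 0 → E, l = lc A x := ⟨_, rfl⟩
  obtain ⟨w, hw⟩ : ∃ w : Fin (a + 1) → E, w = lc B z' := ⟨_, rfl⟩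
  have hwz : w = z' := by rw [hw, hB, lc_one]
  have hxai : AlgebraicIndependent K x := by
    rw [hx]
    exact hS.ai
  have htrd : Algebra.trdeg K E = (a + 1 : ℕ) := T3SecXIM.trdeg_eq ξ hS
  have hlw : Set.range l ∪ Set.range w = Set.range z' := by
    rw [Set.range_eq_empty l, Set.empty_union, hwz]
  have hfin : Module.Finite (IntermediateField.adjoin K (Set.range l ∪ Set.range w)) E := by
    rw [hlw]
    exact hfin0
  have hDlw : D = Module.finrank (IntermediateField.adjoin K (Set.range l ∪ Set.range w)) E := by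
    rw [hlw, hD]
  obtain ⟨t, ht⟩ := PSecPM.exists_t ξ hS (IntermediateField.adjoin K (Set.range l ∪ Set.range w))
    hfin D hDlw
  obtain ⟨θ, hθ⟩ : ∃ θ : Fin D → E, θ = fun k => MvPolynomial.aeval ξ (t k) := ⟨_, rfl⟩
  rw [← hθ] at ht
  have hind : AlgebraicIndependent K (Sum.elim l w : Fin 0 ⊕ Fin (a + 1) → E) :=
    PSecPM.indn (by rw [Fintype.card_sum, Fintype.card_fin, Fintype.card_fin, zero_add]) ξ hS _ (by
      rw [Set.Sum.elim_range]
      exact hfin)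
  obtain ⟨c, hc⟩ : ∃ c, ∀ k, (t k).totalDegree ≤ c :=
    ⟨Finset.univ.sup (fun k => (t k).totalDegree),
      fun k => Finset.le_sup (f := fun k => (t k).totalDegree) (Finset.mem_univ k)⟩
  obtain ⟨z₀, hz₀⟩ : ∃ z₀ : E, z₀ = MvPolynomial.aeval x Z₀ := ⟨_, rfl⟩
  rw [← hz₀] at hZi
  have hz₀0 : z₀ ≠ 0 := by
    rw [hz₀]
    intro h
    exact hZ₀ (hxai (h.trans (map_zero _).symm))
  have hT := PSecPM.tr_T (⟨0, by omega⟩ : Fin (a + 1)) x hxai u' hu'
  have hT0 : Tu K u' x ≠ 0 := by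
    intro h
    rw [h] at hT
    exact hT isAlgebraic_zero
  have hfinκ := T3SecXIM.fin_ai ξ hS z' hz' (IntermediateField.adjoin K {Tu K u' x})
  obtain ⟨C₀, hC₀⟩ := hUz K (IntermediateField.adjoin K {Tu K u' x}) E a (a + 1) z'
      ((Submodule.span (IntermediateField.adjoin K {Tu K u' x}) (Set.range θ)) *
        Vd (IntermediateField.adjoin K {Tu K u' x}) l 0)
      ((Submodule.fg_span (Set.finite_range θ)).mul
        (Module.Finite.iff_fg.1 (tVd.1 (IntermediateField.adjoin K {Tu K u' x}) E 0 l 0)))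
      (PSecPM.trdeg_simple htrd _ hT) hfinκ e'
      (fun B' => by
        rw [T3SecXIM.finrank_two, ← Set.insert_eq]
        exact H1 B')
  obtain ⟨i₀, hi₀⟩ := num hNum a e' C₀ he'
  refine ⟨c, i₀, fun i hi => ?_⟩
  have hlt := hi₀ i hi
  obtain ⟨j, hj⟩ : ∃ j, j = 4 * (a + 1) * e' * i := ⟨_, rfl⟩
  rw [← hj] at hlt
  rw [← hj]
  have hW := PSecPM.finrank_W hLB l w z₀ hz₀0 θ hind ht j 0
  have hlt2 : D * i * Module.finrank (IntermediateField.adjoin K {Tu K u' x})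
      (PSecPM.VV (IntermediateField.adjoin K {Tu K u' x}) θ l w (z₀ ^ j) 0 j) <
      Module.finrank K (Submodule.span K (Set.range (PSecPM.Phi l w z₀ θ j 0))) := by
    rw [hW, cnt_zero, one_mul]
    have h0 : Module.finrank (IntermediateField.adjoin K {Tu K u' x})
        ((Submodule.span (IntermediateField.adjoin K {Tu K u' x}) (Set.range θ)) *
          Vd (IntermediateField.adjoin K {Tu K u' x}) l 0 *
          Vd (IntermediateField.adjoin K {Tu K u' x}) w j :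
          Submodule (IntermediateField.adjoin K {Tu K u' x}) E) ≤ e' * cnt a (j + C₀) := by
      rw [hwz]
      exact hC₀ j
    have h1 := (PSecPM.rank_VV (IntermediateField.adjoin K {Tu K u' x}) θ l w (z₀ ^ j) 0 j).trans
      h0
    calc D * i * Module.finrank (IntermediateField.adjoin K {Tu K u' x})
          (PSecPM.VV (IntermediateField.adjoin K {Tu K u' x}) θ l w (z₀ ^ j) 0 j)
        ≤ D * i * (e' * cnt a (j + C₀)) := Nat.mul_le_mul_left _ h1
      _ = D * (i * (e' * cnt a (j + C₀))) := mul_assoc _ _ _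
      _ < D * cnt (a + 1) j := Nat.mul_lt_mul_of_pos_left hlt (by omega)
      _ = cnt (a + 1) j * D := mul_comm _ _
  have hRξ : ∀ i, ξ i ∈ PSecPM.Rg K x := by
    intro i
    refine Fin.cases ?_ (fun j => ?_) i
    · rw [PSecPM.mem_Rg, hx]
      exact hS.int
    · have h := PSecPM.Rg_x (K := K) x j
      rw [hx] at h ⊢
      exact h
  have hRθ : ∀ k, θ k ∈ PSecPM.Rg K x := by
    intro k
    rw [hθ]
    exact PSecPM.aeval_mem _ (PSecPM.Rg_K x) ξ hRξ _
  have hRz : z₀ ∈ PSecPM.Rg K x := by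
    rw [hz₀]
    exact PSecPM.aeval_mem _ (PSecPM.Rg_K x) _ (fun i => PSecPM.Rg_x x i) _
  have hRw : ∀ k, z₀ * w k ∈ PSecPM.Rg K x := by
    intro k
    rw [hwz, PSecPM.mem_Rg]
    exact hZi k
  have hWR : ∀ v ∈ Submodule.span K (Set.range (PSecPM.Phi l w z₀ θ j 0)),
      v ∈ PSecPM.Rg K x := by
    intro v hv
    induction hv using Submodule.span_induction with
    | mem y hy =>
      obtain ⟨s, rfl⟩ := hy
      exact PSecPM.Phi_R _ _ _ _ _ (fun k => k.elim0) hRz hRw hRθ _ _ s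
    | zero => exact zero_mem _
    | add y z _ _ hy hz => exact add_mem hy hz
    | smul r y _ hy =>
      rw [Algebra.smul_def]
      exact mul_mem (PSecPM.Rg_K x r) hy
  obtain ⟨S, hSW, hS0, S', hS', hSS⟩ := ySubX K E (PSecPM.Rg K x) (PSecPM.Rg_K x)
    (PSecPM.Rg_int x) (Tu K u' x) hT0
    (PSecPM.VV (IntermediateField.adjoin K {Tu K u' x}) θ l w (z₀ ^ j) 0 j)
    (PSecPM.fin_VV _ _ _ _ _ _ _)
    (Submodule.span K (Set.range (PSecPM.Phi l w z₀ θ j 0)))
    (fun v hv => ⟨PSecPM.mem_VV _ l w z₀ θ j 0 _ le_rfl v hv, hWR v hv⟩)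
    (D * i) hlt2
  obtain ⟨G, hG1, hG2, hG3⟩ := PSecPM.Sc_span ξ z' z₀ c j _
    (by
      rintro s ⟨y, rfl⟩
      rw [hl, hw, hθ, hx]
      exact PSecPM.Sc_Phi ξ z' z₀ A B t j 0 c _ hc (by omega) y) S hSW
  refine ⟨G, S', hG1, hG2, ?_, ?_, ?_⟩
  · intro h
    apply hS0
    rw [hSS, h, mul_zero]
  · have h := (PSecPM.mem_Rg x S').1 hS'
    rw [hx] at h
    exact h
  · rw [← hx, ← hz₀, hG3]
    exact hSS

end QSecYM

/-- (SecY) The sections on `Z`. -/
theorem qSecY : StmtUzZ → StmtLbP → StmtNumP → StmtSecY := by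
  intro hUz hLB hNum K E _ _ _ _ a ζ hS z' hz' Z₀ hZ₀ hZi u' e' hu' he' H1
  exact QSecYM.main hUz hLB hNum K E a ζ hS z' hz' Z₀ hZ₀ hZi u' e' hu' he' H1

end Pool.Agent.Lib.MP_16285c_agX
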