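import Pool.Agent.Lib.MP_16285c_agB.SpecG
import Pool.Agent.Lib.MP_16285c_agX.T3.Fin3
import Pool.Agent.Lib.MP_16285c_agX.T3.E0X
import Pool.Agent.Lib.MP_16285c_agX.T3.LnD
import Pool.Agent.Lib.MP_16285c_agP.RecP
import Pool.Agent.Lib.MP_16285c_agP.SecP

/-!
# ZDB, section G: the height inequality on `Z` (`StmtSiuZ`)
-/

set_option autoImplicit false

namespace Pool.Agent.Lib.MP_16285c_agX

open Pool.Agent.Lib.MP_16285c_ag Pool.Agent.Lib.MP_16285c_agN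
open Pool.Agent.Lib.MP_16285c_agS (toF)

namespace QSiuZM

variable {K L : Type} [Field K] [Field L] [Algebra K L]

/-- The fields generated by `Tu` and forms. -/
theorem adj {n a : ℕ} (x : Fin n → L) (A : Fin (a + 1) → Fin n → K) (τ : L →ₐ[K] L) (u : K)
    (B : Fin a → Fin (a + 1) → K) :
    IntermediateField.adjoin K (insert (Tu K u (lc A x)) (Set.range (lc B fun i => τ (lc A x i)))) =
      IntermediateField.adjoin K (insert
        (∑ l : Fin n, algebraMap K L (∑ k : Fin (a + 1), u ^ ((k : ℕ) + 1) * A k l) * x l)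
        (Set.range (lc (fun i j => ∑ k, B i k * A k j) fun l : Fin n => τ (x l)))) := by
  have h1 : (fun i => τ (lc A x i)) = lc A fun l => τ (x l) := by
    funext i
    unfold lc
    rw [map_sum]
    refine Finset.sum_congr rfl fun j _ => ?_
    rw [map_mul, AlgHom.commutes]
  have h2 := PSecPM.lc_lc B A fun l => τ (x l)
  have h3 := congrFun (PSecPM.lc_lc (fun (_ : Fin 1) (j : Fin (a + 1)) => u ^ ((j : ℕ) + 1)) A x) 0
  rw [h1, h2, T3E0XM.Tu_eq, T3E0XM.adjoin_one, ← Set.insert_eq]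
  unfold lc at h3
  unfold lc
  rw [h3]

/-- Sections with smaller coefficients are sections. -/
theorem sct_mono {n : ℕ} (ξ : Fin (n + 1) → L) (T : L) (z' : Fin n → L) (Z₀ : Pl n K) (P P' j q : ℕ)
    (hP : P ≤ P') (h : SctP K ξ T z' Z₀ P j q) : SctP K ξ T z' Z₀ P' j q := by
  obtain ⟨G, S, h1, h2, h3⟩ := h
  exact ⟨G, S, h1, fun α => (h2 α).trans hP, h3⟩

/-- The numbers. -/
theorem nums (F e₀ c₁ c₂ e' A : ℕ) (X X' G H Zv C₁ C₂ C₃ C₄ : ℝ) (hc₁ : 1 ≤ c₁) (he₀ : 1 ≤ e₀)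
    (hF : F ≤ e₀) (hX : 0 ≤ X) (hG : 0 ≤ G)
    (h1 : ((e₀ * (4 * c₁) : ℕ) : ℝ) * G ≤ 2 * ((1 : ℕ) : ℝ) * H + ((4 * A * e' * (4 * c₁) : ℕ) : ℝ) * Zv + C₃)
    (h2 : H ≤ c₁ * G + C₁) (h3 : X ≤ c₂ * G + C₂) (h4 : Zv ≤ X' + C₄) :
    (F : ℝ) * X ≤ ((8 * A * c₂ : ℕ) : ℝ) * e' * X' +
      (c₂ * (8 * A * e' * C₄ + |2 * C₁ + C₃|) + e₀ * C₂) := by
  have hc₁' : (1 : ℝ) ≤ c₁ := by exact_mod_cast hc₁
  have he₀' : (1 : ℝ) ≤ e₀ := by exact_mod_cast he₀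
  have hF' : (F : ℝ) ≤ e₀ := by exact_mod_cast hF
  have hA : (0 : ℝ) ≤ A := Nat.cast_nonneg A
  have he' : (0 : ℝ) ≤ e' := Nat.cast_nonneg e'
  have hc₂ : (0 : ℝ) ≤ c₂ := Nat.cast_nonneg c₂
  push_cast at h1 ⊢
  have h5 : (c₁ : ℝ) * G ≤ c₁ * (e₀ * G) :=
    mul_le_mul_of_nonneg_left (le_mul_of_one_le_left hG he₀') (by linarith)
  have h6 : 2 * (c₁ : ℝ) * (e₀ * G) ≤ 2 * c₁ * (8 * A * e' * Zv) + (2 * C₁ + C₃) := by
    nlinarith
  have h7 : 2 * C₁ + C₃ ≤ 2 * c₁ * |2 * C₁ + C₃| := by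
    have := le_abs_self (2 * C₁ + C₃)
    have h8 : |2 * C₁ + C₃| ≤ 2 * c₁ * |2 * C₁ + C₃| :=
      le_mul_of_one_le_left (abs_nonneg _) (by linarith)
    linarith
  have h8 : (e₀ : ℝ) * G ≤ 8 * A * e' * Zv + |2 * C₁ + C₃| := by
    have h9 : 2 * (c₁ : ℝ) * (e₀ * G) ≤ 2 * c₁ * (8 * A * e' * Zv + |2 * C₁ + C₃|) := by
      rw [mul_add]
      linarith
    exact le_of_mul_le_mul_left h9 (by linarith)
  have h9 : (e₀ : ℝ) * G ≤ 8 * A * e' * (X' + C₄) + |2 * C₁ + C₃| := by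
    have : (8 : ℝ) * A * e' * Zv ≤ 8 * A * e' * (X' + C₄) := mul_le_mul_of_nonneg_left h4 (by positivity)
    linarith
  calc (F : ℝ) * X ≤ e₀ * X := mul_le_mul_of_nonneg_right hF' hX
    _ ≤ e₀ * (c₂ * G + C₂) := mul_le_mul_of_nonneg_left h3 (by linarith)
    _ = c₂ * (e₀ * G) + e₀ * C₂ := by ring
    _ ≤ c₂ * (8 * A * e' * (X' + C₄) + |2 * C₁ + C₃|) + e₀ * C₂ := by
        have := mul_le_mul_of_nonneg_left h9 hc₂
        linarith
    _ = _ := by ring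

end QSiuZM

open QSiuZM in
theorem qSiuZ : StmtZCo → StmtSecY → StmtHtP → StmtHiY → StmtCgY → StmtCzX → StmtVlA → StmtTB → StmtCuG →
    StmtSiuZ := by
  intro hZ hS hHt hHi hCg hCz hVl hTB hCu K _ _ n a P 𝔭 _ hM hP hrk L _ _ _ _ _
  obtain ⟨η, hη⟩ : ∃ η : Fin (n + 1) → L, η = fun i => toF 𝔭 L (MvPolynomial.X i) := ⟨_, rfl⟩
  obtain ⟨x, hxx⟩ : ∃ x : Fin n → L, x = fun l : Fin n => toF 𝔭 L (MvPolynomial.X l.succ) := ⟨_, rfl⟩
  have hηx : (fun l : Fin n => η l.succ) = x := by rw [hη, hxx]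
  have htop : IntermediateField.adjoin K (Set.range η) = ⊤ := by
    rw [hη]
    exact (hCu K (n + 1) 𝔭 L).1
  have hae : ∀ G : Pl (n + 1) K, MvPolynomial.aeval η G = toF 𝔭 L G := by
    intro G
    rw [hη, T3Fin3M.aeval_toF]
  have hmem : ∀ G : Pl (n + 1) K, G ∈ 𝔭 → toF 𝔭 L G = 0 := by
    intro G hG
    have h1 : cl 𝔭 G = 0 := Ideal.Quotient.eq_zero_iff_mem.2 hG
    show algebraMap (CR 𝔭) L (cl 𝔭 G) = 0
    rw [h1, map_zero]
  have htr : Algebra.trdeg K L = (a + 1 : ℕ) := by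
    have halg := hTB.2.2.1 K n P 𝔭 hM hP L
    obtain ⟨α, hα⟩ := hTB.1 K L n _ halg
    have hcard : Fintype.card α = a + 1 := by rw [← hrk]; exact hTB.2.1 K (n + 1) 𝔭 L α _ hα
    rw [← hα.cardinalMk_eq_trdeg, Cardinal.mk_fintype, hcard]
  have hint : Intx K (fun l : Fin n => η l.succ) (η 0) := by
    refine ⟨MvPolynomial.finSuccEquiv K n P, hM, ?_⟩
    rw [T3LnDM.eval_fse, hae, hmem P hP]
  obtain ⟨ζ, A, hζ, hζA, hxi⟩ := hZ K L n a η htr hint htop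
  obtain ⟨g, hg⟩ : ∃ g : Fin (a + 1) → L, g = fun i => ζ i.succ := ⟨_, rfl⟩
  have hgA : g = lc A x := by rw [hg, hζA, hηx]
  have hgai : AlgebraicIndependent K g := by rw [hg]; exact hζ.ai
  obtain ⟨c₁, hc₁, hC₁⟩ := hCz K L (a + 1) ζ hζ
  obtain ⟨c₂, -, hC₂⟩ := hHi K L (n + 1) (a + 1) n η g x (by
    intro l
    have h1 := hxi l
    rw [← hg] at h1
    rw [← hηx]
    exact h1)
  refine ⟨8 * (a + 1) * c₂, fun τ e' he' hdeg => ?_⟩
  obtain ⟨z', hz'⟩ : ∃ z' : Fin (a + 1) → L, z' = fun i => τ (g i) := ⟨_, rfl⟩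
  have hz'ai : AlgebraicIndependent K z' := by
    rw [hz']
    exact hgai.map' (f := τ) τ.toRingHom.injective
  obtain ⟨Z₀, hZ₀, hZi⟩ := PRecPM.den_all ζ hζ z'
  obtain ⟨e₀, he₀⟩ : ∃ e₀, e₀ = Module.finrank (IntermediateField.adjoin K (Set.range z')) L := ⟨_, rfl⟩
  have hsec : ∀ u' : K, u' ≠ 0 → 1 ≤ e₀ ∧ ∃ c i₀ : ℕ, ∀ i, i₀ ≤ i → SctP K ζ (Tu K u' g) z' Z₀ c
      (4 * (a + 1) * e' * i) (e₀ * i) := by
    intro u' hu'
    have h1 := hS K L a ζ hζ z' hz'ai Z₀ hZ₀ hZi u' e' hu' he' (by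
      intro B
      rw [← hg, hgA, hz', hgA, adj]
      have h2 := hdeg (fun i j => ∑ k, B i k * A k j)
        (fun l => ∑ k : Fin (a + 1), u' ^ ((k : ℕ) + 1) * A k l)
      rw [hxx]
      exact h2)
    rw [← hg, ← he₀] at h1
    exact h1
  have he₀1 : 1 ≤ e₀ := (hsec 1 one_ne_zero).1
  have hfin : {u : K | ¬ ∃ i₀ : ℕ, ∀ i, i₀ ≤ i →
      SctP K ζ (Tu K u g) z' Z₀ (1 * i) (4 * (a + 1) * e' * (4 * c₁) * i) (e₀ * (4 * c₁) * i)}.Finite := by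
    refine (Set.finite_singleton (0 : K)).subset ?_
    intro u hu
    by_contra hu0
    apply hu
    obtain ⟨-, c, i₀, hi₀⟩ := hsec u hu0
    refine ⟨max c i₀, fun i hi => ?_⟩
    have h1 := hi₀ (4 * c₁ * i) (((le_max_right c i₀).trans hi).trans (Nat.le_mul_of_pos_left i (by omega)))
    have h2 := sct_mono ζ (Tu K u g) z' Z₀ c (1 * i) _ _ (by rw [one_mul]; exact (le_max_left c i₀).trans hi) h1
    have e1 : 4 * (a + 1) * e' * (4 * c₁ * i) = 4 * (a + 1) * e' * (4 * c₁) * i := (mul_assoc _ _ _).symm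
    have e2 : e₀ * (4 * c₁ * i) = e₀ * (4 * c₁) * i := (mul_assoc _ _ _).symm
    rw [e1, e2] at h2
    exact h2
  obtain ⟨B, hB, hB'⟩ := hHt K L (a + 1) ζ (Nat.le_add_left _ _) hζ g z' Z₀ 1 (4 * (a + 1) * e' * (4 * c₁))
    (e₀ * (4 * c₁)) hZ₀ hZi hgai le_rfl (Nat.mul_pos (Nat.mul_pos (by omega) he') (by omega))
    (Nat.mul_pos he₀1 (by omega)) hfin
  obtain ⟨Q, hQ, hQ'⟩ := hCg K L (n + 1) (a + 2) (a + 1) η ζ htop hζ.gen z' B hB
  refine ⟨Q, fun hQ0 => hQ (by rw [hae, hmem Q hQ0]), fun Ω _ _ h => ?_⟩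
  obtain ⟨C₁, hC₁'⟩ := hC₁ Ω h
  obtain ⟨C₂, hC₂'⟩ := hC₂ Ω h
  obtain ⟨C₃, hC₃⟩ := hB' Ω h
  obtain ⟨C₄, hC₄⟩ := h.lin (ι := Fin (n + 1)) (κ := Fin (a + 2))
    (fun i j => Fin.cases (Fin.cases 1 (fun _ => 0) j) (fun i' => Fin.cases 0 (fun j' => algebraMap K Ω (A i' j')) j) i)
  refine ⟨(c₂ * (8 * ((a + 1 : ℕ) : ℝ) * e' * C₄ + |2 * C₁ + C₃|) + e₀ * C₂), fun pt pt' hpt hQpt hval => ?_⟩
  have hOn : OnX K η pt := by
    intro G hG
    refine hpt G ?_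
    rw [hae] at hG
    by_contra hG'
    exact T3Fin3M.toF_ne 𝔭 L hG' hG
  obtain ⟨pt₂, hOn₂, hv₂, hB₂, hw₂⟩ := hQ' Ω pt hOn hQpt
  obtain ⟨hv1, hv2, -, -, -, hv6⟩ := hVl K L Ω (n + 1) η pt hOn
  obtain ⟨-, hu2, -, -, -, -⟩ := hVl K L Ω (a + 2) ζ pt₂ hOn₂
  obtain ⟨gv, hgv⟩ : ∃ gv : Fin (a + 1) → Ω, gv = fun i => pt₂ i.succ := ⟨_, rfl⟩
  obtain ⟨zv, hzv⟩ : ∃ zv : Fin (a + 1) → Ω, zv = fun i => ∑ j, algebraMap K Ω (A i j) * pt' j.succ := ⟨_, rfl⟩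
  have hgval : ∀ i, VlX K ζ pt₂ (g i) (gv i) := by
    intro i
    have h1 := hu2 (MvPolynomial.X i.succ)
    rw [MvPolynomial.aeval_X, MvPolynomial.aeval_X] at h1
    rw [hg, hgv]
    exact h1
  have hzval : ∀ i, VlX K ζ pt₂ (z' i) (zv i) := by
    intro i
    refine hw₂ i _ ?_
    have h1 := hv6 n (fun l => τ (x l)) (fun l => pt' l.succ) (by
      intro l
      have h2 := hval l
      rw [← hη] at h2
      rw [hxx]
      exact h2) (∑ j : Fin n, MvPolynomial.C (A i j) * MvPolynomial.X j)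
    have h3 : MvPolynomial.aeval (fun l => τ (x l)) (∑ j : Fin n, MvPolynomial.C (A i j) * MvPolynomial.X j) =
        z' i := by
      rw [hz', hgA]
      change _ = τ (∑ j, algebraMap K L (A i j) * x j)
      rw [map_sum, map_sum]
      refine Finset.sum_congr rfl fun j _ => ?_
      rw [map_mul, MvPolynomial.aeval_C, MvPolynomial.aeval_X, map_mul, AlgHom.commutes]
    have h4 : MvPolynomial.aeval (fun l => pt' l.succ) (∑ j : Fin n, MvPolynomial.C (A i j) * MvPolynomial.X j) =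
        zv i := by
      rw [hzv, map_sum]
      refine Finset.sum_congr rfl fun j _ => ?_
      rw [map_mul, MvPolynomial.aeval_C, MvPolynomial.aeval_X]
    rw [h3, h4] at h1
    exact h1
  have hi1 := hC₃ pt₂ gv zv hOn₂ hB₂ hgval hzval
  have hi2 : h.H (hcN pt₂) ≤ c₁ * h.H (hcN gv) + C₁ := by
    rw [hgv]
    exact hC₁' pt₂ hOn₂
  have hi3 : hx h pt ≤ c₂ * h.H (hcN gv) + C₂ := by
    refine hC₂' pt gv (fun l => pt l.succ) hOn (fun i => ?_) (fun l => ?_)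
    · rw [hg, hgv]
      exact hv₂ i.succ
    · have h1 := hv2 (MvPolynomial.X l.succ)
      rw [MvPolynomial.aeval_X, MvPolynomial.aeval_X] at h1
      rw [← hηx]
      exact h1
  have hi4 : h.H (hcN zv) ≤ hx h pt' + C₄ := by
    have h1 := hC₄ (hcN fun l : Fin n => pt' l.succ)
    have h2 : (fun j : Fin (a + 2) => ∑ i : Fin (n + 1),
        (Fin.cases (Fin.cases 1 (fun _ => 0) i) (fun i' => Fin.cases 0 (fun j' => algebraMap K Ω (A i' j')) i) j : Ω) *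
          (hcN fun l : Fin n => pt' l.succ) i) = hcN zv := by
      funext j
      refine Fin.cases ?_ (fun j' => ?_) j
      · rw [Fin.sum_univ_succ]
        unfold hcN
        simp
      · rw [Fin.sum_univ_succ]
        unfold hcN
        simp [hzv]
    rw [h2] at h1
    exact h1
  have hF : Module.finrank τ.fieldRange L ≤ e₀ := by
    have hle : IntermediateField.adjoin K (Set.range z') ≤ τ.fieldRange := by
      rw [IntermediateField.adjoin_le_iff]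
      rintro _ ⟨i, rfl⟩
      rw [hz']
      exact ⟨g i, rfl⟩
    have h1 := IntermediateField.relfinrank_mul_finrank_top hle
    rw [← he₀] at h1
    have h2 : IntermediateField.relfinrank (IntermediateField.adjoin K (Set.range z')) τ.fieldRange ≠ 0 := by
      intro h0
      rw [h0, zero_mul] at h1
      omega
    rw [← h1]
    exact Nat.le_mul_of_pos_left _ (Nat.pos_of_ne_zero h2)
  exact nums _ e₀ c₁ c₂ e' (a + 1) (hx h pt) (hx h pt') (h.H (hcN gv)) (h.H (hcN pt₂)) (h.H (hcN zv)) C₁ C₂ C₃ C₄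
    hc₁ he₀1 hF (h.nonneg _) (h.nonneg _) hi1 hi2 hi3 hi4

end Pool.Agent.Lib.MP_16285c_agX
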