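import Pool.Agent.Lib.MP_16285c_agB.SpecG
import Pool.Agent.Lib.MP_16285c_agX.T3.IntA
import Pool.Agent.Lib.MP_16285c_agX.T3.Dg1
import Pool.Agent.Lib.MP_16285c_agN.Degr.UpF

/-!
# ZDB: coordinates which are linear forms (ZCo)
-/

set_option autoImplicit false

namespace Pool.Agent.Lib.MP_16285c_agX

open Pool.Agent.Lib.MP_16285c_ag Pool.Agent.Lib.MP_16285c_agN

namespace QZCoM

open T3Dg1M T3IntAM

variable {K L : Type} [Field K] [Field L] [Algebra K L]

/-- The polynomials in `l` form a Noetherian ring. -/
theorem noeth {s : ℕ} (l : Fin s → L) : IsNoetherianRing (Algebra.adjoin K (Set.range l)) :=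
  isNoetherianRing_of_surjective (MvPolynomial (Fin s) K) (Algebra.adjoin K (Set.range l))
    ((phi l : MvPolynomial (Fin s) K →ₐ[K] Algebra.adjoin K (Set.range l)) :
      MvPolynomial (Fin s) K →+* Algebra.adjoin K (Set.range l)) (phi_surj l)

/-- The coordinates are integral over the polynomials in `l`. -/
theorem int_x {n s : ℕ} (x : Fin n → L) (l : Fin s → L) (W : Submodule K L) (hW : W.FG)
    (hV : ∀ k : ℕ, Vd K x k ≤ W * Vd K l k) (j : Fin n) :
    IsIntegral (Algebra.adjoin K (Set.range l)) (x j) := by
  have hN := noeth (K := K) l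
  let M : Submodule (Algebra.adjoin K (Set.range l)) L :=
    Submodule.span (Algebra.adjoin K (Set.range l)) (W : Set L)
  have hM : M.FG := by
    obtain ⟨t, ht⟩ := hW
    refine ⟨t, ?_⟩
    show Submodule.span (Algebra.adjoin K (Set.range l)) (t : Set L) =
      Submodule.span (Algebra.adjoin K (Set.range l)) (W : Set L)
    rw [← ht, Submodule.span_span_of_tower]
  have hMf : Module.Finite (Algebra.adjoin K (Set.range l)) M := Module.Finite.iff_fg.2 hM
  have hle : ∀ a : ℕ, ∀ y ∈ Vd K x a, y ∈ M := by
    intro a y hy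
    have h1 : W * Vd K l a ≤ M.restrictScalars K := by
      rw [Submodule.mul_le]
      intro w hw v hv
      obtain ⟨p, -, rfl⟩ := Submodule.mem_map.1 hv
      have h : MvPolynomial.aeval l p ∈ Algebra.adjoin K (Set.range l) := by
        rw [Algebra.adjoin_range_eq_range_aeval]
        exact ⟨p, rfl⟩
      have h2 : w * (MvPolynomial.aeval l).toLinearMap p =
          (⟨MvPolynomial.aeval l p, h⟩ : Algebra.adjoin K (Set.range l)) • w := by
        rw [mul_comm]
        rfl
      rw [h2]
      exact M.smul_mem _ (Submodule.subset_span hw)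
    exact h1 (hV a hy)
  have hA : (Subalgebra.toSubmodule (Algebra.adjoin (Algebra.adjoin K (Set.range l)) {x j})) ≤ M := by
    rw [Algebra.adjoin_eq_span, Submodule.span_le]
    intro y hy
    obtain ⟨k, rfl⟩ := Submonoid.mem_closure_singleton.1 hy
    exact hle k _ (DegrUpFM.pow_mem_Vd x j k)
  exact IsIntegral.of_mem_of_fg (Algebra.adjoin (Algebra.adjoin K (Set.range l)) {x j})
    (Submodule.FG.of_le_of_isNoetherian hA) (x j) (Algebra.subset_adjoin rfl)

/-- Transitivity. -/
theorem int_trans {n s : ℕ} (x : Fin n → L) (l : Fin s → L) (u : L)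
    (hx : ∀ j, IsIntegral (Algebra.adjoin K (Set.range l)) (x j)) (hu : Intx K x u) :
    IsIntegral (Algebra.adjoin K (Set.range l)) u := by
  obtain ⟨F, hF, h0⟩ := hu
  have hm : ∀ G : Pl n K, MvPolynomial.aeval x G ∈
      integralClosure (Algebra.adjoin K (Set.range l)) L := by
    intro G
    induction G using MvPolynomial.induction_on with
    | C a =>
      rw [MvPolynomial.aeval_C]
      have h1 : algebraMap K L a =
          algebraMap (Algebra.adjoin K (Set.range l)) L (algebraMap K _ a) := rfl
      rw [h1]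
      exact (integralClosure (Algebra.adjoin K (Set.range l)) L).algebraMap_mem _
    | add p q hp hq =>
      rw [map_add]
      exact Subalgebra.add_mem _ hp hq
    | mul_X p i hp =>
      rw [map_mul, MvPolynomial.aeval_X]
      exact Subalgebra.mul_mem _ hp (hx i)
  let f : Pl n K →+* integralClosure (Algebra.adjoin K (Set.range l)) L :=
    ((MvPolynomial.aeval x : Pl n K →ₐ[K] L) : Pl n K →+* L).codRestrict
      (integralClosure (Algebra.adjoin K (Set.range l)) L) hm
  have h2 : IsIntegral (integralClosure (Algebra.adjoin K (Set.range l)) L) u := by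
    refine ⟨F.map f, hF.map f, ?_⟩
    rw [Polynomial.eval₂_map]
    exact h0
  exact isIntegral_trans u h2

end QZCoM

open QZCoM T3Dg1M T3IntAM in
/-- (ZCo) Coordinates which are linear forms. -/
theorem qZCo : StmtNN → StmtIntA → StmtZCo := by
  intro hNN hInt K L _ _ _ _ n a η htr h0 hgen
  obtain ⟨s, A, hai, W, hW, hV⟩ := hNN K K L n (fun l : Fin n => η l.succ)
  set l : Fin s → L := fun i => ∑ j, algebraMap K L (A i j) * η j.succ with hl
  have hx : ∀ j : Fin n, IsIntegral (Algebra.adjoin K (Set.range l)) (η j.succ) := fun j =>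
    int_x (fun l : Fin n => η l.succ) l W hW hV j
  have hη : ∀ i, Intx K l (η i) := by
    intro i
    rw [hInt]
    refine Fin.cases ?_ (fun j => hx j) i
    exact int_trans (fun l : Fin n => η l.succ) l (η 0) hx h0
  have hfin : FiniteDimensional (IntermediateField.adjoin K (Set.range l)) L :=
    finite_of_alg η hgen _ fun i => int_of_intx l (η i) (hη i) _ fun j =>
      IntermediateField.subset_adjoin K _ ⟨j, rfl⟩
  have halg : Algebra.IsAlgebraic (IntermediateField.adjoin K (Set.range l)) L :=
    Algebra.IsAlgebraic.of_finite _ _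
  have hb : IsTranscendenceBasis K l :=
    isTranscendenceBasis_iff_algebraicIndependent_isAlgebraic.2 ⟨hai, alg_of_adjoin _ halg⟩
  have hs : s = a + 1 := by
    have h1 := hb.cardinalMk_eq_trdeg
    rw [htr, Cardinal.mk_fin] at h1
    exact_mod_cast h1
  clear_value l
  subst hs
  have h2 := alg_of_adjoin _ halg
  obtain ⟨α, hα⟩ := Field.exists_primitive_element (IntermediateField.adjoin K (Set.range l)) L
  obtain ⟨y, hy, hyu⟩ := (h2.isAlgebraic α).exists_integral_multiple
  obtain ⟨Z, hZ⟩ := phi_surj (K := K) l y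
  have hd0 : MvPolynomial.aeval l Z ≠ 0 := by
    intro h3
    apply hy
    rw [← hZ]
    exact Subtype.ext h3
  have hdα : Intx K l (MvPolynomial.aeval l Z * α) := by
    rw [hInt]
    have h3 : y • α = MvPolynomial.aeval l Z * α := by
      rw [Algebra.smul_def, ← hZ]
      rfl
    rw [← h3]
    exact hyu
  have hsucc : (fun i : Fin (a + 1) =>
      (Fin.cons (MvPolynomial.aeval l Z * α) l : Fin (a + 2) → L) i.succ) = l := by
    funext i
    exact Fin.cons_succ _ _ i
  refine ⟨Fin.cons (MvPolynomial.aeval l Z * α) l, A, ⟨?_, ?_, ?_⟩, ?_, ?_⟩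
  · rw [hsucc]
    exact hai
  · rw [hsucc]
    exact hdα
  · set M := IntermediateField.adjoin K
      (Set.range (Fin.cons (MvPolynomial.aeval l Z * α) l : Fin (a + 2) → L)) with hMdef
    have hlM : ∀ i, l i ∈ M := fun i =>
      IntermediateField.subset_adjoin K _ ⟨i.succ, Fin.cons_succ _ _ i⟩
    have h4 : IntermediateField.adjoin K (Set.range l) ≤ M := by
      rw [IntermediateField.adjoin_le_iff]
      rintro _ ⟨i, rfl⟩
      exact hlM i
    have h5 : MvPolynomial.aeval l Z * α ∈ M :=
      IntermediateField.subset_adjoin K _ ⟨0, Fin.cons_zero _ _⟩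
    have h6 : α ∈ M := by
      have h7 : α = (MvPolynomial.aeval l Z)⁻¹ * (MvPolynomial.aeval l Z * α) := by
        rw [← mul_assoc, inv_mul_cancel₀ hd0, one_mul]
      rw [h7]
      exact M.mul_mem (M.inv_mem (aeval_mem l M hlM Z)) h5
    have h8 : (⊤ : IntermediateField (IntermediateField.adjoin K (Set.range l)) L) ≤
        IntermediateField.extendScalars h4 := by
      rw [← hα, IntermediateField.adjoin_le_iff]
      intro u hu
      rw [Set.mem_singleton_iff] at hu
      rw [hu]
      exact h6
    rw [eq_top_iff]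
    intro u _
    exact h8 (IntermediateField.mem_top : u ∈ (⊤ : IntermediateField _ L))
  · rw [hsucc, hl]
    rfl
  · intro j
    rw [hsucc]
    exact hη j.succ

end Pool.Agent.Lib.MP_16285c_agX
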