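import Pool.Agent.Lib.MP_16285c_agP.AllZ
import Pool.Agent.Lib.MP_16285c_agP.AllA
import Pool.Agent.Lib.MP_16285c_agB.CgY
import Pool.Agent.Lib.MP_16285c_agB.DgY
import Pool.Agent.Lib.MP_16285c_agB.EndB
import Pool.Agent.Lib.MP_16285c_agB.GdB
import Pool.Agent.Lib.MP_16285c_agB.HiY
import Pool.Agent.Lib.MP_16285c_agB.SecY
import Pool.Agent.Lib.MP_16285c_agB.SiuZ
import Pool.Agent.Lib.MP_16285c_agB.ZCo

/-!
# ZDB, section G: closed forms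
-/

set_option autoImplicit false

namespace Pool.Agent.Lib.MP_16285c_agX

open Pool.Agent.Lib.MP_16285c_ag Pool.Agent.Lib.MP_16285c_agN

theorem dDgY : StmtDgY :=
  qDgY tRsE (tLocO tRsE tA2) tTB (tRlZ tRelX) cSyZ tRgZ (tEmZ tRsE) tThetaX (tIdZ tQrZ) (tCtZ tVd)
    (tUzZ tNN (tXUpW tVd)) tBkZ (tFtZ tG1 tTB) (tNum tCnt) tCuG

theorem dZCo : StmtZCo := qZCo tNN yIntA

theorem dHiY : StmtHiY := qHiY yVlA (yHUpB yHSeq yHMon) tRtX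

theorem dCgY : StmtCgY := qCgY yVlA

theorem dSecY : StmtSecY := qSecY (tUzZ tNN (tXUpW tVd)) pLbP (pNumP pCntC)

theorem dSiuZ : StmtSiuZ := qSiuZ dZCo dSecY tHtP dHiY dCgY yCzX yVlA tTB tCuG

theorem dGdB : StmtGdB := qGdB yVlA (yFlV yVlA) (tGdZ yVlA (yFlV yVlA))

theorem dEndB : StmtEndB := qEndB tDvE tRsR tG1 dDgY dSiuZ dGdB tNmZ (yFlV yVlA)

end Pool.Agent.Lib.MP_16285c_agX
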