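import Pool.Agent.Lib.MP_16285c_agB.SpecE

/-!
# Hensel's lemma in several variables for valuation rings of algebraically closed fields (HenV)
-/

set_option autoImplicit false

namespace Pool.Agent.Lib.MP_16285c_agX

open MvPolynomial

namespace QHenVM

/-- The algebra `A[X]/(F)[1/Jac]` is etale. -/
theorem etale (A : Type) [CommRing A] (n : ℕ) (F : Fin n → MvPolynomial (Fin n) A)
    (T : Type) [CommRing T] [Algebra A T]
    [Algebra (MvPolynomial (Fin n) A ⧸ Ideal.span (Set.range F)) T]
    [IsScalarTower A (MvPolynomial (Fin n) A ⧸ Ideal.span (Set.range F)) T]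
    [IsLocalization.Away (Ideal.Quotient.mk (Ideal.span (Set.range F))
      (Matrix.of fun i l => pderiv l (F i)).det) T] :
    Algebra.Etale A T := by
  classical
  let P : Algebra.PreSubmersivePresentation A
      (MvPolynomial (Fin n) A ⧸ Ideal.span (Set.range F)) (Fin n) (Fin n) :=
    Algebra.PreSubmersivePresentation.naive (v := F) id Function.injective_id
  let Q := Algebra.PreSubmersivePresentation.localizationAway T
    (Ideal.Quotient.mk (Ideal.span (Set.range F)) (Matrix.of fun i l => pderiv l (F i)).det)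
  have hP : P.jacobian = Ideal.Quotient.mk (Ideal.span (Set.range F))
      (Matrix.of fun i l => pderiv l (F i)).det := by
    rw [Algebra.PreSubmersivePresentation.jacobian_eq_jacobiMatrix_det]
    have h1 : P.jacobiMatrix = (Matrix.of fun i l => pderiv l (F i)).transpose := by
      ext1 i j
      rw [Algebra.PreSubmersivePresentation.jacobiMatrix_naive]
      rfl
    rw [h1, Matrix.det_transpose]
    have h3 : (aeval P.val : MvPolynomial (Fin n) A →ₐ[A]
        (MvPolynomial (Fin n) A ⧸ Ideal.span (Set.range F))) =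
        Ideal.Quotient.mkₐ A (Ideal.span (Set.range F)) := by
      refine MvPolynomial.algHom_ext fun i => ?_
      rw [aeval_X]
      rfl
    rw [Algebra.Generators.algebraMap_apply]
    exact congrArg (fun g : MvPolynomial (Fin n) A →ₐ[A]
        (MvPolynomial (Fin n) A ⧸ Ideal.span (Set.range F)) =>
      g (Matrix.of fun i l => pderiv l (F i)).det) h3
  have hj : IsUnit (Q.comp P).jacobian := by
    rw [Algebra.PreSubmersivePresentation.comp_jacobian_eq_jacobian_smul_jacobian,
      Algebra.PreSubmersivePresentation.localizationAway_jacobian, Algebra.smul_def, hP]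
    have h2 := IsLocalization.Away.algebraMap_isUnit (S := T) (Ideal.Quotient.mk
      (Ideal.span (Set.range F)) (Matrix.of fun i l => pderiv l (F i)).det)
    exact h2.mul h2
  have : Algebra.IsStandardSmoothOfRelativeDimension 0 A T :=
    Algebra.SubmersivePresentation.isStandardSmoothOfRelativeDimension
      { toPreSubmersivePresentation := Q.comp P, jacobian_isUnit := hj } (by
        simp [Algebra.Presentation.dimension])
  infer_instance

/-- Points of the special fibre of an etale algebra lift. -/
theorem lift (k : Type) [Field k] [IsAlgClosed k] (V : ValuationSubring k) (T : Type) [CommRing T]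
    [Algebra V T] [Algebra.Etale V T] (φ : T →ₐ[V] IsLocalRing.ResidueField V) :
    ∃ θ : T →ₐ[V] k, ∀ t, ∃ v : V, θ t = (v : k) ∧ φ t = IsLocalRing.residue V v := by
  classical
  obtain ⟨Q, hQ⟩ : ∃ Q : Ideal T, Q = RingHom.ker (φ : T →+* IsLocalRing.ResidueField V) := ⟨_, rfl⟩
  have hQp : Q.IsPrime := by
    rw [hQ]
    exact RingHom.ker_isPrime _
  have hQm : ∀ t, t ∈ Q ↔ φ t = 0 := by
    intro t
    rw [hQ]
    exact RingHom.mem_ker
  have hcomm : ∀ v : V, φ (algebraMap V T v) = IsLocalRing.residue V v := fun v => φ.commutes v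
  have hlo : Q.LiesOver (IsLocalRing.maximalIdeal V) := by
    constructor
    ext v
    rw [Ideal.under_def, Ideal.mem_comap, hQm, hcomm, IsLocalRing.residue_eq_zero_iff]
  have hflat : Module.Flat V T := inferInstance
  obtain ⟨P, hPQ, hP, hPo⟩ := Ideal.exists_ideal_le_liesOver_of_le (p := (⊥ : Ideal V))
    (q := IsLocalRing.maximalIdeal V) Q bot_le
  have hinj : Function.Injective (algebraMap V (T ⧸ P)) := by
    rw [injective_iff_map_eq_zero]
    intro v hv
    have h1 : algebraMap V T v ∈ P := by
      rw [← Ideal.Quotient.eq_zero_iff_mem]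
      exact hv
    have h2 : v ∈ P.under V := h1
    rw [← Ideal.over_def P (⊥ : Ideal V)] at h2
    exact (Ideal.mem_bot).1 h2
  have hinjL : Function.Injective (algebraMap V (FractionRing (T ⧸ P))) := by
    rw [IsScalarTower.algebraMap_eq V (T ⧸ P) (FractionRing (T ⧸ P))]
    exact (IsFractionRing.injective (T ⧸ P) (FractionRing (T ⧸ P))).comp hinj
  let _ : Algebra k (FractionRing (T ⧸ P)) := (IsFractionRing.lift hinjL).toAlgebra
  have hk : ∀ v : V, algebraMap k (FractionRing (T ⧸ P)) (v : k) =
      algebraMap V (FractionRing (T ⧸ P)) v := fun v => IsFractionRing.lift_algebraMap hinjL v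
  have htow : IsScalarTower V k (FractionRing (T ⧸ P)) :=
    IsScalarTower.of_algebraMap_eq fun v => (hk v).symm
  have h1 : Algebra.FormallyUnramified V (FractionRing (T ⧸ P)) := inferInstance
  have h2 : Algebra.FormallyUnramified k (FractionRing (T ⧸ P)) :=
    Algebra.FormallyUnramified.of_restrictScalars V k _
  have h3 : Algebra.EssFiniteType V (FractionRing (T ⧸ P)) := inferInstance
  have h4 : Algebra.EssFiniteType k (FractionRing (T ⧸ P)) := Algebra.EssFiniteType.of_comp V k _
  have h5 : Algebra.IsSeparable k (FractionRing (T ⧸ P)) :=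
    Algebra.FormallyUnramified.isSeparable k _
  have h6 : Function.Bijective (algebraMap k (FractionRing (T ⧸ P))) :=
    IsAlgClosed.algebraMap_bijective_of_isIntegral
  let e : k ≃+* FractionRing (T ⧸ P) := RingEquiv.ofBijective _ h6
  have he : ∀ c : k, e c = algebraMap k (FractionRing (T ⧸ P)) c := fun c => rfl
  let θ : T →ₐ[V] k :=
    { (e.symm : FractionRing (T ⧸ P) →+* k).comp ((algebraMap (T ⧸ P) (FractionRing (T ⧸ P))).comp
        (Ideal.Quotient.mk P)) with
      commutes' := by
        intro v
        show e.symm (algebraMap (T ⧸ P) (FractionRing (T ⧸ P))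
          (Ideal.Quotient.mk P (algebraMap V T v))) = (v : k)
        rw [RingEquiv.symm_apply_eq, he, hk]
        rfl }
  have hθ0 : ∀ t, θ t = 0 → φ t = 0 := by
    intro t ht
    have h7 : e.symm (algebraMap (T ⧸ P) (FractionRing (T ⧸ P)) (Ideal.Quotient.mk P t)) = 0 := ht
    rw [RingEquiv.symm_apply_eq, map_zero] at h7
    have h8 : Ideal.Quotient.mk P t = 0 :=
      (IsFractionRing.injective (T ⧸ P) (FractionRing (T ⧸ P))) (by rw [h7, map_zero])
    rw [Ideal.Quotient.eq_zero_iff_mem] at h8
    exact (hQm t).1 (hPQ h8)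
  refine ⟨θ, fun t => ?_⟩
  have hmem : θ t ∈ V := by
    by_contra hc
    have h0 : θ t ≠ 0 := by
      intro h
      rw [h] at hc
      exact hc V.zero_mem
    have hinvm : (θ t)⁻¹ ∈ V := (V.mem_or_inv_mem (θ t)).resolve_left hc
    obtain ⟨v, hv⟩ : ∃ v : V, v = ⟨(θ t)⁻¹, hinvm⟩ := ⟨_, rfl⟩
    have hvk : (v : k) = (θ t)⁻¹ := by rw [hv]
    have hnu : ¬ IsUnit v := by
      intro hu
      obtain ⟨w, hw⟩ := hu.exists_right_inv
      have hw' : (v : k) * (w : k) = 1 := congrArg Subtype.val hw
      rw [hvk] at hw'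
      have h9 : (w : k) = θ t := by
        rw [inv_mul_eq_one₀ h0] at hw'
        exact hw'.symm
      exact hc (h9 ▸ w.2)
    have h10 : θ (t * algebraMap V T v - 1) = 0 := by
      rw [map_sub, map_mul, map_one, θ.commutes]
      show θ t * (v : k) - 1 = 0
      rw [hvk, mul_inv_cancel₀ h0, sub_self]
    have h11 := hθ0 _ h10
    rw [map_sub, map_mul, map_one, hcomm] at h11
    have h12 : IsLocalRing.residue V v = 0 := by
      rw [IsLocalRing.residue_eq_zero_iff]
      exact hnu
    rw [h12, mul_zero, zero_sub, neg_eq_zero] at h11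
    exact one_ne_zero h11
  refine ⟨⟨θ t, hmem⟩, rfl, ?_⟩
  have h13 : θ (t - algebraMap V T ⟨θ t, hmem⟩) = 0 := by
    rw [map_sub, θ.commutes]
    show θ t - θ t = 0
    rw [sub_self]
  have h14 := hθ0 _ h13
  rw [map_sub, hcomm, sub_eq_zero] at h14
  exact h14

end QHenVM

/-- (HenV) Hensel's lemma in `n` variables. -/
theorem qHenV : StmtHenV := by
  intro k _ _ V n F a hF hJ
  classical
  let j := Ideal.Quotient.mk (Ideal.span (Set.range F)) (Matrix.of fun i l => pderiv l (F i)).det
  have het : Algebra.Etale V (Localization.Away j) := QHenVM.etale V n F (Localization.Away j)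
  -- the point
  let φ₀ : MvPolynomial (Fin n) V →ₐ[V] IsLocalRing.ResidueField V := aeval a
  have hφ₀ : ∀ G, φ₀ G = eval a (map (IsLocalRing.residue V) G) := by
    intro G
    rw [eval_map]
    rfl
  let φ₁ : (MvPolynomial (Fin n) V ⧸ Ideal.span (Set.range F)) →ₐ[V] IsLocalRing.ResidueField V :=
    Ideal.Quotient.liftₐ (Ideal.span (Set.range F)) φ₀ (by
      intro G hG
      have h1 : Ideal.span (Set.range F) ≤ RingHom.ker φ₀.toRingHom := by
        rw [Ideal.span_le]
        rintro _ ⟨i, rfl⟩
        show φ₀ (F i) = 0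
        rw [hφ₀]
        exact hF i
      exact h1 hG)
  have hφ₁ : ∀ G, φ₁ (Ideal.Quotient.mk _ G) = φ₀ G := fun G => rfl
  have hju : IsUnit (φ₁ j) := by
    rw [isUnit_iff_ne_zero, hφ₁, hφ₀]
    have h1 : eval a (map (IsLocalRing.residue V) (Matrix.of fun i l => pderiv l (F i)).det) =
        (Matrix.of fun i l => eval a (map (IsLocalRing.residue V) (pderiv l (F i)))).det := by
      rw [RingHom.map_det, RingHom.map_det]
      rfl
    rw [h1]
    exact hJ
  let φ₂ : Localization.Away j →+* IsLocalRing.ResidueField V :=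
    IsLocalization.Away.lift (g := (φ₁ : _ →+* IsLocalRing.ResidueField V)) j hju
  have hφ₂ : ∀ u, φ₂ (algebraMap _ (Localization.Away j) u) = φ₁ u := fun u =>
    IsLocalization.Away.lift_eq j hju u
  let φ : Localization.Away j →ₐ[V] IsLocalRing.ResidueField V :=
    { φ₂ with
      commutes' := by
        intro v
        show φ₂ (algebraMap V (Localization.Away j) v) = _
        rw [IsScalarTower.algebraMap_apply V (MvPolynomial (Fin n) V ⧸ Ideal.span (Set.range F))
          (Localization.Away j), hφ₂]
        exact φ₁.commutes v }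
  obtain ⟨θ, hθ⟩ := QHenVM.lift k V (Localization.Away j) φ
  let ι : MvPolynomial (Fin n) V →ₐ[V] Localization.Away j :=
    (IsScalarTower.toAlgHom V (MvPolynomial (Fin n) V ⧸ Ideal.span (Set.range F))
      (Localization.Away j)).comp (Ideal.Quotient.mkₐ V _)
  have hι : ∀ G, φ (ι G) = φ₀ G := fun G => hφ₂ _
  choose x hx1 hx2 using fun i : Fin n => hθ (ι (X i))
  refine ⟨x, fun i => ?_, fun i => ?_⟩
  · have h1 : θ (ι (F i)) = 0 := by
      have h2 : ι (F i) = 0 := by
        have h8 : Ideal.Quotient.mkₐ V (Ideal.span (Set.range F)) (F i) = 0 :=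
          Ideal.Quotient.eq_zero_iff_mem.2 (Ideal.subset_span (Set.mem_range_self i))
        have h9 : ι (F i) = (IsScalarTower.toAlgHom V
          (MvPolynomial (Fin n) V ⧸ Ideal.span (Set.range F)) (Localization.Away j))
          (Ideal.Quotient.mkₐ V (Ideal.span (Set.range F)) (F i)) := rfl
        rw [h9, h8, map_zero]
      rw [h2, map_zero]
    have h3 : θ.comp ι = (aeval fun i => ((x i : V) : k)) := by
      refine MvPolynomial.algHom_ext fun i => ?_
      rw [aeval_X]
      exact hx1 i
    have h4 : θ (ι (F i)) = aeval (fun i => ((x i : V) : k)) (F i) :=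
      congrArg (fun g : MvPolynomial (Fin n) V →ₐ[V] k => g (F i)) h3
    rw [h1] at h4
    have h5 : aeval (fun i => ((x i : V) : k)) (F i) = ((eval x (F i) : V) : k) := by
      have h6 := MvPolynomial.aeval_algebraMap_apply (A := V) (B := k) x (F i)
      have h7 : aeval x (F i) = eval x (F i) := rfl
      rw [h7] at h6
      exact h6
    rw [h5] at h4
    exact Subtype.ext h4.symm
  · have h1 := hx2 i
    rw [hι] at h1
    have h2 : φ₀ (X i) = a i := aeval_X _ _
    rw [h2] at h1
    exact h1.symm

end Pool.Agent.Lib.MP_16285c_agX
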