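import Pool.Agent.Lib.MP_16285c_agB.SpecE
import Pool.Agent.Lib.MP_16285c_agX.Box.OrbN

/-!
# Two-sided orbits over the Frobenius point (proof of `StmtOrbZ`)
-/

set_option autoImplicit false

namespace Pool.Agent.Lib.MP_16285c_agX

open MvPolynomial
open Pool.Agent.Lib.MP_16285c_ag (RM FrobPt Lies red liftP LiftAux.eval_frob LiftAux.lies_eval LiftAux.lies_zero)
open Pool.Agent.ZDO (Wd Jc ClN dd nn hz closed_place2 map_Jc)

namespace QOrbZM

/-- Periodicity of the powers. -/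
theorem per {κ : Type} [Monoid κ] (w : κ) (p s r : ℕ) (h : w ^ p ^ r = w) (c : ℕ) :
    w ^ (p ^ s) ^ (r * c) = w := by
  have h1 : ∀ c : ℕ, w ^ p ^ (r * c) = w := by
    intro c
    induction c with
    | zero => rw [mul_zero, pow_zero, pow_one]
    | succ c ih => rw [mul_add, mul_one, pow_add, pow_mul, ih, h]
  rw [← pow_mul, show s * (r * c) = r * (s * c) by ring]
  exact h1 _

theorem per' {κ : Type} [Monoid κ] (w : κ) (p s r : ℕ) (h : w ^ p ^ r = w) (c e : ℕ) :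
    w ^ (p ^ s) ^ (e + r * c) = w ^ (p ^ s) ^ e := by
  rw [add_comm, pow_add, pow_mul, per w p s r h c]

/-- A sequence of predecessors. -/
theorem back {k : Type} {n : ℕ} (T : ℕ → (Fin n → k) → Prop) (R : (Fin n → k) → (Fin n → k) → Prop)
    (h : ∀ t x', T t x' → ∃ x, T (t + 1) x ∧ R x x') (x₀ : Fin n → k) (h0 : T 0 x₀) :
    ∃ w : ℕ → Fin n → k, w 0 = x₀ ∧ ∀ t, T t (w t) ∧ R (w (t + 1)) (w t) := by
  classical
  have h' : ∀ t x', ∃ x, T t x' → T (t + 1) x ∧ R x x' := by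
    intro t x'
    by_cases hT : T t x'
    · obtain ⟨x, hx⟩ := h t x' hT
      exact ⟨x, fun _ => hx⟩
    · exact ⟨x', fun hc => absurd hc hT⟩
  choose g hg using h'
  let w : ℕ → Fin n → k := fun t => Nat.rec x₀ (fun t x => g t x) t
  have hw : ∀ t, T t (w t) := by
    intro t
    induction t with
    | zero => exact h0
    | succ t ih => exact (hg t (w t) ih).1
  exact ⟨w, rfl, fun t => ⟨hw t, (hg t (w t) (hw t)).2⟩⟩

/-- Gluing the two halves of a sequence. -/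
theorem glue {k : Type} {n : ℕ} (y w : ℕ → Fin n → k) (h : y 0 = w 0) :
    ∃ x : ℤ → Fin n → k, (∀ t : ℕ, x (t : ℤ) = y t) ∧ ∀ t : ℕ, x (-(t : ℤ)) = w t := by
  refine ⟨fun j => match j with
    | Int.ofNat t => y t
    | Int.negSucc t => w (t + 1), fun t => rfl, fun t => ?_⟩
  cases t with
  | zero => exact h
  | succ t => rfl

end QOrbZM

open QOrbZM in
/-- (OrbZ). -/
theorem qOrbZ : StmtPreV → StmtHcn → StmtOrbZ := by
  intro hPre hHc k _ _ m P V S R₀ hR₀ hR p s r₀ f₀ P₀ B₀ W₀ a hp hchar hs hfix hP hPW hr₀ har hfrob haB haJ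
  have : Fact p.Prime := ⟨hp⟩
  obtain ⟨N, hN, hcl⟩ := closed_place2 V S R₀ hR₀ hR p s hfix hs (m + 1) f₀ a r₀ hr₀ har hfrob haJ
  have hPW' : P * map R₀.subtype W₀ = hcn (f₀.map R₀.subtype) P.totalDegree P := by
    have h1 := congrArg (map R₀.subtype) hPW
    rw [map_mul, hP, hHc.1 R₀ k R₀.subtype (m + 1) f₀ P.totalDegree P₀, hP] at h1
    exact h1
  set ψ := red V R₀ hR with hψ
  have hsucc : ∀ (i : Fin (m + 1)) (j : ℕ), a i ^ (p ^ s) ^ (j + 1) = (a i ^ (p ^ s) ^ j) ^ p ^ s := by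
    intro i j
    rw [pow_succ (p ^ s) j, pow_mul]
  have hev : ∀ (j : ℕ) (G : MvPolynomial (Fin (m + 1)) R₀),
      eval (fun i => a i ^ (p ^ s) ^ j) (map ψ G) = (eval a (map ψ G)) ^ (p ^ s) ^ j := by
    intro j G
    induction j with
    | zero => simp
    | succ j ih =>
      simp only [hsucc]
      rw [hψ, LiftAux.eval_frob p s hfix, ← hψ, ih, pow_succ (p ^ s) j, pow_mul]
  have hnx : ∀ e : ℕ, (f₀.map ψ).Next (fun i => a i ^ (p ^ s) ^ e) (fun i => a i ^ (p ^ s) ^ (e + 1)) := by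
    intro e i
    obtain ⟨h1, h2⟩ := hfrob i
    have e1 : (f₀.map ψ).den i = map ψ (f₀.den i) := rfl
    have e2 : (f₀.map ψ).num i = map ψ (f₀.num i) := rfl
    rw [e1] at h1 h2
    rw [e2] at h2
    rw [e1, e2, hev, hev]
    refine ⟨pow_ne_zero _ h1, ?_⟩
    show a i ^ (p ^ s) ^ (e + 1) * _ = _
    rw [hsucc, ← h2, mul_pow, pow_right_comm]
  have hJe : ∀ e : ℕ, eval (fun i => a i ^ (p ^ s) ^ e) (Jc (f₀.map ψ)) ≠ 0 := by
    intro e
    rw [map_Jc, hev]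
    rw [map_Jc] at haJ
    exact pow_ne_zero _ haJ
  -- the predecessors
  have hback : ∀ (t : ℕ) (x' : Fin (m + 1) → k), (∀ i, Lies V (x' i) (a i ^ (p ^ s) ^ ((r₀ - 1) * t))) →
      ∃ x : Fin (m + 1) → k, (∀ i, Lies V (x i) (a i ^ (p ^ s) ^ ((r₀ - 1) * (t + 1)))) ∧
        (f₀.map R₀.subtype).Next x x' := by
    intro t x' hx'
    have h1 := hnx ((r₀ - 1) * (t + 1))
    have h2 : (fun i => a i ^ (p ^ s) ^ ((r₀ - 1) * (t + 1) + 1)) =
        fun i => a i ^ (p ^ s) ^ ((r₀ - 1) * t) := by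
      funext i
      have h3 : (r₀ - 1) * (t + 1) + 1 = (r₀ - 1) * t + r₀ * 1 := by
        rw [mul_add, mul_one, mul_one]
        omega
      rw [h3]
      exact per' (a i) p s r₀ (har i) 1 _
    rw [h2] at h1
    exact hPre k V R₀ hR (m + 1) f₀ _ _ h1 (hJe _) x' hx'
  refine ⟨N, hN, fun x₀ hx₀ hPx => ?_⟩
  obtain ⟨y, hy0, hy, hyL, -⟩ := liftP k V R₀ hR p s hfix (m + 1) f₀ a hfrob x₀ hx₀
  obtain ⟨w, hw0, hw⟩ := back (fun t x' => ∀ i, Lies V (x' i) (a i ^ (p ^ s) ^ ((r₀ - 1) * t)))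
    (fun x x' => (f₀.map R₀.subtype).Next x x') hback x₀ (by
      intro i
      rw [mul_zero, pow_zero, pow_one]
      exact hx₀ i)
  obtain ⟨x, hxy, hxw⟩ := glue y w (by rw [hy0, hw0])
  have hx0 : x 0 = x₀ := by
    have h1 := hxy 0
    rw [hy0] at h1
    exact h1
  have hnext : ∀ j : ℤ, (f₀.map R₀.subtype).Next (x j) (x (j + 1)) := by
    intro j
    obtain ⟨t, rfl | rfl⟩ := Int.eq_nat_or_neg j
    · have h1 : x ((t : ℤ) + 1) = y (t + 1) := hxy (t + 1)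
      rw [h1, hxy]
      exact hy t
    · cases t with
      | zero =>
        have h1 : x (-((0 : ℕ) : ℤ) + 1) = y 1 := hxy 1
        have h2 : x (-((0 : ℕ) : ℤ)) = y 0 := hxy 0
        rw [h1, h2]
        exact hy 0
      | succ t =>
        have h1 : -((t + 1 : ℕ) : ℤ) + 1 = -(t : ℤ) := by
          push_cast
          ring
        rw [h1, hxw, hxw]
        exact (hw t).2
  have hlies : ∀ j : ℤ, ∃ e : ℕ, ∀ i, Lies V (x j i) (a i ^ (p ^ s) ^ e) := by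
    intro j
    obtain ⟨t, rfl | rfl⟩ := Int.eq_nat_or_neg j
    · refine ⟨t, fun i => ?_⟩
      rw [hxy]
      exact hyL t i
    · refine ⟨(r₀ - 1) * t, fun i => ?_⟩
      rw [hxw]
      exact (hw t).1 i
  have hclu : ∀ u : ℕ, ClN N p (fun t : ℕ => x ((t : ℤ) - ((r₀ * u : ℕ) : ℤ))) := by
    intro u
    refine hcl _ ?_ ?_
    · intro t
      have h1 : (((t + 1 : ℕ)) : ℤ) - ((r₀ * u : ℕ) : ℤ) = ((t : ℤ) - ((r₀ * u : ℕ) : ℤ)) + 1 := by
        push_cast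
        ring
      show (f₀.map R₀.subtype).Next (x ((t : ℤ) - ((r₀ * u : ℕ) : ℤ)))
        (x (((t + 1 : ℕ) : ℤ) - ((r₀ * u : ℕ) : ℤ)))
      rw [h1]
      exact hnext _
    · intro i
      have h1 : (((0 : ℕ)) : ℤ) - ((r₀ * u : ℕ) : ℤ) = -((r₀ * u : ℕ) : ℤ) := by
        rw [Nat.cast_zero, zero_sub]
      show Lies V (x (((0 : ℕ) : ℤ) - ((r₀ * u : ℕ) : ℤ)) i) (a i)
      rw [h1, hxw]
      have h2 := (hw (r₀ * u)).1 i
      rw [show (r₀ - 1) * (r₀ * u) = r₀ * ((r₀ - 1) * u) by ring, per (a i) p s r₀ (har i)] at h2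
      exact h2
  have hclZ : ClZ N p x := by
    intro G j hG
    have hjp : 0 ≤ j + ((r₀ * j.natAbs : ℕ) : ℤ) := by
      have h1 : (j.natAbs : ℤ) ≤ ((r₀ * j.natAbs : ℕ) : ℤ) := by
        exact_mod_cast Nat.le_mul_of_pos_left _ hr₀
      have h2 : -j ≤ (j.natAbs : ℤ) := by omega
      linarith
    obtain ⟨t, ht⟩ := Int.eq_ofNat_of_zero_le hjp
    have h1 : (t : ℤ) - ((r₀ * j.natAbs : ℕ) : ℤ) = j := by
      have h2 : (t : ℤ) = j + ((r₀ * j.natAbs : ℕ) : ℤ) := ht.symm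
      rw [h2]
      ring
    obtain ⟨J, hJ⟩ := hclu j.natAbs G t (by
      show eval (x ((t : ℤ) - ((r₀ * j.natAbs : ℕ) : ℤ))) G ≠ 0
      rw [h1]
      exact hG)
    refine ⟨J, fun s' => ?_⟩
    have h3 : eval (x (((t + N * p ^ J * s' : ℕ) : ℤ) - ((r₀ * j.natAbs : ℕ) : ℤ))) G ≠ 0 := hJ s'
    have h4 : (((t + N * p ^ J * s' : ℕ)) : ℤ) - ((r₀ * j.natAbs : ℕ) : ℤ) =
        j + ((N * p ^ J * s' : ℕ) : ℤ) := by
      rw [Nat.cast_add]
      linarith
    rw [h4] at h3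
    exact h3
  have hPm : ∀ t : ℕ, eval (x (t : ℤ)) P = 0 := by
    intro t
    induction t with
    | zero =>
      have h1 : x ((0 : ℕ) : ℤ) = x₀ := hx0
      rw [h1]
      exact hPx
    | succ t ih =>
      exact OrbNM.keep hHc k (m + 1) P (map R₀.subtype W₀) (f₀.map R₀.subtype) hPW' (x (t : ℤ))
        (x ((t + 1 : ℕ) : ℤ)) (hnext (t : ℤ)) ih
  refine ⟨x, hx0, hnext, fun j => ⟨?_, ?_⟩, hclZ⟩
  · by_contra hne
    obtain ⟨J, hJ⟩ := hclZ P j hne
    have h1 := hJ j.natAbs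
    have hpos : 1 ≤ N * p ^ J := Nat.mul_pos hN (pow_pos hp.pos J)
    have h2 : 0 ≤ j + ((N * p ^ J * j.natAbs : ℕ) : ℤ) := by
      have h3 : (j.natAbs : ℤ) ≤ ((N * p ^ J * j.natAbs : ℕ) : ℤ) := by
        exact_mod_cast Nat.le_mul_of_pos_left _ hpos
      have h4 : -j ≤ (j.natAbs : ℤ) := by omega
      linarith
    obtain ⟨t, ht⟩ := Int.eq_ofNat_of_zero_le h2
    rw [ht] at h1
    exact h1 (hPm t)
  · intro h0
    obtain ⟨e, he⟩ := hlies j
    have h1 := LiftAux.lies_eval (hR := hR) he B₀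
    rw [h0] at h1
    have h2 := LiftAux.lies_zero h1
    rw [← hψ, hev] at h2
    exact pow_ne_zero _ haB h2

end Pool.Agent.Lib.MP_16285c_agX
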