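import Pool.Agent.Lib.MP_16285c_agB.SpecE
import Pool.Agent.Lib.MP_16285c_ag.Lift

/-!
# One step back over a Frobenius place (ZDB part E, `StmtPreV`)
-/

set_option autoImplicit false

namespace Pool.Agent.Lib.MP_16285c_agX.QPreVM

open MvPolynomial
open Pool.Agent.Lib.MP_16285c_ag (RM FrobPt Lies red inc)
open Pool.Agent.ZDO (Wd Jc)

theorem map_residue {k : Type} [Field k] (V : ValuationSubring k) (R₀ : Subring k)
    (hR : ∀ r ∈ R₀, r ∈ V) {n : ℕ} (G : MvPolynomial (Fin n) R₀) :
    map (IsLocalRing.residue V) (map (inc V R₀ hR) G) = map (red V R₀ hR) G := by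
  rw [MvPolynomial.map_map]
  rfl

theorem coe_eval {k : Type} [Field k] (V : ValuationSubring k) (R₀ : Subring k)
    (hR : ∀ r ∈ R₀, r ∈ V) {n : ℕ} (x : Fin n → V) (G : MvPolynomial (Fin n) R₀) :
    V.subtype (eval x (map (inc V R₀ hR) G)) =
      eval (fun i => (x i : k)) (map R₀.subtype G) := by
  rw [MvPolynomial.eval_map, MvPolynomial.eval_map, MvPolynomial.hom_eval₂]
  rfl

/-- the polynomial whose zeros are the preimages of `y` -/
noncomputable def FF {k : Type} [Field k] (V : ValuationSubring k) (R₀ : Subring k)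
    (hR : ∀ r ∈ R₀, r ∈ V) {n : ℕ} (f : RM R₀ n) (y : Fin n → V) (i : Fin n) :
    MvPolynomial (Fin n) V :=
  map (inc V R₀ hR) (f.num i) - C (y i) * map (inc V R₀ hR) (f.den i)

theorem ev_F {k : Type} [Field k] (V : ValuationSubring k) (R₀ : Subring k)
    (hR : ∀ r ∈ R₀, r ∈ V) {n : ℕ} (f : RM R₀ n) (y : Fin n → V) (i : Fin n)
    (a : Fin n → IsLocalRing.ResidueField V) :
    eval a (map (IsLocalRing.residue V) (FF V R₀ hR f y i)) =
      eval a (map (red V R₀ hR) (f.num i)) -
        IsLocalRing.residue V (y i) * eval a (map (red V R₀ hR) (f.den i)) := by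
  unfold FF
  rw [RingHom.map_sub, RingHom.map_mul, MvPolynomial.map_C, map_residue, map_residue,
    RingHom.map_sub, RingHom.map_mul, MvPolynomial.eval_C]

theorem ev_dF {k : Type} [Field k] (V : ValuationSubring k) (R₀ : Subring k)
    (hR : ∀ r ∈ R₀, r ∈ V) {n : ℕ} (f : RM R₀ n) (y : Fin n → V) (i l : Fin n)
    (a : Fin n → IsLocalRing.ResidueField V) :
    eval a (map (IsLocalRing.residue V) (pderiv l (FF V R₀ hR f y i))) =
      eval a (pderiv l (map (red V R₀ hR) (f.num i))) -
        IsLocalRing.residue V (y i) * eval a (pderiv l (map (red V R₀ hR) (f.den i))) := by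
  unfold FF
  rw [map_sub, MvPolynomial.pderiv_C_mul, MvPolynomial.pderiv_map, MvPolynomial.pderiv_map,
    RingHom.map_sub, RingHom.map_mul, MvPolynomial.map_C, map_residue, map_residue,
    RingHom.map_sub, RingHom.map_mul, MvPolynomial.eval_C, MvPolynomial.pderiv_map,
    MvPolynomial.pderiv_map]

end Pool.Agent.Lib.MP_16285c_agX.QPreVM

namespace Pool.Agent.Lib.MP_16285c_agX

open MvPolynomial QPreVM
open Pool.Agent.Lib.MP_16285c_ag (RM FrobPt Lies red inc)
open Pool.Agent.ZDO (Wd Jc)

theorem qPreV : StmtHenV → StmtPreV := by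
  intro hH k _ _ V R₀ hR n f a a' hN hJ x' hx'
  choose hy hya using hx'
  let y : Fin n → V := fun i => ⟨x' i, hy i⟩
  have hya' : ∀ i, IsLocalRing.residue V (y i) = a' i := hya
  have hN1 : ∀ i, eval a (map (red V R₀ hR) (f.den i)) ≠ 0 := fun i => (hN i).1
  have hN2 : ∀ i, a' i * eval a (map (red V R₀ hR) (f.den i)) =
      eval a (map (red V R₀ hR) (f.num i)) := fun i => (hN i).2
  have hF0 : ∀ i, eval a (map (IsLocalRing.residue V) (FF V R₀ hR f y i)) = 0 := by
    intro i
    rw [ev_F, hya', hN2, sub_self]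
  have hdet : (Matrix.of fun i l =>
      eval a (map (IsLocalRing.residue V) (pderiv l (FF V R₀ hR f y i)))).det ≠ 0 := by
    intro h0
    apply hJ
    have e1 : eval a (Jc (f.map (red V R₀ hR))) =
        (Matrix.of fun i l => eval a (map (red V R₀ hR) (f.den i)) *
          (Matrix.of fun i l =>
            eval a (map (IsLocalRing.residue V) (pderiv l (FF V R₀ hR f y i)))) i l).det := by
      unfold Jc
      rw [RingHom.map_det]
      congr 1
      ext i l
      rw [RingHom.mapMatrix_apply, Matrix.map_apply, Matrix.of_apply, Matrix.of_apply,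
        Matrix.of_apply, ev_dF, hya']
      unfold Wd
      change eval a (pderiv l (map (red V R₀ hR) (f.num i)) * map (red V R₀ hR) (f.den i) -
        map (red V R₀ hR) (f.num i) * pderiv l (map (red V R₀ hR) (f.den i))) = _
      rw [RingHom.map_sub, RingHom.map_mul, RingHom.map_mul, ← hN2 i]
      ring
    rw [e1, Matrix.det_mul_column, h0, mul_zero]
  obtain ⟨x, hx0, hxr⟩ := hH k V n (FF V R₀ hR f y) a hF0 hdet
  have hL : ∀ i, Lies V ((x i : k)) (a i) := fun i => ⟨(x i).2, hxr i⟩
  refine ⟨fun i => (x i : k), hL, fun i => ⟨?_, ?_⟩⟩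
  · intro h0
    have h1 := Pool.Agent.Lib.MP_16285c_ag.LiftAux.lies_eval (hR := hR) hL (f.den i)
    change eval (fun i => (x i : k)) (map R₀.subtype (f.den i)) = 0 at h0
    rw [h0] at h1
    exact hN1 i (Pool.Agent.Lib.MP_16285c_ag.LiftAux.lies_zero h1)
  · change x' i * eval (fun i => (x i : k)) (map R₀.subtype (f.den i)) =
      eval (fun i => (x i : k)) (map R₀.subtype (f.num i))
    have h1 := hx0 i
    unfold FF at h1
    rw [RingHom.map_sub, RingHom.map_mul, MvPolynomial.eval_C, sub_eq_zero] at h1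
    rw [← coe_eval V R₀ hR x (f.den i), ← coe_eval V R₀ hR x (f.num i), h1, map_mul]
    rfl

end Pool.Agent.Lib.MP_16285c_agX
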