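import Pool.Agent.Lib.MP_16285c_agX.Box.All
import Pool.Agent.Lib.MP_16285c_agB.HenV
import Pool.Agent.Lib.MP_16285c_agB.PreV
import Pool.Agent.Lib.MP_16285c_agB.OrbZ
import Pool.Agent.Lib.MP_16285c_agB.BoxZ

/-!
# ZDB, section (6): the box with two-sided orbits, without hypotheses
-/

set_option autoImplicit false

namespace Pool.Agent.Lib.MP_16285c_agX

/-- The box with two-sided orbits. -/
theorem qBoxAll : StmtBoxZ := qBoxZ tHcn aModpN (qOrbZ (qPreV qHenV) tHcn) tRootN

end Pool.Agent.Lib.MP_16285c_agX
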