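import Pool.Agent.Lib.MP_16285c_agB.SpecA
import Pool.Agent.Lib.MP_16285c_agN.T3.XUB1
import Pool.Agent.Lib.MP_16285c_agN.Degr.Cnt
import Pool.Agent.Lib.MP_16285c_agP.FtZ

/-!
# Bezout on a subvariety (ZDB part A, proof of `StmtBzY`)
-/

set_option autoImplicit false

namespace Pool.Agent.Lib.MP_16285c_agX

open Pool.Agent.Lib.MP_16285c_ag Pool.Agent.Lib.MP_16285c_agN

namespace QBzYM

/-- Monomials of degree at most `a`. -/
theorem mono_mem {κ E : Type} [Field κ] [Field E] [Algebra κ E] {m : ℕ} (y : Fin m → E)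
    (β : Fin m → ℕ) (a : ℕ) (h : ∑ i, β i ≤ a) : ∏ i, y i ^ β i ∈ Vd κ y a := by
  unfold Vd
  refine ⟨∏ i, MvPolynomial.X i ^ β i, ?_, ?_⟩
  · rw [SetLike.mem_coe, MvPolynomial.mem_restrictTotalDegree]
    refine (MvPolynomial.totalDegree_finsetProd _ _).trans (le_trans ?_ h)
    refine Finset.sum_le_sum fun i _ => ?_
    rw [MvPolynomial.totalDegree_X_pow]
  · rw [AlgHom.toLinearMap_apply, map_prod]
    refine Finset.prod_congr rfl fun i _ => ?_
    rw [map_pow, MvPolynomial.aeval_X]

/-- The upper bound of the number of monomials. -/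
theorem cnt_le (q a : ℕ) : cnt q a ≤ (a + 1) ^ q := by
  have h : ∀ (b : {b : Fin q → ℕ // ∑ i, b i ≤ a}) (i : Fin q), b.1 i < a + 1 := by
    intro b i
    have h1 : b.1 i ≤ ∑ j, b.1 j := Finset.single_le_sum (f := b.1) (fun _ _ => Nat.zero_le _)
      (Finset.mem_univ i)
    have h2 := b.2
    omega
  have h3 : Nat.card (Fin q → Fin (a + 1)) = (a + 1) ^ q := by
    rw [Nat.card_eq_fintype_card, Fintype.card_fun, Fintype.card_fin, Fintype.card_fin]
  rw [← h3]
  refine Nat.card_le_card_of_injective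
    (fun b : {b : Fin q → ℕ // ∑ i, b i ≤ a} => fun i : Fin q => (⟨b.1 i, h b i⟩ : Fin (a + 1)))
    fun b c hbc => ?_
  apply Subtype.ext
  funext i
  have := congrFun hbc i
  simpa using this

/-- The lower bound of the number of monomials. -/
theorem le_cnt (n C : ℕ) : (C + 1) ^ n ≤ cnt n (n * C) := by
  have := DegrCntM.fin n (n * C)
  have h3 : Nat.card (Fin n → Fin (C + 1)) = (C + 1) ^ n := by
    rw [Nat.card_eq_fintype_card, Fintype.card_fun, Fintype.card_fin, Fintype.card_fin]
  rw [← h3]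
  have h : ∀ b : Fin n → Fin (C + 1), ∑ i, (b i : ℕ) ≤ n * C := by
    intro b
    have h1 : ∑ i, (b i : ℕ) ≤ ∑ _i : Fin n, C :=
      Finset.sum_le_sum fun i _ => Nat.lt_succ_iff.1 (b i).2
    rwa [Finset.sum_const, Finset.card_univ, Fintype.card_fin, smul_eq_mul] at h1
  refine Nat.card_le_card_of_injective
    (fun b : Fin n → Fin (C + 1) =>
      (⟨fun i => (b i : ℕ), h b⟩ : {b : Fin n → ℕ // ∑ i, b i ≤ n * C})) fun b c hbc => ?_
  funext i
  have h4 := congrFun (congrArg Subtype.val hbc) i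
  exact Fin.ext h4

/-- The numerical argument. -/
theorem num (s D N n p q C : ℕ) (hn : p + q = n)
    (h : s * cnt n (n * C) ≤ (D * cnt p (n * C + C)) * (N * cnt q (n * C + C))) :
    s ≤ (n + 1) ^ n * D * N := by
  have h1 : s * (C + 1) ^ n ≤ ((n + 1) ^ n * D * N) * (C + 1) ^ n := by
    have h2 : s * (C + 1) ^ n ≤ s * cnt n (n * C) := Nat.mul_le_mul_left _ (le_cnt n C)
    have h3 : ∀ r : ℕ, cnt r (n * C + C) ≤ ((n + 1) * (C + 1)) ^ r := by
      intro r
      refine (cnt_le r _).trans (Nat.pow_le_pow_left ?_ r)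
      nlinarith
    have h4 : (D * cnt p (n * C + C)) * (N * cnt q (n * C + C)) ≤
        (D * ((n + 1) * (C + 1)) ^ p) * (N * ((n + 1) * (C + 1)) ^ q) :=
      Nat.mul_le_mul (Nat.mul_le_mul_left _ (h3 p)) (Nat.mul_le_mul_left _ (h3 q))
    have h5 : (D * ((n + 1) * (C + 1)) ^ p) * (N * ((n + 1) * (C + 1)) ^ q) =
        ((n + 1) ^ n * D * N) * (C + 1) ^ n := by
      rw [← hn, pow_add, pow_add, mul_pow, mul_pow]
      ring
    rw [← h5]
    exact h2.trans (h.trans h4)
  exact Nat.le_of_mul_le_mul_right h1 (pow_pos (Nat.succ_pos C) n)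

/-- Finite over a larger field. -/
theorem fin_up {K E : Type} [Field K] [Field E] [Algebra K E] (S T : Set E)
    (h : Module.Finite (IntermediateField.adjoin K S) E) :
    Module.Finite (IntermediateField.adjoin (IntermediateField.adjoin K T) S) E := by
  have h1 : IntermediateField.adjoin K S ≤
      (IntermediateField.adjoin (IntermediateField.adjoin K T) S).restrictScalars K := by
    rw [IntermediateField.adjoin_le_iff]
    exact IntermediateField.subset_adjoin _ _
  have h2 : FiniteDimensional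
      ((IntermediateField.adjoin (IntermediateField.adjoin K T) S).restrictScalars K) E :=
    Pool.Agent.Lib.MP_16285c_agZ.HFM.fd_of_le h1 h
  exact h2

/-- The degree over a two-step field. -/
theorem finrank_two {K E : Type} [Field K] [Field E] [Algebra K E] (S T : Set E) :
    Module.finrank (IntermediateField.adjoin (IntermediateField.adjoin K S) T) E =
      Module.finrank (IntermediateField.adjoin K (S ∪ T)) E := by
  have h : (IntermediateField.adjoin (IntermediateField.adjoin K S) T).restrictScalars K =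
      IntermediateField.adjoin K (S ∪ T) := IntermediateField.adjoin_adjoin_left K S T
  rw [← h]
  rfl

end QBzYM

open QBzYM in
open Pool.Agent.Lib.MP_16285c_agN.T3XUB1M in
/-- (BzY) Bezout on a subvariety. -/
theorem qBzY : StmtTayB → StmtUzZ → StmtVd → StmtBzY := by
  intro hT hU hV K E F _ _ _ _ _ _ κ n p x σ w D N hx hxfin hpn hFfin htr hw hD hN
  by_cases hfin : Module.Finite (IntermediateField.adjoin κ (Set.range fun i => σ (w i))) F
  swap
  · rw [Module.finrank_of_not_finite hfin]
    exact Nat.zero_le _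
  have := hfin
  -- the basis of `F`
  obtain ⟨s, hs⟩ : ∃ s : ℕ, s = Module.finrank
    (IntermediateField.adjoin κ (Set.range fun i => σ (w i))) F := ⟨_, rfl⟩
  have hB := Module.finBasis (IntermediateField.adjoin κ (Set.range fun i => σ (w i))) F
  rw [← hs] at hB ⊢
  -- the space `W₀`
  obtain ⟨W₀, hW₀⟩ : ∃ W₀ : Submodule κ F, W₀ = Submodule.span κ (Set.range hB) := ⟨_, rfl⟩
  have hW₀fg : W₀.FG := by
    rw [hW₀]
    exact Submodule.fg_span (Set.finite_range _)
  obtain ⟨C₁, hC₁⟩ := hU K κ F p n (fun i => σ (x i)) W₀ hW₀fg htr hFfin D hD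
  -- the elements `w`
  have hw1 : AlgebraicIndependent K (fun i => σ (w i)) := hw.restrictScalars (algebraMap K κ).injective
  have hw2 : AlgebraicIndependent K w := AlgebraicIndependent.of_comp σ hw1
  have htrE : Algebra.trdeg K E = n := by
    have hb : IsTranscendenceBasis K x :=
      isTranscendenceBasis_iff_algebraicIndependent_isAlgebraic.2
        ⟨hx, alg_of_adjoin _ inferInstance⟩
    have := hb.cardinalMk_eq_trdeg
    rw [Cardinal.mk_fin] at this
    exact this.symm
  obtain ⟨c, hc, htr2⟩ := PFtZM.part1 K E n p w htrE hw2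
  have hc' : n - p = c := by omega
  subst hc'
  obtain ⟨C₂, hC₂⟩ := hU K (IntermediateField.adjoin K (Set.range w)) E (n - p) n x 1
    (by
      rw [Submodule.one_eq_span]
      exact Submodule.fg_span_singleton _) htr2 (fin_up _ _ hxfin) N (fun A => by
      rw [finrank_two]
      exact hN A)
  -- the dimension count
  obtain ⟨C, hC⟩ : ∃ C : ℕ, C = C₁ + C₂ := ⟨_, rfl⟩
  have hVx : Module.Finite κ (Vd κ (fun i => σ (x i)) (n * C)) := hV.1 κ F n _ _
  have hUf : Module.Finite κ (W₀ * Vd κ (fun i => σ (x i)) (n * C) : Submodule κ F) :=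
    Module.Finite.iff_fg.2 (hW₀fg.mul (Module.Finite.iff_fg.1 hVx))
  have h1 := hT K E F κ n p s (n * C) x σ w hB hx hxfin hw hB.linearIndependent
    (W₀ * Vd κ (fun i => σ (x i)) (n * C)) hUf (fun k β hβ => Submodule.mul_mem_mul (by
      rw [hW₀]
      exact Submodule.subset_span ⟨k, rfl⟩) (mono_mem (κ := κ) (fun i => σ (x i)) β (n * C) hβ))
    (Vd (IntermediateField.adjoin K (Set.range w)) x (n * C)) (hV.1 _ E n _ _)
    (fun γ hγ => mono_mem x γ (n * C) hγ)
  have h2 : Module.finrank κ (W₀ * Vd κ (fun i => σ (x i)) (n * C) : Submodule κ F) ≤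
      D * cnt p (n * C + C) :=
    (hC₁ (n * C)).trans (Nat.mul_le_mul_left _ (tCnt.2.1 p _ _ (by omega)))
  have h3 : Module.finrank (IntermediateField.adjoin K (Set.range w))
      (Vd (IntermediateField.adjoin K (Set.range w)) x (n * C)) ≤ N * cnt (n - p) (n * C + C) := by
    have h4 := hC₂ (n * C)
    rw [one_mul] at h4
    exact h4.trans (Nat.mul_le_mul_left _ (tCnt.2.1 (n - p) _ _ (by omega)))
  exact num s D N n p (n - p) C (by omega) (h1.trans (Nat.mul_le_mul h2 h3))

end Pool.Agent.Lib.MP_16285c_agX
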