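import Pool.Agent.Lib.MP_16285c_agB.SpecD
import Pool.Agent.Lib.MP_16285c_agP.CmpXn

/-!
# ZDB: comparison of the degrees over `k` and over `K` (CmQ)
-/

set_option autoImplicit false

namespace Pool.Agent.Lib.MP_16285c_agX

open Pool.Agent.Lib.MP_16285c_ag Pool.Agent.Lib.MP_16285c_agN

namespace QCmQM

open T3CmpXM (fin_ind ind_fin finrank_two fin_two fin_of_alg trd lc_map pow_comm)

/-- Bezout over an intermediate field of `E' / k`, with forms over `K`. -/
theorem bzK {K k E' : Type} [Field K] [Infinite K] [Field k] [Algebra K k] [Field E'] [Algebra K E']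
    [Algebra k E'] [IsScalarTower K k E'] (hBZ : StmtBZG) (κ : IntermediateField k E') (n s : ℕ)
    (y : Fin n → E') (w : Fin s → E') (d : Fin s → ℕ) (e : ℕ)
    (hf : Module.Finite (IntermediateField.adjoin κ (Set.range y)) E')
    (hA : ∀ A : Fin s → Fin n → K,
      Module.finrank (IntermediateField.adjoin κ (Set.range (lc A y))) E' ≤ e)
    (hd : ∀ i, 1 ≤ d i) (hD : ∀ i, Dge κ y (w i) (d i)) (hai : AlgebraicIndependent κ w) :
    Module.finrank (IntermediateField.adjoin κ (Set.range w)) E' ≤ (s + 1) ^ s * (∏ i, d i) * e :=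
  hBZ K E' (κ.restrictScalars K) n s y w d e hf hA hd hD hai

/-- Degrees do not grow under the extension of the constants. -/
theorem base_le {K k E E' : Type} [Field K] [Field k] [Algebra K k] [Field E] [Field E']
    [Algebra K E] [Algebra k E'] [Algebra K E'] [IsScalarTower K k E'] (β : E →ₐ[K] E')
    (F : IntermediateField K E) (F' : IntermediateField k E') (hF : ∀ a ∈ F, β a ∈ F')
    (hfin : Module.Finite F E) {s : ℕ} (y : Fin s → E)
    (hy : IntermediateField.adjoin k (Set.range fun i => β (y i)) = ⊤) :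
    Module.finrank F' E' ≤ Module.finrank F E := by
  obtain ⟨b⟩ : Nonempty (Module.Basis (Fin (Module.finrank F E)) F E) := ⟨Module.finBasis F E⟩
  have h1 : ∀ e : E, β e ∈ Submodule.span F' (Set.range fun i => β (b i)) := by
    intro e
    have h2 : β e = ∑ i, (⟨β ((b.repr e i : F) : E), hF _ (b.repr e i).2⟩ : F') • β (b i) := by
      conv_lhs => rw [← b.sum_repr e]
      rw [map_sum]
      refine Finset.sum_congr rfl fun i _ => ?_
      rw [Algebra.smul_def, Algebra.smul_def, map_mul]
      rfl
    rw [h2]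
    exact Submodule.sum_mem _ fun i _ => Submodule.smul_mem _ _ (Submodule.subset_span ⟨i, rfl⟩)
  have h3 : Subalgebra.toSubmodule (Algebra.adjoin F' (Set.range β)) =
      Submodule.span F' (Set.range fun i => β (b i)) := by
    have hcl : (Submonoid.closure (Set.range β) : Set E') = Set.range β := by
      have h4 : Set.range β = ((MonoidHom.mrange (β : E →* E') : Submonoid E') : Set E') := rfl
      rw [h4, Submonoid.closure_eq]
    rw [Algebra.adjoin_eq_span, hcl]
    apply le_antisymm
    · rw [Submodule.span_le]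
      rintro _ ⟨e, rfl⟩
      exact h1 e
    · rw [Submodule.span_le]
      rintro _ ⟨i, rfl⟩
      exact Submodule.subset_span ⟨b i, rfl⟩
  have hfg : (Subalgebra.toSubmodule (Algebra.adjoin F' (Set.range β))).FG := by
    rw [h3]
    exact Submodule.fg_span (Set.finite_range _)
  have h5 : ∀ x ∈ Set.range β, IsAlgebraic F' x := fun x hx =>
    (IsIntegral.of_mem_of_fg _ hfg x (Algebra.subset_adjoin hx)).isAlgebraic
  have h6 := IntermediateField.adjoin_toSubalgebra_of_isAlgebraic h5
  have h7 : IntermediateField.adjoin F' (Set.range β) = ⊤ := by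
    have h8 : (IntermediateField.adjoin F' (Set.range β)).restrictScalars k = ⊤ := by
      refine top_le_iff.1 ?_
      rw [← hy, IntermediateField.adjoin_le_iff]
      rintro _ ⟨i, rfl⟩
      exact IntermediateField.subset_adjoin F' _ ⟨y i, rfl⟩
    refine top_le_iff.1 fun x _ => ?_
    have h9 : x ∈ (IntermediateField.adjoin F' (Set.range β)).restrictScalars k := by
      rw [h8]
      exact IntermediateField.mem_top
    exact h9
  have h10 : Submodule.span F' (Set.range fun i => β (b i)) = ⊤ := by
    rw [← h3, ← h6, h7]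
    rfl
  have h11 := finrank_range_le_card (R := F') (fun i => β (b i))
  rw [Set.finrank, h10, finrank_top, Fintype.card_fin] at h11
  exact h11

/-- The same for finite families which generate a field of infinite degree. -/
theorem fam_le {K k E E' : Type} [Field K] [Field k] [Algebra K k] [Field E] [Field E']
    [Algebra K E] [Algebra k E'] [Algebra K E'] [IsScalarTower K k E'] (β : E →ₐ[K] E')
    {N c p : ℕ} {ξ : Fin (N + 1) → E} (h : Stp K ξ) (h' : Stp k (fun i => β (ξ i))) (hcp : c + p = N)
    (l : Fin c → E) (w : Fin p → E) :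
    Module.finrank (IntermediateField.adjoin k
      (Set.range (fun i => β (l i)) ∪ Set.range fun i => β (w i))) E' ≤
    Module.finrank (IntermediateField.adjoin K (Set.range l ∪ Set.range w)) E := by
  by_cases h0 : Module.finrank (IntermediateField.adjoin k
      (Set.range (fun i => β (l i)) ∪ Set.range fun i => β (w i))) E' = 0
  · rw [h0]
    exact Nat.zero_le _
  have hfin := Module.finite_of_finrank_pos (Nat.pos_of_ne_zero h0)
  have h1 := (ind_fin h' hcp _ _ hfin).1
  have h2 : AlgebraicIndependent K (Sum.elim w l) := by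
    have h3 : AlgebraicIndependent K (Sum.elim (fun i => β (w i)) fun i => β (l i)) :=
      h1.restrictScalars (algebraMap K k).injective
    have h4 : (Sum.elim (fun i => β (w i)) fun i => β (l i)) = fun i => β (Sum.elim w l i) := by
      funext i
      rcases i with i | i <;> rfl
    rw [h4] at h3
    exact AlgebraicIndependent.of_comp β h3
  have hpc : p + c = N := by omega
  let f : Fin N ≃ Fin p ⊕ Fin c := (finCongr hpc.symm).trans finSumFinEquiv.symm
  have h5 : AlgebraicIndependent K (Sum.elim w l ∘ f) := h2.comp f f.injective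
  have h6 : Set.range (Sum.elim w l ∘ f) = Set.range l ∪ Set.range w := by
    rw [EquivLike.range_comp, Set.Sum.elim_range, Set.union_comm]
  have h7 := fin_ind h _ h5
  rw [h6] at h7
  refine base_le β _ _ (fun a ha => ?_) h7 ξ h'.gen
  have h8 : IntermediateField.adjoin K (Set.range l ∪ Set.range w) ≤
      ((IntermediateField.adjoin k
        (Set.range (fun i => β (l i)) ∪ Set.range fun i => β (w i))).restrictScalars K).comap β := by
    rw [IntermediateField.adjoin_le_iff]
    rintro _ (⟨i, rfl⟩ | ⟨i, rfl⟩)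
    · exact IntermediateField.subset_adjoin k _ (Or.inl ⟨i, rfl⟩)
    · exact IntermediateField.subset_adjoin k _ (Or.inr ⟨i, rfl⟩)
  exact h8 ha

/-- Forms over `K`. -/
theorem lc_beta {K E E' : Type} [Field K] [Field E] [Field E'] [Algebra K E] [Algebra K E']
    (β : E →ₐ[K] E') {c n : ℕ} (B : Fin c → Fin n → K) (g : Fin n → E) (i : Fin c) :
    lc B (fun j => β (g j)) i = β (lc B g i) := by
  unfold lc
  rw [map_sum]
  refine Finset.sum_congr rfl fun j _ => ?_
  rw [map_mul, AlgHom.commutes]

end QCmQM

open QCmQM T3CmpXM in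
/-- (CmQ) -/
theorem qCmQ : StmtDg1n → StmtBZG → StmtCmQ := by
  intro hDg hBZ K k _ _ _ _ E E' _ _ _ _ _ _ β N c p ξ ρ φ hξ hξ' hβ hcp
  have hR : StmtRpA := yRpA
  have hRD : StmtRpD := yRpD yRpA (yRpC yRpA yRpB)
  have hk0 : CharZero k := charZero_of_injective_algebraMap (algebraMap K k).injective
  have hKI : Infinite K := Infinite.of_injective (Nat.cast : ℕ → K) Nat.cast_injective
  have hkI : Infinite k := Infinite.of_injective (Nat.cast : ℕ → k) Nat.cast_injective
  obtain ⟨hD1, -, -⟩ := hDg K E N c p ξ hξ hcp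
  obtain ⟨hT1, hT2, -, -⟩ := yDgT
  set x' : Fin N → E' := fun i => β (ξ i.succ) with hx'
  have hai' : AlgebraicIndependent k x' := hξ'.ai
  have hfx' : Module.Finite (IntermediateField.adjoin k (Set.range x')) E' :=
    fin_ind hξ' _ hai'
  obtain ⟨b, e, hb, he, hRb, hRy⟩ := PCmpXnM.den hR x' hai' hfx' fun i => β (ξ i)
  have hy : ∀ {r : ℕ} (A : Fin r → Fin (N + 1) → k) (i : Fin r),
      Dge k x' (lc A (fun i => β (ξ i)) i) e :=
    fun A i => PCmpXnM.dge_of hR hRD x' hai' hfx' _ b e hb hRb hRy A i
  refine ⟨(p + 1) ^ p * e ^ p * ((c + 1) ^ c * e ^ c), fun m => ?_⟩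
  set X' : Fin N → E' := fun i => (φ ^ m) (x' i) with hX'
  set D : ℕ := dgx K c p (fun i : Fin N => ξ i.succ)
    (fun i : Fin N => (ρ ^ m) (ξ i.succ)) with hD
  have hfX' : Module.Finite (IntermediateField.adjoin k (Set.range X')) E' :=
    fin_ind hξ' _ (hai'.map' (f := φ ^ m) (φ ^ m).toRingHom.injective)
  -- (c)
  have h1 : ∀ (A' : Fin c → Fin N → K) (B' : Fin p → Fin N → K),
      Module.finrank (IntermediateField.adjoin k (Set.range (lc A' x') ∪ Set.range (lc B' X'))) E' ≤
        D := by
    intro A' B'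
    have h2 := fam_le β hξ hξ' hcp (lc A' fun i : Fin N => ξ i.succ)
      (lc B' fun i : Fin N => (ρ ^ m) (ξ i.succ))
    have h3 : (fun i => β (lc A' (fun i : Fin N => ξ i.succ) i)) = lc A' x' := by
      funext i
      exact (lc_beta β A' _ i).symm
    have h4 : (fun i => β (lc B' (fun i : Fin N => (ρ ^ m) (ξ i.succ)) i)) = lc B' X' := by
      funext i
      rw [← lc_beta β B' _ i, hX', hx']
      have h5 : (fun j : Fin N => β ((ρ ^ m) (ξ j.succ))) =
          fun j : Fin N => (φ ^ m) (β (ξ j.succ)) := by
        funext j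
        exact pow_comm β ρ φ hβ m _
      rw [h5]
    rw [h3, h4] at h2
    exact h2.trans (hD1 _ A' B')
  -- Step 2
  have h2 : ∀ (A : Fin c → Fin (N + 1) → k) (B' : Fin p → Fin N → K),
      Module.finrank (IntermediateField.adjoin k
        (Set.range (lc A fun i => β (ξ i)) ∪ Set.range (lc B' X'))) E' ≤
        (c + 1) ^ c * e ^ c * D := by
    intro A B'
    by_cases h0 : Module.finrank (IntermediateField.adjoin k
        (Set.range (lc A fun i => β (ξ i)) ∪ Set.range (lc B' X'))) E' = 0
    · rw [h0]
      exact Nat.zero_le _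
    have hfin := Module.finite_of_finrank_pos (Nat.pos_of_ne_zero h0)
    have hai := (ind_fin hξ' (by omega : p + c = N) (lc B' X') (lc A fun i => β (ξ i))
      (by rw [Set.union_comm]; exact hfin)).2
    have h3 := bzK hBZ (IntermediateField.adjoin k (Set.range (lc B' X'))) N c x'
      (lc A fun i => β (ξ i)) (fun _ => e) D (fin_two _ _ hfx')
      (fun A' => by
        rw [finrank_two, Set.union_comm]
        exact h1 A' B')
      (fun _ => he) (fun i => hT1 k E' N _ _ _ (hy A i) _) hai
    rw [finrank_two, Finset.prod_const, Finset.card_univ, Fintype.card_fin, Set.union_comm] at h3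
    exact h3
  -- Step 1
  have h3 : ∀ (A : Fin c → Fin (N + 1) → k) (B : Fin p → Fin (N + 1) → k),
      Module.finrank (fldX A B (fun i => β (ξ i)) fun i => (φ ^ m) (β (ξ i))) E' ≤
        (p + 1) ^ p * e ^ p * ((c + 1) ^ c * e ^ c) * D := by
    intro A B
    have hfld : fldX A B (fun i => β (ξ i)) (fun i => (φ ^ m) (β (ξ i))) =
        IntermediateField.adjoin k (Set.range (lc A fun i => β (ξ i)) ∪
          Set.range (lc B fun i => (φ ^ m) (β (ξ i)))) := rfl
    rw [hfld]
    by_cases h0 : Module.finrank (IntermediateField.adjoin k (Set.range (lc A fun i => β (ξ i)) ∪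
          Set.range (lc B fun i => (φ ^ m) (β (ξ i))))) E' = 0
    · rw [h0]
      exact Nat.zero_le _
    have hfin := Module.finite_of_finrank_pos (Nat.pos_of_ne_zero h0)
    have hai := (ind_fin hξ' hcp (lc A fun i => β (ξ i))
      (lc B fun i => (φ ^ m) (β (ξ i))) hfin).2
    have h4 := bzK hBZ (IntermediateField.adjoin k (Set.range (lc A fun i => β (ξ i)))) N p X'
      (lc B fun i => (φ ^ m) (β (ξ i))) (fun _ => e) ((c + 1) ^ c * e ^ c * D) (fin_two _ _ hfX')
      (fun B' => by
        rw [finrank_two]
        exact h2 A B')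
      (fun _ => he) (fun i => by
        have h5 := hT2 k E' N x' (lc B (fun i => β (ξ i)) i) e (hy B i) (φ ^ m)
        rw [← lc_map (φ ^ m) B (fun i => β (ξ i)) i] at h5
        exact hT1 k E' N _ _ _ h5 _) hai
    rw [finrank_two, Finset.prod_const, Finset.card_univ, Fintype.card_fin] at h4
    refine h4.trans (le_of_eq ?_)
    ring
  have hc : N - p = c := by omega
  have h4 : ∀ (A : Fin (N - p) → Fin (N + 1) → k) (B : Fin p → Fin (N + 1) → k),
      Module.finrank (fldX A B (fun i => β (ξ i)) fun i => (φ ^ m) (β (ξ i))) E' ≤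
        (p + 1) ^ p * e ^ p * ((c + 1) ^ c * e ^ c) * D := by
    rw [hc]
    exact h3
  unfold degrX
  exact iSup_le fun A => iSup_le fun B => Nat.cast_le.2 (h4 A B)

end Pool.Agent.Lib.MP_16285c_agX
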