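import Pool.Agent.Lib.MP_16285c_agB.SpecA
import Pool.Agent.Lib.MP_16285c_agP.ETn

/-!
# Backward orbits (ZDB): degrees with `T`

Proof of `StmtEQn`.
-/

set_option autoImplicit false

namespace Pool.Agent.Lib.MP_16285c_agX

open Pool.Agent.Lib.MP_16285c_ag Pool.Agent.Lib.MP_16285c_agN

namespace QEQnM

variable {K E : Type} [Field K] [Field E] [Algebra K E]

/-- the image of `Tu` under an algebra homomorphism -/
theorem tu_map {n : ℕ} (u : K) (x : Fin n → E) (τ : E →ₐ[K] E) :
    τ (Tu K u x) = Tu K u (fun i => τ (x i)) := by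
  rw [PETnM.tu_eq, PETnM.tu_eq, map_add, AlgHom.commutes, map_sum]
  congr 1
  refine Finset.sum_congr rfl fun j _ => ?_
  rw [map_mul, AlgHom.commutes]

/-- the image of `lc` under an algebra homomorphism -/
theorem lc_map {n c : ℕ} (B : Fin c → Fin n → K) (x : Fin n → E) (τ : E →ₐ[K] E) (i : Fin c) :
    τ (lc B x i) = lc B (fun i => τ (x i)) i := by
  rw [lc, lc, map_sum]
  refine Finset.sum_congr rfl fun j _ => ?_
  rw [map_mul, AlgHom.commutes]

/-- adjoining `1 + l` or `l` -/
theorem adjoin_one_add (S : Set E) (l : E) :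
    IntermediateField.adjoin K (insert (algebraMap K E 1 + l) S) =
      IntermediateField.adjoin K (insert l S) := by
  apply le_antisymm
  · refine IntermediateField.adjoin_le_iff.2 (Set.insert_subset ?_ ?_)
    · exact add_mem (IntermediateField.algebraMap_mem _ _)
        (IntermediateField.subset_adjoin K _ (Set.mem_insert _ _))
    · exact fun y hy => IntermediateField.subset_adjoin K _ (Set.mem_insert_of_mem _ hy)
  · refine IntermediateField.adjoin_le_iff.2 (Set.insert_subset ?_ ?_)
    · have h1 : algebraMap K E 1 + l ∈ IntermediateField.adjoin K (insert (algebraMap K E 1 + l) S) :=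
        IntermediateField.subset_adjoin K _ (Set.mem_insert _ _)
      have h2 := sub_mem h1 (IntermediateField.algebraMap_mem
        (IntermediateField.adjoin K (insert (algebraMap K E 1 + l) S)) (1 : K))
      rwa [add_sub_cancel_left] at h2
    · exact fun y hy => IntermediateField.subset_adjoin K _ (Set.mem_insert_of_mem _ hy)

/-- the common form of both parts -/
theorem core {K E : Type} [Field K] [CharZero K] [Field E] [Algebra K E] (hMx : StmtMxD) (hDg : StmtDg1n)
    (N c p : ℕ) (ξ : Fin (N + 1) → E) (hS : Stp K ξ) (hcp : c + (p + 1) = N) (ρ : E →ₐ[K] E) (m : ℕ) (u : K)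
    (A : Fin c → Fin N → K) (B : Fin p → Fin N → K) :
    Module.finrank (IntermediateField.adjoin K
      (insert (Tu K u (fun i : Fin N => (ρ ^ m) (ξ i.succ)))
        (Set.range (lc A fun i : Fin N => ξ i.succ) ∪
          Set.range (lc B fun i : Fin N => (ρ ^ (2 * m)) (ξ i.succ))))) E ≤
      (N + 1) ^ N * dgx K c (p + 1) (fun i : Fin N => ξ i.succ) (fun i : Fin N => (ρ ^ m) (ξ i.succ)) *
        dgx K (c + 1) p (fun i : Fin N => ξ i.succ) (fun i : Fin N => (ρ ^ m) (ξ i.succ)) := by
  obtain ⟨her, -, -⟩ := hDg K E N (c + 1) p ξ hS (by omega)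
  set x : Fin N → E := fun i : Fin N => ξ i.succ with hx
  set y : Fin N → E := fun i : Fin N => (ρ ^ m) (ξ i.succ) with hy
  set z : Fin N → E := fun i : Fin N => (ρ ^ (2 * m)) (ξ i.succ) with hz
  have hw : ∀ A' : Fin c → Fin N → K, Module.finrank (IntermediateField.adjoin K
      (Set.range (lc A' fun i : Fin N => ξ i.succ) ∪
        Set.range (Fin.cons (Tu K u x) (lc B y) : Fin (p + 1) → E))) E ≤ dgx K (c + 1) p x y := by
    intro A'
    let A'' : Fin (c + 1) → Fin N → K := Fin.cons (fun j => u ^ ((j : ℕ) + 1)) A'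
    have h1 : Set.range (lc A'' x) =
        insert (∑ j : Fin N, algebraMap K E (u ^ ((j : ℕ) + 1)) * x j) (Set.range (lc A' x)) := by
      rw [← Fin.range_cons]
      congr 1
      funext i
      refine Fin.cases ?_ (fun i => ?_) i
      · rw [lc, Fin.cons_zero]
        rfl
      · rw [lc, Fin.cons_succ]
        rfl
    have h2 := her y A'' B
    rw [h1, Set.insert_union, ← adjoin_one_add, ← PETnM.tu_eq] at h2
    rw [Fin.range_cons, Set.union_insert]
    exact h2
  have h := hMx K E N c (p + 1) ξ hS hcp ρ m (dgx K (c + 1) p x y)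
    (Fin.cons (Tu K u x) (lc B y) : Fin (p + 1) → E) hw A
  have hr : (Set.range fun i : Fin (p + 1) =>
      (ρ ^ m) ((Fin.cons (Tu K u x) (lc B y) : Fin (p + 1) → E) i)) =
      insert (Tu K u y) (Set.range (lc B z)) := by
    rw [← Fin.range_cons]
    congr 1
    funext i
    refine Fin.cases ?_ (fun i => ?_) i
    · rw [Fin.cons_zero, Fin.cons_zero, tu_map]
    · rw [Fin.cons_succ, Fin.cons_succ, lc_map]
      congr 1
      funext j
      rw [hz, hy]
      simp only [two_mul, pow_add]
      rfl
  rw [hr, Set.union_insert] at h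
  exact h

end QEQnM

/-- (EQn) Degrees with `T`. -/
theorem qEQn : StmtMxD → StmtDg1n → StmtEQn := by
  intro hMx hDg K E _ _ _ _ N a b ξ hS hab ρ m u
  exact ⟨fun A B => QEQnM.core hMx hDg N a (b + 1) ξ hS (by omega) ρ m u A B,
    fun A B => QEQnM.core hMx hDg N (a + 1) b ξ hS (by omega) ρ m u A B⟩

end Pool.Agent.Lib.MP_16285c_agX
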