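import Pool.Agent.Lib.MP_16285c_agB.SpecD
import Pool.Agent.Lib.MP_16285c_agX.T3.GenS
import Pool.Agent.Lib.MP_16285c_agX.T3.Rl1X

/-!
# ZDB: fast backward orbits

Proof of `StmtFastB` (`agB/Defs.lean`, proof text in `agB/SpecD.lean`).
-/

set_option autoImplicit false

namespace Pool.Agent.Lib.MP_16285c_agX

open Pool.Agent.Lib.MP_16285c_ag Pool.Agent.Lib.MP_16285c_agN

namespace QFastBM

theorem aeval_up {K A : Type} [Field K] [CommRing A] [Algebra K A] {n : ℕ} (y : Fin (n + 1) → A)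
    (G : Pl n K) :
    MvPolynomial.aeval y (up K n G) = MvPolynomial.aeval (fun i : Fin n => y i.succ) G := by
  rw [up, MvPolynomial.aeval_rename]
  rfl

theorem aeval_algebraMap {K K₁ Ω : Type} [Field K] [Field K₁] [Field Ω] [Algebra K K₁]
    [Algebra K Ω] [Algebra K₁ Ω] [IsScalarTower K K₁ Ω] {n : ℕ} (c : Fin n → K₁) (G : Pl n K) :
    MvPolynomial.aeval (fun i => algebraMap K₁ Ω (c i)) G =
      algebraMap K₁ Ω (MvPolynomial.aeval c G) := by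
  have h := MvPolynomial.aeval_algebraMap_apply (R := K) Ω c G
  exact h

/-- Division of the recursion by the leading coefficient. -/
theorem div_rec {D κ κ₁ X' X Y Z u₀ u₁ u₂ C : ℝ} (_hκ : 0 ≤ κ) (hκκ : κ ≤ κ₁) (hκ1 : 0 < κ₁)
    (hX' : 0 ≤ X') (hXX : X' ≤ X) (hX : 0 < X) (hY : 0 < Y) (hZ : 0 ≤ Z) (h0 : 0 ≤ u₀)
    (h2 : 0 ≤ u₂) (h : D * u₁ ≤ κ * X' * Y * u₂ + κ * Y * Z * u₀ + C) :
    D / (κ₁ * X * Y) * u₁ ≤ u₂ + Z / X * u₀ + C / (κ₁ * X * Y) := by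
  have hpos : 0 < κ₁ * X * Y := by positivity
  rw [div_mul_eq_mul_div, div_le_iff₀ hpos]
  have e : (u₂ + Z / X * u₀ + C / (κ₁ * X * Y)) * (κ₁ * X * Y) =
      κ₁ * X * Y * u₂ + κ₁ * Y * Z * u₀ + C := by
    field_simp
  rw [e]
  have h3 : κ * X' * Y * u₂ ≤ κ₁ * X * Y * u₂ := by gcongr
  have h4 : κ * Y * Z * u₀ ≤ κ₁ * Y * Z * u₀ := by gcongr
  linarith

end QFastBM

open QFastBM

/-- (FastB) Fast backward orbits. -/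
theorem qFastB : StmtRtQ → StmtRcQ → StmtInJ → StmtDg1n → StmtSbQ → StmtTpQ → StmtFastB := by
  intro hRt hRc hIn hDg hSb hTp K E _ _ _ _ n P ξ ρ hirr hmon hg Λ hΛ hD3 hlam
  have hRl1 : StmtRl1X := yRl1X
  have hξ : Stp K ξ := yGenS.1 K E (n + 3) P ξ hirr hmon hg
  obtain ⟨C₃, hC₃⟩ := hD3
  obtain ⟨T, hT⟩ : ∃ T, T = Module.finrank ρ.fieldRange E := ⟨_, rfl⟩
  obtain ⟨δ, hδ⟩ : ∃ δ, δ = Module.finrank
    (IntermediateField.adjoin K (Set.range fun i : Fin (n + 3) => ξ i.succ)) E := ⟨_, rfl⟩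
  obtain ⟨d, hd⟩ : ∃ d : ℕ → ℕ, d = fun m =>
    dgx K 1 (n + 2) (fun i : Fin (n + 3) => ξ i.succ)
      (fun i : Fin (n + 3) => (ρ ^ m) (ξ i.succ)) := ⟨_, rfl⟩
  obtain ⟨Δ, hΔ⟩ : ∃ Δ : ℕ → ℕ, Δ = fun m =>
    dgx K 2 (n + 1) (fun i : Fin (n + 3) => ξ i.succ)
      (fun i : Fin (n + 3) => (ρ ^ m) (ξ i.succ)) := ⟨_, rfl⟩
  obtain ⟨D₃, hD₃⟩ : ∃ D₃ : ℕ → ℕ, D₃ = fun m =>
    dgx K 3 n (fun i : Fin (n + 3) => ξ i.succ)
      (fun i : Fin (n + 3) => (ρ ^ m) (ξ i.succ)) := ⟨_, rfl⟩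
  obtain ⟨τ, hτ⟩ : ∃ τ : ℕ → ℕ, τ = fun m =>
    dgx K 0 (n + 3) (fun i : Fin (n + 3) => ξ i.succ)
      (fun i : Fin (n + 3) => (ρ ^ m) (ξ i.succ)) := ⟨_, rfl⟩
  have hd1 : ∀ m, 1 ≤ d m := fun m => by
    rw [hd]; exact (hDg K E (n + 3) 1 (n + 2) ξ hξ (by omega)).2.2 ρ m
  have hΔ1 : ∀ m, 1 ≤ Δ m := fun m => by
    rw [hΔ]; exact (hDg K E (n + 3) 2 (n + 1) ξ hξ (by omega)).2.2 ρ m
  have hτ1 : ∀ m, 1 ≤ τ m := fun m => by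
    rw [hτ]; exact (hDg K E (n + 3) 0 (n + 3) ξ hξ (by omega)).2.2 ρ m
  have hτT : ∀ m, τ m ≤ δ * T ^ m := fun m => by
    rw [hτ, hδ, hT]; exact (hTp K E (n + 3) ξ hξ ρ m).2
  have hδT : 1 ≤ δ * T := by
    have := (hτ1 1).trans (hτT 1)
    rwa [pow_one] at this
  have hδ1 : 1 ≤ δ := by
    rcases Nat.eq_zero_or_pos δ with h | h
    · rw [h, zero_mul] at hδT; omega
    · exact h
  have hT1 : 1 ≤ T := by
    rcases Nat.eq_zero_or_pos T with h | h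
    · rw [h, mul_zero] at hδT; omega
    · exact h
  obtain ⟨κa, hκa, hreca⟩ := hRc K E (n + 3) 0 (n + 1) ξ hξ (by omega)
  obtain ⟨κb, hκb, hrecb⟩ := hRc K E (n + 3) 1 n ξ hξ (by omega)
  obtain ⟨κ₁, hκ₁⟩ : ∃ κ₁, κ₁ = max κa κb := ⟨_, rfl⟩
  have hκa1 : κa ≤ κ₁ := hκ₁ ▸ le_max_left _ _
  have hκb1 : κb ≤ κ₁ := hκ₁ ▸ le_max_right _ _
  have hκ11 : 1 ≤ κ₁ := hκa.trans hκa1
  obtain ⟨κ₀, hκ₀⟩ : ∃ κ₀, κ₀ = (n + 3 + 1) ^ (n + 3) := ⟨_, rfl⟩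
  have hκ01 : 1 ≤ κ₀ := by rw [hκ₀]; exact Nat.one_le_pow _ _ (by omega)
  obtain ⟨m, hm1, hm⟩ := hRt d Δ D₃ Λ C₃ T δ κ₀ κ₁ (κ₀ * Δ 1) hT1 (by rw [hT]; exact hΛ) hδ1 hκ01
    hκ11
    (fun a b => by
      rw [hd, hκ₀]; exact hSb K E (n + 3) 1 (n + 2) ξ hξ (by omega) ρ a b) hd1 hΔ1
    (fun m => by
      have h := hSb K E (n + 3) 2 (n + 1) ξ hξ (by omega) ρ m 1
      rw [← hκ₀] at h
      have h' : Δ (m + 1) ≤ κ₀ * Δ m * Δ 1 := by rw [hΔ]; exact h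
      calc Δ (m + 1) ≤ κ₀ * Δ m * Δ 1 := h'
        _ = κ₀ * Δ 1 * Δ m := by ring)
    (fun m => by rw [hD₃]; exact hC₃ m)
    (by rw [hd]; exact hlam)
  have hTm : 1 ≤ δ * T ^ m := (hτ1 m).trans (hτT m)
  have hTmR : (1 : ℝ) ≤ (δ : ℝ) * (T : ℝ) ^ m := by exact_mod_cast hTm
  have hdm : (1 : ℝ) ≤ (d m : ℝ) := by exact_mod_cast hd1 m
  have hΔm : (1 : ℝ) ≤ (Δ m : ℝ) := by exact_mod_cast hΔ1 m
  have hκR : (1 : ℝ) ≤ (κ₁ : ℝ) := by exact_mod_cast hκ11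
  have hκaR : (κa : ℝ) ≤ κ₁ := by exact_mod_cast hκa1
  have hκbR : (κb : ℝ) ≤ κ₁ := by exact_mod_cast hκb1
  have hτR : (τ m : ℝ) ≤ (δ : ℝ) * (T : ℝ) ^ m := by exact_mod_cast hτT m
  -- the chosen alternative
  obtain ⟨a, b, ha, hG, B₁, hB₁0, hrec⟩ : ∃ a b : ℝ, 0 ≤ a ∧
      GdX 1 a b ((d m : ℝ) / ((δ : ℝ) * (T : ℝ) ^ m)) ((Λ / T) ^ m) ∧
      ∃ B₁ : Pl (n + 3 + 1) K, MvPolynomial.aeval ξ B₁ ≠ 0 ∧
      ∀ (Ω : Type) [Field Ω] [Algebra K Ω] (h : HtF Ω), ∃ C : ℝ, ∀ z : ℕ → Fin (n + 4) → Ω,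
        FlowX K ξ ρ z → ∀ t : ℕ, MvPolynomial.aeval (z t) B₁ ≠ 0 →
          b * hx h (z (t + m)) ≤ hx h (z t) + a * hx h (z (t + 2 * m)) + C := by
    rcases hm with hG | hG
    · obtain ⟨B₁, hB₁0, hB₁⟩ := hreca ρ m
      refine ⟨_, _, by positivity, hG, B₁, hB₁0, ?_⟩
      intro Ω _ _ h
      obtain ⟨C, hC⟩ := hB₁ Ω h
      refine ⟨C / (κ₁ * (δ * T ^ m) * d m), fun z hz t ht => ?_⟩
      have h1 := hC z hz t ht
      have h2 : (d (2 * m) : ℝ) * hx h (z (t + m)) ≤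
          (κa : ℝ) * τ m * d m * hx h (z t) + (κa : ℝ) * d m * Δ m * hx h (z (t + 2 * m)) + C := by
        rw [hd, hτ, hΔ]
        push_cast at h1
        exact h1
      exact div_rec (Nat.cast_nonneg _) hκaR (by linarith) (Nat.cast_nonneg _) hτR (by linarith)
        (by linarith) (Nat.cast_nonneg _) (h.nonneg _) (h.nonneg _) h2
    · obtain ⟨B₁, hB₁0, hB₁⟩ := hrecb ρ m
      refine ⟨_, _, by positivity, hG, B₁, hB₁0, ?_⟩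
      intro Ω _ _ h
      obtain ⟨C, hC⟩ := hB₁ Ω h
      refine ⟨C / (κ₁ * d m * Δ m), fun z hz t ht => ?_⟩
      have h1 := hC z hz t ht
      have h2 : (Δ (2 * m) : ℝ) * hx h (z (t + m)) ≤
          (κb : ℝ) * d m * Δ m * hx h (z t) + (κb : ℝ) * Δ m * D₃ m * hx h (z (t + 2 * m)) + C := by
        rw [hd, hD₃, hΔ]
        push_cast at h1
        exact h1
      exact div_rec (Nat.cast_nonneg _) hκbR (by linarith) (Nat.cast_nonneg _) le_rfl (by linarith)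
        (by linarith) (Nat.cast_nonneg _) (h.nonneg _) (h.nonneg _) h2
  obtain ⟨P', B₂, B', ξ', hirr', hmon', hg', hB₂0, hB'0, hInJ⟩ :=
    hIn K E (n + 2) P ξ ρ m hirr hmon hg
  obtain ⟨hb2, hab, habd, htb⟩ := hG
  have hup0 : MvPolynomial.aeval ξ (up K (n + 3) B') ≠ 0 := by
    rw [aeval_up]
    intro h0
    exact hB'0 (hξ.ai (h0.trans (map_zero _).symm))
  have hΛ0 : 0 ≤ Λ := (Nat.cast_nonneg _).trans hΛ
  have hΛm : 0 ≤ (Λ / T) ^ m := by positivity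
  refine ⟨m, b, B₁ * B₂ * up K (n + 3) B', P', B', ξ', hm1, hb2, by rw [← hT]; exact htb, ?_, hB'0,
    hirr', hmon', hg', ?_⟩
  · intro hdvd
    have h0 := (hg.ker _).2 hdvd
    rw [map_mul, map_mul] at h0
    exact (mul_ne_zero (mul_ne_zero hB₁0 hB₂0) hup0) h0
  intro K₁ Ω _ _ _ _ _ _ _ _ h hinv cc hcc
  obtain ⟨R, hR0, hR⟩ := hInJ K₁ Ω h hinv cc hcc
  refine ⟨R, hR0, fun w hw => ?_⟩
  obtain ⟨C₁, hC₁⟩ := hR w hw
  obtain ⟨C₂, hC₂⟩ := hrec Ω h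
  obtain ⟨H₀, hH₀⟩ := hRl1 1 a b ((d m : ℝ) / ((δ : ℝ) * (T : ℝ) ^ m)) C₂
    (max C₁ (C₁ / ((δ : ℝ) * (T : ℝ) ^ m))) le_rfl ha ⟨hb2, hab, habd, by linarith⟩
  refine ⟨H₀, fun s hs hirs z hz hz0 hzB => ?_⟩
  have hB1t : ∀ t, MvPolynomial.aeval (z t) B₁ ≠ 0 := by
    intro t h0
    have := hzB t
    rw [map_mul, map_mul, h0, zero_mul, zero_mul] at this
    exact this rfl
  have hB2t : ∀ t, MvPolynomial.aeval (z t) B₂ ≠ 0 := by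
    intro t h0
    have := hzB t
    rw [map_mul, map_mul, h0, mul_zero, zero_mul] at this
    exact this rfl
  have hBt0 : MvPolynomial.aeval (lptN cc w s) B' ≠ 0 := by
    intro h0
    have := hzB 0
    rw [map_mul, aeval_up] at this
    have e1 : (fun i : Fin (n + 3) => z 0 i.succ) = fun i => algebraMap K₁ Ω (lptN cc w s i) :=
      funext hz0
    rw [e1, aeval_algebraMap, h0, map_zero, mul_zero] at this
    exact this rfl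
  have em : ((m : ℕ) : ℤ) - ((m : ℕ) : ℤ) = 0 := sub_self _
  have e0 : ((0 : ℕ) : ℤ) - ((m : ℕ) : ℤ) = -(m : ℤ) := by push_cast; ring
  obtain ⟨hA, hA'⟩ := hC₁ s (fun t : ℕ => z ((t : ℤ) - (m : ℤ))) hirs hBt0 (hz m)
    (fun i => by
      show z ((m : ℤ) - (m : ℤ)) i.succ = _
      rw [em]; exact hz0 i)
    (hB2t _)
  have hA2 : hx h (z 0) ≤ h.H ![1, algebraMap K₁ Ω s] + C₁ := by
    have h1 : hx h (z ((m : ℤ) - (m : ℤ))) ≤ h.H ![1, algebraMap K₁ Ω s] + C₁ := hA'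
    rwa [em] at h1
  have hA1 : (d m : ℝ) * h.H ![1, algebraMap K₁ Ω s] ≤
      (δ : ℝ) * (T : ℝ) ^ m * hx h (z (-(m : ℤ))) + C₁ := by
    have h1 : (d m : ℝ) * h.H ![1, algebraMap K₁ Ω s] ≤
        ((δ * T ^ m : ℕ) : ℝ) * hx h (z (((0 : ℕ) : ℤ) - (m : ℤ))) + C₁ := by
      rw [hd, hδ, hT]
      exact hA
    rw [e0] at h1
    push_cast at h1
    exact h1
  have hpos : 0 < (δ : ℝ) * (T : ℝ) ^ m := by linarith
  have hAA : (d m : ℝ) / ((δ : ℝ) * (T : ℝ) ^ m) * h.H ![1, algebraMap K₁ Ω s] ≤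
      1 * hx h (z (-((m : ℕ) : ℤ))) + C₁ / ((δ : ℝ) * (T : ℝ) ^ m) := by
    rw [div_mul_eq_mul_div, div_le_iff₀ hpos]
    have e : (1 * hx h (z (-((m : ℕ) : ℤ))) + C₁ / ((δ : ℝ) * (T : ℝ) ^ m)) *
        ((δ : ℝ) * (T : ℝ) ^ m) = (δ : ℝ) * (T : ℝ) ^ m * hx h (z (-(m : ℤ))) + C₁ := by
      field_simp
    rw [e]
    exact hA1
  exact hH₀ (fun t : ℕ => hx h (z (-(t : ℤ)))) m (h.H ![1, algebraMap K₁ Ω s]) (fun n => h.nonneg _)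
    hs (by
      show hx h (z (-((0 : ℕ) : ℤ))) ≤ _
      have : -((0 : ℕ) : ℤ) = 0 := by simp
      rw [this]
      exact hA2.trans (by linarith [le_max_left C₁ (C₁ / ((δ : ℝ) * (T : ℝ) ^ m))]))
    (hAA.trans (by
      show _ ≤ 1 * hx h (z (-((m : ℕ) : ℤ))) + _
      linarith [le_max_right C₁ (C₁ / ((δ : ℝ) * (T : ℝ) ^ m))]))
    (fun t => by
      have h1 := hC₂ (fun t' : ℕ => z ((t' : ℤ) - ((t + 2 * m : ℕ) : ℤ))) (hz (t + 2 * m)) 0 (hB1t _)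
      have f1 : (((0 + m : ℕ) : ℤ) - ((t + 2 * m : ℕ) : ℤ)) = -((t + m : ℕ) : ℤ) := by
        push_cast; ring
      have f2 : (((0 : ℕ) : ℤ) - ((t + 2 * m : ℕ) : ℤ)) = -((t + 2 * m : ℕ) : ℤ) := by
        push_cast; ring
      have f3 : (((0 + 2 * m : ℕ) : ℤ) - ((t + 2 * m : ℕ) : ℤ)) = -((t : ℕ) : ℤ) := by
        push_cast; ring
      have h2 : b * hx h (z (((0 + m : ℕ) : ℤ) - ((t + 2 * m : ℕ) : ℤ))) ≤
          hx h (z (((0 : ℕ) : ℤ) - ((t + 2 * m : ℕ) : ℤ))) +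
            a * hx h (z (((0 + 2 * m : ℕ) : ℤ) - ((t + 2 * m : ℕ) : ℤ))) + C₂ := h1
      rw [f1, f2, f3] at h2
      exact h2)

end Pool.Agent.Lib.MP_16285c_agX
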