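import Pool.Agent.Lib.MP_16285c_agB.SpecD
import Pool.Agent.Lib.MP_16285c_agP.FekP

/-!
# `StmtFekQ`: the rates of a submultiplicative sequence (up to the factor `κ₀`), real bound
-/

set_option autoImplicit false

namespace Pool.Agent.Lib.MP_16285c_agX

open Filter Topology PFekPM Pool.Agent.Lib.MP_16285c_agN.RealM in
theorem qFekQ : StmtFekQ := by
  intro d κ₀ Λ hκ hΛ hd h1 hlim
  have hd' : ∀ a b, κ₀ * d (a + b) ≤ κ₀ * d a * (κ₀ * d b) := fun a b => by
    calc κ₀ * d (a + b) ≤ κ₀ * (κ₀ * d a * d b) := Nat.mul_le_mul_left κ₀ (hd a b)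
      _ = κ₀ * d a * (κ₀ * d b) := by ring
  have h1' : ∀ m, 1 ≤ κ₀ * d m := fun m => Nat.mul_pos hκ (h1 m)
  have hs := subadd (d := fun m => κ₀ * d m) hd' h1'
  obtain ⟨L, hL, ht, -⟩ := tends (d := fun m => κ₀ * d m) hd' h1'
  have hb := bdd (d := fun m => κ₀ * d m) h1'
  have hLs : hs.lim = L := tendsto_nhds_unique (hs.tendsto_lim hb) ht
  have hκ1 : (1 : ℝ) ≤ κ₀ := by exact_mod_cast hκ
  have hκ0 : (0 : ℝ) < κ₀ := by linarith
  have hpos : ∀ m, (0 : ℝ) < d m := fun m => by exact_mod_cast h1 m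
  have hpos2 : ∀ m, (0 : ℝ) < κ₀ * (d m : ℝ) := fun m => mul_pos hκ0 (hpos m)
  have hcast : ∀ m, ((κ₀ * d m : ℕ) : ℝ) = κ₀ * (d m : ℝ) := fun m => by push_cast; ring
  -- the limit for `d`
  have ht2 : Tendsto (fun m : ℕ => Real.log (d m : ℝ) / m) atTop (𝓝 L) := by
    have h2 : Tendsto (fun m : ℕ => Real.log κ₀ / (m : ℝ)) atTop (𝓝 0) :=
      Tendsto.div_atTop tendsto_const_nhds tendsto_natCast_atTop_atTop
    have h3 := ht.sub h2
    rw [sub_zero] at h3
    refine h3.congr fun m => ?_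
    rw [hcast, Real.log_mul hκ0.ne' (hpos m).ne', add_div]
    ring
  refine ⟨Real.exp L, ?_, ?_, ?_⟩
  · rw [limsup_eq h1 ht2, ENNReal.ofReal_lt_ofReal_iff (Real.exp_pos L)] at hlim
    exact hlim
  · intro m
    rcases Nat.eq_zero_or_pos m with rfl | hm
    · rw [pow_zero]
      have : (1 : ℝ) ≤ d 0 := by exact_mod_cast h1 0
      nlinarith
    · have hm' : (0 : ℝ) < m := by exact_mod_cast hm
      have h2 : hs.lim ≤ Real.log ((κ₀ * d m : ℕ) : ℝ) / m := hs.lim_le_div hb hm.ne'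
      rw [hLs, le_div_iff₀ hm', hcast] at h2
      rw [← Real.exp_nat_mul, ← Real.exp_log (hpos2 m), Real.exp_le_exp]
      linarith
  · intro ε hε
    have hlog : 0 < Real.log (1 + ε) := Real.log_pos (by linarith)
    have h2 : ∀ᶠ m : ℕ in atTop, Real.log (d m : ℝ) / m < L + Real.log (1 + ε) :=
      ht2.eventually_lt_const (by linarith)
    obtain ⟨m₀, hm₀⟩ := eventually_atTop.1 (h2.and (eventually_ge_atTop 1))
    refine ⟨m₀, fun m hm => ?_⟩
    obtain ⟨h3, h4⟩ := hm₀ m hm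
    have hm' : (0 : ℝ) < m := by exact_mod_cast h4
    rw [div_lt_iff₀ hm'] at h3
    have h5 : Real.exp L * (1 + ε) = Real.exp (L + Real.log (1 + ε)) := by
      rw [Real.exp_add, Real.exp_log (by linarith)]
    rw [h5, ← Real.exp_nat_mul, ← Real.exp_log (hpos m), Real.exp_le_exp]
    linarith

end Pool.Agent.Lib.MP_16285c_agX
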