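import Pool.Agent.Lib.MP_16285c_agB.SpecD
import Pool.Agent.Lib.MP_16285c_agP.GrPP
import Pool.Agent.Lib.MP_16285c_agX.T3.TpG

/-!
# The growth hypothesis of the model (ZDB, GrBP)
-/

set_option autoImplicit false

namespace Pool.Agent.Lib.MP_16285c_agX

open Pool.Agent.Lib.MP_16285c_ag Pool.Agent.Lib.MP_16285c_agN
open Pool.Agent.Lib.MP_16285c_agS (toF)

namespace QGrBPM

/-- The degree over the field generated by the iterates of the coordinates is at least the
`t`-th power of the topological degree. -/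
theorem top_le {k : Type} [Field k] [CharZero k] {n : ℕ} {E' : Type} [Field E'] [Algebra k E']
    (hDg : StmtDg1n) (ξ : Fin (n + 1) → E') (hS : Stp k ξ) (φ : E' →ₐ[k] E') (t : ℕ) :
    ((Module.finrank φ.fieldRange E' : ℕ) : ENNReal) ^ t ≤
      degrX k n n ξ (fun i => (φ ^ t) (ξ i)) := by
  obtain ⟨-, h2, h3⟩ := hDg k E' n (n - n) n ξ hS (by omega)
  obtain ⟨A, B, hAB⟩ := h2 fun i : Fin n => (φ ^ t) (ξ i.succ)
  refine le_trans ?_ (PGrPPM.le_degrX n n ξ (fun i => (φ ^ t) (ξ i)) A B)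
  have hpos := h3 φ t
  rw [← hAB] at hpos
  have hemp : IsEmpty (Fin (n - n)) := by
    rw [Nat.sub_self]
    exact inferInstance
  have hle : IntermediateField.adjoin k (Set.range (lc A fun l : Fin n => ξ l.succ) ∪
      Set.range (lc B fun l : Fin n => (φ ^ t) (ξ l.succ))) ≤ (φ ^ t).fieldRange := by
    rw [IntermediateField.adjoin_le_iff, Set.range_eq_empty, Set.empty_union]
    rintro _ ⟨i, rfl⟩
    rw [lc]
    exact sum_mem fun j _ => mul_mem ((φ ^ t).fieldRange.algebraMap_mem (B i j))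
      ⟨ξ j.succ, rfl⟩
  have hmul := IntermediateField.relfinrank_mul_finrank_top hle
  rw [tG1.2.1 k E' φ t] at hmul
  have hfin : Module.finrank φ.fieldRange E' ^ t ≤
      Module.finrank (IntermediateField.adjoin k
        (Set.range (lc A fun l : Fin n => ξ l.succ) ∪
          Set.range (lc B fun l : Fin n => (φ ^ t) (ξ l.succ)))) E' := by
    rw [← hmul] at hpos ⊢
    exact Nat.le_mul_of_pos_left _ (Nat.pos_of_mul_pos_right hpos)
  exact_mod_cast hfin

/-- The growth rate of the powers of a natural number. -/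
theorem limsup_pow (a : ENNReal) :
    Filter.limsup (fun t : ℕ => (a ^ t) ^ ((t : ℝ)⁻¹)) Filter.atTop = a := by
  have h1 : (fun t : ℕ => (a ^ t) ^ ((t : ℝ)⁻¹)) =ᶠ[Filter.atTop] fun _ => a := by
    filter_upwards [Filter.eventually_gt_atTop 0] with t ht
    have ht0 : (t : ℝ) ≠ 0 := by exact_mod_cast ht.ne'
    rw [← ENNReal.rpow_natCast, ← ENNReal.rpow_mul, mul_inv_cancel₀ ht0, ENNReal.rpow_one]
  rw [Filter.limsup_congr h1, Filter.limsup_const]

end QGrBPM

open PGrPPM QGrBPM in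
theorem qGrBP : StmtCmQ → StmtCmpG → StmtDg1n → StmtGrBP := by
  intro hCm hCG hDg
  intro k _ _ n P E' _ _ ξ φ f m y' hP hmon hgen hinv hfv hy' hlam
  have hS : Stp k ξ := yGenS.1 k E' (n + 3) P ξ hP hmon hgen
  have htr : Algebra.trdeg k E' = ((n + 3 : ℕ) : Cardinal) := T3Dg1M.trdeg_eq ξ hS
  have hfin : Module.Finite φ.fieldRange E' := T3Gr3PM.fin hP hgen tG1 φ
  -- the last growth rate is at least the topological degree
  have hA : ((Module.finrank φ.fieldRange E' : ℕ) : ENNReal) ≤ lamX k (n + 3) (n + 3) y' φ := by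
    obtain ⟨C, hC⟩ := hCG k E' φ (n + 3) (n + 3) m (n + 4) ξ y' le_rfl htr hy' hfin
    have h2 := limsup_mul (fun t => ((Module.finrank φ.fieldRange E' : ℕ) : ENNReal) ^ t) _ C
      fun t => (top_le hDg ξ hS φ t).trans (hC t)
    rw [limsup_pow] at h2
    exact h2
  -- the choice of `Λ`
  obtain ⟨r, hr1, hr2⟩ : ∃ r : NNReal,
      (insert (n + 3) (Finset.range (n + 1))).sup (fun p => lamX k (n + 3) p y' φ) < r ∧
        (r : ENNReal) < lamX k (n + 3) (n + 2) y' φ := by
    refine ENNReal.lt_iff_exists_nnreal_btwn.1 ((Finset.sup_lt_iff ?_).2 ?_)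
    · exact lt_of_le_of_lt bot_le (hlam (n + 3) (Or.inr rfl))
    · intro p hp
      rw [Finset.mem_insert, Finset.mem_range] at hp
      exact hlam p (by omega)
  have hrp : ∀ p, p ≤ n ∨ p = n + 3 → lamX k (n + 3) p y' φ < r := fun p hp =>
    lt_of_le_of_lt (Finset.le_sup (f := fun p => lamX k (n + 3) p y' φ)
      (Finset.mem_insert.2 (by rw [Finset.mem_range]; omega))) hr1
  have hT : ((Module.finrank φ.fieldRange E' : ℕ) : ℝ) ≤ (r : ℝ) := by
    have h1 := (hA.trans_lt (hrp (n + 3) (Or.inr rfl))).le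
    exact_mod_cast h1
  have hr : (1 : ℝ) ≤ (r : ℝ) := by
    refine le_trans ?_ hT
    have h1 : 1 ≤ Module.finrank φ.fieldRange E' := Module.finrank_pos
    exact_mod_cast h1
  refine ⟨(r : ℝ), ∅, ?_⟩
  intro K _ _ _ PK fK _ _ hPK hfK hirrK hmonK hinvK σK hOf E _ _ _ _ _ ρ hRst
  let _ : Algebra K E' := ((algebraMap k E').comp (algebraMap K k)).toAlgebra
  have hst : IsScalarTower K k E' := IsScalarTower.of_algebraMap_eq fun _ => rfl
  have hgenK : GenN (MvPolynomial.map (algebraMap K k) PK) ξ := by rw [hPK]; exact hgen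
  obtain ⟨β, hβ, hdis⟩ := tBet K k (n + 3) PK hmonK E E' ξ hgenK
  have hden : ∀ i, MvPolynomial.aeval ξ ((fK.map (algebraMap K k)).den i) ≠ 0 := by
    intro i h0
    rw [hfK] at h0
    exact hinv.1 i ((hgen.ker _).1 h0)
  have hfvK : ∀ i, fvn (fK.map (algebraMap K k)) ξ i = φ (ξ i) := by
    intro i
    rw [hfK]
    exact hfv i
  have hRst1 : Rst (σK ^ 1) (Ideal.span {PK}) E ρ := by
    rw [pow_one]
    exact hRst
  have hcmp : ∀ h : E, β (ρ h) = φ (β h) := by
    intro h
    have := tCmpB K k (n + 3) PK E E' ξ β hβ fK σK φ 1 ρ hOf hden hfvK hRst1 h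
    rw [pow_one] at this
    exact this
  set ξE : Fin (n + 4) → E := fun i => toF (Ideal.span {PK}) E (MvPolynomial.X i) with hξE
  have hgenE : GenN PK ξE := yGenS.2.1 K (n + 3) PK E
  have hβξ : (fun i => β (ξE i)) = ξ := by
    funext i
    rw [hξE]
    simp only
    rw [hβ, MvPolynomial.map_X, MvPolynomial.aeval_X]
  have hStpE : Stp K ξE := yGenS.1 K E (n + 3) PK ξE hirrK hmonK hgenE
  have hStp : Stp k (fun i => β (ξE i)) := by
    rw [hβξ]
    exact hS
  have htop : IntermediateField.adjoin k (Set.range fun i => β (ξE i)) = ⊤ := by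
    rw [hβξ]
    exact hgen.top
  refine ⟨?_, ?_, ?_⟩
  · have h1 := yTpG K k E E' β hdis ρ φ hcmp hfin (n + 4) ξE hgenE.top htop
    refine le_trans ?_ hT
    exact_mod_cast h1
  · obtain ⟨C₁, hC₁⟩ := hCG k E' φ (n + 3) (n + 2) (n + 4) m y' ξ (by omega) htr hgen.top hfin
    obtain ⟨C₂, hC₂⟩ := hCm K k E E' β (n + 3) 1 (n + 2) ξE ρ φ hStpE hStp hcmp (by omega)
    have h1 : lamX k (n + 3) (n + 2) y' φ ≤ Filter.limsup (fun t : ℕ =>
        (dgx K 1 (n + 2) (fun i : Fin (n + 3) => ξE i.succ)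
          (fun i : Fin (n + 3) => (ρ ^ t) (ξE i.succ)) : ENNReal) ^
          ((t : ℝ)⁻¹)) Filter.atTop := by
      refine T3Gr3PM.limsup_const _ _ (C₁ * C₂) fun t => (hC₁ t).trans ?_
      have h2 := hC₂ t
      have h3 : (fun i => (φ ^ t) (β (ξE i))) = fun i => (φ ^ t) (ξ i) := by
        funext i
        rw [congrFun hβξ i]
      rw [hβξ, h3] at h2
      refine (mul_le_mul_right h2 _).trans (le_of_eq ?_)
      push_cast
      ring
    rw [ENNReal.ofReal_coe_nnreal]
    exact hr2.trans_le h1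
  · intro p hp
    obtain ⟨C, hC⟩ := hCG k E' φ (n + 3) p m (n + 4) ξ y' (by omega) htr hy' hfin
    obtain ⟨N₀, hN₀⟩ := event (fun t => degrX k (n + 3) p y' (fun i => (φ ^ t) (y' i))) r
      (hrp p (Or.inl hp))
    refine ⟨C + ∑ t ∈ Finset.range N₀, (dgx K (n + 3 - p) p (fun i : Fin (n + 3) => ξE i.succ)
      (fun i : Fin (n + 3) => (ρ ^ t) (ξE i.succ)) : ℝ), ?_⟩
    intro N' A B
    have hrN : (1 : ℝ) ≤ (r : ℝ) ^ N' := one_le_pow₀ hr
    have hsum : (0 : ℝ) ≤ ∑ t ∈ Finset.range N₀, (dgx K (n + 3 - p) p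
        (fun i : Fin (n + 3) => ξE i.succ) (fun i : Fin (n + 3) => (ρ ^ t) (ξE i.succ)) : ℝ) :=
      Finset.sum_nonneg fun t _ => Nat.cast_nonneg _
    rcases le_or_gt N₀ N' with h | h
    · have h1 := le_degrX (n + 3) p ξE (fun i => (ρ ^ N') (ξE i)) A B
      have h2 := tDescX K k E E' β hdis (n + 4) ξE (fun i => (ρ ^ N') (ξE i)) hgenE.top htop
        (n + 3) p
      have h3 : (fun i => β ((ρ ^ N') (ξE i))) = fun i => (φ ^ N') (ξ i) := by
        funext i
        rw [T3CmpXM.pow_comm β ρ φ hcmp N' (ξE i), congrFun hβξ i]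
      rw [hβξ, h3] at h2
      have h4 := (h1.trans h2).trans ((hC N').trans (mul_le_mul_right (hN₀ N' h) _))
      have h5 : (Module.finrank (IntermediateField.adjoin K
          (Set.range (lc A fun l : Fin (n + 3) => ξE l.succ) ∪
            Set.range (lc B fun l : Fin (n + 3) => (ρ ^ N') (ξE l.succ)))) E : ℝ) ≤
            C * (r : ℝ) ^ N' := by
        exact_mod_cast h4
      refine h5.trans (mul_le_mul_of_nonneg_right ?_ (zero_le_one.trans hrN))
      linarith
    · have h1 := (hDg K E (n + 3) (n + 3 - p) p ξE hStpE (by omega)).1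
        (fun i : Fin (n + 3) => (ρ ^ N') (ξE i.succ)) A B
      have h2 : (dgx K (n + 3 - p) p (fun i : Fin (n + 3) => ξE i.succ)
          (fun i : Fin (n + 3) => (ρ ^ N') (ξE i.succ)) : ℝ) ≤
          ∑ t ∈ Finset.range N₀, (dgx K (n + 3 - p) p (fun i : Fin (n + 3) => ξE i.succ)
            (fun i : Fin (n + 3) => (ρ ^ t) (ξE i.succ)) : ℝ) :=
        Finset.single_le_sum (f := fun t => (dgx K (n + 3 - p) p
          (fun i : Fin (n + 3) => ξE i.succ)
            (fun i : Fin (n + 3) => (ρ ^ t) (ξE i.succ)) : ℝ))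
          (fun t _ => Nat.cast_nonneg _) (Finset.mem_range.2 h)
      have h3 : (Module.finrank (IntermediateField.adjoin K
          (Set.range (lc A fun l : Fin (n + 3) => ξE l.succ) ∪
            Set.range (lc B fun l : Fin (n + 3) => (ρ ^ N') (ξE l.succ)))) E : ℝ) ≤
            (dgx K (n + 3 - p) p (fun i : Fin (n + 3) => ξE i.succ)
              (fun i : Fin (n + 3) => (ρ ^ N') (ξE i.succ)) : ℝ) := by
        exact_mod_cast h1
      have hC0 : (0 : ℝ) ≤ C := Nat.cast_nonneg _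
      refine h3.trans (h2.trans ?_)
      refine le_trans ?_ (le_mul_of_one_le_right (by linarith) hrN)
      linarith

end Pool.Agent.Lib.MP_16285c_agX
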