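import Pool.Agent.Lib.MP_16285c_agB.SpecC
import Mathlib.FieldTheory.PrimitiveElement
import Mathlib.FieldTheory.Minpoly.IsIntegrallyClosed
import Mathlib.RingTheory.Polynomial.ScaleRoots

/-!
# ZDB, (HH): Hilbert irreducibility for two polynomials by one
-/

set_option autoImplicit false

namespace Pool.Agent.Lib.MP_16285c_agX

open Pool.Agent.Lib.MP_16285c_ag Pool.Agent.Lib.MP_16285c_agN

namespace QHHM

open Polynomial

section

variable {R : Type} [CommRing R] [IsDomain R] {Q M : Type} [Field Q] [Algebra R Q]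
  [IsFractionRing R Q] [Field M] [Algebra Q M] [Algebra R M] [IsScalarTower R Q M]

/-- The coefficients of the powers of `A` modulo `F`. -/
noncomputable def cf (F A : R[X]) (j l : ℕ) : R := (A ^ j %ₘ F).coeff l

/-- A right inverse, up to a factor, of the matrix of the powers of `α`. -/
theorem inv (F F₁ A : R[X]) (G : R) (θ α : M) (hF : F.Monic)
    (hFi : Irreducible (F.map (algebraMap R Q))) (hθ : aeval θ F = 0)
    (hF₁ : F₁.Monic) (hF₁i : Irreducible (F₁.map (algebraMap R Q))) (hα : aeval α F₁ = 0)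
    (hG : G ≠ 0) (hA : aeval θ A = algebraMap R M G * α) :
    ∃ (b : R) (Y : Fin F.natDegree → Fin F₁.natDegree → R), b ≠ 0 ∧
      ∀ i j : Fin F₁.natDegree, ∑ l : Fin F.natDegree, cf F A i l * Y l j = if i = j then b else 0 := by
  classical
  have hinj : Function.Injective (algebraMap R Q) := IsFractionRing.injective R Q
  have he : 0 < F.natDegree := by
    have h := hFi.natDegree_pos
    rwa [hF.natDegree_map] at h
  have hF1 : F ≠ 1 := by
    rintro rfl
    simp at he
  set d := F₁.natDegree with hd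
  set e := F.natDegree with hee
  set C' : Matrix (Fin d) (Fin e) Q := fun j l => algebraMap R Q (cf F A j l) with hC'
  have hker : LinearMap.ker (Matrix.vecMulLinear C') = ⊥ := by
    rw [LinearMap.ker_eq_bot']
    intro v hv
    have hv' : ∀ l : Fin e, ∑ j : Fin d, v j * algebraMap R Q (cf F A j l) = 0 := by
      intro l
      exact congrFun hv l
    set s : Q[X] := ∑ j : Fin d, C (v j * algebraMap R Q G ^ (j : ℕ)) * X ^ (j : ℕ) with hs
    have hdeg : s.degree < (F₁.map (algebraMap R Q)).degree := by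
      rw [Polynomial.degree_eq_natDegree hF₁i.ne_zero, hF₁.natDegree_map]
      rw [hs]
      refine lt_of_le_of_lt (Polynomial.degree_sum_le _ _) ?_
      rw [Finset.sup_lt_iff (by exact WithBot.bot_lt_coe _)]
      intro j _
      refine lt_of_le_of_lt (Polynomial.degree_C_mul_X_pow_le _ _) ?_
      exact_mod_cast j.2
    have hmod : ∀ j : ℕ, aeval θ (A ^ j) = ∑ l : Fin e, algebraMap R M (cf F A j l) * θ ^ (l : ℕ) := by
      intro j
      have h1 : aeval θ (A ^ j) = aeval θ (A ^ j %ₘ F) := by
        conv_lhs => rw [← Polynomial.modByMonic_add_div (A ^ j) F]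
        rw [map_add, map_mul, hθ, zero_mul, add_zero]
      rw [h1, Polynomial.aeval_eq_sum_range' (Polynomial.natDegree_modByMonic_lt _ hF hF1),
        Finset.sum_range]
      apply Finset.sum_congr rfl
      intro l _
      rw [Algebra.smul_def]
      rfl
    have hz : aeval α s = 0 := by
      rw [hs, map_sum]
      have h2 : ∀ j : Fin d, aeval α (C (v j * algebraMap R Q G ^ (j : ℕ)) * X ^ (j : ℕ)) =
          ∑ l : Fin e, algebraMap Q M (v j * algebraMap R Q (cf F A j l)) * θ ^ (l : ℕ) := by
        intro j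
        have h3 := hmod j
        rw [map_pow, hA, mul_pow] at h3
        rw [map_mul, map_pow, aeval_X, aeval_C, map_mul, map_pow,
          ← IsScalarTower.algebraMap_apply, mul_assoc, h3, Finset.mul_sum]
        apply Finset.sum_congr rfl
        intro l _
        rw [map_mul, ← IsScalarTower.algebraMap_apply]
        ring
      rw [Finset.sum_congr rfl (fun j _ => h2 j), Finset.sum_comm]
      apply Finset.sum_eq_zero
      intro l _
      rw [← Finset.sum_mul, ← map_sum, hv' l, map_zero, zero_mul]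
    have hmin : F₁.map (algebraMap R Q) = minpoly Q α := by
      refine minpoly.eq_of_irreducible_of_monic hF₁i ?_ (hF₁.map _)
      rw [Polynomial.aeval_map_algebraMap]
      exact hα
    have hs0 : s = 0 := by
      apply Polynomial.eq_zero_of_dvd_of_degree_lt (p := F₁.map (algebraMap R Q)) _ hdeg
      rw [hmin]
      exact minpoly.dvd Q α hz
    funext i
    have h4 : s.coeff i = v i * algebraMap R Q G ^ (i : ℕ) := by
      rw [hs, Polynomial.finsetSum_coeff]
      rw [Finset.sum_eq_single i]
      · rw [Polynomial.coeff_C_mul_X_pow, if_pos rfl]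
      · intro j _ hj
        rw [Polynomial.coeff_C_mul_X_pow, if_neg]
        intro h
        exact hj (Fin.ext h.symm)
      · intro h
        exact absurd (Finset.mem_univ i) h
    rw [hs0, Polynomial.coeff_zero] at h4
    have hG' : algebraMap R Q G ≠ 0 := by
      rw [ne_eq, map_eq_zero_iff _ hinj]
      exact hG
    have h5 := mul_eq_zero.1 h4.symm
    rcases h5 with h5 | h5
    · exact h5
    · exact absurd h5 (pow_ne_zero _ hG')
  obtain ⟨g, hg⟩ := LinearMap.exists_leftInverse_of_injective (Matrix.vecMulLinear C') hker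
  have hXm : ∀ i j : Fin d, ∑ l : Fin e, C' i l * g (Pi.single l 1) j = if i = j then 1 else 0 := by
    intro i j
    have h1 : Matrix.vecMulLinear C' (Pi.single i 1) = C' i := by
      funext l
      simp [Matrix.vecMulLinear]
    have h2 : g (C' i) = Pi.single i 1 := by
      rw [← h1]
      exact LinearMap.congr_fun hg (Pi.single i 1)
    have h3 : C' i = ∑ l : Fin e, C' i l • (Pi.single l (1 : Q) : Fin e → Q) := by
      funext l'
      rw [Finset.sum_apply, Finset.sum_eq_single l']
      · simp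
      · intro l _ hl
        simp [Pi.single_eq_of_ne' hl]
      · intro h
        exact absurd (Finset.mem_univ l') h
    rw [h3, map_sum] at h2
    have h4 := congrFun h2 j
    rw [Finset.sum_apply] at h4
    simp only [map_smul, Pi.smul_apply, smul_eq_mul] at h4
    rw [h4]
    by_cases hij : i = j
    · subst hij
      simp
    · rw [if_neg hij, Pi.single_eq_of_ne (fun h => hij h.symm)]
  obtain ⟨b, hb⟩ := IsLocalization.exist_integer_multiples_of_finite (nonZeroDivisors R)
    (fun q : Fin e × Fin d => g (Pi.single q.1 1) q.2)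
  choose Y hY using hb
  refine ⟨(b : R), fun l j => Y (l, j), nonZeroDivisors.ne_zero b.2, ?_⟩
  intro i j
  apply hinj
  rw [map_sum]
  have h1 : ∀ l : Fin e, algebraMap R Q (cf F A i l * Y (l, j)) =
      algebraMap R Q (b : R) * (C' i l * g (Pi.single l 1) j) := by
    intro l
    rw [map_mul, hY (l, j), Algebra.smul_def]
    change algebraMap R Q (cf F A i l) * _ = _
    ring
  rw [Finset.sum_congr rfl (fun l _ => h1 l), ← Finset.mul_sum, hXm]
  by_cases hij : i = j
  · rw [if_pos hij, if_pos hij, mul_one]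
  · rw [if_neg hij, if_neg hij, mul_zero, map_zero]

/-- A specialised element has no small monic equation. -/
theorem no (F A : R[X]) (hF : F.Monic) (hF1 : F ≠ 1) (d : ℕ) (b : R)
    (Y : Fin F.natDegree → Fin d → R)
    (hY : ∀ i j : Fin d, ∑ l : Fin F.natDegree, cf F A i l * Y l j = if i = j then b else 0)
    (K : Type) [Field K] (φ : R →+* K) (hb : φ b ≠ 0) (s : K[X]) (hs : s.Monic)
    (hsd : s.natDegree < d) : ¬ F.map φ ∣ s.comp (A.map φ) := by
  classical
  intro hdvd
  have hFm : (F.map φ).Monic := hF.map φ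
  have h0 : s.comp (A.map φ) %ₘ F.map φ = 0 := (Polynomial.modByMonic_eq_zero_iff_dvd hFm).2 hdvd
  have h1 : s.comp (A.map φ) = ∑ j : Fin d, s.coeff j • (A.map φ) ^ (j : ℕ) := by
    rw [Polynomial.comp, Polynomial.eval₂_eq_sum_range' _ hsd, Finset.sum_range]
    apply Finset.sum_congr rfl
    intro j _
    rw [Polynomial.smul_eq_C_mul]
  have h2 : ∀ l : ℕ, ∑ j : Fin d, s.coeff j * φ (cf F A j l) = 0 := by
    intro l
    have h3 : (s.comp (A.map φ) %ₘ F.map φ).coeff l = 0 := by rw [h0, Polynomial.coeff_zero]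
    rw [h1] at h3
    have h4 : (∑ j : Fin d, s.coeff j • (A.map φ) ^ (j : ℕ)) %ₘ F.map φ =
        ∑ j : Fin d, s.coeff j • ((A.map φ) ^ (j : ℕ) %ₘ F.map φ) := by
      have := map_sum (Polynomial.modByMonicHom (F.map φ))
        (fun j : Fin d => s.coeff j • (A.map φ) ^ (j : ℕ)) Finset.univ
      simp only [map_smul] at this
      exact this
    rw [h4, Polynomial.finsetSum_coeff] at h3
    rw [← h3]
    apply Finset.sum_congr rfl
    intro j _
    rw [Polynomial.coeff_smul, smul_eq_mul, ← Polynomial.map_pow, ← Polynomial.map_modByMonic _ hF,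
      Polynomial.coeff_map]
    rfl
  have h5 : ∀ i : Fin d, s.coeff i * φ b = 0 := by
    intro i
    have h6 : ∑ l : Fin F.natDegree, (∑ j : Fin d, s.coeff j * φ (cf F A j l)) * φ (Y l i) = 0 := by
      apply Finset.sum_eq_zero
      intro l _
      rw [h2 l, zero_mul]
    have h7 : ∑ l : Fin F.natDegree, (∑ j : Fin d, s.coeff j * φ (cf F A j l)) * φ (Y l i) =
        ∑ j : Fin d, s.coeff j * φ (∑ l : Fin F.natDegree, cf F A j l * Y l i) := by
      simp only [Finset.sum_mul, map_sum, Finset.mul_sum, map_mul]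
      rw [Finset.sum_comm]
      apply Finset.sum_congr rfl
      intro j _
      apply Finset.sum_congr rfl
      intro l _
      ring
    rw [h7, Finset.sum_eq_single i] at h6
    · rw [hY i i, if_pos rfl] at h6
      exact h6
    · intro j _ hj
      rw [hY j i, if_neg hj, map_zero, mul_zero]
    · intro h
      exact absurd (Finset.mem_univ i) h
  have h8 := h5 ⟨s.natDegree, hsd⟩
  change s.leadingCoeff * φ b = 0 at h8
  rw [hs.leadingCoeff, one_mul] at h8
  exact hb h8

/-- One polynomial. -/
theorem one (F F₁ A : R[X]) (G : R) (θ α : M) (hF : F.Monic)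
    (hFi : Irreducible (F.map (algebraMap R Q))) (hθ : aeval θ F = 0)
    (hF₁ : F₁.Monic) (hF₁i : Irreducible (F₁.map (algebraMap R Q))) (hα : aeval α F₁ = 0)
    (hG : G ≠ 0) (hA : aeval θ A = algebraMap R M G * α) :
    ∃ D : R, D ≠ 0 ∧ ∀ (K : Type) [Field K] (φ : R →+* K), Irreducible (F.map φ) → φ D ≠ 0 →
      Irreducible (F₁.map φ) := by
  classical
  obtain ⟨b, Y, hb, hY⟩ := inv (Q := Q) F F₁ A G θ α hF hFi hθ hF₁ hF₁i hα hG hA
  have hinj : Function.Injective (algebraMap R Q) := IsFractionRing.injective R Q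
  have he : 0 < F.natDegree := by
    have h := hFi.natDegree_pos
    rwa [hF.natDegree_map] at h
  have hd : 0 < F₁.natDegree := by
    have h := hF₁i.natDegree_pos
    rwa [hF₁.natDegree_map] at h
  have hF1 : F ≠ 1 := by
    rintro rfl
    simp at he
  have hdvd : F ∣ (F₁.scaleRoots G).comp A := by
    rw [← Polynomial.map_dvd_map _ hinj hF]
    have hmin : F.map (algebraMap R Q) = minpoly Q θ := by
      refine minpoly.eq_of_irreducible_of_monic hFi ?_ (hF.map _)
      rw [Polynomial.aeval_map_algebraMap]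
      exact hθ
    rw [hmin]
    apply minpoly.dvd
    rw [Polynomial.aeval_map_algebraMap, Polynomial.aeval_comp, hA]
    exact Polynomial.scaleRoots_aeval_eq_zero hα
  refine ⟨G * b, mul_ne_zero hG hb, ?_⟩
  intro K _ φ hirr hφ
  rw [map_mul] at hφ
  have hφG : φ G ≠ 0 := left_ne_zero_of_mul hφ
  have hφb : φ b ≠ 0 := right_ne_zero_of_mul hφ
  rw [(hF₁.map φ).irreducible_iff_natDegree]
  refine ⟨?_, ?_⟩
  · intro h
    have h1 := hF₁.natDegree_map φ
    rw [h, Polynomial.natDegree_one] at h1
    omega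
  · intro f g hf hg hfg
    by_contra hcon
    push Not at hcon
    have hsum : f.natDegree + g.natDegree = F₁.natDegree := by
      rw [← hf.natDegree_mul hg, hfg, hF₁.natDegree_map]
    have hdv := Polynomial.map_dvd φ hdvd
    rw [Polynomial.map_comp, Polynomial.map_scaleRoots _ _ _
      (by rw [hF₁.leadingCoeff, map_one]; exact one_ne_zero), ← hfg,
      Polynomial.mul_scaleRoots_of_noZeroDivisors, Polynomial.mul_comp] at hdv
    rcases hirr.prime.dvd_or_dvd hdv with h | h
    · refine no F A hF hF1 F₁.natDegree b Y hY K φ hφb (f.scaleRoots (φ G)) ?_ ?_ h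
      · rw [Polynomial.monic_scaleRoots_iff]
        exact hf
      · rw [Polynomial.natDegree_scaleRoots]
        omega
    · refine no F A hF hF1 F₁.natDegree b Y hY K φ hφb (g.scaleRoots (φ G)) ?_ ?_ h
      · rw [Polynomial.monic_scaleRoots_iff]
        exact hg
      · rw [Polynomial.natDegree_scaleRoots]
        omega

/-- An element of `Q(θ)` with cleared denominators. -/
theorem clr [FiniteDimensional Q M] (θ α : M) (h : IntermediateField.adjoin Q {θ} = ⊤) :
    ∃ (A : R[X]) (G : R), G ≠ 0 ∧ aeval θ A = algebraMap R M G * α := by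
  have hα : α ∈ IntermediateField.adjoin Q {θ} := by
    rw [h]
    exact IntermediateField.mem_top
  have hint : IsIntegral Q θ := IsIntegral.of_finite Q θ
  have h1 : α ∈ Algebra.adjoin Q {θ} := by
    rw [← IntermediateField.adjoin_simple_toSubalgebra_of_isAlgebraic hint.isAlgebraic]
    exact hα
  rw [Algebra.adjoin_singleton_eq_range_aeval] at h1
  obtain ⟨p, hp⟩ := h1
  have hp' : aeval θ p = α := hp
  obtain ⟨b, hbm, hb⟩ := IsLocalization.integerNormalization_spec (nonZeroDivisors R) p
  refine ⟨IsLocalization.integerNormalization (nonZeroDivisors R) p, b,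
    nonZeroDivisors.ne_zero hbm, ?_⟩
  rw [← Polynomial.aeval_map_algebraMap Q, hb]
  have h2 : (b • p : Q[X]) = C (algebraMap R Q b) * p := by
    rw [← Polynomial.smul_eq_C_mul, algebraMap_smul]
  rw [h2, map_mul, aeval_C, hp', ← IsScalarTower.algebraMap_apply]

/-- The core, with a finite extension which contains roots of both polynomials. -/
theorem core [IsIntegrallyClosed R] [CharZero Q] [FiniteDimensional Q M] (F₁ F₂ : R[X])
    (α₁ α₂ : M) (hF₁ : F₁.Monic) (hF₂ : F₂.Monic) (hi₁ : Irreducible (F₁.map (algebraMap R Q)))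
    (hi₂ : Irreducible (F₂.map (algebraMap R Q))) (hb₁ : aeval α₁ F₁ = 0) (hb₂ : aeval α₂ F₂ = 0) :
    ∃ (F : R[X]) (D : R), F.Monic ∧ Irreducible (F.map (algebraMap R Q)) ∧ D ≠ 0 ∧
      ∀ (K : Type) [Field K] (φ : R →+* K), Irreducible (F.map φ) → φ D ≠ 0 →
        Irreducible (F₁.map φ) ∧ Irreducible (F₂.map φ) := by
  classical
  have hinj : Function.Injective (algebraMap R Q) := IsFractionRing.injective R Q
  obtain ⟨z, hz⟩ := Field.exists_primitive_element Q M
  have halg : IsAlgebraic R z := by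
    rw [IsFractionRing.isAlgebraic_iff R Q M]
    exact Algebra.IsAlgebraic.isAlgebraic z
  obtain ⟨D, hD, hint⟩ := halg.exists_integral_multiple
  set θ : M := D • z with hθ
  have hDQ : algebraMap R Q D ≠ 0 := by
    rw [ne_eq, map_eq_zero_iff _ hinj]
    exact hD
  have htop : IntermediateField.adjoin Q {θ} = (⊤ : IntermediateField Q M) := by
    rw [eq_top_iff, ← hz, IntermediateField.adjoin_simple_le_iff]
    have h1 : z = (algebraMap R Q D)⁻¹ • θ := by
      rw [hθ, ← algebraMap_smul Q D z, smul_smul, inv_mul_cancel₀ hDQ, one_smul]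
    rw [h1]
    exact IntermediateField.smul_mem _ (IntermediateField.mem_adjoin_simple_self Q θ)
  set F : R[X] := minpoly R θ with hF
  have hFm : F.Monic := minpoly.monic hint
  have hFi : Irreducible (F.map (algebraMap R Q)) := by
    rw [hF, ← minpoly.isIntegrallyClosed_eq_field_fractions Q M hint]
    exact minpoly.irreducible (IsIntegral.of_finite Q θ)
  have hFθ : aeval θ F = 0 := minpoly.aeval _ _
  obtain ⟨A₁, G₁, hG₁, hA₁⟩ := clr (R := R) (Q := Q) θ α₁ htop
  obtain ⟨A₂, G₂, hG₂, hA₂⟩ := clr (R := R) (Q := Q) θ α₂ htop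
  obtain ⟨D₁, hD₁, h₁⟩ := one (Q := Q) F F₁ A₁ G₁ θ α₁ hFm hFi hFθ hF₁ hi₁ hb₁ hG₁ hA₁
  obtain ⟨D₂, hD₂, h₂⟩ := one (Q := Q) F F₂ A₂ G₂ θ α₂ hFm hFi hFθ hF₂ hi₂ hb₂ hG₂ hA₂
  refine ⟨F, D₁ * D₂, hFm, hFi, mul_ne_zero hD₁ hD₂, ?_⟩
  intro K _ φ hirr ht
  rw [map_mul] at ht
  exact ⟨h₁ K φ hirr (left_ne_zero_of_mul ht), h₂ K φ hirr (right_ne_zero_of_mul ht)⟩

end

end QHHM

open QHHM in
theorem qHH : StmtHH := by
  classical
  intro K _ _ n F₁ F₂ hF₁ hF₂ hi₁ hi₂
  have hcz : CharZero (RF n K) := charZero_of_injective_algebraMap (algebraMap K (RF n K)).injective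
  obtain ⟨a₁, ha₁⟩ := IsAlgClosed.exists_aeval_eq_zero (AlgebraicClosure (RF n K))
    (F₁.map (algebraMap (Pl n K) (RF n K))) (Polynomial.degree_pos_of_irreducible hi₁).ne'
  obtain ⟨a₂, ha₂⟩ := IsAlgClosed.exists_aeval_eq_zero (AlgebraicClosure (RF n K))
    (F₂.map (algebraMap (Pl n K) (RF n K))) (Polynomial.degree_pos_of_irreducible hi₂).ne'
  set S : IntermediateField (RF n K) (AlgebraicClosure (RF n K)) :=
    IntermediateField.adjoin (RF n K) {a₁, a₂} with hS
  have hfd : FiniteDimensional (RF n K) S := by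
    apply IntermediateField.finiteDimensional_adjoin
    intro x _
    exact Algebra.IsIntegral.isIntegral x
  have hm₁ : a₁ ∈ S := IntermediateField.subset_adjoin (RF n K) _ (Set.mem_insert _ _)
  have hm₂ : a₂ ∈ S := IntermediateField.subset_adjoin (RF n K) _ (Set.mem_insert_of_mem _ rfl)
  have hb₁ : Polynomial.aeval (⟨a₁, hm₁⟩ : S) (F₁.map (algebraMap (Pl n K) (RF n K))) = 0 := by
    apply Subtype.ext
    have := Polynomial.aeval_algHom_apply S.val (⟨a₁, hm₁⟩ : S) (F₁.map (algebraMap (Pl n K) (RF n K)))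
    change S.val _ = 0
    rw [← this]
    exact ha₁
  have hb₂ : Polynomial.aeval (⟨a₂, hm₂⟩ : S) (F₂.map (algebraMap (Pl n K) (RF n K))) = 0 := by
    apply Subtype.ext
    have := Polynomial.aeval_algHom_apply S.val (⟨a₂, hm₂⟩ : S) (F₂.map (algebraMap (Pl n K) (RF n K)))
    change S.val _ = 0
    rw [← this]
    exact ha₂
  let _ : Algebra (Pl n K) S := ((algebraMap (RF n K) S).comp (algebraMap (Pl n K) (RF n K))).toAlgebra
  have hst : IsScalarTower (Pl n K) (RF n K) S := IsScalarTower.of_algebraMap_eq fun _ => rfl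
  rw [Polynomial.aeval_map_algebraMap] at hb₁ hb₂
  obtain ⟨F, D, h1, h2, h3, h4⟩ := core (R := Pl n K) (Q := RF n K) (M := S) F₁ F₂
    ⟨a₁, hm₁⟩ ⟨a₂, hm₂⟩ hF₁ hF₂ hi₁ hi₂ hb₁ hb₂
  exact ⟨F, D, h1, h2, h3, fun t ht hD => h4 K (MvPolynomial.eval t) ht hD⟩

end Pool.Agent.Lib.MP_16285c_agX
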