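import Pool.Agent.Lib.MP_16285c_agB.SpecA
import Pool.Agent.Lib.MP_16285c_agP.Dg1n
import Pool.Agent.Lib.MP_16285c_agZ.UPP.Dh

/-!
# ZDB: the topological degree (`StmtTpQ`)
-/

set_option autoImplicit false

namespace Pool.Agent.Lib.MP_16285c_agX.QTpQM

open Pool.Agent.Lib.MP_16285c_ag Pool.Agent.Lib.MP_16285c_agN

variable {K E : Type} [Field K] [Field E] [Algebra K E]

/-- The degree over the field generated by the iterated images. -/
theorem pow_deg {ι : Type} (ρ : E →ₐ[K] E) (g : ι → E) (m : ℕ) :
    Module.finrank (IntermediateField.adjoin K (Set.range fun i => (ρ ^ m) (g i))) E =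
      Module.finrank (IntermediateField.adjoin K (Set.range g)) E *
        Module.finrank ρ.fieldRange E ^ m := by
  induction m with
  | zero =>
    rw [pow_zero, pow_zero, mul_one]
    rfl
  | succ m ih =>
    have h : IntermediateField.adjoin K (Set.range fun i => (ρ ^ (m + 1)) (g i)) =
        (IntermediateField.adjoin K (Set.range fun i => (ρ ^ m) (g i))).map ρ := by
      rw [IntermediateField.adjoin_map, ← Set.range_comp]
      congr 2
      funext i
      rw [pow_succ', AlgHom.mul_apply]
      rfl
    rw [h, Pool.Agent.Lib.MP_16285c_agZ.finrank_map', ih, pow_succ, mul_assoc]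

/-- A generating family with as many elements as the transcendence degree is independent. -/
theorem algind {n : ℕ} (v : Fin n → E) (htr : Algebra.trdeg K E = n)
    (hfin : Module.Finite (IntermediateField.adjoin K (Set.range v)) E) :
    AlgebraicIndependent K v := by
  classical
  have halg : Algebra.IsAlgebraic (IntermediateField.adjoin K (Set.range v)) E := inferInstance
  have halg2 : Algebra.IsAlgebraic (Algebra.adjoin K (Set.range v)) E :=
    (IntermediateField.isAlgebraic_adjoin_iff_top).1 halg
  obtain ⟨t, hts, htb⟩ := exists_isTranscendenceBasis_subset (R := K) (A := E) (Set.range v)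
  have hcard : Cardinal.mk t = n := by
    rw [htb.cardinalMk_eq_trdeg, htr]
  have hn : t.ncard = n := by
    rw [Set.ncard_def, Set.encard, ENat.card, hcard]
    simp
  have hr : (Set.range v).ncard ≤ n := by
    have h := Set.ncard_image_le (f := v) (s := Set.univ) Set.finite_univ
    rw [Set.image_univ, Set.ncard_univ, Nat.card_eq_fintype_card, Fintype.card_fin] at h
    exact h
  have ht : t = Set.range v :=
    Set.eq_of_subset_of_ncard_le hts (by rw [hn]; exact hr) (Set.finite_range v)
  have hinj : Function.Injective v := by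
    have h2 : (v '' Set.univ).ncard = (Set.univ : Set (Fin n)).ncard := by
      rw [Set.image_univ, ← ht, hn, Set.ncard_univ, Nat.card_eq_fintype_card, Fintype.card_fin]
    have h3 := Set.injOn_of_ncard_image_eq h2 Set.finite_univ
    exact Set.injOn_univ.1 h3
  have hm : ∀ i, v i ∈ t := fun i => by
    rw [ht]
    exact ⟨i, rfl⟩
  have h4 := htb.1.comp (fun i : Fin n => (⟨v i, hm i⟩ : t))
    (fun i j hij => hinj (congrArg Subtype.val hij))
  exact h4

/-- Linear independence and dimensions. -/
theorem lin {n : ℕ} (v g : Fin n → E) (hv : ∀ i, v i ∈ Submodule.span K (Set.range g))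
    (hli : LinearIndependent K v) (j : Fin n) : g j ∈ Submodule.span K (Set.range v) := by
  have h1 : Submodule.span K (Set.range v) ≤ Submodule.span K (Set.range g) := by
    rw [Submodule.span_le]
    rintro _ ⟨i, rfl⟩
    exact hv i
  have h2 : Module.finrank K (Submodule.span K (Set.range v)) = n := by
    rw [finrank_span_eq_card hli, Fintype.card_fin]
  have h3 : Module.finrank K (Submodule.span K (Set.range g)) ≤ n := by
    have h := finrank_range_le_card (R := K) g
    rwa [Fintype.card_fin] at h
  have hf : FiniteDimensional K (Submodule.span K (Set.range g)) :=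
    FiniteDimensional.span_of_finite K (Set.finite_range g)
  have h4 : Submodule.span K (Set.range v) = Submodule.span K (Set.range g) :=
    Submodule.eq_of_le_of_finrank_le h1 (by rw [h2]; exact h3)
  rw [h4]
  exact Submodule.subset_span ⟨j, rfl⟩

/-- Linear combinations are in the field. -/
theorem span_adj {n : ℕ} (v : Fin n → E) {z : E} (hz : z ∈ Submodule.span K (Set.range v)) :
    z ∈ IntermediateField.adjoin K (Set.range v) := by
  have h : Submodule.span K (Set.range v) ≤
      Subalgebra.toSubmodule (IntermediateField.adjoin K (Set.range v)).toSubalgebra := by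
    rw [Submodule.span_le]
    intro x hx
    exact IntermediateField.subset_adjoin K _ hx
  exact h hz

theorem lc_span {n c : ℕ} (B : Fin c → Fin n → K) (g : Fin n → E) (i : Fin c) :
    lc B g i ∈ Submodule.span K (Set.range g) := by
  unfold lc
  refine Submodule.sum_mem _ fun j _ => ?_
  rw [← Algebra.smul_def]
  exact Submodule.smul_mem _ _ (Submodule.subset_span ⟨j, rfl⟩)

end Pool.Agent.Lib.MP_16285c_agX.QTpQM

namespace Pool.Agent.Lib.MP_16285c_agX

open Pool.Agent.Lib.MP_16285c_ag Pool.Agent.Lib.MP_16285c_agN

theorem qTpQ : StmtDg1n → StmtTpQ := by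
  intro hD K E _ _ _ _ N ξ hs ρ m
  refine ⟨QTpQM.pow_deg ρ _ m, ?_⟩
  obtain ⟨-, h2, h3⟩ := hD K E N 0 N ξ hs (Nat.zero_add N)
  obtain ⟨A, B, hAB⟩ := h2 (fun i : Fin N => (ρ ^ m) (ξ i.succ))
  have h4 := h3 ρ m
  rw [← hAB] at h4 ⊢
  rw [Set.range_eq_empty (lc A fun i => ξ i.succ), Set.empty_union] at h4 ⊢
  have hfin : Module.Finite (IntermediateField.adjoin K
      (Set.range (lc B fun i : Fin N => (ρ ^ m) (ξ i.succ)))) E :=
    Module.finite_of_finrank_pos h4
  have hli := (QTpQM.algind _ (T3Dg1M.trdeg_eq ξ hs) hfin).linearIndependent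
  have hle : IntermediateField.adjoin K (Set.range (lc B fun i : Fin N => (ρ ^ m) (ξ i.succ))) =
      IntermediateField.adjoin K (Set.range fun i : Fin N => (ρ ^ m) (ξ i.succ)) := by
    apply le_antisymm
    · rw [IntermediateField.adjoin_le_iff]
      rintro _ ⟨i, rfl⟩
      exact QTpQM.span_adj _ (QTpQM.lc_span B _ i)
    · rw [IntermediateField.adjoin_le_iff]
      rintro _ ⟨j, rfl⟩
      exact QTpQM.span_adj _ (QTpQM.lin _ _ (QTpQM.lc_span B _) hli j)
  rw [hle, QTpQM.pow_deg]

end Pool.Agent.Lib.MP_16285c_agX
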