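import Pool.Agent.Lib.MP_16285c_agB.SpecC
import Pool.Agent.Lib.MP_16285c_agB.TpQ
import Pool.Agent.Lib.MP_16285c_agX.T3.FlV
import Pool.Agent.Lib.MP_16285c_agX.T3.VlA
import Pool.Agent.Lib.MP_16285c_agX.T3.GenS

/-!
# ZDB, section (4) of note 5071: the initial jump (InJ)
-/

set_option autoImplicit false

namespace Pool.Agent.Lib.MP_16285c_agX

open Pool.Agent.Lib.MP_16285c_ag Pool.Agent.Lib.MP_16285c_agN

namespace QInJM

theorem frac {K E : Type} [Field K] [Field E] [Algebra K E] {n : ℕ} (ξ : Fin n → E)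
    (hξ : IntermediateField.adjoin K (Set.range ξ) = ⊤) (e : E) :
    ∃ N D : Pl n K, MvPolynomial.aeval ξ D ≠ 0 ∧
      e * MvPolynomial.aeval ξ D = MvPolynomial.aeval ξ N := by
  have he : e ∈ IntermediateField.adjoin K (Set.range ξ) := by
    rw [hξ]
    exact IntermediateField.mem_top
  rw [IntermediateField.mem_adjoin_range_iff] at he
  obtain ⟨r, s, hrs⟩ := he
  by_cases hs : MvPolynomial.aeval ξ s = 0
  · refine ⟨0, 1, ?_, ?_⟩
    · rw [map_one]
      exact one_ne_zero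
    · rw [hrs, hs, div_zero, zero_mul, map_zero]
  · exact ⟨r, s, hs, by rw [hrs, div_mul_cancel₀ _ hs]⟩

theorem dgx_swap (K : Type) {E : Type} [Field K] [Field E] [Algebra K E] {n : ℕ} (c r : ℕ)
    (x g : Fin n → E) : dgx K c r x g = dgx K r c g x := by
  unfold dgx
  congr 1
  ext N
  constructor
  · rintro ⟨⟨A, B⟩, rfl⟩
    exact ⟨(B, A), by
      change Module.finrank (IntermediateField.adjoin K (Set.range (lc B g) ∪ Set.range (lc A x))) E =
        Module.finrank (IntermediateField.adjoin K (Set.range (lc A x) ∪ Set.range (lc B g))) E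
      rw [Set.union_comm]⟩
  · rintro ⟨⟨A, B⟩, rfl⟩
    exact ⟨(B, A), by
      change Module.finrank (IntermediateField.adjoin K (Set.range (lc B x) ∪ Set.range (lc A g))) E =
        Module.finrank (IntermediateField.adjoin K (Set.range (lc A g) ∪ Set.range (lc B x))) E
      rw [Set.union_comm]⟩

theorem finE {K E : Type} [Field K] [CharZero K] [Field E] [Algebra K E] (hD : StmtDg1n) {n : ℕ}
    (ξ : Fin (n + 1) → E) (hs : Stp K ξ) (ρ : E →ₐ[K] E) (m : ℕ) :
    Algebra.IsAlgebraic (Algebra.adjoin K (Set.range fun i : Fin n => (ρ ^ m) (ξ i.succ))) E := by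
  obtain ⟨-, h2, h3⟩ := hD K E n 0 n ξ hs (Nat.zero_add n)
  obtain ⟨A, B, hAB⟩ := h2 (fun i : Fin n => (ρ ^ m) (ξ i.succ))
  have h4 := h3 ρ m
  rw [← hAB] at h4
  have hfin : Module.Finite (IntermediateField.adjoin K
      (Set.range (lc A fun i : Fin n => ξ i.succ) ∪
        Set.range (lc B fun i : Fin n => (ρ ^ m) (ξ i.succ)))) E :=
    Module.finite_of_finrank_pos h4
  have hle : IntermediateField.adjoin K (Set.range (lc A fun i : Fin n => ξ i.succ) ∪
        Set.range (lc B fun i : Fin n => (ρ ^ m) (ξ i.succ))) ≤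
      IntermediateField.adjoin K (Set.range fun i : Fin n => (ρ ^ m) (ξ i.succ)) := by
    rw [IntermediateField.adjoin_le_iff]
    rintro z (⟨i, rfl⟩ | ⟨i, rfl⟩)
    · exact i.elim0
    · exact QTpQM.span_adj _ (QTpQM.lc_span B _ i)
  have halg : Algebra.IsAlgebraic (IntermediateField.adjoin K
      (Set.range fun i : Fin n => (ρ ^ m) (ξ i.succ))) E := by
    let _ := (IntermediateField.inclusion hle).toRingHom.toAlgebra
    have : IsScalarTower (IntermediateField.adjoin K (Set.range (lc A fun i : Fin n => ξ i.succ) ∪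
        Set.range (lc B fun i : Fin n => (ρ ^ m) (ξ i.succ))))
        (IntermediateField.adjoin K (Set.range fun i : Fin n => (ρ ^ m) (ξ i.succ))) E :=
      IsScalarTower.of_algebraMap_eq fun _ => rfl
    exact Algebra.IsAlgebraic.tower_top (K := IntermediateField.adjoin K
      (Set.range (lc A fun i : Fin n => ξ i.succ) ∪
        Set.range (lc B fun i : Fin n => (ρ ^ m) (ξ i.succ)))) _
  exact (IntermediateField.isAlgebraic_adjoin_iff_top).1 halg

end QInJM

open QInJM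

theorem qInJ : StmtLowP → StmtPrG → StmtTpQ → StmtDg1n → StmtInJ := by
  intro hLow hPrG _ hD K E _ _ _ _ n P ξ ρ m hP hM hG
  classical
  have hs : Stp K ξ := T3GenSM.stp hP hM hG
  have hVl := yVlA
  have hFl := yFlV yVlA
  set g : Fin (n + 1) → E := fun i => (ρ ^ m) (ξ i.succ) with hg
  have hgi : AlgebraicIndependent K g := hs.ai.map' (ρ ^ m).toRingHom.injective
  obtain ⟨P', ξ', hP', hM', hG', hξ'⟩ := hPrG K E (n + 1) (n + 2) ξ hG.top g hgi
    (finE hD ξ hs ρ m)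
  obtain ⟨B', hB', hB'2⟩ := hLow K E n P' ξ' hP' hM' hG' (fun i => ξ i.succ)
  obtain ⟨N₀, D₀, hD₀, hN₀⟩ := frac ξ hG.top (ξ' 0)
  choose Nn Dn hDn hNn using fun i : Fin (n + 1) => frac ξ' hG'.top (ξ i.succ)
  choose An D' hD' hAn using fun i : Fin (n + 1) =>
    frac ξ hG.top (MvPolynomial.aeval ξ' (Dn i))
  have hAn0 : ∀ i, MvPolynomial.aeval ξ (An i) ≠ 0 := fun i => by
    rw [← hAn]
    exact mul_ne_zero (hDn i) (hD' i)
  refine ⟨P', D₀ * ∏ i, (D' i * An i), B', ξ', hP', hM', hG', ?_, hB', ?_⟩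
  · rw [map_mul, map_prod]
    refine mul_ne_zero hD₀ (Finset.prod_ne_zero_iff.2 fun i _ => ?_)
    rw [map_mul]
    exact mul_ne_zero (hD' i) (hAn0 i)
  intro K₁ Ω _ _ _ _ _ _ _ _ h hinv c hc
  obtain ⟨R, hR, hR2⟩ := hB'2 K₁ Ω h hinv c hc
  refine ⟨R, hR, fun w hw => ?_⟩
  obtain ⟨C, hC⟩ := hR2 w hw
  refine ⟨C, fun s z hirr hB's hF hz hzB => ?_⟩
  have hO : OnX K ξ (z 0) := (hF 0).1
  obtain ⟨v1, v2, v3, v4, v5, v6⟩ := hVl K E Ω (n + 2) ξ (z 0) hO
  rw [map_mul, map_prod, mul_ne_zero_iff, Finset.prod_ne_zero_iff] at hzB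
  obtain ⟨hzD, hzi⟩ := hzB
  -- the value of the first coordinate
  set z₀ : Ω := MvPolynomial.aeval (z 0) N₀ * (MvPolynomial.aeval (z 0) D₀)⁻¹ with hz₀
  have hv0 : VlX K ξ (z 0) (ξ' 0) z₀ := by
    refine ⟨N₀, D₀, hzD, hN₀, ?_⟩
    rw [hz₀, mul_assoc, inv_mul_cancel₀ hzD, mul_one]
  have hpt : (pt (lptN c w s) z₀ : Fin (n + 2) → Ω) = Fin.cons z₀ fun i => z m i.succ := by
    unfold pt
    congr 1
    funext i
    exact (hz i).symm
  have hval : ∀ i, VlX K ξ (z 0) (ξ' i) ((pt (lptN c w s) z₀ : Fin (n + 2) → Ω) i) := by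
    intro i
    rw [hpt]
    refine Fin.cases ?_ (fun j => ?_) i
    · rw [Fin.cons_zero]
      exact hv0
    · rw [Fin.cons_succ, hξ' j]
      have h1 := hFl K E Ω (n + 2) ξ ρ z hF m 0 j.succ
      rw [Nat.zero_add] at h1
      exact h1
  have hvG : ∀ G : Pl (n + 2) K, VlX K ξ (z 0) (MvPolynomial.aeval ξ' G)
      (MvPolynomial.aeval (pt (lptN c w s) z₀ : Fin (n + 2) → Ω) G) :=
    fun G => v6 (n + 2) ξ' _ hval G
  have hP0 : MvPolynomial.aeval (pt (lptN c w s) z₀ : Fin (n + 2) → Ω) P' = 0 := by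
    have h1 := hvG P'
    rw [(hG'.ker P').2 dvd_rfl] at h1
    have h2 := v2 0
    rw [map_zero, map_zero] at h2
    exact v1 _ _ _ h1 h2
  have hVx : ∀ i : Fin (n + 1), VlX K ξ' (pt (lptN c w s) z₀ : Fin (n + 2) → Ω) (ξ i.succ)
      (z 0 i.succ) := by
    intro i
    have hi := hzi i (Finset.mem_univ i)
    rw [map_mul, mul_ne_zero_iff] at hi
    have h1 : VlX K ξ (z 0) (MvPolynomial.aeval ξ' (Dn i))
        (MvPolynomial.aeval (z 0) (An i) * (MvPolynomial.aeval (z 0) (D' i))⁻¹) := by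
      refine ⟨An i, D' i, hi.1, hAn i, ?_⟩
      rw [mul_assoc, inv_mul_cancel₀ hi.1, mul_one]
    have h2 : MvPolynomial.aeval (pt (lptN c w s) z₀ : Fin (n + 2) → Ω) (Dn i) ≠ 0 := by
      rw [v1 _ _ _ (hvG (Dn i)) h1]
      exact mul_ne_zero hi.2 (inv_ne_zero hi.1)
    refine ⟨Nn i, Dn i, h2, hNn i, ?_⟩
    have h3 := v2 (MvPolynomial.X i.succ)
    rw [MvPolynomial.aeval_X, MvPolynomial.aeval_X] at h3
    have h4 := v4 _ _ _ _ h3 (hvG (Dn i))
    rw [hNn i] at h4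
    exact v1 _ _ _ (hvG (Nn i)) h4
  obtain ⟨hC1, hC2⟩ := hC s z₀ (fun i => z 0 i.succ) hirr hB's hP0 hVx
  have e1 : (fun i : Fin (n + 1) => ξ' i.succ) = g := funext hξ'
  have e2 : (MvPolynomial.finSuccEquiv K (n + 1) P').natDegree =
      Module.finrank (IntermediateField.adjoin K (Set.range fun i : Fin (n + 1) => ξ i.succ)) E *
        Module.finrank ρ.fieldRange E ^ m := by
    rw [← T3GenSM.fin hP' hM' hG', e1]
    exact QTpQM.pow_deg ρ _ m
  rw [e1, ← dgx_swap, e2] at hC1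
  have e3 : (fun i => algebraMap K₁ Ω (lptN c w s i)) = fun i => z m i.succ :=
    funext fun i => (hz i).symm
  rw [e3] at hC2
  exact ⟨hC1, hC2⟩

end Pool.Agent.Lib.MP_16285c_agX
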