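import Pool.Agent.Lib.MP_16285c_agB.SpecC

/-!
# ZDB, (IrK): equations stay irreducible over larger fields
-/

set_option autoImplicit false

namespace Pool.Agent.Lib.MP_16285c_agX

open Pool.Agent.Lib.MP_16285c_ag Pool.Agent.Lib.MP_16285c_agN

namespace QIrKM

/-- The coefficients of a polynomial over `k` expanded with respect to a family which is linearly
independent over `K`. -/
theorem decomp (K : Type) {k : Type} [Field K] [Field k] [Algebra K k] {n : ℕ}
    (G : MvPolynomial (Fin n) k) :
    ∃ (s : ℕ) (b : Fin s → k) (H : Fin s → MvPolynomial (Fin n) K), LinearIndependent K b ∧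
      G = ∑ t, MvPolynomial.C (b t) * MvPolynomial.map (algebraMap K k) (H t) := by
  classical
  let B := Module.Basis.ofVectorSpace K k
  let S := G.support.biUnion (fun m => (B.repr (MvPolynomial.coeff m G)).support)
  let H : _ → MvPolynomial (Fin n) K := fun i =>
    ∑ m ∈ G.support, MvPolynomial.monomial m (B.repr (MvPolynomial.coeff m G) i)
  have hH : ∀ m i, MvPolynomial.coeff m (H i) = B.repr (MvPolynomial.coeff m G) i := by
    intro m i
    simp only [H, MvPolynomial.coeff_sum, MvPolynomial.coeff_monomial]
    rw [Finset.sum_ite_eq' G.support m (fun m => B.repr (MvPolynomial.coeff m G) i)]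
    split_ifs with hm
    · rfl
    · rw [MvPolynomial.notMem_support_iff.mp hm, map_zero]
      rfl
  have hS : ∀ m, (B.repr (MvPolynomial.coeff m G)).support ⊆ S := by
    intro m
    by_cases hm : m ∈ G.support
    · exact Finset.subset_biUnion_of_mem
        (fun m => (B.repr (MvPolynomial.coeff m G)).support) hm
    · rw [MvPolynomial.notMem_support_iff.mp hm, map_zero, Finsupp.support_zero]
      exact Finset.empty_subset _
  have h : G = ∑ i ∈ S, MvPolynomial.C (B i) * MvPolynomial.map (algebraMap K k) (H i) := by
    apply MvPolynomial.ext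
    intro m
    rw [MvPolynomial.coeff_sum]
    simp only [MvPolynomial.coeff_C_mul, MvPolynomial.coeff_map]
    have h1 := B.linearCombination_repr (MvPolynomial.coeff m G)
    rw [Finsupp.linearCombination_apply,
      Finsupp.sum_of_support_subset _ (hS m) _ (fun i _ => zero_smul K (B i))] at h1
    rw [← h1]
    apply Finset.sum_congr rfl
    intro i _
    rw [hH m i, Algebra.smul_def, mul_comm]
  refine ⟨S.card, fun t => B (S.equivFin.symm t), fun t => H (S.equivFin.symm t), ?_, ?_⟩
  · exact B.linearIndependent.comp (fun t => ((S.equivFin.symm t : S) : _))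
      (Subtype.val_injective.comp S.equivFin.symm.injective)
  · rw [Equiv.sum_comp S.equivFin.symm
      (fun i : S => MvPolynomial.C (B i) * MvPolynomial.map (algebraMap K k) (H i)),
      Finset.sum_coe_sort S
      (fun i => MvPolynomial.C (B i) * MvPolynomial.map (algebraMap K k) (H i))]
    exact h

end QIrKM

open QIrKM in
/-- (IrK) -/
theorem qIrK : StmtIrK := by
  intro K k _ _ _ E E' _ _ _ _ _ _ β hβ n P' ξ' hP hG
  have hmap : ∀ G : MvPolynomial (Fin (n + 1)) K,
      MvPolynomial.aeval (fun i => β (ξ' i)) (MvPolynomial.map (algebraMap K k) G) =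
        β (MvPolynomial.aeval ξ' G) := by
    intro G
    rw [MvPolynomial.aeval_map_algebraMap, ← MvPolynomial.comp_aeval_apply]
  have hP0 : MvPolynomial.aeval (fun i => β (ξ' i)) (MvPolynomial.map (algebraMap K k) P') = 0 := by
    rw [hmap, (hG.ker P').mpr dvd_rfl, map_zero]
  have key : ∀ G : MvPolynomial (Fin (n + 1)) k,
      MvPolynomial.aeval (fun i => β (ξ' i)) G = 0 → MvPolynomial.map (algebraMap K k) P' ∣ G := by
    intro G h0
    obtain ⟨s, b, H, hb, hs⟩ := decomp K G
    have h1 : ∑ t, algebraMap k E' (b t) * β (MvPolynomial.aeval ξ' (H t)) = 0 := by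
      rw [← h0]
      conv_rhs => rw [hs, map_sum]
      apply Finset.sum_congr rfl
      intro t _
      rw [map_mul, MvPolynomial.aeval_C, hmap]
    have h2 := hβ s b hb (fun t => MvPolynomial.aeval ξ' (H t)) h1
    rw [hs]
    apply Finset.dvd_sum
    intro t _
    exact Dvd.dvd.mul_left (map_dvd (MvPolynomial.map (algebraMap K k)) ((hG.ker (H t)).mp (h2 t))) _
  have hp : Prime (MvPolynomial.map (algebraMap K k) P') := by
    refine ⟨?_, ?_, ?_⟩
    · intro h
      exact hP.ne_zero (MvPolynomial.map_injective _ (algebraMap K k).injective (by rw [h, map_zero]))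
    · intro hu
      have := hu.map (MvPolynomial.aeval (R := k) (fun i => β (ξ' i)))
      rw [hP0] at this
      exact not_isUnit_zero this
    · intro a c hac
      obtain ⟨d, hd⟩ := hac
      have h3 : MvPolynomial.aeval (fun i => β (ξ' i)) a *
          MvPolynomial.aeval (fun i => β (ξ' i)) c = 0 := by
        rw [← map_mul, hd, map_mul, hP0, zero_mul]
      rcases mul_eq_zero.mp h3 with h | h
      · exact Or.inl (key a h)
      · exact Or.inr (key c h)
  exact hp.irreducible

end Pool.Agent.Lib.MP_16285c_agX
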