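import Pool.Agent.Lib.MP_16285c_agB.SpecA
import Pool.Agent.Lib.MP_16285c_agP.DgBn
import Pool.Agent.Lib.MP_16285c_agP.CmpG
import Pool.Agent.Lib.MP_16285c_agP.FtZ

/-!
# ZDB: mixed degrees (MxD)

Proof of `StmtMxD` from `StmtBzY` and `StmtDg1n`.
-/

set_option autoImplicit false

namespace Pool.Agent.Lib.MP_16285c_agX

open Pool.Agent.Lib.MP_16285c_ag Pool.Agent.Lib.MP_16285c_agN

namespace QMxDM

variable {K E : Type} [Field K] [Field E] [Algebra K E]

/-- The first block of a family which generates a subfield of finite index. -/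
theorem ind_left {s t n : ℕ} (hst : s + t = n) (htr : Algebra.trdeg K E = (n : ℕ)) (u : Fin s → E)
    (w : Fin t → E)
    (hfin : Module.Finite (IntermediateField.adjoin K (Set.range u ∪ Set.range w)) E) :
    AlgebraicIndependent K u := by
  let x : Fin s ⊕ Fin t → E := Sum.elim u w
  have hx : Set.range x = Set.range u ∪ Set.range w := Set.Sum.elim_range _ _
  have h3 : AlgebraicIndependent K x := by
    refine T3DgBM.ind_of x (by rw [hx]; exact hfin) ?_
    rw [htr, Cardinal.mk_fintype, Fintype.card_sum, Fintype.card_fin, Fintype.card_fin, hst]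
  exact h3.comp Sum.inl Sum.inl_injective

/-- The degree over `K(u)(v)`. -/
theorem rank_eq {s t : ℕ} (u : Fin s → E) (v : Fin t → E) :
    Module.finrank (IntermediateField.adjoin (IntermediateField.adjoin K (Set.range u))
      (Set.range v)) E =
      Module.finrank (IntermediateField.adjoin K (Set.range u ∪ Set.range v)) E := by
  have h1 : (IntermediateField.adjoin (IntermediateField.adjoin K (Set.range u))
      (Set.range v)).restrictScalars K =
      IntermediateField.adjoin K (Set.range u ∪ Set.range v) := by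
    rw [IntermediateField.adjoin_adjoin_left]
  rw [← h1]
  rfl

end QMxDM

open QMxDM in
/-- (MxD) Mixed degrees. -/
theorem qMxD : StmtBzY → StmtDg1n → StmtMxD := by
  intro hBz hDg K E _ _ _ _ n c p ξ hξ hcp ρ m N w hN A
  have hf := yStpF K E n ξ hξ
  have hx := hξ.ai
  obtain ⟨hD, -, -⟩ := hDg K E n c p ξ hξ hcp
  set x : Fin n → E := fun i => ξ i.succ with hxd
  have htr := T3DgBM.trdeg_of x hx hf
  obtain ⟨σ, hσ⟩ : ∃ σ : E →ₐ[K] E, σ = ρ ^ m := ⟨_, rfl⟩
  rw [← hσ]
  by_cases h0 : Module.finrank (IntermediateField.adjoin K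
      (Set.range (lc A x) ∪ Set.range fun i => σ (w i))) E = 0
  · rw [h0]
    exact Nat.zero_le _
  have hfin : Module.Finite (IntermediateField.adjoin K
      (Set.range (lc A x) ∪ Set.range fun i => σ (w i))) E :=
    Module.finite_of_finrank_pos (Nat.pos_of_ne_zero h0)
  have hA : AlgebraicIndependent K (lc A x) := ind_left hcp htr (lc A x) _ hfin
  obtain ⟨q, hq, htrq⟩ := PFtZM.part1 K E n c (lc A x) htr hA
  have hqp : q = p := by omega
  rw [hqp] at htrq
  have hind := PDgBnM.ind_over hcp htr (lc A x) (fun i => σ (w i)) hfin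
  have hσx : AlgebraicIndependent K (fun i => σ (x i)) :=
    hx.map' (f := σ) σ.toRingHom.injective
  have hfx := PDgBnM.fin_up (fun i => σ (x i)) (PCmpGM.fin_ind hξ.gen htr _ hσx)
    (IntermediateField.adjoin K (Set.range (lc A x)))
  have hN' : ∀ c' : ℕ, c' = c → ∀ A' : Fin c' → Fin n → K,
      Module.finrank (IntermediateField.adjoin K (Set.range w ∪ Set.range (lc A' x))) E ≤ N := by
    rintro _ rfl A'
    rw [Set.union_comm]
    exact hN A'
  have h1 := hBz K E E (IntermediateField.adjoin K (Set.range (lc A x))) n p x σ w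
    (dgx K c p x fun i => σ (x i)) N hx hf (by omega) hfx htrq hind
    (fun A' => by
      rw [rank_eq]
      exact hD (fun i => σ (x i)) A A')
    (hN' (n - p) (by omega))
  rw [rank_eq] at h1
  exact h1

end Pool.Agent.Lib.MP_16285c_agX
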