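import Pool.Agent.Lib.MP_16285c_agB.SpecA
import Pool.Agent.Lib.MP_16285c_agP.RecP

/-!
# The recursion at level `b + 1` (RcQ)

As `agP/RecP.lean`, at all levels.
-/

set_option autoImplicit false

namespace Pool.Agent.Lib.MP_16285c_agX

open Pool.Agent.Lib.MP_16285c_ag Pool.Agent.Lib.MP_16285c_agN

namespace QRcQM

theorem arith (a b k c d₂ d₁ d₀ D h0 h1 h2 H C₀ C : ℝ) (ha : 0 ≤ a) (hb : 0 ≤ b) (hk : 0 ≤ k)
    (hc : 1 ≤ c) (hd₂ : 0 ≤ d₂) (hd₁ : 0 ≤ d₁) (hd₀ : 0 ≤ d₀) (h00 : 0 ≤ h0) (h20 : 0 ≤ h2)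
    (hH : H ≤ c * h0 + C₀)
    (h : D * h1 ≤ 2 * (4 * (a + 1) * (k * d₂ * d₁)) * H + 4 * (b + 1) * (k * d₁ * d₀) * h2 + C) :
    D * h1 ≤ 8 * (a + b + 2) * k * c * d₂ * d₁ * h0 + 8 * (a + b + 2) * k * c * d₁ * d₀ * h2 +
      (2 * (4 * (a + 1) * (k * d₂ * d₁)) * C₀ + C) := by
  have p1 : 0 ≤ k * d₂ * d₁ := by positivity
  have p2 : 0 ≤ k * d₁ * d₀ := by positivity
  have h3 : 2 * (4 * (a + 1) * (k * d₂ * d₁)) * H ≤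
      2 * (4 * (a + 1) * (k * d₂ * d₁)) * (c * h0 + C₀) :=
    mul_le_mul_of_nonneg_left hH (by positivity)
  have h4 : 0 ≤ (k * d₂ * d₁) * (8 * (b + 1)) * (c * h0) := by positivity
  have e4 : 8 * (a + b + 2) * k * c * d₂ * d₁ * h0 =
      2 * (4 * (a + 1) * (k * d₂ * d₁)) * (c * h0) + (k * d₂ * d₁) * (8 * (b + 1)) * (c * h0) := by
    ring
  have h5 : 0 ≤ (k * d₁ * d₀ * h2) * (8 * (a + b + 2) * c - 4 * (b + 1)) := by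
    refine mul_nonneg (mul_nonneg p2 h20) ?_
    nlinarith [mul_nonneg ha (sub_nonneg.2 hc), mul_nonneg hb (sub_nonneg.2 hc)]
  have e5 : 8 * (a + b + 2) * k * c * d₁ * d₀ * h2 =
      4 * (b + 1) * (k * d₁ * d₀) * h2 + (k * d₁ * d₀ * h2) * (8 * (a + b + 2) * c - 4 * (b + 1)) := by
    ring
  rw [e4, e5]
  nlinarith [h3, h4, h5, h]

end QRcQM

open QRcQM PRecPM in
/-- (RcQ) The recursion at level `b + 1`. -/
theorem qRcQ : StmtSecP → StmtEQn → StmtHtP → StmtDg1n → StmtRcQ := by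
  intro hS hT hHt hDg K E _ _ _ _ N a b ξ hs hN
  subst hN
  obtain ⟨c, hc, hC⟩ := yCzX K E (a + b + 2) ξ hs
  refine ⟨8 * (a + b + 2) * (a + b + 2 + 1) ^ (a + b + 2) * c, ?_, ?_⟩
  · exact Nat.succ_le_of_lt (by positivity)
  intro ρ m
  obtain ⟨d₂, hd₂⟩ : ∃ d, d = dgx K a (b + 2) (fun i : Fin (a + b + 2) => ξ i.succ)
    (fun i : Fin (a + b + 2) => (ρ ^ m) (ξ i.succ)) := ⟨_, rfl⟩
  obtain ⟨d₁, hd₁⟩ : ∃ d, d = dgx K (a + 1) (b + 1) (fun i : Fin (a + b + 2) => ξ i.succ)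
    (fun i : Fin (a + b + 2) => (ρ ^ m) (ξ i.succ)) := ⟨_, rfl⟩
  obtain ⟨d₀, hd₀⟩ : ∃ d, d = dgx K (a + 2) b (fun i : Fin (a + b + 2) => ξ i.succ)
    (fun i : Fin (a + b + 2) => (ρ ^ m) (ξ i.succ)) := ⟨_, rfl⟩
  obtain ⟨D, hD⟩ : ∃ d, d = dgx K (a + 1) (b + 1) (fun i : Fin (a + b + 2) => ξ i.succ)
    (fun i : Fin (a + b + 2) => (ρ ^ (2 * m)) (ξ i.succ)) := ⟨_, rfl⟩
  obtain ⟨k, hk⟩ : ∃ k, k = (a + b + 2 + 1) ^ (a + b + 2) := ⟨_, rfl⟩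
  have l2 : 1 ≤ d₂ := by
    rw [hd₂]
    exact (hDg K E (a + b + 2) a (b + 2) ξ hs (by omega)).2.2 ρ m
  have l1 : 1 ≤ d₁ := by
    rw [hd₁]
    exact (hDg K E (a + b + 2) (a + 1) (b + 1) ξ hs (by omega)).2.2 ρ m
  have l0 : 1 ≤ d₀ := by
    rw [hd₀]
    exact (hDg K E (a + b + 2) (a + 2) b ξ hs (by omega)).2.2 ρ m
  have lD : 1 ≤ D := by
    rw [hD]
    exact (hDg K E (a + b + 2) (a + 1) (b + 1) ξ hs (by omega)).2.2 ρ (2 * m)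
  have lk : 1 ≤ k := by
    rw [hk]
    exact Nat.one_le_pow _ _ (by omega)
  rw [← hd₂, ← hd₁, ← hd₀, ← hD, ← hk]
  obtain ⟨Z₀, hZ₀, hZi⟩ := den_all ξ hs (fun i : Fin (a + b + 2) => (ρ ^ (2 * m)) (ξ i.succ))
  have hg : AlgebraicIndependent K (fun i : Fin (a + b + 2) => (ρ ^ m) (ξ i.succ)) :=
    hs.ai.map' (f := ρ ^ m) (ρ ^ m).toRingHom.injective
  have hfin : {u : K | ¬ ∃ i₀ : ℕ, ∀ i, i₀ ≤ i →
      SctP K ξ (Tu K u (fun i : Fin (a + b + 2) => (ρ ^ m) (ξ i.succ)))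
        (fun i : Fin (a + b + 2) => (ρ ^ (2 * m)) (ξ i.succ)) Z₀
        (4 * (a + 1) * (k * d₂ * d₁) * i) (4 * (b + 1) * (k * d₁ * d₀) * i) (D * i)}.Finite := by
    refine Set.Finite.subset (Set.finite_singleton (0 : K)) ?_
    intro u hu
    by_contra hne
    apply hu
    have hne' : u ≠ 0 := fun h => hne (by rw [h]; rfl)
    obtain ⟨t1, t2⟩ := hT K E (a + b + 2) a b ξ hs rfl ρ m u
    rw [← hd₂, ← hd₁, ← hk] at t1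
    rw [← hd₁, ← hd₀, ← hk] at t2
    obtain ⟨i₀, hi⟩ := hS K E a b ξ hs ρ m Z₀ hZ₀ hZi u (k * d₂ * d₁) (k * d₁ * d₀) hne'
      (Nat.succ_le_of_lt (by positivity)) (Nat.succ_le_of_lt (by positivity)) t1 t2
    refine ⟨i₀, fun i hi' => ?_⟩
    have h := hi i hi'
    rw [hD]
    exact h
  obtain ⟨B, hB, hb⟩ := hHt K E (a + b + 2) ξ (by omega) hs
    (fun i : Fin (a + b + 2) => (ρ ^ m) (ξ i.succ))
    (fun i : Fin (a + b + 2) => (ρ ^ (2 * m)) (ξ i.succ)) Z₀ (4 * (a + 1) * (k * d₂ * d₁))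
    (4 * (b + 1) * (k * d₁ * d₀)) D hZ₀ hZi hg
    (Nat.succ_le_of_lt (by positivity)) (Nat.succ_le_of_lt (by positivity)) lD hfin
  refine ⟨B, hB, ?_⟩
  intro Ω _ _ h
  obtain ⟨C₀, hC₀⟩ := hC Ω h
  obtain ⟨C₁, hC₁⟩ := hb Ω h
  refine ⟨2 * (4 * ((a : ℝ) + 1) * (k * d₂ * d₁)) * C₀ + C₁, ?_⟩
  intro z hz t ht
  have hon : OnX K ξ (z t) := (hz t).1
  have v1 : ∀ i : Fin (a + b + 2), VlX K ξ (z t) ((ρ ^ m) (ξ i.succ)) (z (t + m) i.succ) :=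
    fun i => yFlV yVlA K E Ω (a + b + 3) ξ ρ z hz m t i.succ
  have v2 : ∀ i : Fin (a + b + 2),
      VlX K ξ (z t) ((ρ ^ (2 * m)) (ξ i.succ)) (z (t + 2 * m) i.succ) :=
    fun i => yFlV yVlA K E Ω (a + b + 3) ξ ρ z hz (2 * m) t i.succ
  have h1 := hC₁ (z t) (fun i : Fin (a + b + 2) => z (t + m) i.succ)
    (fun i : Fin (a + b + 2) => z (t + 2 * m) i.succ) hon ht v1 v2
  have h3 := hC₀ (z t) hon
  have h00 : 0 ≤ hx h (z t) := h.nonneg _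
  have h20 : 0 ≤ hx h (z (t + 2 * m)) := h.nonneg _
  have h4 := arith a b k c d₂ d₁ d₀ D (hx h (z t)) (hx h (z (t + m))) (hx h (z (t + 2 * m)))
    (h.H (hcN (z t))) C₀ C₁ (Nat.cast_nonneg a) (Nat.cast_nonneg b) (Nat.cast_nonneg k)
    (by exact_mod_cast hc) (Nat.cast_nonneg d₂) (Nat.cast_nonneg d₁) (Nat.cast_nonneg d₀) h00 h20 h3
    (by push_cast at h1; exact h1)
  push_cast
  exact h4

end Pool.Agent.Lib.MP_16285c_agX
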