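import Pool.Agent.Lib.MP_16285c_agB.SpecD

/-!
MP_16285c_ag, project ZDB, module RtQ: the rates of the backward recursions.
-/

set_option autoImplicit false

namespace Pool.Agent.Lib.MP_16285c_agX

open Pool.Agent.Lib.MP_16285c_ag Pool.Agent.Lib.MP_16285c_agN
open Pool.Agent.Lib.MP_16285c_agS (toF vanK)

namespace QRtQM

/-- The second alternative. -/
theorem altII (κ₀ κ₁ δ C₃ dm Dm D2 D3 Tm lm Lm β' t : ℝ) (hκ₀ : 1 ≤ κ₀) (hκ₁ : 1 ≤ κ₁) (hδ : 1 ≤ δ)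
    (hC : 0 ≤ C₃) (hdm : 1 ≤ dm) (hDm : 1 ≤ Dm) (hTm : 1 ≤ Tm) (hTl : Tm ≤ lm) (hl : lm ≤ κ₀ * dm)
    (hL : D3 ≤ C₃ * Lm) (hLl : Lm ≤ lm) (hβ : β' * dm * Dm ≤ D2) (hb1 : 2 * t < β' / κ₁)
    (hb2 : 2 + 8 * C₃ * κ₀ + 4 * C₃ * κ₀ ^ 2 * δ < β' / κ₁) :
    GdX 1 (D3 / dm) (D2 / (κ₁ * dm * Dm)) (dm / (δ * Tm)) t := by
  have hdm0 : 0 < dm := by linarith
  have hDm0 : 0 < Dm := by linarith
  have hκ₀0 : 0 < κ₀ := by linarith
  have hκ₁0 : 0 < κ₁ := by linarith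
  have hδ0 : 0 < δ := by linarith
  have hTm0 : 0 < Tm := by linarith
  obtain ⟨b, hb⟩ : ∃ b : ℝ, b = D2 / (κ₁ * dm * Dm) := ⟨_, rfl⟩
  obtain ⟨a, ha⟩ : ∃ a : ℝ, a = D3 / dm := ⟨_, rfl⟩
  obtain ⟨e, he⟩ : ∃ e : ℝ, e = dm / (δ * Tm) := ⟨_, rfl⟩
  rw [← hb, ← ha, ← he]
  have b1 : β' / κ₁ ≤ b := by
    rw [hb, div_le_div_iff₀ hκ₁0 (by positivity)]
    nlinarith [mul_le_mul_of_nonneg_left hβ hκ₁0.le]
  have a1 : a ≤ C₃ * κ₀ := by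
    rw [ha, div_le_iff₀ hdm0]
    calc D3 ≤ C₃ * Lm := hL
      _ ≤ C₃ * (κ₀ * dm) := mul_le_mul_of_nonneg_left (hLl.trans hl) hC
      _ = C₃ * κ₀ * dm := by ring
  have e1 : 1 / (κ₀ * δ) ≤ e := by
    rw [he, div_le_div_iff₀ (by positivity) (by positivity)]
    have : δ * Tm ≤ δ * (κ₀ * dm) := mul_le_mul_of_nonneg_left (hTl.trans hl) hδ0.le
    linarith
  have hC1 : 0 ≤ C₃ * κ₀ := by positivity
  have hC2 : 0 ≤ C₃ * κ₀ ^ 2 * δ := by positivity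
  have b2 : 2 + 8 * (C₃ * κ₀) + 4 * (C₃ * κ₀ ^ 2 * δ) < b := by linarith
  have b0 : 0 < b := by linarith
  refine ⟨by linarith, ?_, ?_, by linarith⟩
  · have h1 : 8 * a ≤ b := by linarith
    have h2 : b ≤ b ^ 2 := by nlinarith
    linarith
  · have h1 : b * (1 / (κ₀ * δ)) ≤ b * e := mul_le_mul_of_nonneg_left e1 b0.le
    have h2 : 4 * (C₃ * κ₀) < b * (1 / (κ₀ * δ)) := by
      rw [mul_one_div, lt_div_iff₀ (by positivity)]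
      nlinarith
    linarith

/-- The first alternative. -/
theorem altI (κ₀ κ₁ δ A dm Dm d2 Tm lm sm t : ℝ) (hκ₀ : 1 ≤ κ₀) (hκ₁ : 1 ≤ κ₁) (hδ : 1 ≤ δ)
    (hdm : 1 ≤ dm) (hTm : 1 ≤ Tm) (hlm : 0 < lm) (hsm : 1 ≤ sm) (hl : lm ≤ κ₀ * dm) (hl2 : lm ^ 2 ≤ κ₀ * d2)
    (hdl : dm ≤ lm * sm) (hD : Dm ≤ A * (lm ^ 2 / (Tm * sm ^ 3))) (hx : 2 * t < lm / (Tm * sm) / (κ₀ * κ₁ * δ))
    (hx2 : 2 ≤ lm / (Tm * sm) / (κ₀ * κ₁ * δ)) (hs1 : 8 * A * κ₀ ^ 2 * κ₁ ^ 2 * δ ≤ sm)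
    (hs2 : 4 * A * κ₀ ^ 2 * κ₁ * δ < sm) :
    GdX 1 (Dm / (δ * Tm)) (d2 / (κ₁ * (δ * Tm) * dm)) (dm / (δ * Tm)) t := by
  have hdm0 : 0 < dm := by linarith
  have hκ₀0 : 0 < κ₀ := by linarith
  have hκ₁0 : 0 < κ₁ := by linarith
  have hδ0 : 0 < δ := by linarith
  have hTm0 : 0 < Tm := by linarith
  have hsm0 : 0 < sm := by linarith
  obtain ⟨b, hb⟩ : ∃ b : ℝ, b = d2 / (κ₁ * (δ * Tm) * dm) := ⟨_, rfl⟩
  obtain ⟨a, ha⟩ : ∃ a : ℝ, a = Dm / (δ * Tm) := ⟨_, rfl⟩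
  obtain ⟨e, he⟩ : ∃ e : ℝ, e = dm / (δ * Tm) := ⟨_, rfl⟩
  obtain ⟨x, hxd⟩ : ∃ x : ℝ, x = lm / (Tm * sm) := ⟨_, rfl⟩
  rw [← hb, ← ha, ← he]
  rw [← hxd] at hx hx2
  have hx0 : 0 < x := by rw [hxd]; positivity
  have hlx : lm = x * (Tm * sm) := by rw [hxd]; field_simp
  have b1 : x / (κ₀ * κ₁ * δ) ≤ b := by
    rw [hb, div_le_div_iff₀ (by positivity) (by positivity)]
    have h1 : dm * (x * (κ₁ * (δ * Tm))) ≤ (lm * sm) * (x * (κ₁ * (δ * Tm))) :=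
      mul_le_mul_of_nonneg_right hdl (by positivity)
    have h2 : (lm * sm) * (x * (κ₁ * (δ * Tm))) = lm ^ 2 * (κ₁ * δ) := by
      rw [hlx]; ring
    have h3 : lm ^ 2 * (κ₁ * δ) ≤ (κ₀ * d2) * (κ₁ * δ) := mul_le_mul_of_nonneg_right hl2 (by positivity)
    calc x * (κ₁ * (δ * Tm) * dm) = dm * (x * (κ₁ * (δ * Tm))) := by ring
      _ ≤ lm ^ 2 * (κ₁ * δ) := h1.trans h2.le
      _ ≤ (κ₀ * d2) * (κ₁ * δ) := h3
      _ = d2 * (κ₀ * κ₁ * δ) := by ring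
  have a1 : a ≤ A / δ * (x ^ 2 / sm) := by
    rw [ha, div_le_iff₀ (by positivity)]
    refine hD.trans (le_of_eq ?_)
    rw [hlx]
    field_simp
  have e1 : x * sm / (κ₀ * δ) ≤ e := by
    rw [he, div_le_div_iff₀ (by positivity) (by positivity)]
    calc x * sm * (δ * Tm) = lm * δ := by rw [hlx]; ring
      _ ≤ (κ₀ * dm) * δ := mul_le_mul_of_nonneg_right hl hδ0.le
      _ = dm * (κ₀ * δ) := by ring
  have b0 : 0 < b := by linarith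
  refine ⟨by linarith, ?_, ?_, by linarith⟩
  · have h1 : (x / (κ₀ * κ₁ * δ)) ^ 2 ≤ b ^ 2 := by
      have : 0 ≤ x / (κ₀ * κ₁ * δ) := by positivity
      gcongr
    have h2 : 8 * (A / δ * (x ^ 2 / sm)) ≤ (x / (κ₀ * κ₁ * δ)) ^ 2 := by
      rw [div_pow, div_mul_div_comm, ← mul_div_assoc, div_le_div_iff₀ (by positivity) (by positivity)]
      calc 8 * (A * x ^ 2) * (κ₀ * κ₁ * δ) ^ 2 = (8 * A * κ₀ ^ 2 * κ₁ ^ 2 * δ) * (x ^ 2 * δ) := by ring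
        _ ≤ sm * (x ^ 2 * δ) := mul_le_mul_of_nonneg_right hs1 (by positivity)
        _ = x ^ 2 * (δ * sm) := by ring
    linarith
  · have h1 : x / (κ₀ * κ₁ * δ) * (x * sm / (κ₀ * δ)) ≤ b * e :=
      mul_le_mul b1 e1 (by positivity) b0.le
    have h2 : 4 * (A / δ * (x ^ 2 / sm)) < x / (κ₀ * κ₁ * δ) * (x * sm / (κ₀ * δ)) := by
      rw [div_mul_div_comm, div_mul_div_comm, ← mul_div_assoc, div_lt_div_iff₀ (by positivity) (by positivity)]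
      have h3 : 4 * A * κ₀ ^ 2 * κ₁ * δ < sm * sm := lt_of_lt_of_le hs2 (by nlinarith)
      calc 4 * (A * x ^ 2) * (κ₀ * κ₁ * δ * (κ₀ * δ)) = (4 * A * κ₀ ^ 2 * κ₁ * δ) * (x ^ 2 * δ) := by ring
        _ < (sm * sm) * (x ^ 2 * δ) := mul_lt_mul_of_pos_right h3 (by positivity)
        _ = x * (x * sm) * (δ * sm) := by ring
    linarith

/-- Growth from the doubling inequality. -/
theorem claim (Δ : ℕ → ℕ) (C₀ : ℕ) (θ s : ℝ) (hs : 1 < s) (hθ : 0 < θ) (hμ : 1 ≤ θ * s)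
    (hC : ∀ m, Δ (m + 1) ≤ C₀ * Δ m) (m₀ : ℕ) (h : ∀ m, m₀ ≤ m → (Δ (2 * m) : ℝ) ≤ θ ^ m * Δ m) :
    ∃ A : ℝ, 0 ≤ A ∧ ∀ m, (Δ m : ℝ) ≤ A * (θ * s) ^ m := by
  have hs0 : 0 < s := by linarith
  have ht := (tendsto_pow_atTop_atTop_of_one_lt hs).eventually_ge_atTop ((C₀ : ℝ) + 1)
  obtain ⟨m₁, hm₁⟩ := Filter.eventually_atTop.1 (ht.and (Filter.eventually_ge_atTop m₀))
  refine ⟨∑ i ∈ Finset.range (2 * m₁ + 2), (Δ i : ℝ), Finset.sum_nonneg fun i _ => Nat.cast_nonneg _, ?_⟩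
  obtain ⟨A, hA⟩ : ∃ A : ℝ, A = ∑ i ∈ Finset.range (2 * m₁ + 2), (Δ i : ℝ) := ⟨_, rfl⟩
  rw [← hA]
  have hA0 : 0 ≤ A := by
    rw [hA]
    exact Finset.sum_nonneg fun i _ => Nat.cast_nonneg _
  intro m
  induction m using Nat.strong_induction_on with
  | _ m ih =>
    by_cases hm : m < 2 * m₁ + 2
    · have h1 : (Δ m : ℝ) ≤ A := by
        rw [hA]
        exact Finset.single_le_sum (f := fun i => (Δ i : ℝ)) (fun i _ => Nat.cast_nonneg _)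
          (Finset.mem_range.2 hm)
      have h2 : 1 ≤ (θ * s) ^ m := one_le_pow₀ hμ
      nlinarith
    · obtain ⟨m', hm'⟩ : ∃ m', m' = m / 2 := ⟨_, rfl⟩
      have hm2 : m = 2 * m' ∨ m = 2 * m' + 1 := by omega
      have hm3 : m₁ ≤ m' := by omega
      have hm4 : m' < m := by omega
      obtain ⟨g1, g2⟩ := hm₁ m' hm3
      have i1 := ih m' hm4
      have i2 := h m' g2
      have i3 : (Δ m : ℝ) ≤ ((C₀ : ℝ) + 1) * Δ (2 * m') := by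
        rcases hm2 with e | e
        · rw [e]
          have : (0 : ℝ) ≤ C₀ * Δ (2 * m') := by positivity
          linarith
        · rw [e]
          have h1 : ((Δ (2 * m' + 1) : ℕ) : ℝ) ≤ ((C₀ * Δ (2 * m') : ℕ) : ℝ) := by exact_mod_cast hC (2 * m')
          rw [Nat.cast_mul] at h1
          have : (0 : ℝ) ≤ Δ (2 * m') := Nat.cast_nonneg _
          linarith
      have i4 : (θ * s) ^ (2 * m') ≤ (θ * s) ^ m := pow_le_pow_right₀ hμ (by omega)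
      have hθm : 0 < θ ^ m' := pow_pos hθ _
      calc (Δ m : ℝ) ≤ ((C₀ : ℝ) + 1) * Δ (2 * m') := i3
        _ ≤ s ^ m' * (θ ^ m' * (A * (θ * s) ^ m')) := by
            refine mul_le_mul g1 (i2.trans (mul_le_mul_of_nonneg_left i1 hθm.le)) (Nat.cast_nonneg _)
              (pow_pos hs0 _).le
        _ = A * (θ * s) ^ (2 * m') := by
            rw [two_mul, pow_add, mul_pow θ s]
            ring
        _ ≤ A * (θ * s) ^ m := mul_le_mul_of_nonneg_left i4 hA0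

/-- The auxiliary factor. -/
theorem fac (Λ l : ℝ) (hΛ : 1 ≤ Λ) (hl : Λ < l) : ∃ s : ℝ, 1 < s ∧ Λ * s ^ 5 < l := by
  obtain ⟨η, hη⟩ : ∃ η : ℝ, η = min 1 ((l - Λ) / (62 * Λ)) := ⟨_, rfl⟩
  have h0 : 0 < η := by
    rw [hη]
    exact lt_min one_pos (div_pos (by linarith) (by linarith))
  have h1 : η ≤ 1 := by
    rw [hη]
    exact min_le_left _ _
  have h2 : η * (62 * Λ) ≤ l - Λ := by
    rw [← le_div_iff₀ (by linarith), hη]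
    exact min_le_right _ _
  refine ⟨1 + η, by linarith, ?_⟩
  have e2 : η ^ 2 ≤ η := by nlinarith
  have e3 : η ^ 3 ≤ η := by nlinarith
  have e4 : η ^ 4 ≤ η := by nlinarith
  have e5 : η ^ 5 ≤ η := by nlinarith
  have h3 : (1 + η) ^ 5 ≤ 1 + 31 * η := by nlinarith
  calc Λ * (1 + η) ^ 5 ≤ Λ * (1 + 31 * η) := mul_le_mul_of_nonneg_left h3 (by linarith)
    _ < l := by nlinarith

end QRtQM

open QRtQM in
/-- (RtQ) The rates of the backward recursions. -/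
theorem qRtQ : StmtFekQ → StmtRtQ := by
  intro h1 d Δ D₃ Λ C₃ T δ κ₀ κ₁ C₀ hT hTΛ hδ hκ₀ hκ₁ hsub hd hΔ hΔ1 hD₃ hlim
  have hT' : (1 : ℝ) ≤ T := by exact_mod_cast hT
  have hδ' : (1 : ℝ) ≤ δ := by exact_mod_cast hδ
  have hκ₀' : (1 : ℝ) ≤ κ₀ := by exact_mod_cast hκ₀
  have hκ₁' : (1 : ℝ) ≤ κ₁ := by exact_mod_cast hκ₁
  have hΛ : 1 ≤ Λ := hT'.trans hTΛ
  have hC₃ : 0 ≤ C₃ := by
    have := hD₃ 0
    rw [pow_zero, mul_one] at this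
    exact (Nat.cast_nonneg _).trans this
  obtain ⟨l, hl, hl1, hl2⟩ := h1 d κ₀ Λ hκ₀ (by linarith) hsub hd hlim
  obtain ⟨s, hs, hsl⟩ := fac Λ l hΛ hl
  obtain ⟨m₀, hm₀⟩ := hl2 (s - 1) (by linarith)
  have hm₀' : ∀ m, m₀ ≤ m → (d m : ℝ) ≤ (l * s) ^ m := by
    intro m hm
    have := hm₀ m hm
    rwa [add_sub_cancel] at this
  have hT0 : (0 : ℝ) < T := by linarith
  have hδ0 : (0 : ℝ) < δ := by linarith
  have hκ₀0 : (0 : ℝ) < κ₀ := by linarith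
  have hκ₁0 : (0 : ℝ) < κ₁ := by linarith
  have hΛ0 : 0 < Λ := by linarith
  have hl0 : 0 < l := by linarith
  have hs0 : 0 < s := by linarith
  have hTl : (T : ℝ) ≤ l := by linarith
  have hd' : ∀ m, (1 : ℝ) ≤ d m := fun m => by exact_mod_cast hd m
  have hΔ' : ∀ m, (1 : ℝ) ≤ Δ m := fun m => by exact_mod_cast hΔ m
  obtain ⟨t, ht⟩ : ∃ t : ℝ, t = Λ / T := ⟨_, rfl⟩
  have ht1 : 1 ≤ t := by
    rw [ht, le_div_iff₀ hT0]
    linarith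
  have ht0 : 0 < t := by linarith
  obtain ⟨θ, hθ⟩ : ∃ θ : ℝ, θ = l ^ 2 / (T * s ^ 4) := ⟨_, rfl⟩
  have hθ0 : 0 < θ := by rw [hθ]; positivity
  have hs1 : 1 ≤ s := hs.le
  have hs3 : s ^ 3 ≤ s ^ 5 := pow_le_pow_right₀ hs1 (by norm_num)
  have hs15 : s ≤ s ^ 5 := by
    calc s = s ^ 1 := (pow_one s).symm
      _ ≤ s ^ 5 := pow_le_pow_right₀ hs1 (by norm_num)
  have hθs : θ * s = l ^ 2 / (T * s ^ 3) := by
    rw [hθ]
    field_simp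
  have hμ : 1 ≤ θ * s := by
    rw [hθs, le_div_iff₀ (by positivity), one_mul]
    have e1 : (T : ℝ) * s ^ 3 ≤ Λ * s ^ 5 := mul_le_mul hTΛ hs3 (by positivity) hΛ0.le
    have e2 : l ≤ l ^ 2 := by nlinarith
    linarith
  by_cases hII : ∃ᶠ m in Filter.atTop, θ ^ m * Δ m ≤ (Δ (2 * m) : ℝ)
  · obtain ⟨β, hβ⟩ : ∃ β : ℝ, β = l / (T * s ^ 5) := ⟨_, rfl⟩
    have hβ0 : 0 < β := by rw [hβ]; positivity
    have hβt : t < β := by
      rw [ht, hβ, div_lt_div_iff₀ hT0 (by positivity)]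
      nlinarith
    have hβθ : β * (l * s) = θ := by
      rw [hβ, hθ]
      field_simp
    have g1 : 1 < β / t := (one_lt_div ht0).2 hβt
    have g2 : 1 < β := by linarith
    have ev1 := (tendsto_pow_atTop_atTop_of_one_lt g1).eventually_gt_atTop (2 * (κ₁ : ℝ))
    have ev2 := (tendsto_pow_atTop_atTop_of_one_lt g2).eventually_gt_atTop
      ((2 + 8 * C₃ * κ₀ + 4 * C₃ * (κ₀ : ℝ) ^ 2 * δ) * κ₁)
    obtain ⟨m, k1, k2, k3, k4⟩ := (hII.and_eventually (ev1.and (ev2.and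
      (Filter.eventually_ge_atTop (max m₀ 1))))).exists
    have hm1 : 1 ≤ m := (le_max_right _ _).trans k4
    have hmm : m₀ ≤ m := (le_max_left _ _).trans k4
    refine ⟨m, hm1, Or.inr ?_⟩
    rw [← ht]
    refine altII κ₀ κ₁ δ C₃ (d m) (Δ m) (Δ (2 * m)) (D₃ m) (T ^ m) (l ^ m) (Λ ^ m) (β ^ m) (t ^ m) hκ₀' hκ₁' hδ'
      hC₃ (hd' m) (hΔ' m) (one_le_pow₀ hT') (pow_le_pow_left₀ hT0.le hTl m) (hl1 m) (hD₃ m)
      (pow_le_pow_left₀ hΛ0.le hl.le m) ?_ ?_ ?_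
    · have e1 : β ^ m * d m ≤ θ ^ m := by
        calc β ^ m * d m ≤ β ^ m * (l * s) ^ m := mul_le_mul_of_nonneg_left (hm₀' m hmm) (pow_pos hβ0 m).le
          _ = θ ^ m := by rw [← mul_pow, hβθ]
      exact (mul_le_mul_of_nonneg_right e1 (Nat.cast_nonneg _)).trans k1
    · rw [lt_div_iff₀ hκ₁0]
      rw [div_pow, lt_div_iff₀ (pow_pos ht0 m)] at k2
      linarith
    · rw [lt_div_iff₀ hκ₁0]
      exact k3
  · rw [Filter.not_frequently] at hII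
    obtain ⟨m₂, hm₂⟩ := Filter.eventually_atTop.1 hII
    obtain ⟨A, hA0, hA⟩ := claim Δ C₀ θ s hs hθ0 hμ hΔ1 m₂ (fun m hm => (not_le.1 (hm₂ m hm)).le)
    obtain ⟨γ, hγ⟩ : ∃ γ : ℝ, γ = l / (T * s) := ⟨_, rfl⟩
    have hγt : t < γ := by
      rw [ht, hγ, div_lt_div_iff₀ hT0 (by positivity)]
      have e0 : Λ * s < l := lt_of_le_of_lt (mul_le_mul_of_nonneg_left hs15 hΛ0.le) hsl
      have e1 := mul_lt_mul_of_pos_right e0 hT0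
      linarith
    have g1 : 1 < γ / t := (one_lt_div ht0).2 hγt
    have g2 : 1 < γ := by linarith
    have ev1 := (tendsto_pow_atTop_atTop_of_one_lt g1).eventually_gt_atTop (2 * ((κ₀ : ℝ) * κ₁ * δ))
    have ev2 := (tendsto_pow_atTop_atTop_of_one_lt g2).eventually_ge_atTop (2 * ((κ₀ : ℝ) * κ₁ * δ))
    have ev3 := (tendsto_pow_atTop_atTop_of_one_lt hs).eventually_ge_atTop
      (8 * A * (κ₀ : ℝ) ^ 2 * (κ₁ : ℝ) ^ 2 * δ)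
    have ev4 := (tendsto_pow_atTop_atTop_of_one_lt hs).eventually_gt_atTop (4 * A * (κ₀ : ℝ) ^ 2 * κ₁ * δ)
    obtain ⟨m, k1, k2, k3, k4, k5⟩ := (ev1.and (ev2.and (ev3.and (ev4.and
      (Filter.eventually_ge_atTop (max m₀ 1)))))).exists
    have hm1 : 1 ≤ m := (le_max_right _ _).trans k5
    have hmm : m₀ ≤ m := (le_max_left _ _).trans k5
    have hκ : (0 : ℝ) < κ₀ * κ₁ * δ := by positivity
    have hx : l ^ m / ((T : ℝ) ^ m * s ^ m) = γ ^ m := by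
      rw [hγ, div_pow, mul_pow]
    refine ⟨m, hm1, Or.inl ?_⟩
    rw [← ht]
    refine altI κ₀ κ₁ δ A (d m) (Δ m) (d (2 * m)) (T ^ m) (l ^ m) (s ^ m) (t ^ m) hκ₀' hκ₁' hδ'
      (hd' m) (one_le_pow₀ hT') (pow_pos hl0 m) (one_le_pow₀ hs1) (hl1 m) ?_ ?_ ?_ ?_ ?_ k3 k4
    · have e1 := hl1 (2 * m)
      rwa [mul_comm 2 m, pow_mul, mul_comm m 2] at e1
    · rw [← mul_pow]
      exact hm₀' m hmm
    · have e1 := hA m
      rw [hθs, div_pow, mul_pow] at e1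
      have e2 : (l ^ 2) ^ m / ((T : ℝ) ^ m * (s ^ 3) ^ m) = (l ^ m) ^ 2 / ((T : ℝ) ^ m * (s ^ m) ^ 3) := by
        rw [← pow_mul, ← pow_mul, ← pow_mul, ← pow_mul, mul_comm 2 m, mul_comm 3 m]
      rwa [e2] at e1
    · rw [hx, lt_div_iff₀ hκ]
      rw [div_pow, lt_div_iff₀ (pow_pos ht0 m)] at k1
      linarith
    · rw [hx, le_div_iff₀ hκ]
      exact k2

end Pool.Agent.Lib.MP_16285c_agX
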