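import Pool.Agent.Lib.MP_16285c_agB.SpecA

/-!
# Backward orbits (ZDB): submultiplicativity of the mixed degrees

Proof of `StmtSbQ`.
-/

set_option autoImplicit false

namespace Pool.Agent.Lib.MP_16285c_agX

open Pool.Agent.Lib.MP_16285c_ag Pool.Agent.Lib.MP_16285c_agN

namespace QSbQM

/-- the image of `lc` under an algebra homomorphism -/
theorem lc_map {K E : Type} [Field K] [Field E] [Algebra K E] {n c : ℕ} (B : Fin c → Fin n → K)
    (x : Fin n → E) (τ : E →ₐ[K] E) (i : Fin c) :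
    τ (lc B x i) = lc B (fun i => τ (x i)) i := by
  rw [lc, lc, map_sum]
  refine Finset.sum_congr rfl fun j _ => ?_
  rw [map_mul, AlgHom.commutes]

end QSbQM

/-- (SbQ) Submultiplicativity. -/
theorem qSbQ : StmtMxD → StmtDg1n → StmtSbQ := by
  intro hMx hDg K E _ _ _ _ n c p ξ hS hcp ρ a b
  obtain ⟨her, hex, -⟩ := hDg K E n c p ξ hS hcp
  obtain ⟨A, B, hAB⟩ := hex (fun i : Fin n => (ρ ^ (a + b)) (ξ i.succ))
  have h := hMx K E n c p ξ hS hcp ρ a
    (dgx K c p (fun i : Fin n => ξ i.succ) (fun i : Fin n => (ρ ^ b) (ξ i.succ)))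
    (lc B fun i : Fin n => (ρ ^ b) (ξ i.succ)) (fun A' => her _ A' B) A
  have hr : (fun i : Fin p => (ρ ^ a) (lc B (fun i : Fin n => (ρ ^ b) (ξ i.succ)) i)) =
      lc B (fun i : Fin n => (ρ ^ (a + b)) (ξ i.succ)) := by
    funext i
    rw [QSbQM.lc_map]
    congr 1
    funext j
    rw [pow_add]
    rfl
  rw [hr, hAB] at h
  exact h

end Pool.Agent.Lib.MP_16285c_agX
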