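import Pool.Agent.Lib.MP_16285c_agB.SpecA

/-!
ZDB, module `TayA`: truncated polynomials.
-/

set_option autoImplicit false

namespace Pool.Agent.Lib.MP_16285c_agX

namespace QTayAM

/-- The exponent of a monomial. -/
noncomputable def ex {n : ℕ} (α : Fin n → ℕ) : Fin n →₀ ℕ := Finsupp.equivFunOnFinite.symm α

theorem ex_apply {n : ℕ} (α : Fin n → ℕ) (i : Fin n) : ex α i = α i := rfl

theorem degree_ex {n : ℕ} (α : Fin n → ℕ) : (ex α).degree = ∑ i, α i := by
  rw [Finsupp.degree_eq_sum]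
  exact Finset.sum_congr rfl fun i _ => rfl

theorem prod_X (F : Type) [Field F] {n : ℕ} (α : Fin n → ℕ) :
    ∏ i, (MvPolynomial.X i : MvPolynomial (Fin n) F) ^ α i = MvPolynomial.monomial (ex α) 1 := by
  rw [MvPolynomial.monomial_eq, MvPolynomial.C_1, one_mul, Finsupp.prod_fintype _ _ (fun i => pow_zero _)]
  exact Finset.prod_congr rfl fun i _ => rfl

theorem eq_of_le {n : ℕ} {α β : Fin n → ℕ} (h : ex β ≤ ex α) (h2 : ∑ i, α i ≤ ∑ i, β i) : β = α := by
  have h3 : ∀ i ∈ Finset.univ, β i ≤ α i := fun i _ => h i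
  have h4 : ∑ i, β i = ∑ i, α i := le_antisymm (Finset.sum_le_sum h3) h2
  funext i
  exact (Finset.sum_eq_sum_iff_of_le h3).1 h4 i (Finset.mem_univ i)

end QTayAM

open QTayAM in
theorem qTayA : StmtTayA := by
  intro F _ n J
  classical
  obtain ⟨I, hI⟩ : ∃ I : Ideal (MvPolynomial (Fin n) F),
      I = MvPolynomial.idealOfVars (Fin n) F ^ (J + 1) := ⟨_, rfl⟩
  have hmem : ∀ p : MvPolynomial (Fin n) F, p ∈ I ↔ ∀ x : Fin n →₀ ℕ, x.degree < J + 1 → p.coeff x = 0 := by
    intro p
    rw [hI]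
    exact MvPolynomial.mem_pow_idealOfVars_iff' (J + 1) p
  have haev : ∀ p : MvPolynomial (Fin n) F,
      MvPolynomial.aeval (fun _ : Fin n => (0 : F)) p = MvPolynomial.coeff 0 p := by
    intro p
    rw [MvPolynomial.aeval_zero']
    rfl
  have h0 : ∀ p : MvPolynomial (Fin n) F, p ∈ I → MvPolynomial.aeval (fun _ : Fin n => (0 : F)) p = 0 := by
    intro p hp
    rw [haev]
    exact (hmem p).1 hp 0 (by simp)
  obtain ⟨ε, hε⟩ : ∃ ε : (MvPolynomial (Fin n) F ⧸ I) →ₐ[F] F,
      ∀ p, ε (Ideal.Quotient.mk I p) = MvPolynomial.coeff 0 p :=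
    ⟨Ideal.Quotient.liftₐ I (MvPolynomial.aeval fun _ => (0 : F)) h0, fun p => (haev p)⟩
  refine ⟨MvPolynomial (Fin n) F ⧸ I, inferInstance, inferInstance, ε,
    fun i => Ideal.Quotient.mk I (MvPolynomial.X i), ?_, ?_, ?_⟩
  · refine ⟨J + 1, ?_⟩
    have hk : RingHom.ker ε ≤ Ideal.map (Ideal.Quotient.mk I) (MvPolynomial.idealOfVars (Fin n) F) := by
      intro a ha
      obtain ⟨p, rfl⟩ := Ideal.Quotient.mk_surjective a
      rw [RingHom.mem_ker] at ha
      have hp : p ∈ MvPolynomial.idealOfVars (Fin n) F ^ 1 := by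
        rw [MvPolynomial.mem_pow_idealOfVars_iff']
        intro x hx
        have hx0 : x = 0 := by
          rw [← Finsupp.degree_eq_zero_iff]
          omega
        rw [hx0, ← hε]
        exact ha
      rw [pow_one] at hp
      exact Ideal.mem_map_of_mem _ hp
    have hle : RingHom.ker ε ^ (J + 1) ≤ ⊥ := by
      calc RingHom.ker ε ^ (J + 1) ≤
          Ideal.map (Ideal.Quotient.mk I) (MvPolynomial.idealOfVars (Fin n) F) ^ (J + 1) :=
            Ideal.pow_right_mono hk _
        _ = Ideal.map (Ideal.Quotient.mk I) I := by rw [← Ideal.map_pow, ← hI]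
        _ = ⊥ := Ideal.map_quotient_self I
        _ ≤ ⊥ := le_rfl
    exact le_bot_iff.1 hle
  · intro i
    rw [hε, MvPolynomial.coeff_zero_X]
  · intro S c hS hsum α hα hmin
    have hlift : ∀ β : Fin n → ℕ, ∃ p : MvPolynomial (Fin n) F, Ideal.Quotient.mk I p = c β :=
      fun β => Ideal.Quotient.mk_surjective (c β)
    choose C hC using hlift
    have h1 : Ideal.Quotient.mk I (∑ β ∈ S, C β * MvPolynomial.monomial (ex β) 1) = 0 := by
      rw [map_sum, ← hsum]
      refine Finset.sum_congr rfl fun β _ => ?_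
      rw [map_mul, hC, ← prod_X, map_prod]
      simp only [map_pow]
    rw [Ideal.Quotient.eq_zero_iff_mem, hmem] at h1
    have h2 := h1 (ex α) (by rw [degree_ex]; exact Nat.lt_succ_of_le (hS α hα))
    rw [MvPolynomial.coeff_sum, Finset.sum_eq_single α] at h2
    · rw [MvPolynomial.coeff_mul_monomial', if_pos le_rfl, tsub_self, mul_one] at h2
      rw [← hC, hε]
      exact h2
    · intro β hβ hne
      rw [MvPolynomial.coeff_mul_monomial']
      split_ifs with hle
      · exact absurd (eq_of_le hle (hmin β hβ)) hne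
      · rfl
    · intro h
      exact absurd hα h

end Pool.Agent.Lib.MP_16285c_agX
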