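import Pool.Agent.Lib.MP_16285c_agB.SpecA
import Pool.Agent.Lib.MP_16285c_agN.Degr.Cnt

/-!
MP_16285c_ag, project ZDB, module TayB: the dimension count.
-/

set_option autoImplicit false

namespace Pool.Agent.Lib.MP_16285c_agX

open Pool.Agent.Lib.MP_16285c_ag Pool.Agent.Lib.MP_16285c_agN

namespace QTayBM

/-- Independent elements in the span of a family, along a ring homomorphism. -/
theorem count (k A : Type) [Field k] [CommRing A] (χ : k →+* A) {ι τ : Type} [Fintype ι] [Fintype τ]
    (v : ι → A) (u : τ → A) (hind : ∀ c : ι → k, ∑ i, χ (c i) * v i = 0 → ∀ i, c i = 0)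
    (hspan : ∀ i, ∃ d : τ → k, v i = ∑ j, χ (d j) * u j) : Fintype.card ι ≤ Fintype.card τ := by
  classical
  letI : Algebra k A := χ.toAlgebra
  have hv : LinearIndependent k v := by
    refine Fintype.linearIndependent_iff.2 (fun c hc => hind c ?_)
    rw [← hc]
    refine Finset.sum_congr rfl (fun i _ => ?_)
    rw [Algebra.smul_def]
    rfl
  have hs : ∀ i, v i ∈ Submodule.span k (Set.range u) := by
    intro i
    obtain ⟨d, hd⟩ := hspan i
    rw [hd]
    refine Submodule.sum_mem _ (fun j _ => ?_)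
    have h1 : χ (d j) * u j = d j • u j := by
      rw [Algebra.smul_def]
      rfl
    rw [h1]
    exact Submodule.smul_mem _ _ (Submodule.subset_span ⟨j, rfl⟩)
  haveI : Module.Finite k (Submodule.span k (Set.range u)) :=
    Module.Finite.span_of_finite k (Set.finite_range u)
  let v' : ι → Submodule.span k (Set.range u) := fun i => ⟨v i, hs i⟩
  have hv' : LinearIndependent k v' := by
    apply LinearIndependent.of_comp (Submodule.span k (Set.range u)).subtype
    exact hv
  exact le_trans hv'.fintype_card_le_finrank (finrank_range_le_card u)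

/-- A finite generating family with coefficients. -/
theorem gen (k M : Type) [Field k] [Field M] [Algebra k M] (U : Submodule k M) (hU : Module.Finite k U) :
    ∃ ub : Fin (Module.finrank k U) → M, ∀ u ∈ U, ∃ c : Fin (Module.finrank k U) → k,
      u = ∑ a, algebraMap k M (c a) * ub a := by
  let b := Module.finBasis k U
  refine ⟨fun a => (b a : M), fun u hu => ⟨fun a => b.repr ⟨u, hu⟩ a, ?_⟩⟩
  have h := congrArg (fun z : U => (z : M)) (b.sum_repr ⟨u, hu⟩)
  simp only [Submodule.coe_sum, Submodule.coe_smul] at h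
  have h2 : ∑ a, algebraMap k M (b.repr ⟨u, hu⟩ a) * (b a : M) = ∑ a, (b.repr ⟨u, hu⟩ a) • (b a : M) :=
    Finset.sum_congr rfl (fun a _ => by rw [Algebra.smul_def])
  rw [h2]
  exact h.symm

section

variable {K E F A : Type} [Field K] [Field E] [Field F] [CommRing A] [Algebra K E] [Algebra K F]
  [Algebra F A] [Algebra K A] [IsScalarTower K F A] {κ : IntermediateField K F} {p : ℕ}
  {σ : E →ₐ[K] F} {w : Fin p → E}

/-- `Φ` and `χ ∘ σ` agree. -/
theorem agree (Φ : E →ₐ[K] A)
    (χ : IntermediateField.adjoin κ (Set.range fun i => σ (w i)) →+* A)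
    (hχ1 : ∀ c : κ, χ (algebraMap κ (IntermediateField.adjoin κ (Set.range fun i => σ (w i))) c) =
      algebraMap F A (c : F))
    (hχ2 : ∀ (i : Fin p) (h : σ (w i) ∈ IntermediateField.adjoin κ (Set.range fun i => σ (w i))),
      χ ⟨σ (w i), h⟩ = Φ (w i))
    (d : E) (hd : d ∈ IntermediateField.adjoin K (Set.range w)) :
    ∃ hm : σ d ∈ IntermediateField.adjoin κ (Set.range fun i => σ (w i)), Φ d = χ ⟨σ d, hm⟩ := by
  induction hd using IntermediateField.adjoin_induction with
  | mem x hx =>
    obtain ⟨i, rfl⟩ := hx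
    have h1 : σ (w i) ∈ IntermediateField.adjoin κ (Set.range fun i => σ (w i)) :=
      IntermediateField.subset_adjoin κ _ ⟨i, rfl⟩
    exact ⟨h1, (hχ2 i h1).symm⟩
  | algebraMap c =>
    have h0 : σ (algebraMap K E c) = algebraMap K F c := σ.commutes c
    have h1 : σ (algebraMap K E c) =
        ((algebraMap κ (IntermediateField.adjoin κ (Set.range fun i => σ (w i))) (algebraMap K κ c) :
          IntermediateField.adjoin κ (Set.range fun i => σ (w i))) : F) := by
      rw [h0]
      rfl
    have h2 : σ (algebraMap K E c) ∈ IntermediateField.adjoin κ (Set.range fun i => σ (w i)) := by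
      rw [h1]
      exact SetLike.coe_mem _
    refine ⟨h2, ?_⟩
    have h3 : (⟨σ (algebraMap K E c), h2⟩ : IntermediateField.adjoin κ (Set.range fun i => σ (w i))) =
        algebraMap κ (IntermediateField.adjoin κ (Set.range fun i => σ (w i))) (algebraMap K κ c) :=
      Subtype.ext h1
    rw [h3, hχ1, Φ.commutes, IsScalarTower.algebraMap_apply K F A]
    rfl
  | add x y _ _ hx hy =>
    obtain ⟨h1, e1⟩ := hx
    obtain ⟨h2, e2⟩ := hy
    refine ⟨by rw [map_add]; exact add_mem h1 h2, ?_⟩
    rw [map_add, e1, e2, ← map_add]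
    congr 1
    apply Subtype.ext
    show σ x + σ y = σ (x + y)
    rw [map_add]
  | inv x _ hx =>
    obtain ⟨h1, e1⟩ := hx
    have h2 : σ x⁻¹ ∈ IntermediateField.adjoin κ (Set.range fun i => σ (w i)) := by
      rw [map_inv₀]
      exact inv_mem h1
    refine ⟨h2, ?_⟩
    by_cases h0 : x = 0
    · subst h0
      have e0 : (⟨σ (0 : E)⁻¹, h2⟩ : IntermediateField.adjoin κ (Set.range fun i => σ (w i))) = 0 := by
        apply Subtype.ext
        show σ (0 : E)⁻¹ = 0
        rw [inv_zero, map_zero]
      rw [e0, map_zero, inv_zero, map_zero]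
    · have h3 : χ ⟨σ x, h1⟩ * χ ⟨σ x⁻¹, h2⟩ = 1 := by
        rw [← map_mul, ← map_one χ]
        congr 1
        apply Subtype.ext
        show σ x * σ x⁻¹ = 1
        rw [← map_mul, mul_inv_cancel₀ h0, map_one]
      have h4 : Φ x⁻¹ * Φ x = 1 := by
        rw [← map_mul, inv_mul_cancel₀ h0, map_one]
      calc Φ x⁻¹ = Φ x⁻¹ * (χ ⟨σ x, h1⟩ * χ ⟨σ x⁻¹, h2⟩) := by rw [h3, mul_one]
        _ = (Φ x⁻¹ * Φ x) * χ ⟨σ x⁻¹, h2⟩ := by rw [← e1, mul_assoc]
        _ = χ ⟨σ x⁻¹, h2⟩ := by rw [h4, one_mul]
  | mul x y _ _ hx hy =>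
    obtain ⟨h1, e1⟩ := hx
    obtain ⟨h2, e2⟩ := hy
    refine ⟨by rw [map_mul]; exact mul_mem h1 h2, ?_⟩
    rw [map_mul, e1, e2, ← map_mul]
    congr 1
    apply Subtype.ext
    show σ x * σ y = σ (x * y)
    rw [map_mul]

end

end QTayBM

open QTayBM in
/-- (TayB) The dimension count. -/
theorem qTayB : StmtTayA → StmtTayH → StmtTayX → StmtTayB := by
  intro hTA hTH hTX K E F _ _ _ _ _ _ κ n p s J x σ w h hx hfin hw hh U hU hUm V hV hVm
  classical
  obtain ⟨A, _, _, ε, t, hnil, ht, hA⟩ := hTA F n J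
  letI : Algebra K A := Algebra.compHom A (algebraMap K F)
  haveI : IsScalarTower K F A := IsScalarTower.of_algebraMap_eq' rfl
  obtain ⟨Φ, hΦ1, hΦ2⟩ := hTH K E F A n x hx hfin σ ε hnil (fun i => algebraMap F A (σ (x i)) + t i)
    (fun i => by rw [map_add, ht i, add_zero]; exact ε.commutes _)
  obtain ⟨χ, hχ1, hχ2, hχ3⟩ := hTX K F A κ p (fun i => σ (w i)) hw ε hnil (fun i => Φ (w i))
    (fun i => hΦ2 (w i))
  have hagree := agree Φ χ hχ1 hχ2
  haveI := hU
  haveI := hV
  obtain ⟨ub, hub⟩ := gen κ F U hU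
  obtain ⟨vb, hvb⟩ := gen (IntermediateField.adjoin K (Set.range w)) E V hV
  let uv : Fin (Module.finrank κ U) × Fin (Module.finrank (IntermediateField.adjoin K (Set.range w)) V) → A :=
    fun ab => algebraMap F A (ub ab.1) * Φ (vb ab.2)
  -- the span of the products
  let InM : A → Prop := fun z => ∃ d : Fin (Module.finrank κ U) ×
      Fin (Module.finrank (IntermediateField.adjoin K (Set.range w)) V) →
      IntermediateField.adjoin κ (Set.range fun i => σ (w i)), z = ∑ ab, χ (d ab) * uv ab
  have hsub : ∀ z z' : A, InM z → InM z' → InM (z - z') := by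
    rintro z z' ⟨d, hd⟩ ⟨d', hd'⟩
    refine ⟨fun ab => d ab - d' ab, ?_⟩
    rw [hd, hd', ← Finset.sum_sub_distrib]
    refine Finset.sum_congr rfl (fun ab _ => ?_)
    rw [map_sub, sub_mul]
  have hprod : ∀ u ∈ U, ∀ v ∈ V, InM (algebraMap F A u * Φ v) := by
    intro u hu v hv
    obtain ⟨cu, e1⟩ := hub u hu
    obtain ⟨cv, e2⟩ := hvb v hv
    choose hm he using fun b => hagree _ (cv b).2
    refine ⟨fun ab => algebraMap κ _ (cu ab.1) * ⟨_, hm ab.2⟩, ?_⟩
    have e3 : algebraMap F A u = ∑ a, χ (algebraMap κ _ (cu a)) * algebraMap F A (ub a) := by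
      rw [e1, map_sum]
      refine Finset.sum_congr rfl (fun a _ => ?_)
      rw [map_mul, hχ1]
      rfl
    have e4 : Φ v = ∑ b, χ ⟨_, hm b⟩ * Φ (vb b) := by
      rw [e2, map_sum]
      refine Finset.sum_congr rfl (fun b _ => ?_)
      rw [map_mul, ← he b]
      rfl
    rw [e3, e4, Finset.sum_mul_sum, ← Finset.sum_product', Finset.univ_product_univ]
    refine Finset.sum_congr rfl (fun ab _ => ?_)
    simp only [uv]
    rw [map_mul]
    ring
  -- (ii)
  have hstep : ∀ (k : Fin s) (j : ℕ) (α β γ : Fin n → ℕ), ∑ i, α i = j → ∑ i, β i + j ≤ J →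
      ∑ i, γ i + j ≤ J →
      InM (algebraMap F A (h k * ∏ i, σ (x i) ^ β i) * Φ (∏ i, x i ^ γ i) * ∏ i, t i ^ α i) := by
    intro k j
    induction j with
    | zero =>
      intro α β γ hα hβ hγ
      have h1 : ∀ i, α i = 0 := by
        intro i
        exact (Finset.sum_eq_zero_iff.1 hα) i (Finset.mem_univ i)
      have h2 : ∏ i, t i ^ α i = 1 := Finset.prod_eq_one (fun i _ => by rw [h1 i, pow_zero])
      rw [h2, mul_one]
      exact hprod _ (hUm k β (by omega)) _ (hVm γ (by omega))
    | succ j ih =>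
      intro α β γ hα hβ hγ
      obtain ⟨i0, hi0⟩ : ∃ i, α i ≠ 0 := by
        by_contra hc
        push Not at hc
        rw [Finset.sum_eq_zero (fun i _ => hc i)] at hα
        omega
      let e : Fin n → ℕ := Pi.single i0 1
      have hesum : ∑ i, e i = 1 := by
        simp only [e]
        rw [Finset.sum_pi_single']
        simp
      have hle : e ≤ α := by
        intro i
        by_cases hi : i = i0
        · subst hi
          simp only [e, Pi.single_eq_same]
          omega
        · simp only [e]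
          rw [Pi.single_eq_of_ne hi]
          exact Nat.zero_le _
      have hα' : α = (α - e) + e := (tsub_add_cancel_of_le hle).symm
      have hs1 : ∑ i, (α - e) i = j := by
        have : ∑ i, α i = ∑ i, (α - e) i + ∑ i, e i := by
          rw [← Finset.sum_add_distrib]
          refine Finset.sum_congr rfl (fun i _ => ?_)
          exact congrFun hα' i
        omega
      have hpe : ∀ {R : Type} [CommRing R] (y : Fin n → R), ∏ i, y i ^ e i = y i0 := by
        intro R _ y
        rw [Finset.prod_eq_single i0]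
        · simp only [e, Pi.single_eq_same, pow_one]
        · intro i _ hi
          simp only [e]
          rw [Pi.single_eq_of_ne hi, pow_zero]
        · intro hc
          exact absurd (Finset.mem_univ _) hc
      have hpadd : ∀ {R : Type} [CommRing R] (y : Fin n → R) (a : Fin n → ℕ),
          ∏ i, y i ^ (a + e) i = (∏ i, y i ^ a i) * y i0 := by
        intro R _ y a
        rw [← hpe y, ← Finset.prod_mul_distrib]
        exact Finset.prod_congr rfl (fun i _ => by rw [Pi.add_apply, pow_add])
      have ha1 := ih (α - e) β (γ + e) hs1 (by omega) (by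
        have : ∑ i, (γ + e) i = ∑ i, γ i + ∑ i, e i := Finset.sum_add_distrib
        omega)
      have ha2 := ih (α - e) (β + e) γ hs1 (by
        have : ∑ i, (β + e) i = ∑ i, β i + ∑ i, e i := Finset.sum_add_distrib
        omega) (by omega)
      have hfinal := hsub _ _ ha1 ha2
      have heq : algebraMap F A (h k * ∏ i, σ (x i) ^ β i) * Φ (∏ i, x i ^ (γ + e) i) *
            ∏ i, t i ^ (α - e) i -
          algebraMap F A (h k * ∏ i, σ (x i) ^ (β + e) i) * Φ (∏ i, x i ^ γ i) *
            ∏ i, t i ^ (α - e) i =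
          algebraMap F A (h k * ∏ i, σ (x i) ^ β i) * Φ (∏ i, x i ^ γ i) * ∏ i, t i ^ α i := by
        rw [hpadd x γ, hpadd (fun i => σ (x i)) β]
        conv_rhs => rw [hα', hpadd t (α - e)]
        rw [map_mul Φ, hΦ1 i0, ← mul_assoc (h k), map_mul (algebraMap F A) _ (σ (x i0))]
        ring
      rw [heq] at hfinal
      exact hfinal
  haveI : Finite {b : Fin n → ℕ // ∑ i, b i ≤ J} :=
    Pool.Agent.Lib.MP_16285c_agN.DegrCntM.fin n J
  letI : Fintype {b : Fin n → ℕ // ∑ i, b i ≤ J} := Fintype.ofFinite _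
  have hcount := count (IntermediateField.adjoin κ (Set.range fun i => σ (w i))) A χ
    (ι := Fin s × {b : Fin n → ℕ // ∑ i, b i ≤ J})
    (fun kα => algebraMap F A (h kα.1) * ∏ i, t i ^ (kα.2.1 i)) uv ?_ ?_
  · rw [Fintype.card_prod, Fintype.card_prod, Fintype.card_fin, Fintype.card_fin, Fintype.card_fin] at hcount
    unfold cnt
    rw [Nat.card_eq_fintype_card]
    exact hcount
  · -- (i)
    intro c hc
    by_contra hne
    push Not at hne
    obtain ⟨kα0, hk0⟩ := hne
    let c' : Fin s → (Fin n → ℕ) → IntermediateField.adjoin κ (Set.range fun i => σ (w i)) :=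
      fun k α => if hα : ∑ i, α i ≤ J then c (k, ⟨α, hα⟩) else 0
    have hc' : ∀ (k : Fin s) (α : {b : Fin n → ℕ // ∑ i, b i ≤ J}), c' k α.1 = c (k, α) := by
      intro k α
      simp only [c']
      rw [dif_pos α.2]
    let S0 : Finset {b : Fin n → ℕ // ∑ i, b i ≤ J} := Finset.univ.filter (fun α => ∃ k, c (k, α) ≠ 0)
    let S : Finset (Fin n → ℕ) := S0.image Subtype.val
    have hSne : S.Nonempty := by
      refine ⟨kα0.2.1, ?_⟩
      simp only [S]
      rw [Finset.mem_image]
      exact ⟨kα0.2, Finset.mem_filter.2 ⟨Finset.mem_univ _, kα0.1, hk0⟩, rfl⟩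
    obtain ⟨α0, hα0, hmin⟩ := Finset.exists_min_image S (fun α => ∑ i, α i) hSne
    have hSJ : ∀ α ∈ S, ∑ i, α i ≤ J := by
      intro α hα
      simp only [S] at hα
      rw [Finset.mem_image] at hα
      obtain ⟨a, _, rfl⟩ := hα
      exact a.2
    have hzero : ∑ α ∈ S, (∑ k, χ (c' k α) * algebraMap F A (h k)) * ∏ i, t i ^ α i = 0 := by
      simp only [S]
      rw [Finset.sum_image (fun a _ b _ hab => Subtype.ext hab)]
      have h1 : ∑ α ∈ S0, (∑ k, χ (c' k α.1) * algebraMap F A (h k)) * ∏ i, t i ^ (α.1 i) =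
          ∑ α : {b : Fin n → ℕ // ∑ i, b i ≤ J},
            (∑ k, χ (c' k α.1) * algebraMap F A (h k)) * ∏ i, t i ^ (α.1 i) := by
        apply Finset.sum_subset (Finset.subset_univ _)
        intro α _ hα
        have h2 : ∀ k, c (k, α) = 0 := by
          intro k
          by_contra hk
          exact hα (Finset.mem_filter.2 ⟨Finset.mem_univ _, k, hk⟩)
        rw [Finset.sum_eq_zero (fun k _ => by rw [hc', h2 k, map_zero, zero_mul]), zero_mul]
      rw [h1, ← hc, ← Finset.univ_product_univ, Finset.sum_product_right]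
      refine Finset.sum_congr rfl (fun α _ => ?_)
      rw [Finset.sum_mul]
      refine Finset.sum_congr rfl (fun k _ => ?_)
      rw [hc', mul_assoc]
    have h1 := hA S (fun α => ∑ k, χ (c' k α) * algebraMap F A (h k)) hSJ hzero α0 hα0 hmin
    rw [map_sum] at h1
    have h2 : ∑ k, (c' k α0) • h k = 0 := by
      rw [← h1]
      refine Finset.sum_congr rfl (fun k _ => ?_)
      rw [map_mul, hχ3, Algebra.smul_def]
      have : ε (algebraMap F A (h k)) = h k := ε.commutes (h k)
      rw [this]
      rfl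
    have h3 := Fintype.linearIndependent_iff.1 hh (fun k => c' k α0) h2
    simp only [S] at hα0
    rw [Finset.mem_image] at hα0
    obtain ⟨a, ha, rfl⟩ := hα0
    obtain ⟨_, k, hk⟩ := Finset.mem_filter.1 ha
    apply hk
    rw [← hc']
    exact h3 k
  · rintro ⟨k, α⟩
    have h1 := hstep k (∑ i, α.1 i) α.1 (fun _ => 0) (fun _ => 0) rfl
      (by rw [Finset.sum_const_zero]; have := α.2; omega) (by rw [Finset.sum_const_zero]; have := α.2; omega)
    obtain ⟨d, hd⟩ := h1
    refine ⟨d, ?_⟩
    rw [← hd]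
    simp only [pow_zero, Finset.prod_const_one, mul_one, map_one]

end Pool.Agent.Lib.MP_16285c_agX
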