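import Pool.Agent.Lib.MP_16285c_agB.SpecA

/-!
MP_16285c_ag, project ZDB, module TayX: the homomorphism `χ`.
-/

set_option autoImplicit false

namespace Pool.Agent.Lib.MP_16285c_agX

open Pool.Agent.Lib.MP_16285c_ag Pool.Agent.Lib.MP_16285c_agN

open scoped IntermediateField.algebraAdjoinAdjoin

namespace QTayXM

/-- An element which is not killed by a homomorphism to a field with nilpotent kernel is a unit. -/
theorem unit_of_ne {F A : Type} [Field F] [CommRing A] [Algebra F A] (ε : A →ₐ[F] F)
    (hε : IsNilpotent (RingHom.ker ε)) (u : A) (hu : ε u ≠ 0) : IsUnit u := by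
  obtain ⟨n, hn⟩ := hε
  have h1 : u - algebraMap F A (ε u) ∈ RingHom.ker ε := by
    rw [RingHom.mem_ker, map_sub, AlgHom.commutes, Algebra.algebraMap_self, RingHom.id_apply, sub_self]
  have h2 : IsNilpotent (u - algebraMap F A (ε u)) := by
    refine ⟨n, ?_⟩
    have h3 := Ideal.pow_mem_pow h1 n
    rw [hn] at h3
    simpa using h3
  have h4 : IsUnit (algebraMap F A (ε u)) := (IsUnit.mk0 _ hu).map (algebraMap F A)
  have h5 := h2.isUnit_add_right_of_commute h4 (Commute.all _ _)
  have h6 : u - algebraMap F A (ε u) + algebraMap F A (ε u) = u := by ring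
  rwa [h6] at h5

end QTayXM

/-- (TayX) The homomorphism `χ`. -/
theorem qTayX : StmtTayX := by
  intro K F A _ _ _ _ _ κ p wb hw ε hε b hb
  let g0 : MvPolynomial (Fin p) κ →+* A := MvPolynomial.eval₂Hom ((algebraMap F A).comp (algebraMap κ F)) b
  let g : Algebra.adjoin κ (Set.range wb) →+* A := g0.comp (hw.repr : Algebra.adjoin κ (Set.range wb) →+* MvPolynomial (Fin p) κ)
  have hg0 : (ε : A →+* F).comp g0 = (MvPolynomial.aeval wb : MvPolynomial (Fin p) κ →ₐ[κ] F).toRingHom := by
    apply MvPolynomial.ringHom_ext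
    · intro c
      simp [g0]
    · intro i
      simp [g0, hb i]
  have hg : ∀ d : Algebra.adjoin κ (Set.range wb), ε (g d) = (d : F) := by
    intro d
    have h1 := congrArg (fun f => f (hw.repr d)) hg0
    exact h1.trans (hw.aeval_repr d)
  have hu : ∀ y : nonZeroDivisors (Algebra.adjoin κ (Set.range wb)), IsUnit (g y) := by
    intro y
    apply QTayXM.unit_of_ne ε hε
    rw [hg]
    have h1 : (y : Algebra.adjoin κ (Set.range wb)) ≠ 0 := nonZeroDivisors.ne_zero y.2
    intro h2
    exact h1 (Subtype.ext h2)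
  let χ : IntermediateField.adjoin κ (Set.range wb) →+* A :=
    IsLocalization.lift (M := nonZeroDivisors (Algebra.adjoin κ (Set.range wb))) hu
  have hχ : ∀ d : Algebra.adjoin κ (Set.range wb),
      χ (algebraMap (Algebra.adjoin κ (Set.range wb)) (IntermediateField.adjoin κ (Set.range wb)) d) = g d :=
    fun d => IsLocalization.lift_eq hu d
  refine ⟨χ, ?_, ?_, ?_⟩
  · intro c
    have h1 := hχ (algebraMap κ _ c)
    have h2 : algebraMap (Algebra.adjoin κ (Set.range wb)) (IntermediateField.adjoin κ (Set.range wb))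
        (algebraMap κ _ c) = algebraMap κ _ c := rfl
    rw [h2] at h1
    rw [h1]
    have h3 : hw.repr (algebraMap κ _ c) = MvPolynomial.C c := hw.repr.commutes c
    show g0 (hw.repr (algebraMap κ _ c)) = _
    rw [h3]
    simp [g0]
  · intro i h
    have h0 : wb i ∈ Algebra.adjoin κ (Set.range wb) := Algebra.subset_adjoin ⟨i, rfl⟩
    have h1 := hχ ⟨wb i, h0⟩
    have h2 : algebraMap (Algebra.adjoin κ (Set.range wb)) (IntermediateField.adjoin κ (Set.range wb))
        ⟨wb i, h0⟩ = ⟨wb i, h⟩ := rfl
    rw [h2] at h1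
    rw [h1]
    have h3 : hw.repr ⟨wb i, h0⟩ = MvPolynomial.X i := by
      have h4 : hw.aevalEquiv (MvPolynomial.X i) = ⟨wb i, h0⟩ := Subtype.ext (by
        have := hw.algebraMap_aevalEquiv (MvPolynomial.X i)
        rw [MvPolynomial.aeval_X] at this
        exact this)
      rw [← h4]
      exact hw.aevalEquiv.symm_apply_apply _
    show g0 (hw.repr ⟨wb i, h0⟩) = _
    rw [h3]
    simp [g0]
  · have h1 : (ε : A →+* F).comp χ = algebraMap (IntermediateField.adjoin κ (Set.range wb)) F := by
      apply IsLocalization.ringHom_ext (nonZeroDivisors (Algebra.adjoin κ (Set.range wb)))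
      apply RingHom.ext
      intro d
      show ε (χ (algebraMap _ _ d)) = _
      rw [hχ, hg]
      rfl
    intro c
    exact congrArg (fun f => f c) h1

end Pool.Agent.Lib.MP_16285c_agX
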