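import Pool.Agent.Lib.MP_16285c_agP.AllP
import Pool.Agent.Lib.MP_16285c_agB.AlgP
import Pool.Agent.Lib.MP_16285c_agB.AllG
import Pool.Agent.Lib.MP_16285c_agB.BoxAll
import Pool.Agent.Lib.MP_16285c_agB.BzY
import Pool.Agent.Lib.MP_16285c_agB.CmQ
import Pool.Agent.Lib.MP_16285c_agB.CoreB
import Pool.Agent.Lib.MP_16285c_agB.EQn
import Pool.Agent.Lib.MP_16285c_agB.FastB
import Pool.Agent.Lib.MP_16285c_agB.FekQ
import Pool.Agent.Lib.MP_16285c_agB.FinB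
import Pool.Agent.Lib.MP_16285c_agB.GrBP
import Pool.Agent.Lib.MP_16285c_agB.HH
import Pool.Agent.Lib.MP_16285c_agB.InJ
import Pool.Agent.Lib.MP_16285c_agB.IrK
import Pool.Agent.Lib.MP_16285c_agB.MxD
import Pool.Agent.Lib.MP_16285c_agB.PrG
import Pool.Agent.Lib.MP_16285c_agB.RcQ
import Pool.Agent.Lib.MP_16285c_agB.RtQ
import Pool.Agent.Lib.MP_16285c_agB.SbQ
import Pool.Agent.Lib.MP_16285c_agB.TayA
import Pool.Agent.Lib.MP_16285c_agB.TayB
import Pool.Agent.Lib.MP_16285c_agB.TayH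
import Pool.Agent.Lib.MP_16285c_agB.TayX
import Pool.Agent.Lib.MP_16285c_agB.TpQ
import Pool.Agent.Lib.MP_16285c_agB.VarB

/-!
# Varieties with `λ_r < λ_(n-1)` for `r ≤ n - 3` and `r = n`: the theorem (ZDB)
-/

set_option autoImplicit false

namespace Pool.Agent.Lib.MP_16285c_agX

open Pool.Agent.Lib.MP_16285c_ag Pool.Agent.Lib.MP_16285c_agN
open Pool.Agent.Lib.MP_16285c_agS (tUni tPresK tRkK tIrrK tPrimS tLowS tDom tInvD tNoPow tConj tDesc)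

/-! ## Degrees -/

theorem eBzY : StmtBzY := qBzY (qTayB qTayA qTayH qTayX) (tUzZ tNN (tXUpW tVd)) tVd

theorem eMxD : StmtMxD := qMxD eBzY zDg1n

theorem eSbQ : StmtSbQ := qSbQ eMxD zDg1n

theorem eEQn : StmtEQn := qEQn eMxD zDg1n

theorem eTpQ : StmtTpQ := qTpQ zDg1n

theorem eRcQ : StmtRcQ := qRcQ zSecP eEQn tHtP zDg1n

theorem eGrBP : StmtGrBP := qGrBP (qCmQ zDg1n zBZG) zCmpG zDg1n

/-! ## The initial jump -/

theorem eInJ : StmtInJ := qInJ zLowP qPrG eTpQ zDg1n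

theorem eFastB : StmtFastB := qFastB (qRtQ qFekQ) eRcQ eInJ zDg1n eSbQ eTpQ

/-! ## Assembly -/

theorem eCoreB : StmtCoreB :=
  qCoreB stmtResF tG1 tRk2 (tRk3 tRk2) aTan (tPresK tUni) tRkK (tIrrK aIrr) tPrimS tNrmX
    (tMoveX tUni) cTowX tLowS

/-- The theorem for the model. -/
theorem eModB : StmtModB :=
  qFinB eFastB eCoreB qHH qIrK bHSup aXHL qBoxAll aBoxX tDom (tPresX stmtJacQ) stmtResF tG1 tNoEX tNoPow
    tNoDescX tInvDX tInvD iLiftC2 iDesc cCanX tConj tDesc tBet tCmpB yFlF yGenS (tFlC tUni) zDg1n yTpG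
    qAlgP dEndB

/-- **Varieties of dimension `n ≥ 3` with `λ_r < λ_(n-1)` for `r ≤ n - 3` and `r = n`.** -/
theorem varB : StmtVarB :=
  qVarB eModB tPrimX (tAmbX tJacX tHcn) (tNoInvX tHcn) (tPtsX tHat) eGrBP

end Pool.Agent.Lib.MP_16285c_agX
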