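import Pool.Agent.Lib.MP_16285c_agP.SpecD
import Pool.Agent.Lib.MP_16285c_agX.BoxDefs

/-!
# Varieties with `λ_r < λ_{n-1}` for `r ≤ n - 3` and `r = n`: definitions and interface statements (ZDB, note 5071)

`E` is the function field of a variety of dimension `n` over `K`, `ξ = (z, x₁, …, x_n) : Fin (n + 1) → E` are coordinates (`Stp`), `ρ : E →ₐ[K] E` a dominant rational self-map. Heights are studied along backward orbits `x_{-1}, x_{-2}, …`; two-sided orbits are indexed by `ℤ`.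
-/

set_option autoImplicit false

namespace Pool.Agent.Lib.MP_16285c_agX

open Pool.Agent.Lib.MP_16285c_ag Pool.Agent.Lib.MP_16285c_agN
open Pool.Agent.Lib.MP_16285c_agS (toF vanK)

/-- The closedness property of a two-sided orbit. -/
def ClZ {k : Type} [Field k] {n : ℕ} (N p : ℕ) (x : ℤ → Fin n → k) : Prop :=
  ∀ (G : MvPolynomial (Fin n) k) (j : ℤ), MvPolynomial.eval (x j) G ≠ 0 →
    ∃ J : ℕ, ∀ s : ℕ, MvPolynomial.eval (x (j + ((N * p ^ J * s : ℕ) : ℤ))) G ≠ 0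

section

variable (K : Type) {E : Type} [Field K] [Field E] [Algebra K E]

/-- `…, z (-1), z 0, z 1, …` is a two-sided orbit of `ρ`. -/
def FlowZ {Ω : Type} [Field Ω] [Algebra K Ω] {n : ℕ} (ξ : Fin n → E) (ρ : E →ₐ[K] E)
    (z : ℤ → Fin n → Ω) : Prop :=
  ∀ s : ℕ, FlowX K ξ ρ (fun t : ℕ => z ((t : ℤ) - (s : ℤ)))

end

/-! ## The box -/

/-- (BoxZ) Two-sided orbits in the box on a hypersurface: `StmtBoxX` with two-sided orbits. -/
def StmtBoxZ : Prop :=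
  ∀ (k : Type) [Field k] [IsAlgClosed k] [CharZero k] (n : ℕ) (P : Pl (n + 1) k) (f : RM k (n + 1)), Irreducible P →
    MonZ P → InvX f P → ∀ B : Pl (n + 1) k, ¬ P ∣ B → ∀ p₀ : ℕ,
    ∃ (V : ValuationSubring k) (p : ℕ) (a : Fin (n + 1) → IsLocalRing.ResidueField V) (N : ℕ),
      p.Prime ∧ p₀ < p ∧ CharP (IsLocalRing.ResidueField V) p ∧ 1 ≤ N ∧
      (∃ r : ℕ, 1 ≤ r ∧ ∀ i, a i ^ (p ^ r) = a i) ∧
      (∀ t : Fin n → k, (∀ i : Fin n, Lies V (t i) (a i.succ)) →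
        ∃ z₀ : k, Lies V z₀ (a 0) ∧ MvPolynomial.eval (Fin.cons z₀ t : Fin (n + 1) → k) P = 0) ∧
      ∀ x₀ : Fin (n + 1) → k, (∀ i, Lies V (x₀ i) (a i)) → MvPolynomial.eval x₀ P = 0 →
        ∃ x : ℤ → Fin (n + 1) → k, x 0 = x₀ ∧ (∀ j : ℤ, f.Next (x j) (x (j + 1))) ∧
          (∀ j, MvPolynomial.eval (x j) P = 0 ∧ MvPolynomial.eval (x j) B ≠ 0) ∧ ClZ N p x

/-! ## The core -/

/-- (CoreB) `StmtCoreA` (`T3/SpecD.lean`, `T3/CoreA.lean`) with one more conclusion: the residue degree on the closure of the orbit is full. -/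
def StmtCoreB : Prop :=
  ∀ (K : Type) [Field K] [CharZero K] (n : ℕ) (P : Pl (n + 1) K) (f : RM K (n + 1))
    (σ : RF (n + 1) K →ₐ[K] RF (n + 1) K) (M : ℕ), 1 ≤ n →
    Irreducible P → MonZ P → Of f σ → Pres σ (Ideal.span {P}) → 1 ≤ M →
    ∀ (E : Type) [Field E] [Algebra (CR (Ideal.span {P})) E] [IsFractionRing (CR (Ideal.span {P})) E]
      [Algebra K E] [IsScalarTower K (CR (Ideal.span {P})) E] (ρ : E →ₐ[K] E),
      Rst (σ ^ M) (Ideal.span {P}) E ρ → (∃ h : E, ρ h ≠ h) → ∀ e : Pl (n + 1) K, ¬ P ∣ e →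
      NoFullD P e (σ ^ M) (Module.finrank ρ.fieldRange E) →
    ∃ (H : Polynomial (Pl n K)) (G : Pl n K), H.Monic ∧
      Irreducible (H.map (algebraMap (Pl n K) (RF n K))) ∧ G ≠ 0 ∧
      ∀ t : Fin n → K, Irreducible (H.map (MvPolynomial.eval t)) → MvPolynomial.eval t G ≠ 0 →
        Irreducible ((MvPolynomial.finSuccEquiv K n P).map (MvPolynomial.eval t)) ∧
        ∀ (K' : Type) [Field K'] [Algebra K K'] [Algebra.IsAlgebraic K K'] (z₀ : K'),
          IntermediateField.adjoin K {z₀} = ⊤ →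
          Irreducible (MvPolynomial.map (algebraMap K K') P) →
          ∀ (y : ℕ → Fin (n + 1) → K') (N N' p p' : ℕ), y 0 = pt t z₀ →
          (f.map (algebraMap K K')).Orb y →
          (∀ m, MvPolynomial.aeval (y m) P = 0 ∧ MvPolynomial.aeval (y m) (jac f) ≠ 0) →
          p.Prime → p'.Prime → p ≠ p' → N * N' = M → Pool.Agent.ZDO.ClN N p y →
          Pool.Agent.ZDO.ClN N' p' y →
          van y M ≤ Ideal.span {MvPolynomial.map (algebraMap K K') P} ∨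
            ((vanK K y M).IsPrime ∧ P ∈ vanK K y M ∧ e ∉ vanK K y M ∧ 1 ≤ rk (vanK K y M) ∧
              rk (vanK K y M) + 2 ≤ n ∧ Pres (σ ^ M) (vanK K y M) ∧
              ∀ (L : Type) [Field L] [Algebra (CR (vanK K y M)) L] [IsFractionRing (CR (vanK K y M)) L]
                [Algebra K L] [IsScalarTower K (CR (vanK K y M)) L] (ρb : L →ₐ[K] L),
                Rst (σ ^ M) (vanK K y M) L ρb →
                Module.finrank ρ.fieldRange E ≤ Module.finrank ρb.fieldRange L)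

/-- (HH) Hilbert irreducibility for two polynomials by one. -/
def StmtHH : Prop :=
  ∀ (K : Type) [Field K] [CharZero K] (n : ℕ) (F₁ F₂ : Polynomial (Pl n K)), F₁.Monic → F₂.Monic →
    Irreducible (F₁.map (algebraMap (Pl n K) (RF n K))) → Irreducible (F₂.map (algebraMap (Pl n K) (RF n K))) →
    ∃ (F : Polynomial (Pl n K)) (G : Pl n K), F.Monic ∧ Irreducible (F.map (algebraMap (Pl n K) (RF n K))) ∧
      G ≠ 0 ∧ ∀ t : Fin n → K, Irreducible (F.map (MvPolynomial.eval t)) → MvPolynomial.eval t G ≠ 0 →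
        Irreducible (F₁.map (MvPolynomial.eval t)) ∧ Irreducible (F₂.map (MvPolynomial.eval t))

/-! ## Degrees -/

/-- (MxD) Mixed degrees (proof in `SpecA.lean`). -/
def StmtMxD : Prop :=
  ∀ (K E : Type) [Field K] [CharZero K] [Field E] [Algebra K E] (n c p : ℕ) (ξ : Fin (n + 1) → E), Stp K ξ →
    c + p = n → ∀ (ρ : E →ₐ[K] E) (m N : ℕ) (w : Fin p → E),
    (∀ A : Fin c → Fin n → K, Module.finrank (IntermediateField.adjoin K
      (Set.range (lc A fun i : Fin n => ξ i.succ) ∪ Set.range w)) E ≤ N) →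
    ∀ A : Fin c → Fin n → K, Module.finrank (IntermediateField.adjoin K
      (Set.range (lc A fun i : Fin n => ξ i.succ) ∪ Set.range fun i => (ρ ^ m) (w i))) E ≤
      (n + 1) ^ n * dgx K c p (fun i : Fin n => ξ i.succ) (fun i : Fin n => (ρ ^ m) (ξ i.succ)) * N

/-! ## The initial jump -/

/-- (IrK) Equations stay irreducible over larger fields. PROOF. `ker (aeval (β ∘ ξ')) = span {map P'}`: let `G(β ξ') = 0`, `G = ∑ t, C (b t) * map (G t)` with `b` linearly independent over `K` (expand the coefficients); `∑ t, b t * β (G t (ξ')) = 0`, so `G t (ξ') = 0`, `P' ∣ G t`. So `map P'` generates a prime ideal, `map P' ≠ 0`: it is prime, so irreducible. -/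
def StmtIrK : Prop :=
  ∀ (K k : Type) [Field K] [Field k] [Algebra K k] (E E' : Type) [Field E] [Field E'] [Algebra K E]
    [Algebra k E'] [Algebra K E'] [IsScalarTower K k E'] (β : E →ₐ[K] E'),
    (∀ (s : ℕ) (b : Fin s → k), LinearIndependent K b → ∀ h : Fin s → E,
      ∑ t, algebraMap k E' (b t) * β (h t) = 0 → ∀ t, h t = 0) →
    ∀ (n : ℕ) (P' : Pl (n + 1) K) (ξ' : Fin (n + 1) → E), Irreducible P' → GenN P' ξ' →
      Irreducible (MvPolynomial.map (algebraMap K k) P')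

/-- (InJ) The initial jump: lower bound for the height of a point `z 0` whose image `z m` lies over a rational point of a line. -/
def StmtInJ : Prop :=
  ∀ (K E : Type) [Field K] [CharZero K] [Field E] [Algebra K E] (n : ℕ) (P : Pl (n + 2) K)
    (ξ : Fin (n + 2) → E) (ρ : E →ₐ[K] E) (m : ℕ), Irreducible P → MonZ P → GenN P ξ →
    ∃ (P' B : Pl (n + 2) K) (B' : Pl (n + 1) K) (ξ' : Fin (n + 2) → E), Irreducible P' ∧ MonZ P' ∧
      GenN P' ξ' ∧ MvPolynomial.aeval ξ B ≠ 0 ∧ B' ≠ 0 ∧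
      ∀ (K₁ Ω : Type) [Field K₁] [CharZero K₁] [Field Ω] [IsAlgClosed Ω]
      [Algebra K K₁] [Algebra K Ω] [Algebra K₁ Ω] [IsScalarTower K K₁ Ω] (h : HtF Ω),
      (∀ (F : Type) [Field F] [Algebra K₁ F] (ι ι' : F →ₐ[K₁] Ω) (m : Type) [Finite m] (a : m → F),
        h.H (fun j => ι (a j)) = h.H (fun j => ι' (a j))) →
      ∀ c : Fin (n + 1) → K₁, MvPolynomial.aeval c B' ≠ 0 → ∃ R : Pl (n + 1) K₁, R ≠ 0 ∧
        ∀ w : Fin (n + 1) → K₁, MvPolynomial.eval w R ≠ 0 → ∃ C : ℝ, ∀ (s : K₁) (z : ℕ → Fin (n + 2) → Ω),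
          Irreducible ((MvPolynomial.finSuccEquiv K₁ (n + 1) (MvPolynomial.map (algebraMap K K₁) P')).map
            (MvPolynomial.eval (lptN c w s))) → MvPolynomial.aeval (lptN c w s) B' ≠ 0 →
          FlowX K ξ ρ z → (∀ i : Fin (n + 1), z m i.succ = algebraMap K₁ Ω (lptN c w s i)) →
          MvPolynomial.aeval (z 0) B ≠ 0 →
          (dgx K 1 n (fun i : Fin (n + 1) => ξ i.succ) (fun i : Fin (n + 1) => (ρ ^ m) (ξ i.succ)) : ℝ) *
              h.H ![1, algebraMap K₁ Ω s] ≤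
              (Module.finrank (IntermediateField.adjoin K (Set.range fun i : Fin (n + 1) => ξ i.succ)) E *
                Module.finrank ρ.fieldRange E ^ m : ℕ) * hx h (z 0) + C ∧
            hx h (z m) ≤ h.H ![1, algebraMap K₁ Ω s] + C

/-! ## The end -/

/-- (EndB) Backward orbits on `Z` are slow: the growth of the heights along the backward orbit contradicts the degrees. -/
def StmtEndB : Prop :=
  ∀ (K : Type) [Field K] [CharZero K] (n : ℕ) (P : Pl (n + 1) K) (𝔭 : Ideal (Pl (n + 1) K))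
    [(Ideal.span {P}).IsPrime] [𝔭.IsPrime] (σ : RF (n + 1) K →ₐ[K] RF (n + 1) K)
    (E : Type) [Field E] [Algebra (CR (Ideal.span {P})) E] [IsFractionRing (CR (Ideal.span {P})) E] [Algebra K E]
      [IsScalarTower K (CR (Ideal.span {P})) E] (ρ : E →ₐ[K] E), Rst σ (Ideal.span {P}) E ρ → MonZ P → P ∈ 𝔭 →
    MvPolynomial.pderiv 0 P ∉ 𝔭 → 1 ≤ rk 𝔭 → rk 𝔭 + 2 ≤ n →
    ∀ (L : Type) [Field L] [Algebra (CR 𝔭) L] [IsFractionRing (CR 𝔭) L] [Algebra K L] [IsScalarTower K (CR 𝔭) L]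
      (ρb : L →ₐ[K] L) (M : ℕ), 1 ≤ M → Rst (σ ^ M) 𝔭 L ρb →
    ∀ (Ω : Type) [Field Ω] [Algebra K Ω] (h : HtF Ω) (z : ℤ → Fin (n + 1) → Ω),
      FlowZ K (fun i => toF 𝔭 L (MvPolynomial.X i)) ρb (fun t => z ((M : ℤ) * t)) →
      (∀ G : Pl (n + 1) K, (∀ t : ℕ, MvPolynomial.aeval (z ((M : ℤ) * (t : ℤ))) G = 0) → G ∈ 𝔭) →
    ∀ (Λ b : ℝ) (m T : ℕ),
      (∀ p, p + 3 ≤ n → ∃ C : ℝ, ∀ (N' : ℕ) (A : Fin (n - p) → Fin n → K) (B : Fin p → Fin n → K),
        (Module.finrank (IntermediateField.adjoin K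
          (Set.range (lc A fun l : Fin n => toF (Ideal.span {P}) E (MvPolynomial.X l.succ)) ∪
            Set.range (lc B fun l : Fin n => (ρ ^ N') (toF (Ideal.span {P}) E (MvPolynomial.X l.succ))))) E : ℝ) ≤
          C * Λ ^ N') →
      1 ≤ T → (T : ℝ) ≤ Λ → T ^ M ≤ Module.finrank ρb.fieldRange L → 1 ≤ m →
      (Λ / T) ^ m < b / 2 → 0 < hx h (z (-(m : ℤ))) →
      (∀ j : ℕ, 1 ≤ j → b / 2 * hx h (z (-((m * j : ℕ) : ℤ))) ≤ hx h (z (-((m * (j + 1) : ℕ) : ℤ)))) → False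

/-! ## Fast backward orbits -/

/-- (FastB) Fast backward orbits (proof in `SpecD.lean`). -/
def StmtFastB : Prop :=
  ∀ (K E : Type) [Field K] [CharZero K] [Field E] [Algebra K E] (n : ℕ) (P : Pl (n + 4) K)
    (ξ : Fin (n + 4) → E) (ρ : E →ₐ[K] E), Irreducible P → MonZ P → GenN P ξ → ∀ Λ : ℝ,
    (Module.finrank ρ.fieldRange E : ℝ) ≤ Λ →
    (∃ C₃ : ℝ, ∀ m : ℕ, (dgx K 3 n (fun i : Fin (n + 3) => ξ i.succ)
      (fun i : Fin (n + 3) => (ρ ^ m) (ξ i.succ)) : ℝ) ≤ C₃ * Λ ^ m) →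
    ENNReal.ofReal Λ < Filter.limsup (fun m : ℕ =>
      (dgx K 1 (n + 2) (fun i : Fin (n + 3) => ξ i.succ)
        (fun i : Fin (n + 3) => (ρ ^ m) (ξ i.succ)) : ENNReal) ^ ((m : ℝ)⁻¹)) Filter.atTop →
    ∃ (m : ℕ) (b : ℝ) (B P' : Pl (n + 4) K) (B' : Pl (n + 3) K) (ξ' : Fin (n + 4) → E), 1 ≤ m ∧ 2 ≤ b ∧
      (Λ / Module.finrank ρ.fieldRange E) ^ m < b / 2 ∧ ¬ P ∣ B ∧ B' ≠ 0 ∧ Irreducible P' ∧ MonZ P' ∧
      GenN P' ξ' ∧
      ∀ (K₁ Ω : Type) [Field K₁] [CharZero K₁] [Field Ω] [IsAlgClosed Ω]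
      [Algebra K K₁] [Algebra K Ω] [Algebra K₁ Ω] [IsScalarTower K K₁ Ω] (h : HtF Ω),
      (∀ (F : Type) [Field F] [Algebra K₁ F] (ι ι' : F →ₐ[K₁] Ω) (m : Type) [Finite m] (a : m → F),
        h.H (fun j => ι (a j)) = h.H (fun j => ι' (a j))) →
      ∀ c : Fin (n + 3) → K₁, MvPolynomial.aeval c B' ≠ 0 → ∃ R : Pl (n + 3) K₁, R ≠ 0 ∧
        ∀ w : Fin (n + 3) → K₁, MvPolynomial.eval w R ≠ 0 → ∃ H₀ : ℝ, ∀ s : K₁,
          H₀ < h.H ![1, algebraMap K₁ Ω s] →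
          Irreducible ((MvPolynomial.finSuccEquiv K₁ (n + 3)
            (MvPolynomial.map (algebraMap K K₁) P')).map (MvPolynomial.eval (lptN c w s))) →
          ∀ z : ℤ → Fin (n + 4) → Ω, FlowZ K ξ ρ z →
          (∀ i : Fin (n + 3), z 0 i.succ = algebraMap K₁ Ω (lptN c w s i)) →
          (∀ t, MvPolynomial.aeval (z t) B ≠ 0) →
          0 < hx h (z (-(m : ℤ))) ∧ ∀ j : ℕ, 1 ≤ j →
            b / 2 * hx h (z (-((m * j : ℕ) : ℤ))) ≤ hx h (z (-((m * (j + 1) : ℕ) : ℤ)))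

end Pool.Agent.Lib.MP_16285c_agX
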