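import Pool.Agent.Lib.MP_16285c_agB.Defs

/-!
# Inverse images are algebraic (ZDB part F, used in FinB)

Every lemma is a `Prop` with its complete proof in the docstring; used statements are hypotheses: file `agB/Y.lean`, `theorem qY : StmtY`, namespace `Pool.Agent.Lib.MP_16285c_agX`, auxiliary lemmas in the namespace `Pool.Agent.Lib.MP_16285c_agX.QYM`.
-/

set_option autoImplicit false

namespace Pool.Agent.Lib.MP_16285c_agX

open Pool.Agent.Lib.MP_16285c_ag Pool.Agent.Lib.MP_16285c_agN

/-- (AlgP) The points of a fibre where the Jacobian determinant is not zero are algebraic. PROOF. `L = IntermediateField.adjoin F (Set.range y)`, finitely generated over `F`, so `Algebra.EssFiniteType F L`. Let `d : L → Ω[L⁄F]` be the universal derivation (`KaehlerDifferential.D F L`), `y' i ∈ L` the generators. For every polynomial `G` over `F`: `d (G(y')) = ∑ l, (∂_l G)(y') • d (y' l)` (`MvPolynomial.induction_on`; or `Derivation.leibniz`-type, `MvPolynomial.mkDerivation`-uniqueness).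
`f.Next y x` says `den i (y) ≠ 0`, `x i * den i (y) = num i (y)`, `x i ∈ F`. Apply `d`: `∑ l, ((∂_l num i)(y') - x i * (∂_l den i)(y')) • d (y' l) = 0`; multiply by `den i (y')`: `∑ l, ((den i * ∂_l num i - num i * ∂_l den i)(y')) • d (y' l) = 0`, and `den i * ∂_l num i - num i * ∂_l den i` are the entries `Wd f i l` of the matrix with the determinant `jac f` (`Pool.Agent.ZDO.Jc`, `Wd`; `jac f` is `Jc f`: see `agX/Box/BoxB.lean`).
The determinant is not `0` at `y'`, so all `d (y' l) = 0` (multiply by the adjugate matrix). So `d` vanishes on `L` (on `F`, on the `y' l`, so on the subfield generated by them: the kernel of `d` is a subfield), `Ω[L⁄F]` is generated by the image of `d` (`KaehlerDifferential.span_range_derivation`), so it is `0`: `Algebra.FormallyUnramified F L`, so `L` is separable over `F` (`Algebra.FormallyUnramified.iff_isSeparable` or `…isSeparable`), so algebraic. -/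
def StmtAlgP : Prop :=
  ∀ (F k : Type) [Field F] [Field k] [Algebra F k] (n : ℕ) (f : RM F n) (y : Fin n → k) (x : Fin n → F),
    (f.map (algebraMap F k)).Next y (fun i => algebraMap F k (x i)) → MvPolynomial.aeval y (jac f) ≠ 0 →
    ∀ i, IsAlgebraic F (y i)

end Pool.Agent.Lib.MP_16285c_agX
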