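import Pool.Agent.Lib.MP_16285c_agB.Defs

/-!
# Bezout on a subvariety, mixed degrees, the recursion at all levels (ZDB part A, note 5071, points (1) - (3))

Definitions: `agX/T3/Defs.lean` (`Stp`, `dgx`, `Tu`, `FlowX`, `hx`, `VlX`), `agP/Defs.lean` (`SctP`, `StmtHtP`, `StmtDg1n`), `agN/Degr/Spec.lean` (`Vd`, `cnt`), `agN/T3/SpecA.lean` (`lc`), `agB/Defs.lean`; `agP/SpecZ.lean` (`StmtUzZ`); `agP/SpecA.lean` (`StmtSecP`, `StmtCntC`). (`agX` = the folder `Lib/MP_16285c_agX`, and so on.)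
`x i = ξ i.succ`, `d_p m = dgx K (n - p) p x (ρ ^ m ∘ x)`. `Module.finrank` is `0` if the degree is infinite.

Every lemma is a `Prop` with its complete proof in the docstring; used statements are hypotheses: file `agB/Y.lean`, `theorem qY : StmtY` or `theorem qY : StmtW → StmtY`, namespace `Pool.Agent.Lib.MP_16285c_agX`, auxiliary lemmas in the namespace `Pool.Agent.Lib.MP_16285c_agX.QYM`.
-/

set_option autoImplicit false

namespace Pool.Agent.Lib.MP_16285c_agX

open Pool.Agent.Lib.MP_16285c_ag Pool.Agent.Lib.MP_16285c_agN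

/-! ## Bezout on a subvariety -/

/-- (TayA) Truncated polynomials. PROOF. `A = MvPolynomial (Fin n) F ⧸ I ^ (J + 1)`, `I = Ideal.span (Set.range MvPolynomial.X)`, `ε` induced by `MvPolynomial.constantCoeff` (or `aeval 0`: it kills `I`), `t i` = the class of `X i`; the kernel of `ε` is the image of `I` (`G - C (constantCoeff G) ∈ I`), so nilpotent. Last part: lift `c α` to `C α : MvPolynomial (Fin n) F`, `∑ α ∈ S, C α * monomial α 1 ∈ I ^ (J + 1)`:
all coefficients of exponents of degree `≤ J` are `0` (`MvPolynomial.mem_pow_idealOfVars_iff`-type lemma, or: the polynomials all of whose exponents in the support have degree `≥ r` form an ideal `I_r`, `I ≤ I_1`, `I_r * I_s ≤ I_(r+s)`). The coefficient of the exponent `α` (of minimal degree in `S`): only `α' ∈ S` with `α' ≤ α` contribute, they have degree `≥` the degree of `α`, so `α' = α`: it is `constantCoeff (C α) = ε (c α)`. -/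
def StmtTayA : Prop :=
  ∀ (F : Type) [Field F] (n J : ℕ), ∃ (A : Type) (_ : CommRing A) (_ : Algebra F A) (ε : A →ₐ[F] F)
    (t : Fin n → A), IsNilpotent (RingHom.ker ε) ∧ (∀ i, ε (t i) = 0) ∧
    ∀ (S : Finset (Fin n → ℕ)) (c : (Fin n → ℕ) → A), (∀ α ∈ S, ∑ i, α i ≤ J) →
      ∑ α ∈ S, c α * ∏ i, t i ^ α i = 0 →
      ∀ α ∈ S, (∀ α' ∈ S, ∑ i, α i ≤ ∑ i, α' i) → ε (c α) = 0

/-- (TayH) The Taylor homomorphism. PROOF. `A` is a `K`-algebra through `F`. `K[x] → A`, `x i ↦ a i` (`AlgebraicIndependent.aevalEquiv`, `MvPolynomial.aeval a`); for `G ≠ 0` the element `aeval a G` is a unit: `ε (aeval a G) = σ (aeval x G) ≠ 0` and `ker ε` is nilpotent (an element `u` with `ε u ≠ 0`: `u * algebraMap F A (ε u)⁻¹ - 1 ∈ ker ε` is nilpotent, `IsNilpotent.isUnit_add_one`-type). `κ₀ = adjoin K (range x)` is the field of fractions of `K[x]`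
(`AlgebraicIndependent.aevalEquivField`, or `IsFractionRing`), so there is `φ₀ : κ₀ →+* A` with `φ₀ (x i) = a i`, over `K`, `ε ∘ φ₀ = σ` on `κ₀`. `A` becomes a `κ₀`-algebra by `φ₀` and `F` by `σ` (`RingHom.toAlgebra`), `ε` is `κ₀`-linear, surjective (`ε (algebraMap F A c) = c`). `E` is algebraic and separable (characteristic `0`) over `κ₀`, so formally etale, formally smooth
(`Algebra.FormallyEtale.of_isSeparable`-type instance in `Mathlib/RingTheory/Etale/Field.lean`): `Algebra.FormallySmooth.liftOfSurjective` for `σ : E → F` and `ε : A → F`. -/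
def StmtTayH : Prop :=
  ∀ (K E F A : Type) [Field K] [CharZero K] [Field E] [Field F] [CommRing A] [Algebra K E] [Algebra K F]
    [Algebra F A] [Algebra K A] [IsScalarTower K F A] (n : ℕ) (x : Fin n → E), AlgebraicIndependent K x →
    Module.Finite (IntermediateField.adjoin K (Set.range x)) E → ∀ (σ : E →ₐ[K] F) (ε : A →ₐ[F] F),
    IsNilpotent (RingHom.ker ε) → ∀ a : Fin n → A, (∀ i, ε (a i) = σ (x i)) →
    ∃ Φ : E →ₐ[K] A, (∀ i, Φ (x i) = a i) ∧ ∀ h, ε (Φ h) = σ h

/-- (TayX) The homomorphism `χ`. PROOF. As the first half of `StmtTayH`: `κ[wb] → A`, `wb i ↦ b i`, over `κ`; nonzero elements go to units (`ε` of it is the element itself, not `0`), `adjoin κ (range wb)` is the field of fractions of `κ[wb]`. `ε (χ c) = c`: two homomorphisms of the field `κ(wb)` which agree on `κ` and the `wb i`. -/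
def StmtTayX : Prop :=
  ∀ (K F A : Type) [Field K] [Field F] [CommRing A] [Algebra K F] [Algebra F A] (κ : IntermediateField K F)
    (p : ℕ) (wb : Fin p → F), AlgebraicIndependent κ wb → ∀ ε : A →ₐ[F] F, IsNilpotent (RingHom.ker ε) →
    ∀ b : Fin p → A, (∀ i, ε (b i) = wb i) → ∃ χ : IntermediateField.adjoin κ (Set.range wb) →+* A,
      (∀ c : κ, χ (algebraMap κ (IntermediateField.adjoin κ (Set.range wb)) c) = algebraMap F A (c : F)) ∧
      (∀ (i : Fin p) (h : wb i ∈ IntermediateField.adjoin κ (Set.range wb)), χ ⟨wb i, h⟩ = b i) ∧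
      ∀ c, ε (χ c) = (c : F)

/-- (TayB) The dimension count. PROOF (uses `StmtTayA`, `StmtTayH`, `StmtTayX`). `A, ε, t` from `StmtTayA` for `F, n, J`; `Φ` from `StmtTayH` for `a i = algebraMap F A (σ (x i)) + t i`; `χ` from `StmtTayX` for `wb = σ ∘ w`, `b i = Φ (w i)`. `κ' = adjoin κ (range (σ ∘ w))`; `A` is a `κ'`-module by `χ` (`Module.compHom A χ`). (i) The elements `algebraMap F A (h k) * ∏ t ^ α`, `k < s`, `∑ α ≤ J`, are linearly independent over `κ'`:
let `∑ χ (a (k, α)) * algebraMap F A (h k) * ∏ t ^ α = 0`, not all `a` zero; `S` = the set of the `α` such that some `a (k, α) ≠ 0`, `α ∈ S` of minimal degree; `StmtTayA` with `c α = ∑ k, χ (a (k, α)) * algebraMap F A (h k)`: `0 = ε (c α) = ∑ k, a (k, α) * h k`, so `a (k, α) = 0` for all `k`: a contradiction. Their number is `s * cnt n J`. (ii) `t i = Φ (x i) - algebraMap F A (σ (x i))`, so `algebraMap F A (h k) * ∏ t ^ α` is a sum with integer coefficients of products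
`algebraMap F A (h k * ∏ (σ (x i)) ^ β i) * Φ (∏ x i ^ γ i)`, `∑ β, ∑ γ ≤ J` (induction on `∑ α`). (iii) Let `u_a` be a basis of `U` over `κ`, `v_b` a basis of `V` over `κ'' = adjoin K (range w)`. For `u = ∑ c_a u_a ∈ U`, `v = ∑ d_b v_b ∈ V`: `algebraMap F A u * Φ v = ∑ χ (c_a) * Φ (d_b) * (algebraMap F A u_a * Φ v_b)`, and `Φ (d_b) = χ (σ d_b)` (`σ d_b ∈ κ'`; the ring homomorphisms `Φ` and `χ ∘ σ` on `κ''` agree on `K` and on the `w i`:
the set of elements where they agree is a subfield: inverses, since values at nonzero elements are units). So all the elements of (i) are in the `κ'`-span of the `u v` elements `algebraMap F A u_a * Φ v_b`: `LinearIndependent.fintype_card_le_finrank` / `linearIndependent_le_span_finset`-type. -/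
def StmtTayB : Prop :=
  ∀ (K E F : Type) [Field K] [CharZero K] [Field E] [Field F] [Algebra K E] [Algebra K F]
    (κ : IntermediateField K F) (n p s J : ℕ) (x : Fin n → E) (σ : E →ₐ[K] F) (w : Fin p → E) (h : Fin s → F),
    AlgebraicIndependent K x → Module.Finite (IntermediateField.adjoin K (Set.range x)) E →
    AlgebraicIndependent κ (fun i => σ (w i)) →
    LinearIndependent (IntermediateField.adjoin κ (Set.range fun i => σ (w i))) h →
    ∀ U : Submodule κ F, Module.Finite κ U →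
    (∀ (k : Fin s) (β : Fin n → ℕ), ∑ i, β i ≤ J → h k * ∏ i, σ (x i) ^ β i ∈ U) →
    ∀ V : Submodule (IntermediateField.adjoin K (Set.range w)) E,
    Module.Finite (IntermediateField.adjoin K (Set.range w)) V →
    (∀ γ : Fin n → ℕ, ∑ i, γ i ≤ J → ∏ i, x i ^ γ i ∈ V) →
    s * cnt n J ≤ Module.finrank κ U * Module.finrank (IntermediateField.adjoin K (Set.range w)) V

/-- (BzY) Bezout on a subvariety. PROOF (uses `StmtTayB`, `StmtUzZ`, `StmtVd` (1), `StmtCntC` (1)). `κ' = adjoin κ (range (σ ∘ w))`; if `[F : κ'] = 0` there is nothing to show. Otherwise `h : Fin s → F` a basis, `s = [F : κ']`. `W₀ = span κ (range h)`, `U J = W₀ * Vd κ (σ ∘ x) J`; `StmtUzZ` for `K, κ, F`, `c = p`, `y = σ ∘ x`, `e = D`: `C₁` with `finrank κ (U J) ≤ D * cnt p (J + C₁)`.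
`κ'' = adjoin K (range w)`, `w` is algebraically independent over `K` (`σ` is injective and `σ ∘ w` is algebraically independent over `κ ⊇ K`), so `trdeg κ'' E = n - p` (`trdeg K E = n`: `Algebra.trdeg_add_eq`, `StmtFtZ` (1) of `agP/SpecZ.lean`; `p ≤ n`); `E` is finite over `κ''(x)`. `V J = Vd κ'' x J`; `StmtUzZ` for `K, κ'', E`, `c = n - p`, `y = x`, `W₀ = 1`, `e = N`
(`κ''(lc A x) = adjoin K (range w ∪ range (lc A x))`: `IntermediateField.adjoin_adjoin_left`): `finrank (V J) ≤ N * cnt (n - p) (J + C₂)`. `C = C₁ + C₂`, `J = n * C`. `StmtTayB`: `s * cnt n (n C) ≤ D N * cnt p (n C + C) * cnt (n - p) (n C + C)`. `cnt n (n C) ≥ (C + 1) ^ n` (all exponents `≤ C`), `cnt q a ≤ (a + 1) ^ q` (exponents `≤ a`), `n C + C + 1 ≤ (n + 1) (C + 1)`: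
`s (C + 1) ^ n ≤ D N ((n + 1) (C + 1)) ^ n`. Hypotheses: `StmtTayB → StmtUzZ → StmtVd → StmtBzY` (add `StmtCntC`, `StmtFtZ` if used, in this order, at the end). -/
def StmtBzY : Prop :=
  ∀ (K E F : Type) [Field K] [CharZero K] [Field E] [Field F] [Algebra K E] [Algebra K F]
    (κ : IntermediateField K F) (n p : ℕ) (x : Fin n → E) (σ : E →ₐ[K] F) (w : Fin p → E) (D N : ℕ),
    AlgebraicIndependent K x → Module.Finite (IntermediateField.adjoin K (Set.range x)) E → p ≤ n →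
    Module.Finite (IntermediateField.adjoin κ (Set.range fun i => σ (x i))) F → Algebra.trdeg κ F = p →
    AlgebraicIndependent κ (fun i => σ (w i)) →
    (∀ A : Fin p → Fin n → K,
      Module.finrank (IntermediateField.adjoin κ (Set.range (lc A fun i => σ (x i)))) F ≤ D) →
    (∀ A : Fin (n - p) → Fin n → K,
      Module.finrank (IntermediateField.adjoin K (Set.range w ∪ Set.range (lc A x))) E ≤ N) →
    Module.finrank (IntermediateField.adjoin κ (Set.range fun i => σ (w i))) F ≤ (n + 1) ^ n * D * N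

/-! ## Mixed degrees -/

/-- (MxD) PROOF of `StmtMxD` (`Defs.lean`) (uses `StmtBzY`, `StmtDg1n`, `StmtStpF`). `κ = adjoin K (range (lc A x))`, `F = E`, `σ = ρ ^ m`; the field in question is `κ(ρ ^ m ∘ w)` (`IntermediateField.adjoin_adjoin_left`). If `E` is not finite over it there is nothing to show. Otherwise the `c + p = n` elements `lc A x`, `ρ ^ m ∘ w` are algebraically independent over `K` (`trdeg K E = n`), so `ρ ^ m ∘ w` is algebraically independent over `κ`, and `trdeg κ E = p`.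
`E` is finite over `κ(ρ ^ m ∘ x)` (`E` is algebraic over `K(ρ ^ m x)`: `n = trdeg K E` algebraically independent elements, and finitely generated). `D = dgx K c p x (ρ ^ m ∘ x)` (`StmtDg1n` (1)). `n - p = c` (`subst`; the last hypothesis of `StmtBzY` for `Fin (n - p)` from the one for `Fin c` by `c = n - p`). `StmtBzY`. -/
def StmtMxD' : Prop := StmtBzY → StmtDg1n → StmtMxD

/-- (SbQ) Submultiplicativity. PROOF (uses `StmtMxD`, `StmtDg1n`). `A, B` with `[E : K(lc A x, lc B (ρ ^ (a + b) x))] = dgx` (`StmtDg1n` (2)). `w = lc B (ρ ^ b ∘ x)`, `(ρ ^ a) (w i) = lc B (ρ ^ (a + b) ∘ x) i` (`pow_add`), `N = dgx K c p x (ρ ^ b ∘ x)` (`StmtDg1n` (1)). -/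
def StmtSbQ : Prop :=
  ∀ (K E : Type) [Field K] [CharZero K] [Field E] [Algebra K E] (n c p : ℕ) (ξ : Fin (n + 1) → E), Stp K ξ →
    c + p = n → ∀ (ρ : E →ₐ[K] E) (a b : ℕ),
    dgx K c p (fun i : Fin n => ξ i.succ) (fun i : Fin n => (ρ ^ (a + b)) (ξ i.succ)) ≤
      (n + 1) ^ n * dgx K c p (fun i : Fin n => ξ i.succ) (fun i : Fin n => (ρ ^ a) (ξ i.succ)) *
        dgx K c p (fun i : Fin n => ξ i.succ) (fun i : Fin n => (ρ ^ b) (ξ i.succ))

/-- (EQn) Degrees with `T`. PROOF (uses `StmtMxD`, `StmtDg1n`). `T = Tu K u (ρ ^ m ∘ x) = (ρ ^ m) (Tu K u x)`, `lc B (ρ ^ (2 m) ∘ x) i = (ρ ^ m) (lc B (ρ ^ m ∘ x) i)`; `K(Tu K u x, …) = K(l, …)` for the linear form `l = ∑ j, u ^ (j + 1) * x j` (`Tu K u x = 1 + l`). (1) `StmtMxD` for `c = a`, `p = b + 2`, `w = Fin.cons (Tu K u x) (lc B (ρ ^ m ∘ x))`, `B : Fin (b + 1)`: the degree over `K(lc A' x, w)`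
(`a + 1` forms of `x`, `b + 1` forms of `ρ ^ m x`) is `≤ dgx K (a + 1) (b + 1) x (ρ ^ m x)` (`StmtDg1n` (1)). (2) `c = a + 1`, `p = b + 1`, `w = Fin.cons (Tu K u x) (lc B (ρ ^ m ∘ x))`, `B : Fin b`: `a + 2` forms of `x` and `b` forms of `ρ ^ m x`. The set of generators is the same set in another order. -/
def StmtEQn : Prop :=
  ∀ (K E : Type) [Field K] [CharZero K] [Field E] [Algebra K E] (N a b : ℕ) (ξ : Fin (N + 1) → E), Stp K ξ →
    a + b + 2 = N → ∀ (ρ : E →ₐ[K] E) (m : ℕ) (u : K),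
    (∀ (A : Fin a → Fin N → K) (B : Fin (b + 1) → Fin N → K),
      Module.finrank (IntermediateField.adjoin K
        (insert (Tu K u (fun i : Fin N => (ρ ^ m) (ξ i.succ)))
          (Set.range (lc A fun i : Fin N => ξ i.succ) ∪
            Set.range (lc B fun i : Fin N => (ρ ^ (2 * m)) (ξ i.succ))))) E ≤
        (N + 1) ^ N * dgx K a (b + 2) (fun i : Fin N => ξ i.succ) (fun i : Fin N => (ρ ^ m) (ξ i.succ)) *
          dgx K (a + 1) (b + 1) (fun i : Fin N => ξ i.succ) (fun i : Fin N => (ρ ^ m) (ξ i.succ))) ∧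
    ∀ (A : Fin (a + 1) → Fin N → K) (B : Fin b → Fin N → K),
      Module.finrank (IntermediateField.adjoin K
        (insert (Tu K u (fun i : Fin N => (ρ ^ m) (ξ i.succ)))
          (Set.range (lc A fun i : Fin N => ξ i.succ) ∪
            Set.range (lc B fun i : Fin N => (ρ ^ (2 * m)) (ξ i.succ))))) E ≤
        (N + 1) ^ N * dgx K (a + 1) (b + 1) (fun i : Fin N => ξ i.succ) (fun i : Fin N => (ρ ^ m) (ξ i.succ)) *
          dgx K (a + 2) b (fun i : Fin N => ξ i.succ) (fun i : Fin N => (ρ ^ m) (ξ i.succ))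

/-- (TpQ) The topological degree. PROOF (uses `StmtDg1n`, `StmtStpF`). (1) `[E : K(ρ ^ m x)] = [E : (ρ ^ m) E] * [(ρ ^ m) E : K(ρ ^ m x)]`, the second factor is `[E : K(x)]` (the isomorphism `ρ ^ m : E ≅ (ρ ^ m).fieldRange` maps `K(x)` to `K(ρ ^ m x)`), the first is `[E : ρ E] ^ m` (`finrank_pow'`-type lemmas landed: `Lib/MP_16285c_agZ/UPP/Dh.lean`, `StmtG1`, `StmtG3`; all degrees are finite: `trdeg K E = N` and finitely generated).
(2) `A : Fin 0 → _`; `lc B (ρ ^ m x)` with `B : Fin N → Fin N → K`: if `E` is finite over `K(lc B (ρ ^ m x))` then the `N` forms are algebraically independent, so `B` is invertible and `K(lc B (ρ ^ m x)) = K(ρ ^ m x)`; attained supremum (`StmtDg1n` (2)). -/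
def StmtTpQ : Prop :=
  ∀ (K E : Type) [Field K] [CharZero K] [Field E] [Algebra K E] (N : ℕ) (ξ : Fin (N + 1) → E), Stp K ξ →
    ∀ (ρ : E →ₐ[K] E) (m : ℕ),
    Module.finrank (IntermediateField.adjoin K (Set.range fun i : Fin N => (ρ ^ m) (ξ i.succ))) E =
      Module.finrank (IntermediateField.adjoin K (Set.range fun i : Fin N => ξ i.succ)) E *
        Module.finrank ρ.fieldRange E ^ m ∧
    dgx K 0 N (fun i : Fin N => ξ i.succ) (fun i : Fin N => (ρ ^ m) (ξ i.succ)) ≤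
      Module.finrank (IntermediateField.adjoin K (Set.range fun i : Fin N => ξ i.succ)) E *
        Module.finrank ρ.fieldRange E ^ m

/-! ## The recursion -/

/-- (RcQ) The recursion at level `b + 1`. PROOF (uses `StmtSecP`, `StmtEQn`, `StmtHtP`, `StmtDg1n`; landed: `StmtFlV`, `StmtCzX`, `StmtStpF`; model: `agP/RecP.lean`, `agP/SecPI.lean`). `subst` `N = a + b + 2`. `c` from `StmtCzX`, `k₀ = (N + 1) ^ N`, `κ = 8 (a + b + 2) k₀ c`. `m` given: `Z₀ ≠ 0` with `Z₀(x) * (ρ ^ (2m)) (x i)` integral over `K[x]`. For `u ≠ 0` `StmtSecP` with `e₁ = k₀ d₂ d₁`, `e₂ = k₀ d₁ d₀` (`StmtEQn`), where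
`d₂ = dgx K a (b + 2)`, `d₁ = dgx K (a + 1) (b + 1)`, `d₀ = dgx K (a + 2) b` (all `≥ 1` by `StmtDg1n` (3)). `StmtHtP` for `g = ρ ^ m x` (algebraically independent), `z' = ρ ^ (2m) x`, `(P₁, j₁, q₁) = (4 (a + 1) e₁, 4 (b + 1) e₂, D)`, `D = dgx K (a + 1) (b + 1) x (ρ ^ (2m) x) ≥ 1`; the set of exceptions is contained in `{0}`.
For `pt = z t`: `gv i = z (t + m) i.succ`, `zv i = z (t + 2m) i.succ` (`StmtFlV`), `h.H (hcN (z t)) ≤ c * hx h (z t) + C`: `D hx(t+m) ≤ 8 (a + 1) e₁ (c hx(t) + C) + 4 (b + 1) e₂ hx(t + 2m) + C'`. -/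
def StmtRcQ : Prop :=
  ∀ (K E : Type) [Field K] [CharZero K] [Field E] [Algebra K E] (N a b : ℕ) (ξ : Fin (N + 1) → E), Stp K ξ →
    a + b + 2 = N → ∃ κ : ℕ, 1 ≤ κ ∧ ∀ (ρ : E →ₐ[K] E) (m : ℕ),
    ∃ B : Pl (N + 1) K, MvPolynomial.aeval ξ B ≠ 0 ∧
      ∀ (Ω : Type) [Field Ω] [Algebra K Ω] (h : HtF Ω), ∃ C : ℝ, ∀ z : ℕ → Fin (N + 1) → Ω,
        FlowX K ξ ρ z → ∀ t : ℕ, MvPolynomial.aeval (z t) B ≠ 0 →
        (dgx K (a + 1) (b + 1) (fun i : Fin N => ξ i.succ) (fun i : Fin N => (ρ ^ (2 * m)) (ξ i.succ)) : ℝ) *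
            hx h (z (t + m)) ≤
          (κ * dgx K a (b + 2) (fun i : Fin N => ξ i.succ) (fun i : Fin N => (ρ ^ m) (ξ i.succ)) *
              dgx K (a + 1) (b + 1) (fun i : Fin N => ξ i.succ) (fun i : Fin N => (ρ ^ m) (ξ i.succ)) : ℕ) *
            hx h (z t) +
          (κ * dgx K (a + 1) (b + 1) (fun i : Fin N => ξ i.succ) (fun i : Fin N => (ρ ^ m) (ξ i.succ)) *
              dgx K (a + 2) b (fun i : Fin N => ξ i.succ) (fun i : Fin N => (ρ ^ m) (ξ i.succ)) : ℕ) *
            hx h (z (t + 2 * m)) + C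

end Pool.Agent.Lib.MP_16285c_agX
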