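import Pool.Agent.Lib.MP_16285c_agB.Defs

/-!
# ZDB, section (4) of note 5071: the initial jump, two polynomials, the core

The statements `StmtIrK`, `StmtHH`, `StmtInJ`, `StmtCoreB` are in `Defs.lean`; here are the proofs and one auxiliary statement. File `agB/Y.lean`, `theorem qY : StmtY` or with the used statements as hypotheses (arrows), namespace `Pool.Agent.Lib.MP_16285c_agX`, auxiliary lemmas in the namespace `Pool.Agent.Lib.MP_16285c_agX.QYM`.

(IrK) PROOF: docstring of `StmtIrK`. The coefficients of `G` over `k` span a finite-dimensional `K`-space with basis `b`, so `G = ∑ t, C (b t) * map (G t)` with `G t` over `K`.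

(HH) PROOF OF `StmtHH`. `R = Pl n K`, `Q = RF n K`. `Ω` = an algebraic closure of `Q`, `α₁, α₂ : Ω` roots of `F₁`, `F₂` (over `Q`), `M = Q(α₁, α₂)`, finite over `Q`, separable (characteristic `0`): `M = Q(θ₀)`. `E_i = Q(α_i) ⊆ M`, `e_i = [M : E_i]`, `[M : Q] = deg F_i * e_i` (`minpoly Q α_i = F_i`). `μ_i ∈ E_i[Y]` = the minimal polynomial of `θ₀` over `E_i`, monic of degree `e_i`; its coefficients are polynomials in `α_i` over `Q`.
`D ∈ R`, `D ≠ 0`: `D * c ∈ R[α_i]` for all coefficients `c` of `μ_1`, `μ_2`, and `D θ₀` integral over `R`. `θ = D θ₀`; `μ'_i = scaleRoots μ_i D` (coefficients `D ^ (e_i - j) c_j ∈ R[α_i]` for `j < e_i`, monic), `μ'_i(θ) = 0`: so there is a monic `S_i ∈ R[Z][Y]` of degree `e_i` in `Y` with `S_i(α_i, Y) = μ'_i` (lift the coefficients `j < e_i`). `F = minpoly R θ` (`R` is integrally closed; `F.map = minpoly Q θ`, of degree `[M : Q]`,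
monic, irreducible). EASY END by `tTow2X` (`StmtTow2X`, landed, `Top/Tow2X.lean`) for `P := (finSuccEquiv K n).symm F_i` (`MonZ P`; irreducible: `Polynomial.Monic.irreducible_iff_irreducible_map_fraction_map`), `F := S_i` with the coefficients read in `Pl (n + 1) K` by `(finSuccEquiv K n).symm`, `H := F`, `α, β, G` arbitrary (take `Θ = X`, `G = 0`?): CAUTION `StmtTow2X` also asks for membership of the expressions in `α`, `β`, `G` and for
`eval t G ≠ 0`; so use its auxiliary lemmas `Tow2XM.key` and `Tow2XM.irr_of_factor` (which do not), with `Θ = X`: membership `F.eval₂ (C.comp (up K n)) X ∈ span {C P, S_i}`: divide `F` (constant in `Z`) by the monic `S_i`: remainder `W(Z, Y)` of degree `< e_i` in `Y`, `W(α_i, θ) = 0`; `1, θ, …, θ ^ (e_i - 1)` are linearly independent over `E_i` (`μ'_i` is the minimal polynomial), so all coefficients of `W` vanish at `α_i`, so they are divisible by `P`.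
ALTERNATIVE END (direct): `G ∈ R`, `G ≠ 0`, `A_i ∈ R[Y]` with `G α_i = A_i(θ)`; for `t` with `G(t) ≠ 0` and `F(t, Y)` irreducible, `K_t = K[Y]/F(t, Y)` with the root `y`, `a_i = A_i(t, y) / G(t)`: `G ^ (deg F_i) * F_i(A_i(Y) / G) ∈ F * R[Y]` (`F` monic, it vanishes at `θ`), so `F_i(t, a_i) = 0`; `S_i(A_i(Y) / G, Y)` times a power of `G` is in `F * R[Y]` in the same way, so `y` is a root of the monic polynomial `S_i(t, a_i, Y)` over `K(a_i)` of degree `e_i`;
`deg F = [K_t : K] = [K_t : K(a_i)] * [K(a_i) : K] ≤ e_i [K(a_i) : K]`, so `[K(a_i) : K] ≥ deg F_i`, so the monic `F_i(t, Y)` of degree `deg F_i` with root `a_i` is the minimal polynomial of `a_i`, irreducible. (`G = 1` is possible in the first version; the statement only asks for some `G ≠ 0`.)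

(CoreB) PROOF OF `StmtCoreB`: edit `T3/CoreA.lean` (the inequality `F.natDegree ≤ finrank ρb.fieldRange L` holds for every `L`, `ρb`).

(InJ) PROOF OF `StmtInJ` (uses `StmtLowP`, `StmtPrG`, `StmtTpQ` (1), `StmtDg1n`; `StmtGenS`, `StmtFlV`, `StmtVlA` are landed). `g = (ρ ^ m x_i)`, `StmtPrG` for `g` (`E` is finite over `K(g)`: the degree is positive by `StmtTpQ` (1)): `P', ξ'`, `ξ' i.succ = ρ ^ m (ξ i.succ)`. `B'` from `StmtLowP` for `P', ξ'` and the functions `x_i`. Write `ξ' 0 * D(ξ) = N(ξ)`, `x_i * D_i(ξ') = N_i(ξ')`, `D_i(ξ') * D'_i(ξ) = A_i(ξ)`; `B = D * ∏ D'_i * ∏ A_i * …`: at a point `z 0`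
outside `B = 0` the function `ξ' 0` has a value `z₀`, the point `pt (lptN c w s) z₀` is the value of `ξ'` (`StmtFlV`), `P'` vanishes there, and the value of `x_i` at this point with respect to `ξ'` is `z 0 i.succ`.
-/

set_option autoImplicit false

namespace Pool.Agent.Lib.MP_16285c_agX

open Pool.Agent.Lib.MP_16285c_ag Pool.Agent.Lib.MP_16285c_agN

/-- (PrG) Coordinates with given functions `g`. PROOF: `GPrimXM.core` in `G/PrimX.lean` (copy). -/
def StmtPrG : Prop :=
  ∀ (K E : Type) [Field K] [CharZero K] [Field E] [Algebra K E] (n m : ℕ) (y : Fin m → E),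
    IntermediateField.adjoin K (Set.range y) = ⊤ → ∀ g : Fin n → E,
    AlgebraicIndependent K g → Algebra.IsAlgebraic (Algebra.adjoin K (Set.range g)) E →
    ∃ (P' : Pl (n + 1) K) (ξ' : Fin (n + 1) → E), Irreducible P' ∧ MonZ P' ∧ GenN P' ξ' ∧
      ∀ i : Fin n, ξ' i.succ = g i

end Pool.Agent.Lib.MP_16285c_agX
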