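import Pool.Agent.Lib.MP_16285c_agB.SpecA

/-!
# Rates, fast backward orbits, comparison of degrees, final assembly (ZDB part D, note 5071, points (5), (9))

Definitions and landed statements: `agX/T3/SpecD.lean` (`GdX`, `StmtRl1X`, `StmtFlV`, `StmtGenS`, `StmtTpG`, …; theorems `yY` in `T3/Y.lean`, closed forms `bY` in `T3/AllX.lean`), `agP/SpecD.lean` (`StmtFekP`, `StmtRatesP`, `StmtFastP`, `StmtGrPP`, …, theorems `pY` in `agP/Y.lean`), `agX/G/Spec.lean` (`lfX`, `fldX`, `degrX`, `lamX`), `agB/Defs.lean`, `agB/SpecA.lean`.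

Every lemma is a `Prop` with its complete proof in the docstring; used statements are hypotheses: file `agB/Y.lean`, `theorem qY : StmtY` or `theorem qY : StmtW → StmtY`, namespace `Pool.Agent.Lib.MP_16285c_agX`, auxiliary lemmas in the namespace `Pool.Agent.Lib.MP_16285c_agX.QYM`.
-/

set_option autoImplicit false

namespace Pool.Agent.Lib.MP_16285c_agX

open Pool.Agent.Lib.MP_16285c_ag Pool.Agent.Lib.MP_16285c_agN
open Pool.Agent.Lib.MP_16285c_agS (toF vanK)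
open Pool.Agent.Lib.MP_16285c_agS.G (FF cls ValAt)

/-! ## Rates -/

/-- (FekQ) PROOF. Edit `agP/FekP.lean` (`StmtFekP`), with the natural number `κ₀ ≥ 1` in place of `2`. -/
def StmtFekQ : Prop :=
  ∀ (d : ℕ → ℕ) (κ₀ : ℕ) (Λ : ℝ), 1 ≤ κ₀ → 0 ≤ Λ → (∀ a b, d (a + b) ≤ κ₀ * d a * d b) → (∀ m, 1 ≤ d m) →
    ENNReal.ofReal Λ < Filter.limsup (fun m : ℕ => (d m : ENNReal) ^ ((m : ℝ)⁻¹)) Filter.atTop →
    ∃ l : ℝ, Λ < l ∧ (∀ m, l ^ m ≤ κ₀ * (d m : ℝ)) ∧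
      ∀ ε : ℝ, 0 < ε → ∃ m₀ : ℕ, ∀ m, m₀ ≤ m → (d m : ℝ) ≤ (l * (1 + ε)) ^ m

/-- (RtQ) The rates of the backward recursions. PROOF (uses `StmtFekQ`). `GdX c a b d t : 2 ≤ b ∧ 8 * a ≤ b ^ 2 ∧ 4 * c * a < b * d ∧ t < b / 2`. `l > Λ ≥ T ≥ 1` from `StmtFekQ`. Choose `ε ∈ (0, 1)` with `l (1 - ε) ^ 2 > Λ`, then `ε' > 0` with `l (1 - ε) ^ 2 > Λ (1 + ε')`, `l > Λ (1 + ε')` and `(1 + ε') ^ 3 (1 - ε) ^ 2 < 1`. `θ = l ^ 2 (1 - ε) ^ 2 / T ≥ l (1 - ε) ^ 2 > 1`.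
CASE II: `Δ (2m) ≥ θ ^ m Δ m` for arbitrarily large `m`. For such large `m` the second alternative holds: `b = Δ (2m) / (κ₁ d m Δ m) ≥ θ ^ m / (κ₁ (l (1 + ε')) ^ m) = (l (1 - ε) ^ 2 / (T (1 + ε'))) ^ m / κ₁`; the base is `> Λ / T ≥ 1`, so `b > 2 (Λ / T) ^ m` and `b` is larger than any constant for large `m`. `a = D₃ m / d m ≤ C₃ Λ ^ m κ₀ / l ^ m ≤ C₃ κ₀` (`l ^ m ≤ κ₀ d m`; `C₃ ≥ 0` as `D₃ 0 ≥ 0`):
`8 a ≤ b ^ 2`. `d m / (δ T ^ m) ≥ (l / T) ^ m / (κ₀ δ)` is large, so `4 a < b * (d m / (δ T ^ m))`. CASE I: otherwise there is `m₀` with `Δ (2m) < θ ^ m Δ m` for `m ≥ m₀`. `μ = θ (1 + ε')`. CLAIM: there is `A` with `Δ m ≤ A μ ^ m` for all `m`: choose `m₁ ≥ m₀` with `(C₀ + 1) / (1 + ε') ^ m ≤ 1` for `m ≥ m₁` and `A` such that it holds for `m < 2 m₁ + 2`; for larger `m` strong induction: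
`m = 2 m'` or `2 m' + 1`, `Δ m ≤ (C₀ + 1) Δ (2 m') ≤ (C₀ + 1) θ ^ m' A μ ^ m' ≤ A μ ^ (2 m') ≤ A μ ^ m` (`μ ≥ 1`). The first alternative holds for large `m`: `b = d (2m) / (κ₁ δ T ^ m d m) ≥ l ^ (2m) / (κ₀ κ₁ δ T ^ m (l (1 + ε')) ^ m) = c (l / (T (1 + ε'))) ^ m`, base `> Λ / T ≥ 1`: `b > 2 (Λ / T) ^ m`, `b ≥ 2`. `a = Δ m / (δ T ^ m) ≤ A (l ^ 2 (1 - ε) ^ 2 (1 + ε') / T ^ 2) ^ m`,
`b ^ 2 ≥ c ^ 2 (l ^ 2 / (T ^ 2 (1 + ε') ^ 2)) ^ m`, and `(1 - ε) ^ 2 (1 + ε') < 1 / (1 + ε') ^ 2`: `8 a ≤ b ^ 2` for large `m`. `b * (d m / (δ T ^ m)) ≥ c' (l ^ 2 / (T ^ 2 (1 + ε'))) ^ m`: `4 a < b * (d m / (δ T ^ m))` for large `m`. -/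
def StmtRtQ : Prop :=
  ∀ (d Δ D₃ : ℕ → ℕ) (Λ C₃ : ℝ) (T δ κ₀ κ₁ C₀ : ℕ), 1 ≤ T → (T : ℝ) ≤ Λ → 1 ≤ δ → 1 ≤ κ₀ → 1 ≤ κ₁ →
    (∀ a b, d (a + b) ≤ κ₀ * d a * d b) → (∀ m, 1 ≤ d m) → (∀ m, 1 ≤ Δ m) → (∀ m, Δ (m + 1) ≤ C₀ * Δ m) →
    (∀ m, (D₃ m : ℝ) ≤ C₃ * Λ ^ m) →
    ENNReal.ofReal Λ < Filter.limsup (fun m : ℕ => (d m : ENNReal) ^ ((m : ℝ)⁻¹)) Filter.atTop →
    ∃ m : ℕ, 1 ≤ m ∧
      (GdX 1 (Δ m / (δ * T ^ m)) (d (2 * m) / (κ₁ * (δ * T ^ m) * d m)) (d m / (δ * T ^ m)) ((Λ / T) ^ m) ∨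
        GdX 1 (D₃ m / d m) (Δ (2 * m) / (κ₁ * d m * Δ m)) (d m / (δ * T ^ m)) ((Λ / T) ^ m))

/-! ## Fast backward orbits -/

/-- (FastB) PROOF of `StmtFastB` (`Defs.lean`) (uses `StmtRtQ`, `StmtRcQ`, `StmtInJ`, `StmtDg1n`, `StmtSbQ`, `StmtTpQ`; landed: `StmtRl1X`, `StmtGenS`; model: `agP/FastP.lean`). `N = n + 3`, `Stp K ξ` (`StmtGenS` (1)). `T = [E : ρ E]`, `δ = [E : K(x)]` (`≥ 1`: finite degrees; `T ≥ 1` also follows from `StmtTpQ` (2) and `StmtDg1n` (3) for `c = 0`, `m = 1`). `d m = dgx K 1 (n + 2) x (ρ ^ m x)`, `Δ m = dgx K 2 (n + 1) x (ρ ^ m x)`, `D₃ m = dgx K 3 n x (ρ ^ m x)`.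
`κ₀ = (N + 1) ^ N` (`StmtSbQ`), `C₀ = κ₀ * Δ 1` (`StmtSbQ` with `b = 1`), `κ₁` = the maximum of the two constants of `StmtRcQ` for `(a, b) = (0, n + 1)` and `(1, n)` (`a + b + 2 = n + 3`). `StmtRtQ` gives `m` and one of the two alternatives. `B₁` from `StmtRcQ` for this level and `m`; `P', B₂, B', ξ'` from `StmtInJ` (dimension `n + 2 + 1`) for `m`; `B = B₁ * B₂ * up K (n + 3) B'`, `¬ P ∣ B` (`aeval ξ B ≠ 0`, `GenN.ker`;
`aeval ξ (up _ _ B') ≠ 0` as `x` is algebraically independent). Let `K₁, Ω, h, c, w, s, z` be as in the statement. `u t = hx h (z (-t))` for `t : ℕ`, `η = h.H ![1, s]`. `StmtInJ` for the orbit `t ↦ z (t - m)` (`FlowZ` with `s = m`): `d m * η ≤ δ T ^ m * u m + C`, `u 0 ≤ η + C` (`aeval (lptN c w s) B' ≠ 0`: the value of `up K (n+3) B'` at `z 0`). `StmtRcQ` for the orbit `t' ↦ z (t' - (t + 2m))` at time `0`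
(points `z (-(t + 2m))`, `z (-(t + m))`, `z (-t)`): level `b + 1 = n + 2` (`a = 0`): `d (2m) u (t + m) ≤ κ₁ dgx K 0 (n + 3) * d m * u (t + 2m) + κ₁ d m Δ m u t + C` and `dgx K 0 (n + 3) x (ρ ^ m x) ≤ δ T ^ m` (`StmtTpQ` (2)); divide by `κ₁ δ T ^ m d m`: `b u (t + m) ≤ u (t + 2m) + a u t + C'` with the first alternative. Level `n + 1` (`a = 1`): `Δ (2m) u (t + m) ≤ κ₁ d m Δ m u (t + 2m) + κ₁ Δ m D₃ m u t + C`:
divide by `κ₁ d m Δ m`: the second alternative. `StmtRl1X` with `c = 1`, `d = d m / (δ T ^ m)`. (`u ≥ 0`: heights are nonnegative, as in `FastP.lean`.) -/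
def StmtFastB' : Prop := StmtRtQ → StmtRcQ → StmtInJ → StmtDg1n → StmtSbQ → StmtTpQ → StmtFastB

/-! ## Comparison of degrees -/

/-- (CmQ) The degrees over `k` are bounded by the degrees over `K`. PROOF (uses `StmtDg1n`, `StmtBZG`; landed: `StmtDgT`, `StmtDgS`, `StmtRpA`, `StmtRpD`; models: `agP/CmpG.lean`, `T3/CmpX.lean`, `agP/CmpXn.lean`). `x' i = β (ξ i.succ)`, `X' m = φ ^ m ∘ x' = β ∘ ρ ^ m ∘ x`. (a) There is `e ≥ 1` with `Dge k x' w e` for every `k`-linear combination `w` of the `β (ξ i)` (`β (ξ 0)` is integral over `k[x']`: `StmtRpA` (5), (1), (2), `StmtRpD`: `w ∈ W * Vd k x' e`-type bounds for all powers, as in `T3/DgB.lean`, `T3/CmpX.lean` (b));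
so `Dge k (X' m) (φ ^ m w) e` (`StmtDgT` (2)). (b) `StmtBZG` for the base field `K` (the forms have coefficients in `K`), `E := E'`, and intermediate fields `κ` of `E' / K` containing `k` (`IntermediateField.restrictScalars K`). Let `A, B` be forms over `k` in `β ∘ ξ`, `u = lfX A (β ∘ ξ)` (`c` elements), `w = lfX B (φ ^ m ∘ β ∘ ξ)` (`p` elements), `E'` finite over `k(u, w)`. Step 1: `κ = k(u)`, `y = X' m`, `w`: `[E' : k(u, w)] ≤ (p + 1) ^ p e ^ p e₁`,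
`e₁ ≥ [E' : k(u, lc B' (X' m))]` for all `B' : Fin p → Fin N → K` (`w` is algebraically independent over `κ`: `c + p = N = trdeg k E'`). Step 2: for each `B'`: `κ = k(lc B' (X' m))`, `y = x'`, `u`: `[E' : k(u, lc B' (X' m))] ≤ (c + 1) ^ c e ^ c e₂`, `e₂ ≥ [E' : k(lc A' x', lc B' (X' m))]` for all `A', B'` over `K`. (c) `[E' : k(lc A' x', lc B' (X' m))] ≤ [E : K(lc A' x, lc B' (ρ ^ m x))]` if the latter is finite:
a basis `w_1, …, w_d` of `E` over `κ_E = K(lc A' x, lc B' (ρ ^ m x))`; the span of the `β w_i` over `κ' = k(β κ_E)` is closed under multiplication, a finite dimensional domain over `κ'`, so a field, it contains `k` and `β E`, so it is `E'` (`Stp.gen`). If it is infinite, the `N` elements are algebraically dependent over `K` (`trdeg K E = N`), so their images over `k`, and `[E' : k(…)]` is infinite (`0`). So `e₂ = dgx K c p x (ρ ^ m x)` (`StmtDg1n` (1)).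
`C = (p + 1) ^ p e ^ p (c + 1) ^ c e ^ c`; take the supremum over `A, B`. -/
def StmtCmQ : Prop :=
  ∀ (K k : Type) [Field K] [CharZero K] [Field k] [Algebra K k] (E E' : Type) [Field E] [Field E']
    [Algebra K E] [Algebra k E'] [Algebra K E'] [IsScalarTower K k E'] (β : E →ₐ[K] E') (N c p : ℕ)
    (ξ : Fin (N + 1) → E) (ρ : E →ₐ[K] E) (φ : E' →ₐ[k] E'), Stp K ξ → Stp k (fun i => β (ξ i)) →
    (∀ h, β (ρ h) = φ (β h)) → c + p = N →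
    ∃ C : ℕ, ∀ m : ℕ, degrX k N p (fun i => β (ξ i)) (fun i => (φ ^ m) (β (ξ i))) ≤
      (C * dgx K c p (fun i : Fin N => ξ i.succ) (fun i : Fin N => (ρ ^ m) (ξ i.succ)) : ℕ)

/-! ## Final assembly -/

/-- The growth hypothesis: over all fields of definition which contain the finite set `S₀` the degrees of index `n + 2` (the dimension is `n + 3`) grow faster than `Λ ^ m`, and `Λ` bounds the degrees of index `≤ n` and the topological degree. -/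
def GrB {k : Type} [Field k] {n : ℕ} (P : Pl (n + 4) k) (f : RM k (n + 4)) : Prop :=
  ∃ (Λ : ℝ) (S₀ : Finset k), ∀ (K : Type) [Field K] [CharZero K] [Algebra K k] (PK : Pl (n + 4) K)
    (fK : RM K (n + 4)) [(Ideal.span {PK}).IsPrime], (∀ s ∈ S₀, s ∈ Set.range (algebraMap K k)) →
    MvPolynomial.map (algebraMap K k) PK = P → fK.map (algebraMap K k) = f → Irreducible PK →
    MonZ PK → InvX fK PK → ∀ σK : RF (n + 4) K →ₐ[K] RF (n + 4) K, Of fK σK →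
    ∀ (E : Type) [Field E] [Algebra (CR (Ideal.span {PK})) E] [IsFractionRing (CR (Ideal.span {PK})) E]
      [Algebra K E] [IsScalarTower K (CR (Ideal.span {PK})) E] (ρ : E →ₐ[K] E),
      Rst σK (Ideal.span {PK}) E ρ →
      (Module.finrank ρ.fieldRange E : ℝ) ≤ Λ ∧
      ENNReal.ofReal Λ < Filter.limsup (fun m : ℕ =>
        (dgx K 1 (n + 2) (fun i : Fin (n + 3) => toF (Ideal.span {PK}) E (MvPolynomial.X i.succ))
          (fun i : Fin (n + 3) => (ρ ^ m) (toF (Ideal.span {PK}) E (MvPolynomial.X i.succ))) : ENNReal) ^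
          ((m : ℝ)⁻¹)) Filter.atTop ∧
      ∀ p, p ≤ n → ∃ C : ℝ, ∀ (N' : ℕ) (A : Fin (n + 3 - p) → Fin (n + 3) → K)
        (B : Fin p → Fin (n + 3) → K),
        (Module.finrank (IntermediateField.adjoin K
          (Set.range (lc A fun l : Fin (n + 3) => toF (Ideal.span {PK}) E (MvPolynomial.X l.succ)) ∪
            Set.range (lc B fun l : Fin (n + 3) =>
              (ρ ^ N') (toF (Ideal.span {PK}) E (MvPolynomial.X l.succ))))) E : ℝ) ≤ C * Λ ^ N'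

/-- The theorem for the model. -/
def StmtModB : Prop :=
  ∀ (k : Type) [Field k] [IsAlgClosed k] [CharZero k] (n : ℕ) (P : Pl (n + 4) k) (f : RM k (n + 4)),
    Irreducible P → MonZ P → InvX f P → NoIX f P → GrB P f → ∀ b : Pl (n + 4) k, ¬ P ∣ b →
    ∃ x : ℕ → Fin (n + 4) → k, f.Orb x ∧
      (∀ m, MvPolynomial.eval (x m) P = 0 ∧ MvPolynomial.eval (x m) b ≠ 0) ∧
      ∀ G : Pl (n + 4) k, ¬ P ∣ G → ∃ m, MvPolynomial.eval (x m) G ≠ 0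

/-- (GrBP) PROOF (uses `StmtCmQ`, `StmtCmpG`, `StmtDg1n`; landed: `StmtBet`, `StmtCmpB`, `StmtDescX`, `StmtTpG`, `StmtGenS`, `StmtG1`; model: `agP/GrPP.lean`, edit it). Write `λ_p = lamX k (n+3) p y' φ`, `N = n + 3`, `T' = [E' : φ E']`. `Stp k ξ` (`StmtGenS` (1)), `trdeg k E' = N`, `E'` is finite over `φ.fieldRange`, `k(ξ) = ⊤` (`Stp.gen`). (A) `T' ^ m ≤ degrX k N N y' (φ ^ m y')`: there are `N` `k`-linear combinations `u = lfX B y'` algebraically independent over `k`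
(e.g. members of `y'`: `k(y') = E'`, `exists_isTranscendenceBasis_subset`-type), `E'` is finite over `k(u)`; `φ ^ m u` generates a field over which `E'` has the degree `T' ^ m [E' : k(u)] ≥ T' ^ m` (as in `StmtTpQ`), and `n + 3 - (n + 3) = 0` forms in `y'`. So `T' ≤ λ_N` (`m`-th roots). (B) Choose a real `Λ` with `λ_p < ofReal Λ < λ_(n+2)` for `p ≤ n` and for `p = n + 3` (`ENNReal.lt_iff_exists_nnreal_btwn`, finitely many `p`), so `T' ≤ Λ`. `S₀ = ∅`.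
Let `K, PK, fK, σK, E, ρ` be given; `Algebra K E'` by composition; `β : E → E'` from `StmtBet` (for `ξ`), with the disjointness property, `β (ρ h) = φ (β h)` (`StmtCmpB`). First part: `[E : ρ E] ≤ T'` (`StmtTpG`). Second part: `degrX k N (n+2) y' (φ ^ m y') ≤ C₁ * degrX k N (n+2) ξ (φ ^ m ξ)` (`StmtCmpG` with `x := y'`, `y := ξ`) `≤ C₁ * (C₂ * d m)` (`StmtCmQ` for `c = 1`, `p = n + 2`; `β (toF (X i)) = ξ i`), so `λ_(n+2) ≤ limsup (C d m) ^ (1/m) = limsup (d m) ^ (1/m)`.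
Third part, `p ≤ n` fixed: exactly part (C) of the proof of `StmtGrPP` (`Λ ≥ T' ≥ 1`). -/
def StmtGrBP : Prop :=
  ∀ (k : Type) [Field k] [CharZero k] (n : ℕ) (P : Pl (n + 4) k) (E' : Type) [Field E'] [Algebra k E']
    (ξ : Fin (n + 4) → E') (φ : E' →ₐ[k] E') (f : RM k (n + 4)) (m : ℕ) (y' : Fin m → E'),
    Irreducible P → MonZ P → GenN P ξ → InvX f P → (∀ i, fvn f ξ i = φ (ξ i)) →
    IntermediateField.adjoin k (Set.range y') = ⊤ →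
    (∀ p, p ≤ n ∨ p = n + 3 → lamX k (n + 3) p y' φ < lamX k (n + 3) (n + 2) y' φ) → GrB P f

/-- (VarB) The theorem for varieties of dimension `n + 3`. PROOF (uses `StmtModB`, `StmtPrimX`, `StmtAmbX`, `StmtNoInvX`, `StmtPtsX`, `StmtGrBP`). Edit `agP/VarP.lean`. -/
def StmtVarB : Prop :=
  ∀ (k : Type) [Field k] [IsAlgClosed k] [CharZero k] (m n : ℕ) (I : Ideal (MvPolynomial (Fin m) k)) [I.IsPrime],
    Algebra.trdeg k (MvPolynomial (Fin m) k ⧸ I) = (n + 3 : ℕ) → ∀ φ : FF I →ₐ[k] FF I,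
    (∀ p, p ≤ n ∨ p = n + 3 → lamX k (n + 3) p (fun i => cls I (MvPolynomial.X i)) φ <
      lamX k (n + 3) (n + 2) (fun i => cls I (MvPolynomial.X i)) φ) →
    (∀ h : FF I, φ h = h → ∃ c : k, h = algebraMap k (FF I) c) → ∀ b : MvPolynomial (Fin m) k, b ∉ I →
    ∃ x : ℕ → Fin m → k, (∀ n, (∀ A ∈ I, MvPolynomial.eval (x n) A = 0) ∧ MvPolynomial.eval (x n) b ≠ 0 ∧
      ∀ i, ValAt I (φ (cls I (MvPolynomial.X i))) (x n) (x (n + 1) i)) ∧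
      ∀ A : MvPolynomial (Fin m) k, A ∉ I → ∃ n, MvPolynomial.eval (x n) A ≠ 0

end Pool.Agent.Lib.MP_16285c_agX
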