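import Pool.Agent.Lib.MP_16285c_agB.Defs
import Pool.Agent.Lib.MP_16285c_agX.Box.Spec

/-!
# Two-sided orbits over a Frobenius place (ZDB part E, note 5071, point (6))

`V` is a valuation ring of an algebraically closed field `k` with the residue field `κ`, `f₀` a rational self-map over a subring `R₀` of `V`, `ψ = red V R₀ hR`, `a` a Frobenius point of `f₀.map ψ`. The landed package `agX/Box` gives orbits over `a` in the positive direction.
Here the point `x₀` over `a` gets infinitely many predecessors: `x_{-t}` lies over `a ^ (q ^ ((r₀ - 1) t))`, `q = p ^ s`, where `a ^ (q ^ r₀) = a`.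

Every lemma is a `Prop` with its complete proof in the docstring; used statements are hypotheses: file `agB/Y.lean`, `theorem qY : StmtY` or `theorem qY : StmtW → StmtY`, namespace `Pool.Agent.Lib.MP_16285c_agX`, auxiliary lemmas in the namespace `Pool.Agent.Lib.MP_16285c_agX.QYM`.
(`agX` = the folder `Lib/MP_16285c_agX`, and so on.) `Lies`, `red`, `inc`, `FrobPt`: `Lib/MP_16285c_ag/Spec.lean`; `RM`, `RM.Next`, `RM.map`: `Lib/MP_16285c_ag/Base.lean`; `Wd`, `Jc`: `ZDO/Per.lean`; `lies_eval`, `eval_frob`, `lies_zero` (namespace `LiftAux`): `Lib/MP_16285c_ag/Lift.lean`.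
-/

set_option autoImplicit false

namespace Pool.Agent.Lib.MP_16285c_agX

open MvPolynomial
open Pool.Agent.Lib.MP_16285c_ag (RM FrobPt Lies red)
open Pool.Agent.ZDO (Wd Jc ClN dd nn hz)

/-- (HenV) Hensel's lemma in `n` variables for a valuation ring of an algebraically closed field. PROOF. `S = MvPolynomial (Fin n) V ⧸ span (range F)`, `j` the class of the Jacobian determinant, `T = Localization.Away j`. `T` is standard smooth over `V`
(`PreSubmersivePresentation.naive`, `jacobiMatrix_naive`, composed with `PreSubmersivePresentation.localizationAway`: the Jacobian is a unit, `comp_jacobian_eq_jacobian_smul_jacobian`), so smooth and flat (`Algebra.Smooth.flat`). `φ : T →ₐ[V] κ` the point `a`, `Q = ker φ` lies over the maximal ideal of `V`. Going down (`Algebra.HasGoingDown` for flat algebras, `Ideal.exists_ideal_le_liesOver_of_le`): a prime `P ≤ Q` over `⊥`. `L` the field of fractions of `T ⧸ P`: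
it is formally unramified and essentially of finite type over `V`, so over `k`, so algebraic (`Algebra.FormallyUnramified.isSeparable`), so `k → L` is bijective: `θ : T →ₐ[V] k` with `ker θ = P`. The values of `θ` are in `V`: otherwise `c = θ t ∉ V`, `c⁻¹ = v` in the maximal ideal, `t v - 1 ∈ ker θ ≤ Q`, so `φ t * φ v = 1`, but `φ v = 0`. `x i = θ (X i)`; `X i - x i ∈ ker θ ≤ Q`, so `a i` is the residue of `x i`. -/
def StmtHenV : Prop :=
  ∀ (k : Type) [Field k] [IsAlgClosed k] (V : ValuationSubring k) (n : ℕ) (F : Fin n → MvPolynomial (Fin n) V)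
    (a : Fin n → IsLocalRing.ResidueField V),
    (∀ i, eval a (map (IsLocalRing.residue V) (F i)) = 0) →
    (Matrix.of fun i l => eval a (map (IsLocalRing.residue V) (pderiv l (F i)))).det ≠ 0 →
    ∃ x : Fin n → V, (∀ i, eval x (F i) = 0) ∧ ∀ i, IsLocalRing.residue V (x i) = a i

/-- (PreV) One step back. PROOF (uses `StmtHenV`). `x' i ∈ V`: let `y i : V` be this element, with the residue `a' i`. `F i = map (inc V R₀ hR) (f.num i) - C (y i) * map (inc V R₀ hR) (f.den i)`. With `ψ = red V R₀ hR` (`= residue ∘ inc`): `eval a (map residue (F i)) = eval a (map ψ (f.num i)) - a' i * eval a (map ψ (f.den i)) = 0`.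
The matrix `m i l = eval a (map residue (pderiv l (F i)))` is `eval a (pderiv l (map ψ (f.num i))) - a' i * eval a (pderiv l (map ψ (f.den i)))` (`pderiv_map`), so `eval a (map ψ (f.den i)) * m i l = eval a (Wd (f.map ψ) i l)` (insert `a' i * eval a (den i) = eval a (num i)`), and `(∏ i, eval a (map ψ (f.den i))) * m.det = eval a (Jc (f.map ψ)) ≠ 0` (`Matrix.det_mul_column`, `RingHom.map_det`).
`StmtHenV` gives `x i ∈ V` with the residues `a i`. `f.Next x x'`: `eval x (den i) ≠ 0` since it lies over `eval a (map ψ (f.den i)) ≠ 0` (`LiftAux.lies_eval`, `LiftAux.lies_zero`); the second part is `F i = 0` at `x`. -/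
def StmtPreV : Prop :=
  ∀ (k : Type) [Field k] [IsAlgClosed k] (V : ValuationSubring k) (R₀ : Subring k) (hR : ∀ r ∈ R₀, r ∈ V) (n : ℕ)
    (f : RM R₀ n) (a a' : Fin n → IsLocalRing.ResidueField V), (f.map (red V R₀ hR)).Next a a' →
    eval a (Jc (f.map (red V R₀ hR))) ≠ 0 → ∀ x' : Fin n → k, (∀ i, Lies V (x' i) (a' i)) →
    ∃ x : Fin n → k, (∀ i, Lies V (x i) (a i)) ∧ (f.map R₀.subtype).Next x x'

/-- (OrbZ) Two-sided orbits over the Frobenius point: `StmtOrbN` (`agX/Box/Spec.lean`, proof `agX/Box/OrbN.lean`) with two-sided orbits. PROOF (uses `StmtPreV`, `StmtHcn`). `q = p ^ s`; `a i ^ q ^ r₀ = a i` (`q ^ r₀ = (p ^ r₀) ^ s`). For every `G` over `R₀` and all `e`: `eval (a ^ q ^ e) (map ψ G) = (eval a (map ψ G)) ^ q ^ e` (`LiftAux.eval_frob`, induction; see `hev` in `Lift.lean`, `Clo2.lean`).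
`N` from `closed_place2` (`ZDO/Clo2.lean`). Let `b t = a ^ q ^ ((r₀ - 1) * t)`, `t : ℕ`: `b 0 = a`, and `(b (t + 1)) ^ q = b t` (exponent `(r₀ - 1) (t + 1) + 1 = (r₀ - 1) t + r₀`), so `(f₀.map ψ).Next (b (t + 1)) (b t)`: the two conditions of `FrobPt` raised to the power `q ^ e`, `e = (r₀ - 1) (t + 1)`, as in `hF` of `Lift.lean`. `StmtPreV` (the Jacobian at `b (t + 1)` is a power of the one at `a`) gives
recursively `w : ℕ → Fin (m + 1) → k`, `w 0 = x₀`, `w t` over `b t`, `Next (w (t + 1)) (w t)` (dependent choice on the subtype of the points over `b t`). `y : ℕ → _` the forward orbit of `x₀` (`liftP`). `x (t : ℤ) = y t`, `x (-t) = w t` (`x j = if 0 ≤ j then y j.toNat else w (-j).toNat`).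
For `u : ℕ` the sequence `t ↦ x (t - r₀ * u)` is an orbit and starts over `b (r₀ u) = a` (exponent `(r₀ - 1) r₀ u`, `a ^ q ^ (r₀ c) = a`), so it has the property `ClN N p`. `ClZ`: given `j`, take `u` with `j + r₀ u ≥ 0` and use `ClN` at the index `j + r₀ u`. All `x j` lie over some `a ^ q ^ e`, so `eval (x j) B ≠ 0` (`LiftAux.lies_eval`, `lies_zero`).
`eval (x j) P = 0` for `j ≥ 0` (`OrbNM.keep` in `agX/Box/OrbN.lean`); for `j < 0`: otherwise `ClZ` gives `J` with `eval (x (j + N p ^ J s)) P ≠ 0` for all `s`, a contradiction for large `s`. -/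
def StmtOrbZ : Prop :=
  ∀ (k : Type) [Field k] [IsAlgClosed k] (m : ℕ) (P : MvPolynomial (Fin (m + 1)) k) (V : ValuationSubring k)
    (S : Finset k) (R₀ : Subring k) (_ : R₀ = Subring.closure (S : Set k)) (hR : ∀ r ∈ R₀, r ∈ V) (p s r₀ : ℕ)
    (f₀ : RM R₀ (m + 1)) (P₀ B₀ W₀ : MvPolynomial (Fin (m + 1)) R₀) (a : Fin (m + 1) → IsLocalRing.ResidueField V),
    p.Prime → CharP (IsLocalRing.ResidueField V) p → 1 ≤ s → (∀ r, red V R₀ hR r ^ p ^ s = red V R₀ hR r) →
    map R₀.subtype P₀ = P → P₀ * W₀ = hcn f₀ P.totalDegree P₀ → 1 ≤ r₀ → (∀ i, a i ^ p ^ r₀ = a i) →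
    FrobPt (f₀.map (red V R₀ hR)) (p ^ s) a → eval a (map (red V R₀ hR) B₀) ≠ 0 →
    eval a (Jc (f₀.map (red V R₀ hR))) ≠ 0 →
    ∃ N : ℕ, 1 ≤ N ∧ ∀ x₀ : Fin (m + 1) → k, (∀ i, Lies V (x₀ i) (a i)) → eval x₀ P = 0 →
      ∃ x : ℤ → Fin (m + 1) → k, x 0 = x₀ ∧ (∀ j : ℤ, (f₀.map R₀.subtype).Next (x j) (x (j + 1))) ∧
        (∀ j, eval (x j) P = 0 ∧ eval (x j) (map R₀.subtype B₀) ≠ 0) ∧ ClZ N p x

/-- (OrbZ) with its hypotheses: `theorem qOrbZ : StmtPreV → StmtHcn → StmtOrbZ`. -/
def StmtOrbZ' : Prop := StmtPreV → StmtHcn → StmtOrbZ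

/-- (BoxZ) The box with two-sided orbits, `StmtBoxZ` of `agB/Defs.lean`: `theorem qBoxZ : StmtHcn → StmtModpN → StmtOrbZ → StmtRootN → StmtBoxZ`. PROOF: edit `agX/Box/BoxB.lean` (the same proof with `StmtOrbZ` in place of `StmtOrbN`; `StmtOrbZ` has no hypothesis `StmtHcn`). -/
def StmtBoxZ' : Prop := StmtHcn → StmtModpN → StmtOrbZ → StmtRootN → StmtBoxZ

end Pool.Agent.Lib.MP_16285c_agX
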