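import Pool.Agent.Lib.MP_16285c_agB.Defs
import Pool.Agent.Lib.MP_16285c_agP.SpecA
import Pool.Agent.Lib.MP_16285c_agP.SpecZ

/-!
# Section G of ZDB: heights along backward orbits on the closure `Z` of the orbit (note 5071, points (7), (8), (9))

As in `agP/SpecZ.lean`: `𝔮 = span {P}`, `E` its function field over `K`, `ξ i = toF 𝔮 E (X i)`, `x l = ξ l.succ`; `𝔭 ∋ P` the ideal of `Z`, `∂₀P ∉ 𝔭`, `L` its function field, `η i = toF 𝔭 L (X i)`, `x̄ l = η l.succ`, `dim Z = rk 𝔭 = a + 1`; `RsE` (`Gro/Spec.lean`): residues of functions which are regular along `Z`.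
`VlX`, `OnX`, `FlowX`, `Stp`, `Intx`, `Tu`, `hx`: `T3/Defs.lean`; `SctP`, `StmtHtP`: `agP/Defs.lean`; `StmtVlA`, `StmtFlV`, `StmtCzX`: `T3/SpecD.lean`; `StmtRtX`: `T3/SpecC.lean`; `StmtIntA`, `StmtSubX`: `T3/SpecA.lean`; `StmtNN`: `agN/Degr/Spec.lean`. `GenN`, `toF`: `T3Fin3M.aeval_toF` in `T3/Fin3.lean` (or `PDgZM.aeval_toF'` in `agP/DgZ.lean`): `aeval η G = toF 𝔭 L G`.

Every lemma is a `Prop` with its complete proof in the docstring; used statements are hypotheses: file `Pool/Agent/Lib/MP_16285c_agB/Y.lean`, `theorem qY : StmtY` or `theorem qY : StmtW → StmtY` (hypotheses in the order of the docstring; landed statements may be hypotheses, too, or their landed proofs may be imported), namespace `Pool.Agent.Lib.MP_16285c_agX`,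
auxiliary lemmas in the namespace `Pool.Agent.Lib.MP_16285c_agX.QYM`.
-/

set_option autoImplicit false

namespace Pool.Agent.Lib.MP_16285c_agX

open Pool.Agent.Lib.MP_16285c_ag Pool.Agent.Lib.MP_16285c_agN
open Pool.Agent.Lib.MP_16285c_agS (toF vanK)

/-! ## Degrees on `Z` -/

/-- (DgY) The degrees on `Z`, the map at the other place. PROOF (uses `StmtRsE`, `StmtLocO`, `StmtTB`, `StmtRlZ`, `StmtSyZ`, `StmtRgZ`, `StmtEmZ`, `StmtThetaX`, `StmtIdZ`, `StmtCtZ`, `StmtUzZ`, `StmtBkZ`, `StmtFtZ`, `StmtNum`, `StmtCuG`, in this order as hypotheses). Edit `agP/DgZ.lean` (`tDgZ`; import it for the lemmas of `PDgZM`). Changes: `ub = Fin.cons (∑ i, b i * x̄ i) (lc A (ρb x̄))`, `u = Fin.cons (∑ i, b i * x i) (lc A (ρ x))`, `RsE (u i) (ub i)` as before (`x'`, `y'` exchanged).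
`g l = aeval x (G l) ∈ O` (no `ρ`); `StmtSyZ` is applied with `ρ = 1`, `ρb = 1` (`AlgHom.id`), `d = 1`: `JmZ P E δ 1 = 1` since `δⱼ x_l = 1` for `l = j` and `0` otherwise (`DvZ` for `G = X l.succ`; it is in the proof of `StmtJtZ`, `agP/JtZ.lean`), `det = 1`, `RsE 1 1` (`StmtRsE`, constants). `StmtIdZ` as before, `(∏ g ^ b) θ' = aeval x (∏ G ^ b) * θ'`; `StmtCtZ` with `y = x`.
`StmtFtZ` (1): `trdeg κ E = c`; `StmtFtZ` (2) with `ρ = 1`: `E` is finite over `κ(x)`. `StmtUzZ` for `y = x`, with the bound `e`: `StmtBkZ` with `x := fun l => ρ (x l)`, `y := x`: `K(u)(lc B x) = K(lc A (ρ x), lc (Fin.cons b B) x)`; the hypothesis for `Fin.cons b B` and `A` (`Set.union_comm`). `StmtNum`. -/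
def StmtDgY : Prop :=
  ∀ (K : Type) [Field K] [CharZero K] (n a c : ℕ) (P : Pl (n + 1) K) (𝔭 : Ideal (Pl (n + 1) K))
    [(Ideal.span {P}).IsPrime] [𝔭.IsPrime], MonZ P → P ∈ 𝔭 → MvPolynomial.pderiv 0 P ∉ 𝔭 → rk 𝔭 = a + 1 →
    a + 1 + c = n →
    ∀ (E : Type) [Field E] [Algebra (CR (Ideal.span {P})) E] [IsFractionRing (CR (Ideal.span {P})) E] [Algebra K E]
      [IsScalarTower K (CR (Ideal.span {P})) E]
      (L : Type) [Field L] [Algebra (CR 𝔭) L] [IsFractionRing (CR 𝔭) L] [Algebra K L] [IsScalarTower K (CR 𝔭) L]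
      (δ : Fin n → Derivation K E E), DvZ P E δ →
      ∃ C : ℕ, ∀ (ρ : E →ₐ[K] E) (ρb : L →ₐ[K] L),
      (∀ h v, RsE (Ideal.span {P}) 𝔭 E L h v → RsE (Ideal.span {P}) 𝔭 E L (ρ h) (ρb v)) →
      ∀ e : ℕ, (∀ (A : Fin (c + 1) → Fin n → K) (B : Fin a → Fin n → K),
        Module.finrank (IntermediateField.adjoin K
          (Set.range (lc A fun l : Fin n => toF (Ideal.span {P}) E (MvPolynomial.X l.succ)) ∪
            Set.range (lc B fun l : Fin n => ρ (toF (Ideal.span {P}) E (MvPolynomial.X l.succ))))) E ≤ e) →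
      ∀ (A : Fin a → Fin n → K) (b : Fin n → K),
        Module.finrank (IntermediateField.adjoin K
          (insert (∑ i : Fin n, algebraMap K L (b i) * toF 𝔭 L (MvPolynomial.X i.succ))
            (Set.range (lc A fun l : Fin n => ρb (toF 𝔭 L (MvPolynomial.X l.succ)))))) L ≤ C * e

/-! ## Coordinates and heights -/

/-- (ZCo) Coordinates which are linear forms. PROOF (uses `StmtNN`, `StmtIntA`). `x̄ l = η l.succ`. `StmtNN` with `κ = K`, `F = L`, `x = x̄`: `s, A, W` with `l = lc A x̄` algebraically independent over `K` and `Vd K x̄ k ≤ W * Vd K l k` for all `k`. As in the proof of `StmtUpF` (`agN/Degr/UpF.lean`; it shows that the `x̄ j` are integral over `S = Algebra.adjoin K (Set.range l)`): `x̄ j` is integral over `S`, so `Intx K l (x̄ j)` (`StmtIntA`).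
`L` is algebraic over `K(l)`: `η 0` is integral over `K[x̄]` (`StmtIntA`), so `η i` is integral over `S` for all `i` (`isIntegral_trans`-type), `L = K(η)`: `L` is finite over `K(l)` (`T3SecXIM.fin_of_int`-type or `IntermediateField.finiteDimensional_adjoin`). So `l` is a transcendence basis, `s = a + 1` (`cardinalMk_eq_trdeg`; `subst`; compare `PSecPM.trdeg_simple` in `agP/SecP.lean`). Characteristic `0`: `Field.exists_primitive_element` for `K(l)`, `L`: `L = K(l)(α)`.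
`α` is algebraic over `S` (as over `K(l)`): `exists_integral_multiple`: `d ∈ S`, `d ≠ 0`, `d α` integral over `S` (compare `T3RecXM.den_one` in `T3/RecX.lean`). `ζ = Fin.cons (d * α) l`: `Stp.ai`, `Stp.int` (`StmtIntA`), `Stp.gen`: `K(ζ)` contains `l`, so `d`, so `α`. -/
def StmtZCo : Prop :=
  ∀ (K L : Type) [Field K] [CharZero K] [Field L] [Algebra K L] (n a : ℕ) (η : Fin (n + 1) → L),
    Algebra.trdeg K L = (a + 1 : ℕ) → Intx K (fun l : Fin n => η l.succ) (η 0) →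
    IntermediateField.adjoin K (Set.range η) = ⊤ →
    ∃ (ζ : Fin (a + 2) → L) (A : Fin (a + 1) → Fin n → K), Stp K ζ ∧
      (fun i : Fin (a + 1) => ζ i.succ) = lc A (fun l : Fin n => η l.succ) ∧
      ∀ l : Fin n, Intx K (fun i : Fin (a + 1) => ζ i.succ) (η l.succ)

/-- (HiY) Heights of integral functions. PROOF (uses `StmtVlA`, `StmtHUpB`, `StmtRtX`). Fix `j : Fin r`: `F : Polynomial (Pl q K)` monic, `∑ i, (F.coeff i)(g) * (x j) ^ i = 0` (`Intx`), `d = natDegree F`, `D j` = the largest total degree of the coefficients. As in the proof of `StmtHeZ` (`agP/HeZ.lean`): `c i = aeval gv (F.coeff i)`, `i ≤ d`, `c (last) = 1 ≠ 0`, `∑ i, c i * xv j ^ i = 0`: the function `0 = ∑ i, (F.coeff i)(g) * (x j) ^ i` has the value `∑ i, c i * xv j ^ i` (`StmtVlA` (6) for the family `Fin.cons (x j) g`), uniqueness (`StmtVlA` (1)).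
Axiom `root`: `H ![1, xv j] ≤ H c + C₁`; `StmtHUpB` as in `HeZ.lean`: `H c ≤ D j * H (hcN gv) + C₂`. Sum over `j`: `H (hcN xv) ≤ ∑ j, H ![1, xv j]` (`StmtRtX` (3)). `c = ∑ j, D j + 1` (`H (hcN gv) ≥ 0`: in `HeZ.lean` or `UbZ.lean`). -/
def StmtHiY : Prop :=
  ∀ (K L : Type) [Field K] [Field L] [Algebra K L] (s q r : ℕ) (η : Fin s → L) (g : Fin q → L) (x : Fin r → L),
    (∀ j, Intx K g (x j)) →
    ∃ c : ℕ, 1 ≤ c ∧ ∀ (Ω : Type) [Field Ω] [Algebra K Ω] (h : HtF Ω), ∃ C : ℝ,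
      ∀ (pt : Fin s → Ω) (gv : Fin q → Ω) (xv : Fin r → Ω), OnX K η pt → (∀ i, VlX K η pt (g i) (gv i)) →
        (∀ j, VlX K η pt (x j) (xv j)) → h.H (hcN xv) ≤ c * h.H (hcN gv) + C

/-- (CgY) Change of coordinates. PROOF (uses `StmtVlA`). Every element of `L` is a quotient of polynomials in `η`, and of polynomials in `ζ` (`IntermediateField.mem_adjoin_range_iff`): `ζ i * D_i(η) = N_i(η)`, `D_i(η) ≠ 0`; `w j * D'_j(ζ) = N'_j(ζ)`, `D'_j(ζ) ≠ 0`. `B' = B * ∏ j, D'_j`, `B'(ζ) ≠ 0`, `B'(ζ) * D(η) = N(η)`, `D(η) ≠ 0`, so `N(η) ≠ 0`. `Q = (∏ i, D_i) * D * N`.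
Let `Q(pt) ≠ 0`, `pt' i = N_i(pt) / D_i(pt)`: `VlX K η pt (ζ i) (pt' i)` by definition. `OnX K ζ pt'`: if `G(ζ) = 0` then `0` has at `pt` the value `G(pt')` (`StmtVlA` (6)) and the value `0` (`StmtVlA` (2) for the polynomial `0`): `G(pt') = 0` (uniqueness, `StmtVlA` (1)). `B'(ζ)` has at `pt` the value `N(pt) / D(pt) ≠ 0` and the value `B'(pt')` (`StmtVlA` (6)): `B'(pt') ≠ 0`, so `B(pt') ≠ 0`, `D'_j(pt') ≠ 0`.
Let `VlX K η pt (w j) v`: `w j * D'_j(ζ) = N'_j(ζ)` has at `pt` the values `v * D'_j(pt')` (`StmtVlA` (4), (6)) and `N'_j(pt')`: equal. So `VlX K ζ pt' (w j) v` with `A = N'_j`, `B = D'_j`. -/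
def StmtCgY : Prop :=
  ∀ (K L : Type) [Field K] [Field L] [Algebra K L] (s t q : ℕ) (η : Fin s → L) (ζ : Fin t → L),
    IntermediateField.adjoin K (Set.range η) = ⊤ → IntermediateField.adjoin K (Set.range ζ) = ⊤ →
    ∀ (w : Fin q → L) (B : Pl t K), MvPolynomial.aeval ζ B ≠ 0 →
    ∃ Q : Pl s K, MvPolynomial.aeval η Q ≠ 0 ∧ ∀ (Ω : Type) [Field Ω] [Algebra K Ω] (pt : Fin s → Ω),
      OnX K η pt → MvPolynomial.aeval pt Q ≠ 0 → ∃ pt' : Fin t → Ω, OnX K ζ pt' ∧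
        (∀ i, VlX K η pt (ζ i) (pt' i)) ∧ MvPolynomial.aeval pt' B ≠ 0 ∧
        ∀ (j : Fin q) (v : Ω), VlX K η pt (w j) v → VlX K ζ pt' (w j) v

/-! ## Sections on `Z` -/

/-- (SecY) The sections on `Z`. PROOF (uses `StmtUzZ`, `StmtLbP`, `StmtNumP`, `StmtSubX`, `StmtIntA`, `StmtStpF`). Edit `PSecPM.main` in `agP/SecP.lean` (import it, all lemmas of `PSecPM` are reused): `A`, `l` disappear (`l : Fin 0 → E` the empty family, `p = 0`), `w = z'` (`B` the identity matrix: `lc (fun i j => if i = j then 1 else 0) z' = z'`). `x = g = fun i => ζ i.succ`, `T = Tu K u' x` is transcendental (`tr_T`), `κ = K(T)`, `trdeg κ E = a` (`trdeg_simple`; `trdeg K E = a + 1`: `T3SecXIM.trdeg_eq`).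
`E` is finite over `K(z')`, `z'` is algebraically independent and has `a + 1 = trdeg K E` elements: a transcendence basis, `E` is algebraic over `K(z')` and generated by `ζ` (`T3SecXIM.fin_of_int`; or `StmtStpF`, `StmtTB`-type). `D = [E : K(z')] ≥ 1`; `t : Fin D → Pl (a + 2) K`, `θ_k = aeval ζ (t k)` linearly independent over `K(z')` (`exists_t`), `c` = the largest total degree of the `t k`.
UPPER BOUND: `StmtUzZ` for `κ`, `y = z'`, `W₀` = the `κ`-span of `θ`, `c := a`, `e := e'` (`κ(lc B z') = K(T, lc B z')`: `T3SecXIM.finrank_two`; the hypothesis; `E` is finite over `κ(z')`): `C` with `finrank κ (W₀ * Vd κ z' j) ≤ e' * cnt a (j + C)`; so the same for `VV κ θ l w (z₀ ^ j) 0 j` (`rank_VV`; `Vd κ l 0 = 1` for the empty family, or state `VV` without the factor `Vd κ l p`).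
LOWER BOUND: `finrank_W` with `a = 0`: `finrank K (span (range Phi)) = cnt 0 0 * (cnt (a + 1) j * D) = cnt (a + 1) j * D` (`cnt 0 p = 1`). NUMBERS: `j = 4 (a + 1) e' i`; `StmtNumP` for `(a, b, e₁, e₂, C, c₀) := (0, a, 1, e', C, 0)`: `i * (e' * cnt 1 (p + C) * cnt a (j + C)) < cnt 1 p * cnt (a + 1) j ≤ cnt 1 (p + C) * cnt (a + 1) j` for large `i` (`p = 4 i`), so `i * (e' * cnt a (j + C)) < cnt (a + 1) j` (divide by `cnt 1 (p + C) > 0`).
So `D * i * finrank V < finrank W`, `StmtSubX` and the end of the proof as in `SecP.lean`: the coefficients of `G` have degree `≤ c` (`Sc_Phi` with `p' = 0`, `p = c`). -/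
def StmtSecY : Prop :=
  ∀ (K E : Type) [Field K] [CharZero K] [Field E] [Algebra K E] (a : ℕ) (ζ : Fin (a + 2) → E), Stp K ζ →
    ∀ (z' : Fin (a + 1) → E), AlgebraicIndependent K z' → ∀ Z₀ : Pl (a + 1) K, Z₀ ≠ 0 →
    (∀ i : Fin (a + 1), Intx K (fun i : Fin (a + 1) => ζ i.succ)
      (MvPolynomial.aeval (fun i : Fin (a + 1) => ζ i.succ) Z₀ * z' i)) →
    ∀ (u' : K) (e' : ℕ), u' ≠ 0 → 1 ≤ e' →
    (∀ B : Fin a → Fin (a + 1) → K, Module.finrank (IntermediateField.adjoin K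
      (insert (Tu K u' (fun i : Fin (a + 1) => ζ i.succ)) (Set.range (lc B z')))) E ≤ e') →
    1 ≤ Module.finrank (IntermediateField.adjoin K (Set.range z')) E ∧
    ∃ c i₀ : ℕ, ∀ i, i₀ ≤ i → SctP K ζ (Tu K u' (fun i : Fin (a + 1) => ζ i.succ)) z' Z₀ c
      (4 * (a + 1) * e' * i) (Module.finrank (IntermediateField.adjoin K (Set.range z')) E * i)

/-- (SiuZ) The height inequality on `Z`. PROOF (uses `StmtZCo`, `StmtSecY`, `StmtHtP`, `StmtHiY`, `StmtCgY`, `StmtCzX`, `StmtVlA`; landed: `StmtTB`, `StmtCuG`, `T3RecXM.den_one` / `PRecPM.den_all` in `agP/RecP.lean`). `η i = toF 𝔭 L (X i)`, `K(η) = ⊤` (`StmtCuG` (1)); `trdeg K L = a + 1` (`StmtTB` (3), (1), (2)); `η 0` is integral over `K[x̄]`: the monic polynomial `finSuccEquiv K n P` at `x̄` (`MonZ P`, `P ∈ 𝔭`; compare `T3/GenS.lean`, `Stp.int`). `ζ, A` from `StmtZCo`, `g = fun i => ζ i.succ = lc A x̄`. `c₁` from `StmtCzX` for `ζ`, `c₂` from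 `StmtHiY` for `η`, `g`, `x := x̄`. `c = 8 (a + 1) c₂`.
Given `τ, e'`: `z' i = τ (g i)`, algebraically independent (`τ` is injective). `Z₀` from `den_all`. `e₀ = [L : K(z')]`. `StmtSecY` for every `u' ≠ 0`: `Tu K u' g = 1 + ∑ i, u' ^ (i+1) * g i = 1 + ∑ l, b l * x̄ l` with `b l = ∑ i, u' ^ (i+1) * A i l` (`PSecPM.tu_eq`), and `lc B z' = lc (B A) (τ x̄)` (`PSecPM.lc_lc`), so `K(Tu, lc B z') = K(∑ b x̄, lc (B A) (τ x̄))` (`1 ∈ K`): the degree is `≤ e'` by hypothesis. So for `u' ≠ 0`: `SctP K ζ (Tu K u' g) z' Z₀ c₀ (4 (a+1) e' i) (e₀ i)` for `i ≥ i₀`.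
`lam = 4 c₁`. `SctP` is monotone in `P`. So `SctP … (1 * i) (4 (a+1) e' lam * i) (e₀ lam * i)` for `i ≥ max c₀ i₀`. `StmtHtP` for `ζ`, `n := a + 1`, `P₁ = 1`, `j₁ = 4 (a+1) e' lam`, `q₁ = e₀ lam` (the exceptions are contained in `{0}`): `B`. `StmtCgY` for `η`, `ζ`, `w = z'`, `B`: `Q`, `Q ∉ 𝔭` as `aeval η Q = toF 𝔭 L Q ≠ 0`. Let `pt, pt'` be given; `OnX K η pt` as `aeval η G = toF 𝔭 L G = 0` means `G ∈ 𝔭`. `pt₂` from `StmtCgY`,
`gv i = pt₂ i.succ` (the value of `g i = ζ i.succ` at `pt₂`: `StmtVlA` (2) for `X i.succ`), `zv i = ∑ j, A i j * pt' j.succ`: the value of `z' i = ∑ j, A i j * τ (x̄ j)` at `pt` (`StmtVlA` (6) for the linear polynomial), so at `pt₂`. `StmtHtP`: `e₀ lam H(hcN gv) ≤ 2 H(hcN pt₂) + 4 (a+1) e' lam H(hcN zv) + C`, `StmtCzX`: `H(hcN pt₂) ≤ c₁ H(hcN gv) + C'` (`hx h pt₂ = H(hcN gv)`), `2 c₁ ≤ e₀ lam / 2`: `e₀ H(hcN gv) ≤ 8 (a+1) e' H(hcN zv) + C''`.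
`StmtHiY`: `hx h pt = H (hcN (pt ∘ succ)) ≤ c₂ H(hcN gv) + C` (the values of `x̄ l` at `pt` are `pt l.succ`, of `g i = ζ i.succ` at `pt`: `pt₂ i.succ`). Axiom `lin`: `H(hcN zv) ≤ H(hcN (pt' ∘ succ)) + C = hx h pt' + C`. `[L : τ L] ≤ e₀`: `K(z') ≤ τ.fieldRange`, `e₀ = [L : τ L] * [τ L : K(z')]`, `e₀ ≥ 1` (`StmtSecY` for `u' = 1`; compare `T3/E0X.lean`, `IntermediateField.finrank_le_of_le`-type lemmas or `Module.finrank_mul_finrank`). Together:
`[L : τ L] hx h pt ≤ e₀ (c₂ H(hcN gv) + C) ≤ 8 (a+1) c₂ e' hx h pt' + C'''` (all constants independent of `pt, pt'`; heights are nonnegative). -/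
def StmtSiuZ : Prop :=
  ∀ (K : Type) [Field K] [CharZero K] (n a : ℕ) (P : Pl (n + 1) K) (𝔭 : Ideal (Pl (n + 1) K)) [𝔭.IsPrime], MonZ P →
    P ∈ 𝔭 → rk 𝔭 = a + 1 →
    ∀ (L : Type) [Field L] [Algebra (CR 𝔭) L] [IsFractionRing (CR 𝔭) L] [Algebra K L] [IsScalarTower K (CR 𝔭) L],
      ∃ c : ℕ, ∀ (τ : L →ₐ[K] L) (e' : ℕ), 1 ≤ e' →
      (∀ (A : Fin a → Fin n → K) (b : Fin n → K), Module.finrank (IntermediateField.adjoin K
        (insert (∑ i : Fin n, algebraMap K L (b i) * toF 𝔭 L (MvPolynomial.X i.succ))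
          (Set.range (lc A fun l : Fin n => τ (toF 𝔭 L (MvPolynomial.X l.succ)))))) L ≤ e') →
      ∃ Q : Pl (n + 1) K, Q ∉ 𝔭 ∧ ∀ (Ω : Type) [Field Ω] [Algebra K Ω] (h : HtF Ω), ∃ C : ℝ,
        ∀ pt pt' : Fin (n + 1) → Ω, (∀ G ∈ 𝔭, MvPolynomial.aeval pt G = 0) → MvPolynomial.aeval pt Q ≠ 0 →
          (∀ i : Fin n, VlX K (fun i => toF 𝔭 L (MvPolynomial.X i)) pt (τ (toF 𝔭 L (MvPolynomial.X i.succ)))
            (pt' i.succ)) →
          (Module.finrank τ.fieldRange L : ℝ) * hx h pt ≤ c * e' * hx h pt' + C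

/-! ## The end -/

/-- (GdB) Good times in the past. PROOF (uses `StmtVlA`, `StmtFlV`, `StmtGdZ`). Suppose `Q(z (-(m j))) = 0` for all `j ≥ j₀`. `I j = {G | G(z (-(m i))) = 0 for all i ≥ j}`, an ideal, `I j ≤ I (j+1)`; `Pl n K` is Noetherian: `I j = I J` for all `j ≥ J` (`monotone_stabilizes_iff_noetherian`), and we may take `J ≥ j₀`, so `Q ∈ I J`. VALUES: `FlowZ` with `s`: for all `t : ℤ` and `m : ℕ` the function `(ρb ^ m) (G(η)) = G(ρb ^ m η)` has at `z t` the value `G(z (t + m))`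
(`StmtFlV` for the flow `t' ↦ z (t' - s)` at a time `t'` with `t' - s = t`, e.g. `t = t' - s` with `s = t.natAbs`; `StmtVlA` (6)). CLAIM by induction on `k : ℕ`: `G(z (m k - m J)) = 0` for all `G ∈ I J`. `k = 0`: `i = J`. Step: let `G ∈ I J`, `h = (ρb ^ m) (G(η))`; at the point `z (m k - m J)`: `h * B(η) = A(η)`, `B(z (m k - m J)) ≠ 0`, `A(z (m k - m J)) = v * B(z (m k - m J))`, `v = G(z (m (k+1) - m J))`. For `i ≥ J + 1`: `A(η) = h * B(η)` has at `z (-(m i))` the value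
`G(z (-(m (i-1)))) * B(z (-(m i))) = 0` (`StmtVlA` (4), (2); `i - 1 ≥ J`) and the value `A(z (-(m i)))`: so `A ∈ I (J+1) = I J`, by the induction hypothesis `A(z (m k - m J)) = 0`, `v = 0`. So `Q(z (m k - m J)) = 0` for all `k`, in particular (`k = J + t`) `Q(z (m t)) = 0` for all `t : ℕ`: a contradiction to `StmtGdZ` for `t ↦ z t`, `j₀ = 0`. -/
def StmtGdB : Prop :=
  ∀ (K Ω L : Type) [Field K] [Field Ω] [Field L] [Algebra K Ω] [Algebra K L] (n : ℕ) (η : Fin n → L)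
    (ρb : L →ₐ[K] L) (z : ℤ → Fin n → Ω), FlowZ K η ρb z →
    (∀ G : Pl n K, (∀ t : ℕ, MvPolynomial.aeval (z (t : ℤ)) G = 0) → MvPolynomial.aeval η G = 0) →
    ∀ Q : Pl n K, MvPolynomial.aeval η Q ≠ 0 → ∀ m : ℕ, 1 ≤ m → ∀ j₀ : ℕ,
      ∃ j : ℕ, j₀ ≤ j ∧ MvPolynomial.aeval (z (-((m * j : ℕ) : ℤ))) Q ≠ 0

/-- (EndB) PROOF of `StmtEndB` (`Defs.lean`; model: `agP/EndP.lean`). `a + 1 = rk 𝔭`, `n = a + 1 + c`, `c ≥ 2`. `δ` from `StmtDvE`. `C_Z` from `StmtDgY`, `c_S` from `StmtSiuZ`, `C₁` from the growth hypothesis for `p = a` (`a + 3 ≤ n`, `n - a = c + 1`; generalize), without loss of generality `C₁ ≥ 0`. `y t = z (M t)`. `StmtNmZ` for `h := fun t : ℕ => hx h (z (-t))`, `Λ := Λ / T ≥ 1`, `C₀ = c_S (C_Z C₁ + 1)`.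
Given `k ≥ 1`: `N = M * (m * k)`, `ρ' = ρ ^ N = (ρ ^ M) ^ (m * k)`, `τ = ρb ^ (m * k)`: compatible by `StmtRsR` (`Rst (σ ^ M) 𝔮 E (ρ ^ M)`: `StmtG1` (3)). `e = ⌊C₁ Λ ^ N⌋₊`; `StmtDgY`: all the degrees `[L : K(∑ b x̄, lc A (τ x̄))] ≤ C_Z e ≤ e' = C_Z e + 1`. `e' ≤ (C_Z C₁ + 1) Λ ^ N` (`Λ ≥ T ≥ 1`). `StmtSiuZ` for `τ`, `e'`: `Q`, `C'`. `[L : τ L] = [L : ρb L] ^ (m k) ≥ (T ^ M) ^ (m k) = T ^ N` (`E0XM.finrank_pow`-type lemma in `T3/E0X.lean`, as in `agP/FastP.lean`).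
`StmtGdB` for `y`, `Q`, `m`: for every `j₀` there is `j' ≥ j₀ + k` with `Q(y (-(m j'))) ≠ 0`; `j = j' - k`, `pt = y (-(m j')) = y (-(m j + m k))`, `pt' = y (-(m j))`; `𝔭` vanishes at `pt` (`OnX`), the values of `τ (η i)` at `pt` are `pt' i` (`StmtFlV` for the flow `t ↦ y (t - (m j + m k))` at `t = 0`). So `T ^ N hx h pt ≤ [L : τ L] hx h pt ≤ c_S e' hx h pt' + C'`, divide by `T ^ N ≥ 1`: `hx h pt ≤ C₀ (Λ / T) ^ N hx h pt' + |C'|`
(`pt = z (-(M (m j + m k)))`, `pt' = z (-(M (m j)))`; `hx ≥ 0`). -/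
def StmtEndB' : Prop :=
  StmtDvE → StmtRsR → StmtG1 → StmtDgY → StmtSiuZ → StmtGdB → StmtNmZ → StmtFlV → StmtEndB

end Pool.Agent.Lib.MP_16285c_agX
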