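import Pool.Agent.Lib.MP_16285c_agB.SpecA

/-!
ZDB, module TayH: the Taylor homomorphism.
-/

set_option autoImplicit false

namespace Pool.Agent.Lib.MP_16285c_agX

namespace QTayHM

/-- An element whose image under a homomorphism with nilpotent kernel is nonzero is a unit. -/
theorem isUnit_of_ne {F A : Type} [Field F] [CommRing A] [Algebra F A] (ε : A →ₐ[F] F)
    (hε : IsNilpotent (RingHom.ker ε)) (u : A) (hu : ε u ≠ 0) : IsUnit u := by
  obtain ⟨m, hm⟩ := hε
  have h1 : u * algebraMap F A (ε u)⁻¹ - 1 ∈ RingHom.ker ε := by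
    rw [RingHom.mem_ker, map_sub, map_mul, map_one, AlgHom.commutes]
    show ε u * (ε u)⁻¹ - 1 = 0
    rw [mul_inv_cancel₀ hu, sub_self]
  have h2 : IsNilpotent (u * algebraMap F A (ε u)⁻¹ - 1) := by
    refine ⟨m, ?_⟩
    have h3 := Ideal.pow_mem_pow h1 m
    rw [hm] at h3
    simpa using h3
  have h4 := h2.isUnit_one_add
  rw [add_sub_cancel] at h4
  exact isUnit_of_mul_isUnit_left h4

/-- The homomorphism on the subfield generated by algebraically independent elements. -/
theorem exists_base (K E F A : Type) [Field K] [Field E] [Field F] [CommRing A] [Algebra K E] [Algebra K F]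
    [Algebra F A] [Algebra K A] [IsScalarTower K F A] (n : ℕ) (x : Fin n → E)
    (hx : AlgebraicIndependent K x) (σ : E →ₐ[K] F) (ε : A →ₐ[F] F) (hε : IsNilpotent (RingHom.ker ε))
    (a : Fin n → A) (ha : ∀ i, ε (a i) = σ (x i)) :
    ∃ φ : IntermediateField.adjoin K (Set.range x) →ₐ[K] A,
      (∀ (i : Fin n) (h : x i ∈ IntermediateField.adjoin K (Set.range x)), φ ⟨x i, h⟩ = a i) ∧
      ∀ c, ε (φ c) = σ (c : E) := by
  have h1 : (ε.restrictScalars K).comp (MvPolynomial.aeval a) = σ.comp (MvPolynomial.aeval x) := by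
    apply MvPolynomial.algHom_ext
    intro i
    simp [ha i]
  have h2 : ∀ G : MvPolynomial (Fin n) K, ε (MvPolynomial.aeval a G) = σ (MvPolynomial.aeval x G) := fun G =>
    DFunLike.congr_fun h1 G
  have h3 : ∀ y : nonZeroDivisors (MvPolynomial (Fin n) K),
      IsUnit ((MvPolynomial.aeval a : MvPolynomial (Fin n) K →ₐ[K] A) (y : MvPolynomial (Fin n) K)) := by
    intro y
    apply isUnit_of_ne ε hε
    rw [h2]
    intro h0
    have h5 : (MvPolynomial.aeval x : MvPolynomial (Fin n) K →ₐ[K] E) y = 0 :=
      (map_eq_zero σ).1 h0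
    have h6 : (y : MvPolynomial (Fin n) K) = 0 := hx (h5.trans (map_zero _).symm)
    exact nonZeroDivisors.coe_ne_zero y h6
  let ψ : FractionRing (MvPolynomial (Fin n) K) →ₐ[K] A :=
    IsLocalization.liftAlgHom (M := nonZeroDivisors (MvPolynomial (Fin n) K)) h3
  have hψ : ∀ G : MvPolynomial (Fin n) K, ψ (algebraMap _ _ G) = MvPolynomial.aeval a G := by
    intro G
    exact IsLocalization.lift_eq _ _
  have hg : ∀ i : Fin n, hx.aevalEquivField (algebraMap (MvPolynomial (Fin n) K)
      (FractionRing (MvPolynomial (Fin n) K)) (MvPolynomial.X i)) =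
      (⟨x i, IntermediateField.subset_adjoin K _ ⟨i, rfl⟩⟩ : IntermediateField.adjoin K (Set.range x)) := by
    intro i
    apply Subtype.ext
    rw [hx.aevalEquivField_algebraMap_apply_coe]
    simp
  refine ⟨ψ.comp hx.aevalEquivField.symm.toAlgHom, ?_, ?_⟩
  · intro i h
    show ψ (hx.aevalEquivField.symm ⟨x i, h⟩) = a i
    rw [← hg i, AlgEquiv.symm_apply_apply, hψ]
    simp
  · intro c
    obtain ⟨d, rfl⟩ := hx.aevalEquivField.surjective c
    show ε (ψ (hx.aevalEquivField.symm (hx.aevalEquivField d))) = _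
    rw [AlgEquiv.symm_apply_apply]
    have h7 : (ε.restrictScalars K).comp ψ =
        (σ.comp (IntermediateField.adjoin K (Set.range x)).val).comp hx.aevalEquivField.toAlgHom := by
      apply IsLocalization.algHom_ext (nonZeroDivisors (MvPolynomial (Fin n) K))
      apply MvPolynomial.algHom_ext
      intro i
      show ε (ψ (algebraMap (MvPolynomial (Fin n) K) (FractionRing (MvPolynomial (Fin n) K)) (MvPolynomial.X i))) =
        σ ((hx.aevalEquivField (algebraMap (MvPolynomial (Fin n) K) (FractionRing (MvPolynomial (Fin n) K))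
          (MvPolynomial.X i)) : IntermediateField.adjoin K (Set.range x)) : E)
      rw [hψ, hg i]
      simp [ha i]
    exact DFunLike.congr_fun h7 d

end QTayHM

open QTayHM

theorem qTayH : StmtTayH := by
  intro K E F A _ _ _ _ _ _ _ _ _ _ n x hx hfin σ ε hε a ha
  obtain ⟨φ, h1, h2⟩ := exists_base K E F A n x hx σ ε hε a ha
  let i1 : Algebra (IntermediateField.adjoin K (Set.range x)) A := φ.toRingHom.toAlgebra
  let i2 : Algebra (IntermediateField.adjoin K (Set.range x)) F :=
    (σ.toRingHom.comp (algebraMap (IntermediateField.adjoin K (Set.range x)) E)).toAlgebra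
  let f : E →ₐ[IntermediateField.adjoin K (Set.range x)] F :=
    { σ.toRingHom with commutes' := fun c => rfl }
  let g : A →ₐ[IntermediateField.adjoin K (Set.range x)] F :=
    { ε.toRingHom with commutes' := fun c => h2 c }
  have hfe : Algebra.FormallyEtale (IntermediateField.adjoin K (Set.range x)) E :=
    Algebra.FormallyEtale.of_isSeparable _ _
  have hfs : Algebra.FormallySmooth (IntermediateField.adjoin K (Set.range x)) E := inferInstance
  have hs : Function.Surjective g := by
    intro c
    refine ⟨algebraMap F A c, ?_⟩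
    show ε (algebraMap F A c) = c
    rw [AlgHom.commutes]
    rfl
  have hk : IsNilpotent (RingHom.ker (g : A →+* F)) := hε
  let Φ := Algebra.FormallySmooth.liftOfSurjective f g hs hk
  have hΦ : ∀ c : IntermediateField.adjoin K (Set.range x), Φ (c : E) = φ c := fun c => Φ.commutes c
  refine ⟨{ Φ.toRingHom with
    commutes' := fun c => ?_ }, ?_, ?_⟩
  · show Φ (algebraMap K E c) = algebraMap K A c
    have h3 := hΦ (algebraMap K (IntermediateField.adjoin K (Set.range x)) c)
    rw [AlgHom.commutes] at h3
    exact h3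
  · intro i
    have h4 := hΦ ⟨x i, IntermediateField.subset_adjoin K _ ⟨i, rfl⟩⟩
    rw [h1] at h4
    exact h4
  · intro h
    exact Algebra.FormallySmooth.liftOfSurjective_apply f g hs hk h

end Pool.Agent.Lib.MP_16285c_agX
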